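import Pool.Agent.H85.FA.Chain

/-!
# MP_273d7a_al, module I : the free alternative algebra and the assembly
-/

set_option linter.unusedSectionVars false

namespace H85.FA

universe u

/-- the ideal of the free nonassociative algebra `F{x₀,x₁,…}` generated by all `(x,x,y)` and
`(y,x,x)` -/
noncomputable def altIdeal (F : Type u) [Field F] : Submodule F (FreeNonUnitalNonAssocAlgebra F ℕ) :=
  sInf {I | IsIdeal I ∧ ∀ x y : FreeNonUnitalNonAssocAlgebra F ℕ,
    associator x x y ∈ I ∧ associator y x x ∈ I}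

theorem altIdeal_isIdeal (F : Type u) [Field F] : IsIdeal (altIdeal F) := by
  intro i hi a
  unfold altIdeal at hi ⊢
  rw [Submodule.mem_sInf] at hi
  refine ⟨Submodule.mem_sInf.2 fun I hI => ?_, Submodule.mem_sInf.2 fun I hI => ?_⟩
  · exact (hI.1 i (hi I hI) a).1
  · exact (hI.1 i (hi I hI) a).2

theorem altIdeal_left (F : Type u) [Field F] (x y : FreeNonUnitalNonAssocAlgebra F ℕ) :
    associator x x y ∈ altIdeal F :=
  Submodule.mem_sInf.2 fun _ hI => (hI.2 x y).1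

theorem altIdeal_right (F : Type u) [Field F] (x y : FreeNonUnitalNonAssocAlgebra F ℕ) :
    associator y x x ∈ altIdeal F :=
  Submodule.mem_sInf.2 fun _ hI => (hI.2 x y).2

/-- multiplicative linear maps factor through quotient algebras -/
theorem QAlg.lift_exists {F : Type u} [Field F] {A : Type u} [NonUnitalNonAssocRing A] [Module F A]
    [IsScalarTower F A A] [SMulCommClass F A A] (K : Submodule F A) (hK : IsIdeal K)
    {E : Type u} [NonUnitalNonAssocRing E] [Module F E] (Φ : A →ₗ[F] E)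
    (hΦ : ∀ x y, Φ (x * y) = Φ x * Φ y) (hk : ∀ a ∈ K, Φ a = 0) :
    ∃ φ : QAlg K hK →ₗ[F] E, (∀ x y, φ (x * y) = φ x * φ y) ∧
      ∀ a, φ (QAlg.mk K hK a) = Φ a := by
  have wd : ∀ a b : A, QAlg.mk K hK a = QAlg.mk K hK b → Φ a = Φ b := by
    intro a b h
    have h1 := hk _ ((QAlg.mk_eq K hK).1 h)
    rwa [map_sub, sub_eq_zero] at h1
  have hs : ∀ x, QAlg.mk K hK (Function.surjInv (QAlg.mk_surj K hK) x) = x :=
    Function.surjInv_eq (QAlg.mk_surj K hK)
  have hmk : ∀ a, Φ (Function.surjInv (QAlg.mk_surj K hK) (QAlg.mk K hK a)) = Φ a :=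
    fun a => wd _ _ (hs _)
  refine ⟨{ toFun := fun x => Φ (Function.surjInv (QAlg.mk_surj K hK) x)
            map_add' := ?_
            map_smul' := ?_ }, ?_, hmk⟩
  · intro x y
    obtain ⟨a, rfl⟩ := QAlg.mk_surj K hK x
    obtain ⟨b, rfl⟩ := QAlg.mk_surj K hK y
    rw [← map_add, hmk, hmk, hmk, map_add]
  · intro c x
    obtain ⟨a, rfl⟩ := QAlg.mk_surj K hK x
    rw [← map_smul, hmk, hmk, map_smul, RingHom.id_apply]
  · intro x y
    obtain ⟨a, rfl⟩ := QAlg.mk_surj K hK x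
    obtain ⟨b, rfl⟩ := QAlg.mk_surj K hK y
    rw [← QAlg.mk_mul]
    change Φ (Function.surjInv (QAlg.mk_surj K hK) (QAlg.mk K hK (a * b))) =
      Φ (Function.surjInv (QAlg.mk_surj K hK) (QAlg.mk K hK a)) *
      Φ (Function.surjInv (QAlg.mk_surj K hK) (QAlg.mk K hK b))
    rw [hmk, hmk, hmk, hΦ]

/-- the free alternative algebra over `F` on `x₀, x₁, …` -/
noncomputable def FreeAlt (F : Type u) [Field F] : Type u := QAlg (altIdeal F) (altIdeal_isIdeal F)

section
variable (F : Type u) [Field F]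

noncomputable instance : NonUnitalNonAssocRing (FreeAlt F) :=
  inferInstanceAs (NonUnitalNonAssocRing (QAlg (altIdeal F) (altIdeal_isIdeal F)))
noncomputable instance : Module F (FreeAlt F) :=
  inferInstanceAs (Module F (QAlg (altIdeal F) (altIdeal_isIdeal F)))
instance : IsScalarTower F (FreeAlt F) (FreeAlt F) :=
  inferInstanceAs (IsScalarTower F (QAlg (altIdeal F) (altIdeal_isIdeal F))
    (QAlg (altIdeal F) (altIdeal_isIdeal F)))
instance : SMulCommClass F (FreeAlt F) (FreeAlt F) :=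
  inferInstanceAs (SMulCommClass F (QAlg (altIdeal F) (altIdeal_isIdeal F))
    (QAlg (altIdeal F) (altIdeal_isIdeal F)))

theorem FreeAlt.isAlt : IsAlt (FreeAlt F) := by
  change IsAlt (QAlg (altIdeal F) (altIdeal_isIdeal F))
  constructor
  · intro x y
    obtain ⟨a, rfl⟩ := QAlg.mk_surj _ _ x
    obtain ⟨b, rfl⟩ := QAlg.mk_surj _ _ y
    rw [← QAlg.mk_assoc, QAlg.mk_eq_zero]
    exact altIdeal_left F a b
  · intro x y
    obtain ⟨a, rfl⟩ := QAlg.mk_surj _ _ x
    obtain ⟨b, rfl⟩ := QAlg.mk_surj _ _ y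
    rw [← QAlg.mk_assoc, QAlg.mk_eq_zero]
    exact altIdeal_right F a b

/-- the free generators -/
noncomputable def FreeAlt.gen (i : ℕ) : FreeAlt F :=
  QAlg.mk (altIdeal F) (altIdeal_isIdeal F) (FreeNonUnitalNonAssocAlgebra.of F i)

/-- universal property (existence part): `FreeNonUnitalNonAssocAlgebra.lift`; the kernel of the
lift is an ideal containing all `(x,x,y)`, `(y,x,x)`, hence contains `altIdeal F`. -/
theorem FreeAlt.lift_exists {E : Type u} [NonUnitalNonAssocRing E] [Module F E]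
    [IsScalarTower F E E] [SMulCommClass F E E] (hE : IsAlt E) (f : ℕ → E) :
    ∃ φ : FreeAlt F →ₗ[F] E, (∀ x y, φ (x * y) = φ x * φ y) ∧
      ∀ i, φ (FreeAlt.gen F i) = f i := by
  let L : FreeNonUnitalNonAssocAlgebra F ℕ →ₙₐ[F] E := FreeNonUnitalNonAssocAlgebra.lift F f
  let Φ : FreeNonUnitalNonAssocAlgebra F ℕ →ₗ[F] E :=
    { toFun := fun x => L x
      map_add' := fun x y => map_add L x y
      map_smul' := fun c x => map_smul L c x }
  have hΦ : ∀ x y, Φ (x * y) = Φ x * Φ y := fun x y => map_mul L x y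
  have hass : ∀ x y z, Φ (associator x y z) = associator (Φ x) (Φ y) (Φ z) := by
    intro x y z
    simp only [associator, map_sub, hΦ]
  have hk : ∀ a ∈ altIdeal F, Φ a = 0 := by
    intro a ha
    have h1 : altIdeal F ≤ LinearMap.ker Φ := by
      refine sInf_le ⟨?_, ?_⟩
      · intro i hi a
        rw [LinearMap.mem_ker] at hi
        rw [LinearMap.mem_ker, LinearMap.mem_ker, hΦ, hΦ, hi, mul_zero, zero_mul]
        exact ⟨rfl, rfl⟩
      · intro x y
        rw [LinearMap.mem_ker, LinearMap.mem_ker, hass, hass]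
        exact ⟨hE.1 _ _, hE.2 _ _⟩
    exact LinearMap.mem_ker.1 (h1 ha)
  obtain ⟨φ, h1, h2⟩ := QAlg.lift_exists (altIdeal F) (altIdeal_isIdeal F) Φ hΦ hk
  refine ⟨φ, h1, fun i => ?_⟩
  have h3 := h2 (FreeNonUnitalNonAssocAlgebra.of F i)
  refine h3.trans ?_
  exact FreeNonUnitalNonAssocAlgebra.lift_of_apply F f i

end

/-- existence of a model in which some `[c(r;a),b]` is not nuclear -/
def HasModel (F : Type u) [Field F] (P : List (ℤ × ℕ × ℕ × ℕ × ℕ × ℕ)) : Prop :=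
  ∃ (E : Type u) (_ : NonUnitalNonAssocRing E) (_ : Module F E) (_ : IsScalarTower F E E)
    (_ : SMulCommClass F E E), IsAlt E ∧ (∀ t ∈ P, t.2.1 < 5 ∧ t.2.2.1 < 5 ∧ t.2.2.2.1 < 5 ∧
      t.2.2.2.2.1 < 5 ∧ t.2.2.2.2.2 < 5) ∧
    ∃ (r : ℕ → E) (a b s t : E), associator (cm (ccL P r a) b) s t ≠ 0

/-- assembly: take `I = I1 F (FreeAlt F)`.  If `I ⊆ N`, then by `reduction` `[c(x₀..x₄;x₅),x₆]` is
nuclear in `FreeAlt F`; map `x_i ↦ r i` (i < 5), `x₅ ↦ a`, `x₆ ↦ b`, `x₇ ↦ s`, `x₈ ↦ t` to the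
model: `associator [c,x₆] x₇ x₈ = 0` is mapped to `associator (cm (ccL P r a) b) s t = 0`. -/
theorem assembly (F : Type u) [Field F] (h2 : (2 : F) ≠ 0) (h3 : (3 : F) ≠ 0)
    (P : List (ℤ × ℕ × ℕ × ℕ × ℕ × ℕ)) (hQ1b : Q1b.{u, u} F) (hQ2 : Q2.{u, u} F P)
    (hM : HasModel F P) :
    ∃ I : Submodule F (FreeAlt F), IsIdeal I ∧ (∀ x ∈ I, ∀ y ∈ I, x * y = 0) ∧
      (∀ δ : FreeAlt F →ₗ[F] FreeAlt F, (∀ x y, δ (x * y) = δ x * y + x * δ y) →
        ∀ x ∈ I, δ x ∈ I) ∧
      ¬ ∀ x ∈ I, InNuc x := by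
  refine ⟨I1 F (FreeAlt F), I1_isIdeal (FreeAlt.isAlt F), fun x hx y hy => I1_trivial hx hy,
    fun δ hδ x hx => I1_der δ hδ hx, fun hI => ?_⟩
  obtain ⟨E, iR, iM, iS, iC, hE, hP, r, a, b, s, t, hne⟩ := hM
  have hred := reduction h2 h3 P hQ1b hQ2 (FreeAlt.isAlt F) hI (FreeAlt.gen F) (FreeAlt.gen F 5)
    (FreeAlt.gen F 6)
  obtain ⟨φ, hφ, hφg⟩ := FreeAlt.lift_exists F hE (fun i => if i < 5 then r i else
    if i = 5 then a else if i = 6 then b else if i = 7 then s else t)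
  have hass : ∀ x y z, φ (associator x y z) = associator (φ x) (φ y) (φ z) := by
    intro x y z
    simp only [associator, map_sub, hφ]
  have hcm : ∀ x y, φ (cm x y) = cm (φ x) (φ y) := by
    intro x y
    simp only [cm, map_sub, hφ]
  have hjr : ∀ x y, φ (jr x y) = jr (φ x) (φ y) := by
    intro x y
    simp only [jr, map_add, hφ]
  have hg5 : φ (FreeAlt.gen F 5) = a := by rw [hφg]; simp
  have hg6 : φ (FreeAlt.gen F 6) = b := by rw [hφg]; simp
  have hg7 : φ (FreeAlt.gen F 7) = s := by rw [hφg]; simp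
  have hg8 : φ (FreeAlt.gen F 8) = t := by rw [hφg]; simp
  have hgr : ∀ i, i < 5 → φ (FreeAlt.gen F i) = r i := by
    intro i hi
    rw [hφg]
    exact if_pos hi
  have hcc : φ (ccL P (FreeAlt.gen F) (FreeAlt.gen F 5)) = ccL P r a := by
    unfold ccL
    rw [map_list_sum, List.map_map]
    congr 1
    refine List.map_congr_left (fun u hu => ?_)
    obtain ⟨p1, p2, p3, p4, p5⟩ := hP u hu
    simp only [Function.comp_apply]
    rw [map_zsmul, hjr, hass, hass, hg5, hgr _ p1, hgr _ p2, hgr _ p3, hgr _ p4, hgr _ p5]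
  apply hne
  rw [← hcc, ← hg6, ← hg7, ← hg8, ← hcm, ← hass, (hred _ _).1, map_zero]

end H85.FA
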