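import Pool.Agent.H85.FA.Chain

/-!
# MP_273d7a_al : the element `c(r₀,…,r₄;a) = Σ ± (r_i,r_j,r_k)∘(a,r_l,r_m)` (10 shuffles)
-/

namespace H85.FA

/-- the ten `(3,2)`-shuffles of `0,…,4` with their signs -/
def P10 : List (ℤ × ℕ × ℕ × ℕ × ℕ × ℕ) :=
  [(1, 0, 1, 2, 3, 4), (-1, 0, 1, 3, 2, 4), (1, 0, 1, 4, 2, 3), (1, 0, 2, 3, 1, 4), (-1, 0, 2, 4, 1, 3), (1, 0, 3, 4, 1, 2), (-1, 1, 2, 3, 0, 4), (1, 1, 2, 4, 0, 3), (-1, 1, 3, 4, 0, 2), (1, 2, 3, 4, 0, 1)]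

theorem P10_lt : ∀ t ∈ P10, t.2.1 < 5 ∧ t.2.2.1 < 5 ∧ t.2.2.2.1 < 5 ∧
      t.2.2.2.2.1 < 5 ∧ t.2.2.2.2.2 < 5 := by decide

end H85.FA
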