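import Pool.Agent.H85.FA.Basic

/-!
# MP_273d7a_al, module B : identities in alternative rings

`R` is an alternative ring (`IsAlt R`), often without `2`- and `3`-torsion (`TF R`).
Abbreviations in the comments: `(x,y,z)` = associator, `[x,y]` = `cm`, `x∘y` = `jr` = `xy+yx`.
-/

set_option linter.unusedSectionVars false

namespace H85.FA

universe v

variable {R : Type v} [NonUnitalNonAssocRing R]

private theorem asA1 (a b c d : R) :
    associator (a + b) c d = associator a c d + associator b c d := by
  simp only [associator, add_mul]; abel

private theorem asA2 (a b c d : R) :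
    associator c (a + b) d = associator c a d + associator c b d := by
  simp only [associator, add_mul, mul_add]; abel

private theorem asA3 (a b c d : R) :
    associator c d (a + b) = associator c d a + associator c d b := by
  simp only [associator, mul_add]; abel

private theorem asS1 (a b c d : R) :
    associator (a - b) c d = associator a c d - associator b c d := by
  simp only [associator, sub_mul]; abel

private theorem asS3 (a b c d : R) :
    associator c d (a - b) = associator c d a - associator c d b := by
  simp only [associator, mul_sub]; abel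

private theorem asN3 (b c d : R) : associator c d (-b) = - associator c d b := by
  simp only [associator, mul_neg]; abel

/-! the linearised laws (expand `(x+y,x+y,z) = 0` etc.) -/

theorem ass12 (hA : IsAlt R) (x y z : R) : associator x y z = - associator y x z := by
  have h := hA.1 (x + y) z
  rw [asA1, asA2, asA2, hA.1, hA.1] at h
  linear_combination (norm := abel) h

theorem ass23 (hA : IsAlt R) (x y z : R) : associator x y z = - associator x z y := by
  have h := hA.2 (y + z) x
  rw [asA2, asA3, asA3, hA.2, hA.2] at h
  linear_combination (norm := abel) h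

theorem ass_cyc (hA : IsAlt R) (x y z : R) : associator x y z = associator y z x := by
  rw [ass12 hA x y z, ass23 hA y x z, neg_neg]

theorem ass13 (hA : IsAlt R) (x y z : R) : associator x y z = - associator z y x := by
  rw [ass_cyc hA x y z, ass12 hA y z x]

theorem ass_flex (hA : IsAlt R) (x y : R) : associator x y x = 0 := by
  rw [ass12 hA x y x, hA.2, neg_zero]

/-- `kf` (public version below) -/
private def kq (w x y z : R) : R :=
  associator (w * x) y z - x * associator w y z - associator x y z * w

private theorem kq34 (hA : IsAlt R) (w x y z : R) : kq w x y z = - kq w x z y := by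
  unfold kq
  rw [ass23 hA (w * x) y z, ass23 hA w y z, ass23 hA x y z, mul_neg, neg_mul]
  abel

private def gg (w x y z : R) : R := cm w (associator x y z) - cm x (associator y z w)
  + cm y (associator z w x) - cm z (associator w x y)

private theorem gg_eq (hA : IsAlt R) (w x y z : R) :
    kq w x y z - kq x y z w + kq y z w x = gg w x y z := by
  have h := associator_cocycle w x y z
  have e1 : associator w (x * y) z = associator (x * y) z w := ass_cyc hA _ _ _
  have e2 : associator w x (y * z) = associator (y * z) w x := by
    rw [ass_cyc hA, ass_cyc hA]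
  have e3 : associator w y z = associator y z w := ass_cyc hA _ _ _
  have e4 : associator x z w = associator z w x := ass_cyc hA _ _ _
  have e5 : associator y w x = associator w x y := ass_cyc hA _ _ _
  rw [e1, e2] at h
  unfold kq gg cm
  rw [e3, e4, e5]
  linear_combination (norm := abel) (-1 : ℤ) • h

private theorem gg_cyc (w x y z : R) : gg x y z w = - gg w x y z := by
  unfold gg; abel

private theorem kq_cyc (hA : IsAlt R) (w x y z : R) : kq w x y z = - kq z w x y := by
  have h1 := gg_eq hA w x y z
  have h2 := gg_eq hA x y z w
  have h3 := gg_cyc w x y z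
  linear_combination (norm := abel) h1 + h2 + h3

private theorem kq12 (hA : IsAlt R) (w x y z : R) : kq w x y z = - kq x w y z := by
  rw [kq_cyc hA w x y z, kq_cyc hA z w x y, kq_cyc hA x w y z, kq_cyc hA z x w y,
    kq34 hA y z w x]

private theorem kq23 (hA : IsAlt R) (w x y z : R) : kq w x y z = - kq w y x z := by
  rw [kq_cyc hA w x y z, kq_cyc hA w y x z, kq34 hA z w x y]

private theorem kq_self34 (hA : IsAlt R) (w x y : R) : kq w x y y = 0 := by
  unfold kq; rw [hA.2, hA.2, hA.2]; simp

private theorem kq_self23 (hA : IsAlt R) (w x y : R) : kq w x x y = 0 := by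
  rw [kq_cyc hA, kq_self34 hA, neg_zero]

private theorem kq_self13 (hA : IsAlt R) (w x y : R) : kq x w x y = 0 := by
  rw [kq12 hA, kq_self23 hA, neg_zero]

/-- Moufang: `(x, xy, z) = (x,y,z) x`.  True in every alternative ring; assume no 2-torsion if
that is convenient. -/
theorem moufang1 (hA : IsAlt R) (h : TF R) (x y z : R) :
    associator x (x * y) z = associator x y z * x := by
  have h1 := kq_self13 hA y x z
  unfold kq at h1
  rw [hA.1, mul_zero, ass12 hA (x * y) x z, ass12 hA y x z, neg_mul] at h1
  linear_combination (norm := abel) (-1 : ℤ) • h1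

/-- Moufang: `(x, yx, z) = x (x,y,z)`. -/
theorem moufang2 (hA : IsAlt R) (h : TF R) (x y z : R) :
    associator x (y * x) z = x * associator x y z := by
  have h1 := kq_self23 hA y x z
  unfold kq at h1
  rw [hA.1, zero_mul, ass12 hA (y * x) x z, ass12 hA y x z, mul_neg] at h1
  linear_combination (norm := abel) (-1 : ℤ) • h1

/-- Kleinfeld's function `f(w,x,y,z) = (wx,y,z) - x(w,y,z) - (x,y,z)w` -/
def kf (w x y z : R) : R :=
  associator (w * x) y z - x * associator w y z - associator x y z * w

/-- skew in the last two arguments (clear) -/
theorem kf34 (hA : IsAlt R) (w x y z : R) : kf w x y z = - kf w x z y :=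
  kq34 hA w x y z

/-- `f` is alternating.  With the Teichmueller identity (`associator_cocycle` in Mathlib)
`F(w,x,y,z) := (wx,y,z) - (w,xy,z) + (w,x,yz) = w(x,y,z) + (w,x,y)z`, form
`F(w,x,y,z) - F(x,y,z,w) + F(y,z,w,x) - F(z,w,x,y)`, which gives
`f(w,x,y,z) = - f(z,w,x,y)` up to a factor 2 (see Zhevlakov et al., ch. 7; Kleinfeld's lemma);
with skewness in `y,z` one gets that `f` is alternating.  Also `f(x,x,y,z) = 0` is
`(x^2,y,z) = x∘(x,y,z)`. -/
theorem kf12 (hA : IsAlt R) (h : TF R) (w x y z : R) : kf w x y z = - kf x w y z :=
  kq12 hA w x y z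

theorem kf23 (hA : IsAlt R) (h : TF R) (w x y z : R) : kf w x y z = - kf w y x z :=
  kq23 hA w x y z

/-- `f(w,x,y,z) = ([w,x],y,z) + ([y,z],w,x)` -/
theorem kf_eq (hA : IsAlt R) (h : TF R) (w x y z : R) :
    kf w x y z = associator (cm w x) y z + associator (cm y z) w x := by
  change kq w x y z = _
  have h0 := gg_eq hA w x y z
  have h1 : kq x y z w = - kq w x y z := by rw [kq_cyc hA x y z w]
  have h2 : kq y z w x = kq w x y z := by
    rw [kq_cyc hA w x y z, kq_cyc hA z w x y, neg_neg]
  have h3 := kq12 hA w x y z
  have h4 := kq12 hA y z w x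
  rw [h1, h2] at h0
  rw [h2] at h4
  have e3 : associator w y z = associator y z w := ass_cyc hA _ _ _
  have e4 : associator z w x = associator w x z := ass_cyc hA _ _ _
  have e5 : associator y w x = associator w x y := ass_cyc hA _ _ _
  have e6 : kq x w y z = kq w x y z - (associator (cm w x) y z + cm w (associator x y z)
      - cm x (associator y z w)) := by
    unfold kq cm
    rw [asS1, e3]
    abel
  have e7 : kq z y w x = kq y z w x - (associator (cm y z) w x + cm y (associator z w x)
      - cm z (associator w x y)) := by
    unfold kq cm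
    rw [asS1, e5]
    abel
  rw [e6] at h3
  rw [e7, h2] at h4
  unfold gg at h0
  linear_combination (norm := abel) h3 + h4 - h0

/-- `(p∘q,y,z) = p∘(q,y,z) + q∘(p,y,z)` (from `kf12`) -/
theorem ass_jr (hA : IsAlt R) (h : TF R) (p q y z : R) :
    associator (jr p q) y z = jr p (associator q y z) + jr q (associator p y z) := by
  have h1 := kq12 hA p q y z
  unfold kq at h1
  unfold jr
  rw [asA1]
  linear_combination (norm := abel) h1

/-- `[ab,c] - a[b,c] - [a,c]b = 3(a,b,c)` -/
theorem three_ass (hA : IsAlt R) (a b c : R) :
    cm (a * b) c - a * cm b c - cm a c * b =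
      associator a b c + associator a b c + associator a b c := by
  have h1 : associator c a b = associator a b c := ass_cyc hA _ _ _
  have h2 : associator a c b = - associator a b c := ass23 hA _ _ _
  have h3 : cm (a * b) c - a * cm b c - cm a c * b =
      associator a b c + associator c a b - associator a c b := by
    unfold cm associator
    rw [mul_sub, sub_mul]
    abel
  rw [h3, h1, h2]
  abel

/-- `[a∘b,c] = a∘[b,c] + [a,c]∘b` -/
theorem ad_der (hA : IsAlt R) (h : TF R) (a b c : R) :
    cm (jr a b) c = jr a (cm b c) + jr (cm a c) b := by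
  have h1 := three_ass hA a b c
  have h2 := three_ass hA b a c
  rw [ass12 hA b a c] at h2
  have h3 : cm (jr a b) c = cm (a * b) c + cm (b * a) c := by
    unfold cm jr; rw [add_mul, mul_add]; abel
  rw [h3]
  unfold jr
  linear_combination (norm := abel) h1 + h2

/-- Jacobian: `[[a,b],c] + [[b,c],a] + [[c,a],b] = 6(a,b,c)` -/
theorem jac (hA : IsAlt R) (a b c : R) :
    cm (cm a b) c + cm (cm b c) a + cm (cm c a) b = (6 : ℤ) • associator a b c := by
  have h1 : cm (cm a b) c + cm (cm b c) a + cm (cm c a) b = associator a b c
      + associator b c a + associator c a b - associator b a c - associator a c b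
      - associator c b a := by
    unfold cm associator
    simp only [mul_sub, sub_mul]
    abel
  rw [h1, ass_cyc hA c a b, ← ass_cyc hA a b c, ass12 hA b a c, ass23 hA a c b, ass13 hA c b a]
  abel

/-- `(p∘q)∘r - p∘(q∘r) = [q,[p,r]] - 2(p,q,r)` -/
theorem jj (hA : IsAlt R) (p q r : R) :
    jr (jr p q) r - jr p (jr q r) = cm q (cm p r) - (2 : ℤ) • associator p q r := by
  have h1 : jr (jr p q) r - jr p (jr q r) = cm q (cm p r) + associator p q r
      + associator q p r - associator r p q - associator r q p + associator p r q
      - associator q r p := by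
    unfold jr cm associator
    simp only [mul_sub, sub_mul, mul_add, add_mul]
    abel
  rw [h1, ass12 hA q p r, ass_cyc hA r p q, ass13 hA r q p, ass23 hA p r q, ← ass_cyc hA p q r]
  abel

/-- `[a,b]∘(a,b,c) = 0`.  Proof: with `s = (a,b,·)`: `s(ac) = s(c)a`, `s(ca) = a s(c)`,
`s(bc) = s(c)b`, `s(cb) = b s(c)` (Moufang), hence `s(vc) = -s(c)v`, `s(cv) = -v s(c)` for
`v = [a,b]`, so `s(v∘c) = -v∘s(c)`; but `s(v∘c) = v∘s(c)` by `ass_jr` since `(v,a,b) = 0`. -/
theorem r2 (hA : IsAlt R) (h : TF R) (a b c : R) : jr (cm a b) (associator a b c) = 0 := by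
  have sa : ∀ c, associator a b (a * c) = associator a b c * a := by
    intro c
    have := moufang1 hA h a c b
    rw [ass23 hA a (a * c) b, ass23 hA a c b, neg_mul] at this
    exact neg_injective this
  have sa' : ∀ c, associator a b (c * a) = a * associator a b c := by
    intro c
    have := moufang2 hA h a c b
    rw [ass23 hA a (c * a) b, ass23 hA a c b, mul_neg] at this
    exact neg_injective this
  have sb : ∀ c, associator a b (b * c) = associator a b c * b := by
    intro c
    have := moufang1 hA h b c a
    rw [← ass_cyc hA a b (b * c), ← ass_cyc hA a b c] at this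
    exact this
  have sb' : ∀ c, associator a b (c * b) = b * associator a b c := by
    intro c
    have := moufang2 hA h b c a
    rw [← ass_cyc hA a b (c * b), ← ass_cyc hA a b c] at this
    exact this
  have sv : ∀ c, associator a b (cm a b * c) = - (associator a b c * cm a b) := by
    intro c
    have e1 : cm a b * c = a * (b * c) - b * (a * c) + associator a b c + associator a b c := by
      have : associator b a c = - associator a b c := ass12 hA _ _ _
      have e : cm a b * c = a * (b * c) - b * (a * c) + associator a b c
          - associator b a c := by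
        unfold cm associator; rw [sub_mul]; abel
      rw [e, this]; abel
    rw [e1, asA3, asA3, asS3, sa, sb, sb, sa]
    set t := associator a b c with ht
    have e2 : associator t b a = - associator a b t := by
      rw [ass13 hA]
    have e3 : associator t a b = associator a b t := ass_cyc hA _ _ _
    have e4 : t * b * a - t * a * b = - (t * cm a b) + associator t b a - associator t a b := by
      unfold cm associator; rw [mul_sub]; abel
    rw [e4, e2, e3]; abel
  have sv' : ∀ c, associator a b (c * cm a b) = - (cm a b * associator a b c) := by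
    intro c
    have e1 : c * cm a b = (c * a) * b - (c * b) * a - associator a b c - associator a b c := by
      have e2 : associator c b a = - associator a b c := by rw [ass13 hA]
      have e3 : associator c a b = associator a b c := ass_cyc hA _ _ _
      have e : c * cm a b = (c * a) * b - (c * b) * a - associator c a b
          + associator c b a := by
        unfold cm associator; rw [mul_sub]; abel
      rw [e, e2, e3]; abel
    rw [e1, asS3, asS3, asS3, sa', sb', sb', sa']
    set t := associator a b c with ht
    have e2 : associator b a t = - associator a b t := by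
      rw [ass12 hA]
    have e4 : b * (a * t) - a * (b * t) = - (cm a b * t) - associator b a t + associator a b t := by
      unfold cm associator; rw [sub_mul]; abel
    rw [e4, e2]; abel
  have hv : associator (cm a b) a b = 0 := by
    rw [ass_cyc hA]
    unfold cm
    rw [asS3, sa, sa', hA.2]
    simp
  have h1 := ass_jr hA h (cm a b) c a b
  rw [hv, ass_cyc hA c a b, ass_cyc hA (jr (cm a b) c) a b] at h1
  have h2 : associator a b (jr (cm a b) c) = - jr (cm a b) (associator a b c) := by
    unfold jr
    rw [asA3, sv, sv']
    abel
  rw [h2] at h1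
  apply h.1
  have h3 : jr c (0 : R) = 0 := by unfold jr; simp
  rw [h3] at h1
  linear_combination (norm := abel) (-1 : ℤ) • h1

/-- the 5-linear form `[p,q]∘[[p',q'],p'']` whose symmetrisation is the polarisation of `h` -/
def hT (p q p' q' p'' : R) : R := jr (cm p q) (cm (cm p' q') p'')

/-- full polarisation of `h` (12 terms) -/
def hPol (p₁ p₂ p₃ q₁ q₂ : R) : R :=
  hT p₁ q₁ p₂ q₂ p₃ + hT p₁ q₂ p₂ q₁ p₃ + hT p₁ q₁ p₃ q₂ p₂ + hT p₁ q₂ p₃ q₁ p₂
  + hT p₂ q₁ p₁ q₂ p₃ + hT p₂ q₂ p₁ q₁ p₃ + hT p₂ q₁ p₃ q₂ p₁ + hT p₂ q₂ p₃ q₁ p₁
  + hT p₃ q₁ p₁ q₂ p₂ + hT p₃ q₂ p₁ q₁ p₂ + hT p₃ q₁ p₂ q₂ p₁ + hT p₃ q₂ p₂ q₁ p₁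

end H85.FA
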