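import Pool.Agent.H85.FA.AltIds

/-!
# MP_273d7a_al, module B, part 2: identities in alternative rings

Proofs of `r2_lin`, `vsq_ass`, `hh_nuc`, `hh_eq`, `sagle`, `hPol_mem` from part 1 `AltIds.lean` (`ass12`, `ass23`, `ass_cyc`,
`moufang1/2`, `kf12/23/34`, `kf_eq`, `ass_jr`, `ad_der`, `r2`).
-/

set_option linter.unusedSectionVars false

namespace H85.FA

universe v

variable {R : Type v} [NonUnitalNonAssocRing R]

/-! ### additivity -/

theorem cm_add_left (a b c : R) : cm (a + b) c = cm a c + cm b c := by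
  simp only [cm, add_mul, mul_add]; abel

theorem cm_add_right (a b c : R) : cm a (b + c) = cm a b + cm a c := by
  simp only [cm, add_mul, mul_add]; abel

theorem jr_add_left (a b c : R) : jr (a + b) c = jr a c + jr b c := by
  simp only [jr, add_mul, mul_add]; abel

theorem jr_add_right (a b c : R) : jr a (b + c) = jr a b + jr a c := by
  simp only [jr, add_mul, mul_add]; abel

theorem ass_add_1 (a b c d : R) :
    associator (a + b) c d = associator a c d + associator b c d := by
  simp only [associator, add_mul]; abel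

theorem ass_add_2 (a b c d : R) :
    associator a (b + c) d = associator a b d + associator a c d := by
  simp only [associator, add_mul, mul_add]; abel

theorem ass_add_3 (a b c d : R) :
    associator a b (c + d) = associator a b c + associator a b d := by
  simp only [associator, mul_add]; abel

theorem hT_add_1 (p p' q r s t : R) : hT (p + p') q r s t = hT p q r s t + hT p' q r s t := by
  simp only [hT, cm_add_left, jr_add_left]

theorem hT_add_2 (p q q' r s t : R) : hT p (q + q') r s t = hT p q r s t + hT p q' r s t := by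
  simp only [hT, cm_add_right, jr_add_left]

theorem hT_add_3 (p q r r' s t : R) : hT p q (r + r') s t = hT p q r s t + hT p q r' s t := by
  simp only [hT, cm_add_left, jr_add_right]

theorem hT_add_4 (p q r s s' t : R) : hT p q r (s + s') t = hT p q r s t + hT p q r s' t := by
  simp only [hT, cm_add_left, cm_add_right, jr_add_right]

theorem hT_add_5 (p q r s t t' : R) : hT p q r s (t + t') = hT p q r s t + hT p q r s t' := by
  simp only [hT, cm_add_right, jr_add_right]

theorem mulL_zero {a : R} (h : a = 0) (b : R) : b * a = 0 := by rw [h, mul_zero]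

theorem mulR_zero {a : R} (h : a = 0) (b : R) : a * b = 0 := by rw [h, zero_mul]

/-- linearisation of `r2` in `a` and in `b` -/
theorem r2_lin (hA : IsAlt R) (h : TF R) (a₁ a₂ b₁ b₂ c : R) :
    jr (cm a₁ b₁) (associator a₂ b₂ c) + jr (cm a₁ b₂) (associator a₂ b₁ c)
      + jr (cm a₂ b₁) (associator a₁ b₂ c) + jr (cm a₂ b₂) (associator a₁ b₁ c) = 0 := by
  have e0 := r2 hA h (a₁ + a₂) (b₁ + b₂) c
  have e1 := r2 hA h (a₁ + a₂) b₁ c
  have e2 := r2 hA h (a₁ + a₂) b₂ c
  have e3 := r2 hA h a₁ (b₁ + b₂) c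
  have e4 := r2 hA h a₂ (b₁ + b₂) c
  have e5 := r2 hA h a₁ b₁ c
  have e6 := r2 hA h a₁ b₂ c
  have e7 := r2 hA h a₂ b₁ c
  have e8 := r2 hA h a₂ b₂ c
  linear_combination (norm := skip) e0 - e1 - e2 - e3 - e4 + e5 + e6 + e7 + e8
  simp only [cm_add_left, cm_add_right, jr_add_left, jr_add_right, ass_add_1, ass_add_2]
  abel

/-- linearisation of `r2` in `b` only -/
theorem r2_lin_b (hA : IsAlt R) (h : TF R) (a b₁ b₂ c : R) :
    jr (cm a b₁) (associator a b₂ c) + jr (cm a b₂) (associator a b₁ c) = 0 := by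
  have e0 := r2 hA h a (b₁ + b₂) c
  have e1 := r2 hA h a b₁ c
  have e2 := r2 hA h a b₂ c
  linear_combination (norm := skip) e0 - e1 - e2
  simp only [cm_add_right, jr_add_left, jr_add_right, ass_add_2]
  abel

/-- `(a,[a,b],c) = [(a,b,c),a]` -/
theorem ass_v (hA : IsAlt R) (h : TF R) (a b c : R) :
    associator a (cm a b) c = cm (associator a b c) a := by
  have e1 := moufang1 hA h a b c
  have e2 := moufang2 hA h a b c
  linear_combination (norm := (simp only [cm, associator, mul_sub, sub_mul]; abel)) e1 - e2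

/-- `(v^2,y,z) = v∘(v,y,z)` -/
theorem ass_sq (hA : IsAlt R) (h : TF R) (v y z : R) :
    associator (v * v) y z = jr v (associator v y z) := by
  have e := ass_jr hA h v v y z
  have e1 : jr v v = v * v + v * v := rfl
  rw [e1, ass_add_1] at e
  have e2 : (associator (v * v) y z - jr v (associator v y z)) +
      (associator (v * v) y z - jr v (associator v y z)) = 0 := by
    linear_combination (norm := abel) e
  exact sub_eq_zero.1 (h.1 _ e2)

/-- `([a,b]^2, a, c) = 0`. -/
theorem vsq_ass (hA : IsAlt R) (h : TF R) (a b c : R) :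
    associator (cm a b * cm a b) a c = 0 := by
  have e1 := ass_sq hA h (cm a b) a c
  have e2 := ass_v hA h a b c
  have e3 := ass12 hA (cm a b) a c
  -- `(v,a,c) = [a,(a,b,c)]`
  have e4 : associator (cm a b) a c = cm a (associator a b c) := by
    rw [e3, e2]; simp only [cm]; abel
  rw [e4] at e1
  -- `0 = [v∘s,a] = v∘[s,a] + [v,a]∘s`
  have e5 := ad_der hA h (cm a b) (associator a b c) a
  rw [r2 hA h a b c] at e5
  have e6 : cm (0 : R) a = 0 := by simp [cm]
  rw [e6] at e5
  -- linearised `r2`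
  have e7 := r2_lin_b hA h a b (cm a b) c
  rw [e2] at e7
  apply h.1
  rw [e1]
  -- goal: `v∘[a,s] + v∘[a,s] = 0`
  linear_combination (norm := (simp only [jr, cm, mul_sub, sub_mul]; abel)) e5 - e7

/-- `h(a,b) = v∘[v,a]`, `v = [a,b]` -/
theorem hh_eq (hA : IsAlt R) (a b : R) : hh a b = jr (cm a b) (cm (cm a b) a) := by
  unfold hh
  generalize cm a b = v
  have e1 := hA.1 v a
  have e2 := hA.2 v a
  have e3 := ass_flex hA v a
  linear_combination (norm := (simp only [jr, cm, associator, mul_sub, sub_mul]; abel))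
    e1 + e2 - e3

/-- `f(w,x,y,z) = f(y,z,w,x)` -/
theorem kf_perm (hA : IsAlt R) (h : TF R) (w x y z : R) : kf w x y z = kf y z w x := by
  rw [kf23 hA h w x y z, kf12 hA h w y x z, kf34 hA y w x z, kf23 hA h y w z x]
  simp only [neg_neg]

/-- `h(a,b)` is nuclear -/
theorem hh_nuc (hA : IsAlt R) (h : TF R) (a b : R) : InNuc (hh a b) := by
  have key : ∀ x y : R, associator (hh a b) x y = 0 := by
    intro x y
    have e1 := kf_eq hA h (cm a b * cm a b) a x y
    have e2 := vsq_ass hA h a b (cm x y)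
    have e3 := ass_cyc hA (cm x y) (cm a b * cm a b) a
    have e4 := kf_perm hA h (cm a b * cm a b) a x y
    have e5 := vsq_ass hA h a b (x * y)
    have e6 := ass_cyc hA (x * y) (cm a b * cm a b) a
    have e7 := vsq_ass hA h a b x
    have e8 := ass_cyc hA x (cm a b * cm a b) a
    have e9 := vsq_ass hA h a b y
    have e10 := ass_cyc hA y (cm a b * cm a b) a
    rw [e5] at e6
    rw [e7] at e8
    rw [e9] at e10
    rw [e2] at e3
    rw [e3, e4, add_zero] at e1
    change associator (cm (cm a b * cm a b) a) x y = 0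
    rw [← e1]
    unfold kf
    rw [e6, e8, e10, mul_zero, zero_mul, sub_zero, sub_zero]
  intro x y
  refine ⟨key x y, ?_, ?_⟩
  · rw [ass12 hA, key, neg_zero]
  · rw [ass_cyc hA, ass_cyc hA, key]

/-- Sagle's identity (Malcev identity of `(R,[,])`). -/
theorem sagle (hA : IsAlt R) (_h : TF R) (x y z t : R) :
    cm (cm x z) (cm y t) = cm (cm (cm x y) z) t + cm (cm (cm y z) t) x
      + cm (cm (cm z t) x) y + cm (cm (cm t x) y) z := by
  have L12 : ∀ a b c : R, associator a b c + associator b a c = 0 := by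
    intro a b c; rw [ass12 hA]; exact neg_add_cancel _
  have L23 : ∀ a b c : R, associator a b c + associator a c b = 0 := by
    intro a b c; rw [ass23 hA]; exact neg_add_cancel _
  have mL : ∀ {a : R} (_ : a = 0) (b : R), b * a = 0 := fun h b => mulL_zero h b
  have mR : ∀ {a : R} (_ : a = 0) (b : R), a * b = 0 := fun h b => mulR_zero h b
  linear_combination (norm := skip)
    (2:ℤ) • (mR (L23 x y z) t)
    - (3:ℤ) • (L23 (x*y) z t)
    - (2:ℤ) • (L23 z (x*y) t)
    + (3:ℤ) • (mR (L12 x y t) z)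
    - L12 (x*y) t z
    + L12 t z (x*y)
    - mR (L12 x z y) t
    - (2:ℤ) • (L12 (x*z) y t)
    + (3:ℤ) • (L23 y (x*z) t)
    + L23 (x*z) t y
    - (2:ℤ) • (mL (L23 x t y) z)
    + mR (L23 x t y) z
    + L12 (x*t) y z
    + L23 (x*t) y z
    - (3:ℤ) • (L23 y (x*t) z)
    + mL (L23 x t z) y
    - mR (L23 x t z) y
    + mR (L23 y x z) t
    - L23 z (y*x) t
    + L12 (y*x) t z
    - L12 t z (y*x)
    + (2:ℤ) • (mR (L12 y z x) t)
    + (2:ℤ) • (L23 x (y*z) t)
    - mL (L12 y z t) x
    - (3:ℤ) • (L23 (y*z) t x)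
    - mL (L23 y t x) z
    - (4:ℤ) • (mR (L23 y t x) z)
    + (4:ℤ) • (L12 (y*t) x z)
    + (4:ℤ) • (mL (L23 y t z) x)
    + (2:ℤ) • (mR (L23 y t z) x)
    - L12 (y*t) z x
    + (2:ℤ) • (L23 z (y*t) x)
    - (2:ℤ) • (mR (L23 z x y) t)
    + (3:ℤ) • (L12 (z*x) y t)
    + L23 x (z*y) t
    + (3:ℤ) • (mL (L23 z t x) y)
    + L12 (z*t) x y
    - (2:ℤ) • (L23 (z*t) x y)
    - (2:ℤ) • (L12 x y (z*t))
    - L23 x (z*t) y
    + mL (L23 z t y) x
    + mR (L23 z t y) x
    + (2:ℤ) • (L23 y (z*t) x)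
    + mL (L12 t x y) z
    - (2:ℤ) • (mR (L12 t x y) z)
    + mR (L23 t x y) z
    - (3:ℤ) • (L23 y (t*x) z)
    - (3:ℤ) • (mL (L12 t x z) y)
    + (2:ℤ) • (mL (L12 t y x) z)
    - L12 (t*y) x z
    - mR (L12 t y z) x
    - mL (L23 t y z) x
    + L12 (t*y) z x
    + L23 z (t*y) x
    + (2:ℤ) • (L12 (t*z) x y)
    - L23 (t*z) x y
    - (4:ℤ) • (L23 x (t*z) y)
    - mL (L12 t z y) x
    + mR (L12 t z y) x
    + L23 y (t*z) x
  simp only [cm, associator, mul_sub, sub_mul, mul_add, add_mul, smul_add, smul_sub]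
  abel

/-- `hPol` is an integer combination (inclusion-exclusion, signs `±1`) of the values
`h(Σ_S p, Σ_T q)`; so if a subgroup `K` contains all values of `h`, it contains `hPol`. -/
theorem hPol_mem (hA : IsAlt R) (K : AddSubgroup R) (hK : ∀ a b : R, hh a b ∈ K)
    (p₁ p₂ p₃ q₁ q₂ : R) : hPol p₁ p₂ p₃ q₁ q₂ ∈ K := by
  have hK' : ∀ a b : R, hT a b a b a ∈ K := by
    intro a b
    have := hK a b
    rw [hh_eq hA] at this
    exact this
  let g : R → R := fun q => hT (p₁ + p₂ + p₃) q (p₁ + p₂ + p₃) q (p₁ + p₂ + p₃)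
    - hT (p₁ + p₂) q (p₁ + p₂) q (p₁ + p₂) - hT (p₁ + p₃) q (p₁ + p₃) q (p₁ + p₃)
    - hT (p₂ + p₃) q (p₂ + p₃) q (p₂ + p₃) + hT p₁ q p₁ q p₁ + hT p₂ q p₂ q p₂
    + hT p₃ q p₃ q p₃
  have hg : ∀ q, g q ∈ K := by
    intro q
    exact K.add_mem (K.add_mem (K.add_mem (K.sub_mem (K.sub_mem (K.sub_mem (hK' _ _) (hK' _ _))
      (hK' _ _)) (hK' _ _)) (hK' _ _)) (hK' _ _)) (hK' _ _)
  have e : hPol p₁ p₂ p₃ q₁ q₂ = g (q₁ + q₂) - g q₁ - g q₂ := by
    simp only [g, hPol, hT_add_1, hT_add_2, hT_add_3, hT_add_4, hT_add_5]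
    abel
  rw [e]
  exact K.sub_mem (K.sub_mem (hg _) (hg _)) (hg _)

end H85.FA
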