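import Mathlib

/-!
# MP_273d7a_al : basic definitions

Alternative algebras, nucleus, ideals, quotient algebras, the free alternative algebra.
-/

set_option linter.unusedSectionVars false

namespace H85.FA

universe u v

/-- `R` is alternative: `(x,x,y) = (y,x,x) = 0`. -/
def IsAlt (R : Type*) [NonUnitalNonAssocRing R] : Prop :=
  (∀ x y : R, associator x x y = 0) ∧ (∀ x y : R, associator y x x = 0)

/-- no `2`- and no `3`-torsion -/
def TF (M : Type*) [AddCommGroup M] : Prop :=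
  (∀ x : M, x + x = 0 → x = 0) ∧ (∀ x : M, x + x + x = 0 → x = 0)

/-- commutator -/
def cm {R : Type*} [NonUnitalNonAssocRing R] (x y : R) : R := x * y - y * x

/-- Jordan product (without the factor `1/2`) -/
def jr {R : Type*} [NonUnitalNonAssocRing R] (x y : R) : R := x * y + y * x

/-- the element lies in the nucleus (associative center) -/
def InNuc {R : Type*} [NonUnitalNonAssocRing R] (n : R) : Prop :=
  ∀ a b : R, associator n a b = 0 ∧ associator a n b = 0 ∧ associator a b n = 0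

/-- `h(a,b) = [[a,b]^2, a]` -/
def hh {R : Type*} [NonUnitalNonAssocRing R] (a b : R) : R := cm (cm a b * cm a b) a

section alg

variable {F : Type u} [Field F] {A : Type v} [NonUnitalNonAssocRing A] [Module F A]
  [IsScalarTower F A A] [SMulCommClass F A A]

/-- two-sided ideals -/
def IsIdeal (I : Submodule F A) : Prop := ∀ i ∈ I, ∀ a : A, a * i ∈ I ∧ i * a ∈ I

/-- underlying type of the quotient algebra -/
def QAlg (K : Submodule F A) (_ : IsIdeal K) : Type v := A ⧸ K

variable (K : Submodule F A) (hK : IsIdeal K)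

instance : AddCommGroup (QAlg K hK) := inferInstanceAs (AddCommGroup (A ⧸ K))

instance : Module F (QAlg K hK) := inferInstanceAs (Module F (A ⧸ K))

/-- the projection -/
def QAlg.mk : A →ₗ[F] QAlg K hK := K.mkQ

theorem QAlg.mk_surj : Function.Surjective (QAlg.mk K hK) := K.mkQ_surjective

theorem QAlg.mk_eq_zero {a : A} : QAlg.mk K hK a = 0 ↔ a ∈ K :=
  Submodule.Quotient.mk_eq_zero K

theorem QAlg.mk_eq {a b : A} : QAlg.mk K hK a = QAlg.mk K hK b ↔ a - b ∈ K := by
  rw [← QAlg.mk_eq_zero K hK, map_sub, sub_eq_zero]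

include hK in
theorem QAlg.mul_wd (a b a' b' : A) (h1 : a - a' ∈ K) (h2 : b - b' ∈ K) :
    a * b - a' * b' ∈ K := by
  have : a * b - a' * b' = (a - a') * b + a' * (b - b') := by
    rw [sub_mul, mul_sub]; abel
  rw [this]
  exact K.add_mem (hK _ h1 b).2 (hK _ h2 a').1

noncomputable instance : Mul (QAlg K hK) :=
  ⟨fun x y => QAlg.mk K hK ((QAlg.mk_surj K hK x).choose * (QAlg.mk_surj K hK y).choose)⟩

theorem QAlg.mk_mul (a b : A) :
    QAlg.mk K hK (a * b) = QAlg.mk K hK a * QAlg.mk K hK b := by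
  change _ = QAlg.mk K hK (_ * _)
  rw [QAlg.mk_eq]
  have h1 := (QAlg.mk_surj K hK (QAlg.mk K hK a)).choose_spec
  have h2 := (QAlg.mk_surj K hK (QAlg.mk K hK b)).choose_spec
  rw [QAlg.mk_eq] at h1 h2
  apply QAlg.mul_wd K hK
  · simpa using K.neg_mem h1
  · simpa using K.neg_mem h2

noncomputable instance : NonUnitalNonAssocRing (QAlg K hK) where
  left_distrib x y z := by
    obtain ⟨a, rfl⟩ := QAlg.mk_surj K hK x
    obtain ⟨b, rfl⟩ := QAlg.mk_surj K hK y
    obtain ⟨c, rfl⟩ := QAlg.mk_surj K hK z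
    rw [← map_add, ← QAlg.mk_mul, ← QAlg.mk_mul, ← QAlg.mk_mul, ← map_add, mul_add]
  right_distrib x y z := by
    obtain ⟨a, rfl⟩ := QAlg.mk_surj K hK x
    obtain ⟨b, rfl⟩ := QAlg.mk_surj K hK y
    obtain ⟨c, rfl⟩ := QAlg.mk_surj K hK z
    rw [← map_add, ← QAlg.mk_mul, ← QAlg.mk_mul, ← QAlg.mk_mul, ← map_add, add_mul]
  zero_mul x := by
    obtain ⟨a, rfl⟩ := QAlg.mk_surj K hK x
    rw [← map_zero (QAlg.mk K hK), ← QAlg.mk_mul, zero_mul]
  mul_zero x := by
    obtain ⟨a, rfl⟩ := QAlg.mk_surj K hK x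
    rw [← map_zero (QAlg.mk K hK), ← QAlg.mk_mul, mul_zero]

instance : IsScalarTower F (QAlg K hK) (QAlg K hK) where
  smul_assoc r x y := by
    obtain ⟨a, rfl⟩ := QAlg.mk_surj K hK x
    obtain ⟨b, rfl⟩ := QAlg.mk_surj K hK y
    simp only [smul_eq_mul]
    rw [← map_smul, ← QAlg.mk_mul, ← QAlg.mk_mul, ← map_smul, smul_mul_assoc]

instance : SMulCommClass F (QAlg K hK) (QAlg K hK) where
  smul_comm r x y := by
    obtain ⟨a, rfl⟩ := QAlg.mk_surj K hK x
    obtain ⟨b, rfl⟩ := QAlg.mk_surj K hK y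
    simp only [smul_eq_mul]
    rw [← map_smul, ← QAlg.mk_mul, ← QAlg.mk_mul, ← map_smul, mul_smul_comm]

theorem QAlg.mk_assoc (a b c : A) :
    QAlg.mk K hK (associator a b c) =
      associator (QAlg.mk K hK a) (QAlg.mk K hK b) (QAlg.mk K hK c) := by
  simp only [associator, map_sub, QAlg.mk_mul]

theorem QAlg.mk_cm (a b : A) :
    QAlg.mk K hK (cm a b) = cm (QAlg.mk K hK a) (QAlg.mk K hK b) := by
  simp only [cm, map_sub, QAlg.mk_mul]

theorem QAlg.mk_jr (a b : A) :
    QAlg.mk K hK (jr a b) = jr (QAlg.mk K hK a) (QAlg.mk K hK b) := by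
  simp only [jr, map_add, QAlg.mk_mul]

theorem QAlg.mk_hh (a b : A) :
    QAlg.mk K hK (hh a b) = hh (QAlg.mk K hK a) (QAlg.mk K hK b) := by
  simp only [hh, QAlg.mk_cm, QAlg.mk_mul]

theorem QAlg.isAlt (hA : IsAlt A) : IsAlt (QAlg K hK) := by
  constructor
  · intro x y
    obtain ⟨a, rfl⟩ := QAlg.mk_surj K hK x
    obtain ⟨b, rfl⟩ := QAlg.mk_surj K hK y
    rw [← QAlg.mk_assoc, hA.1, map_zero]
  · intro x y
    obtain ⟨a, rfl⟩ := QAlg.mk_surj K hK x
    obtain ⟨b, rfl⟩ := QAlg.mk_surj K hK y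
    rw [← QAlg.mk_assoc, hA.2, map_zero]

end alg

/-- an `F`-vector space has no `2`- and `3`-torsion if `2, 3 ≠ 0` in `F` -/
theorem TF.of_module (F : Type u) [Field F] (h2 : (2 : F) ≠ 0) (h3 : (3 : F) ≠ 0)
    (M : Type v) [AddCommGroup M] [Module F M] : TF M := by
  constructor
  · intro x hx
    have : (2 : F) • x = 0 := by rw [two_smul]; exact hx
    exact (smul_eq_zero.1 this).resolve_left h2
  · intro x hx
    have : (3 : F) • x = 0 := by
      have e : (3 : F) = 1 + 1 + 1 := by norm_num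
      rw [e, add_smul, add_smul, one_smul]; exact hx
    exact (smul_eq_zero.1 this).resolve_left h3

end H85.FA
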