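import Pool.Agent.H85.FA.Sound

/-!
# MP_273d7a_al, module F3 : soundness of the certificate checker, part 2
-/

set_option linter.unusedSectionVars false

namespace H85.FA

universe v

/-- membership in the table -/
def Tab.Mem (n : Node) : Tab → Prop
  | .nil => False
  | .node m l r => n = m ∨ l.Mem n ∨ r.Mem n

theorem Tab.find_mem {key : ℕ} {T : Tab} {n : Node} (h : T.find key = some n) : T.Mem n := by
  induction T with
  | nil => simp [Tab.find] at h
  | node m l r ihl ihr =>
    simp only [Tab.find] at h
    cases h1 : Nat.blt key m.key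
    · cases h2 : Nat.blt m.key key
      · simp only [h1, h2, cond_false, Option.some.injEq] at h
        exact Or.inl h.symm
      · simp only [h1, h2, cond_false, cond_true] at h
        exact Or.inr (Or.inr (ihr h))
    · simp only [h1, cond_true] at h
      exact Or.inr (Or.inl (ihl h))

theorem Tab.check_mem {T : Tab} {D : ℤ} {ε : ℕ → Bool} {Fs : List (ℕ × List (ℤ × Tree))}
    {T' : Tab} (h : Tab.check T D ε Fs T' = true) {n : Node} (hn : T'.Mem n) :
    n.check T D ε Fs = true := by
  induction T' with
  | nil => exact hn.elim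
  | node m l r ihl ihr =>
    simp only [Tab.check, Bool.and_eq_true] at h
    rcases hn with hn | hn | hn
    · rw [hn]; exact h.1
    · exact ihl h.2.1 hn
    · exact ihr h.2.2 hn

/-- the named elements: definitions `(k, o, i, j)` : `G k = op o (ε i) (ε j) (G i) (G j)` -/
def build {V : Type v} [NonUnitalNonAssocRing V] (ε : ℕ → Bool) :
    List (ℕ × Bool × ℕ × ℕ) → (ℕ → V) → (ℕ → V)
  | [], g => g
  | (k, o, i, j) :: ds, g =>
      build ε ds (Function.update g k (op o (ε i) (ε j) (g i) (g j)))

/-- later definitions do not change smaller names -/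
theorem build_lt {V : Type v} [NonUnitalNonAssocRing V] {m : ℕ}
    {ds : List (ℕ × Bool × ℕ × ℕ)} {lo : ℕ} (h : defsOk m lo ds = true) (g : ℕ → V) {i : ℕ}
    (hi : i < lo) : build (parMask m) ds g i = g i := by
  induction ds generalizing lo g with
  | nil => rfl
  | cons d ds ih =>
    obtain ⟨k, o, a, b⟩ := d
    simp only [defsOk, Bool.and_eq_true, Nat.ble_eq] at h
    simp only [build]
    rw [ih h.2.2.2.2 _ (by omega), Function.update_of_ne (by omega)]

/-- the definitions hold -/
theorem build_mem {V : Type v} [NonUnitalNonAssocRing V] {m : ℕ}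
    {ds : List (ℕ × Bool × ℕ × ℕ)} {lo : ℕ} (h : defsOk m lo ds = true) (g : ℕ → V)
    {k i j : ℕ} {o : Bool} (hk : (k, o, i, j) ∈ ds) :
    build (parMask m) ds g k = op o (parMask m i) (parMask m j)
      (build (parMask m) ds g i) (build (parMask m) ds g j) := by
  induction ds generalizing lo g with
  | nil => simp at hk
  | cons d ds ih =>
    obtain ⟨k', o', a, b⟩ := d
    have h0 := h
    simp only [defsOk, Bool.and_eq_true, Nat.ble_eq, Nat.blt_eq] at h
    simp only [build]
    rcases List.mem_cons.1 hk with hk | hk
    · simp only [Prod.mk.injEq] at hk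
      obtain ⟨rfl, rfl, rfl, rfl⟩ := hk
      rw [build_lt h.2.2.2.2 _ (Nat.lt_succ_self _), build_lt h.2.2.2.2 _ (by omega),
        build_lt h.2.2.2.2 _ (by omega), Function.update_self,
        Function.update_of_ne (by omega), Function.update_of_ne (by omega)]
    · exact ih h.2.2.2.2 _ hk

theorem build_hom {V : Type v} [GrAlg V] {m : ℕ}
    {ds : List (ℕ × Bool × ℕ × ℕ)} {lo : ℕ} (h : defsOk m lo ds = true) (g : ℕ → V)
    (hg : ∀ i, Hom (parMask m i) (g i)) (i : ℕ) :
    Hom (parMask m i) (build (parMask m) ds g i) := by
  induction ds generalizing lo g with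
  | nil => exact hg i
  | cons d ds ih =>
    obtain ⟨k', o', a, b⟩ := d
    simp only [defsOk, Bool.and_eq_true, Nat.ble_eq, Nat.blt_eq] at h
    simp only [build]
    refine ih h.2.2.2.2 _ fun l => ?_
    by_cases hl : l = k'
    · subst hl
      rw [Function.update_self]
      have h1 : parMask m l = xor (parMask m a) (parMask m b) := by
        have := h.2.2.2.1
        revert this
        cases parMask m l <;> cases parMask m a <;> cases parMask m b <;> simp
      rw [h1]
      exact Hom.op o' (hg a) (hg b)
    · rw [Function.update_of_ne hl]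
      exact hg l

/-- `(k,o,i,j)` is the definition of `k` in the list -/
def inDefs (k : ℕ) (o : Bool) (i j : ℕ) : List (ℕ × Bool × ℕ × ℕ) → Bool
  | [] => false
  | (k', o', i', j') :: ds => bif Nat.beq k k' then
      (Nat.beq i i' && (Nat.beq j j' && !(xor o o'))) else inDefs k o i j ds

theorem inDefs_mem {k : ℕ} {o : Bool} {i j : ℕ} {ds : List (ℕ × Bool × ℕ × ℕ)}
    (h : inDefs k o i j ds = true) : (k, o, i, j) ∈ ds := by
  induction ds with
  | nil => simp [inDefs] at h
  | cons d ds ih =>
    obtain ⟨k', o', a, b⟩ := d
    simp only [inDefs] at h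
    cases h1 : Nat.beq k k'
    · simp only [h1, cond_false] at h
      exact List.mem_cons_of_mem _ (ih h)
    · simp only [h1, cond_true, Bool.and_eq_true] at h
      have e1 := Nat.eq_of_beq_eq_true h1
      have e2 := Nat.eq_of_beq_eq_true h.1
      have e3 := Nat.eq_of_beq_eq_true h.2.1
      have e4 : o = o' := by
        have := h.2.2
        revert this
        cases o <;> cases o' <;> simp
      subst e1 e2 e3 e4
      exact List.mem_cons_self ..

/-- all nodes of the table are defined in the list -/
def Tab.namesOk (ds : List (ℕ × Bool × ℕ × ℕ)) : Tab → Bool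
  | .nil => true
  | .node m l r => inDefs m.name m.o m.i m.j ds && (l.namesOk ds && r.namesOk ds)

theorem Tab.namesOk_mem {ds : List (ℕ × Bool × ℕ × ℕ)} {T : Tab} (h : T.namesOk ds = true)
    {n : Node} (hn : T.Mem n) : (n.name, n.o, n.i, n.j) ∈ ds := by
  induction T with
  | nil => exact hn.elim
  | node m l r ihl ihr =>
    simp only [Tab.namesOk, Bool.and_eq_true] at h
    rcases hn with hn | hn | hn
    · rw [hn]; exact inDefs_mem h.1
    · exact ihl h.2.1 hn
    · exact ihr h.2.2 hn

section
variable {V : Type v} [GrAlg V] {G : ℕ → V} {ε : ℕ → Bool} {D : ℤ}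

/-- instances of super-identities vanish (`polyV_sound` with `k = true`; the value is
`evP (ε∘a) (G∘a) f = 0`).  For an index `i` out of range `nth Fs i = (0, [])`. -/
theorem instV_sound (hV : TF V) {T : Tab} {cur : ℕ} (hT : TOk G ε D T cur)
    (hG : ∀ i, Hom (ε i) (G i)) {Fs : List (ℕ × List (ℤ × Tree))}
    (hF : ∀ f ∈ Fs, SuperId V f.2) (js : List (ℤ × ℕ × List ℕ)) {acc r : Vec}
    (h : instV T D cur ε Fs js acc = some r) : lc G r = lc G acc := by
  induction js generalizing acc with
  | nil =>
    simp only [instV, Option.some.injEq] at h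
    rw [h]
  | cons d js ih =>
    obtain ⟨y, i, a⟩ := d
    simp only [instV, Option.bind_eq_some_iff] at h
    obtain ⟨acc', h1, h2⟩ := h
    rw [ih h2, polyV_sound hV hT _ _ _ _ _ h1]
    have hS : SuperId V (nth Fs i).2 := by
      unfold nth
      by_cases hi : i < Fs.length
      · have : Fs.getD i (0, []) ∈ Fs := by
          rw [List.getD_eq_getElem _ _ hi]
          exact List.getElem_mem hi
        exact hF _ this
      · rw [List.getD_eq_default _ _ (by omega)]
        intro _ _ _
        simp [evP]
    have := hS (fun n => ε (a.getD n 0)) (fun n => G (a.getD n 0)) (fun n => hG _)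
    unfold evP at this
    simp only [Bool.true_and]
    rw [this, smul_zero, add_zero]

/-- **Validity of the table.**  Strong induction on the rank: for all `r`, every node of rank
`< r` satisfies `D • [o,i,j] = lc vec`; so `TOk … r` (`Tab.get` finds a node of the table with
the right `o,i,j`; its value is `vec`, or `[(name, D)]`, valid by `hdef`).  For a node of rank
`0` the check says `vec = [(name, D)]`.  For rank `r > 0`: `instV_sound` gives `lc G tot = 0`;
by `lc_substV`, `lc_allZero`: `0 = D • 0 + c • (lc vec - D • G name)`, `c` smooth. -/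
theorem table_valid (hV : TF V) (hG : ∀ i, Hom (ε i) (G i))
    {Fs : List (ℕ × List (ℤ × Tree))} (hF : ∀ f ∈ Fs, SuperId V f.2) {T : Tab}
    (hdef : ∀ n : Node, T.Mem n → G n.name = op n.o (ε n.i) (ε n.j) (G n.i) (G n.j))
    (h : ∀ n : Node, T.Mem n → n.check T D ε Fs = true) (cur : ℕ) : TOk G ε D T cur := by
  induction cur using Nat.strong_induction_on with
  | _ cur IH =>
  intro o i j w hw
  simp only [Tab.get, Option.bind_eq_some_iff] at hw
  obtain ⟨n, hn, hw⟩ := hw
  have hmem := Tab.find_mem hn
  have hck := h n hmem
  simp only [Node.check, Bool.and_eq_true] at hck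
  obtain ⟨⟨hp1, hp2⟩, hck⟩ := hck
  cases hc : (Nat.beq n.i i && (Nat.beq n.j j && !(xor n.o o)))
  · rw [hc] at hw
    simp at hw
  rw [hc] at hw
  simp only [Bool.and_eq_true] at hc
  have e1 := Nat.eq_of_beq_eq_true hc.1
  have e2 := Nat.eq_of_beq_eq_true hc.2.1
  have e3 : n.o = o := by
    have := hc.2.2
    revert this
    cases n.o <;> cases o <;> simp
  subst e1 e2 e3
  simp only [cond_true] at hw
  rw [← hdef n hmem]
  cases hr : Nat.blt n.rank cur
  · rw [hr] at hw
    simp only [cond_false, Option.some.injEq] at hw
    subst hw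
    refine ⟨by simp [lc], ?_⟩
    simpa [parAll] using hp2
  rw [hr] at hw
  simp only [cond_true, Option.some.injEq] at hw
  subst hw
  refine ⟨?_, hp1⟩
  cases hz : Nat.beq n.rank 0
  · rw [hz] at hck
    simp only [cond_false] at hck
    cases hi : instV T D n.rank ε Fs n.just []
    · rw [hi] at hck
      simp at hck
    · rename_i tot
      rw [hi] at hck
      simp only [Bool.and_eq_true] at hck
      have h1 := instV_sound hV (IH n.rank (by simpa using hr)) hG hF _ hi
      have h2 := lc_allZero G hck.2
      rw [lc_substV, h1] at h2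
      simp only [lc, List.map_nil, List.sum_nil, smul_zero, zero_add] at h2
      have h3 := TF.smooth hV hck.1 h2
      exact (sub_eq_zero.1 h3).symm
  · rw [hz] at hck
    simp only [cond_true] at hck
    revert hck
    cases hv : n.vec with
    | nil => simp
    | cons d t =>
      obtain ⟨k, x⟩ := d
      cases t with
      | nil =>
        simp only [Bool.and_eq_true]
        intro hck
        have e1 := Nat.eq_of_beq_eq_true hck.1
        have e2 := Nat.eq_of_beq_eq_true hck.2
        have e3 : x = D := by omega
        rw [e1, e3]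
        simp [lc]
      | cons _ _ => simp

end

/-- **Main theorem of the engine.** -/
theorem certificate {V : Type v} [GrAlg V] (hV : TF V) {Fs : List (ℕ × List (ℤ × Tree))}
    (hF : ∀ f ∈ Fs, SuperId V f.2) {T : Tab} {D cT : ℤ} {m lo s : ℕ}
    {ds : List (ℕ × Bool × ℕ × ℕ)} {top : List (ℤ × ℕ × List ℕ)} {target : List (ℤ × Tree)}
    {P : ℕ → V} (hP : ∀ i, Hom (parMask m i) (P i))
    (h1 : defsOk m lo ds = true)
    (h2 : ∀ n : Node, T.Mem n → (n.name, n.o, n.i, n.j) ∈ ds)
    (h3 : ∀ n : Node, T.Mem n → n.check T D (parMask m) Fs = true) (hD : smooth D = true)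
    (h4 : topCheck T D (parMask m) Fs top cT s target = true)
    (h5 : ∀ c ∈ target, ∀ i ∈ c.2.leaves, i < lo) :
    (target.map fun c => c.1 • c.2.ev (parMask m) P).sum = 0 := by
  set G := build (parMask m) ds P with hGdef
  have hG : ∀ i, Hom (parMask m i) (G i) := build_hom h1 P hP
  have hdef : ∀ n : Node, T.Mem n →
      G n.name = op n.o (parMask m n.i) (parMask m n.j) (G n.i) (G n.j) := fun n hn =>
    build_mem h1 P (h2 n hn)
  have hT := table_valid hV hG hF hdef h3 1000000
  unfold topCheck at h4
  cases hi : instV T D 1000000 (parMask m) Fs top []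
  · rw [hi] at h4
    simp at h4
  rename_i tot
  rw [hi] at h4
  simp only at h4
  cases hi' : polyV T D 1000000 (parMask m) (fun n => n) false s cT target tot
  · rw [hi'] at h4
    simp at h4
  rename_i tot'
  rw [hi'] at h4
  simp only [Bool.and_eq_true] at h4
  have e1 := instV_sound hV hT hG hF _ hi
  have e2 := polyV_sound hV hT _ _ _ _ _ hi'
  rw [lc_allZero G h4.2, e1] at e2
  simp only [lc, List.map_nil, List.sum_nil, zero_add, Bool.false_and, sg_false] at e2
  have e3 : (target.map fun c => c.1 • c.2.ev (parMask m) P) =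
      (target.map fun c => c.1 • c.2.ev (fun n => parMask m n) (fun n => G n)) := by
    refine List.map_congr_left fun c hc => ?_
    congr 1
    refine Tree.ev_congr (fun _ _ => rfl) fun i hi => ?_
    exact (build_lt h1 P (h5 c hc i hi)).symm
  rw [e3]
  have key : ∀ (s : ℕ) (z : V), D ^ s • z = 0 → z = 0 := by
    intro s
    induction s with
    | zero => intro z hz; simpa using hz
    | succ s ih =>
      intro z hz
      rw [pow_succ, mul_smul] at hz
      exact TF.smooth hV hD (ih _ hz)
  rw [mul_smul] at e2
  exact key s _ (TF.smooth hV h4.1 e2.symm)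

end H85.FA
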