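import Pool.Agent.H85.FA.Nuc

/-!
# MP_273d7a_al, module D : the structural reduction
-/

set_option linter.unusedSectionVars false

namespace H85.FA

universe u v

section
variable {F : Type u} [Field F] {A : Type v} [NonUnitalNonAssocRing A] [Module F A]
  [IsScalarTower F A A] [SMulCommClass F A A]

/-- span of the products `d d'` -/
def sqI (D : Submodule F A) : Submodule F A :=
  Submodule.span F {z | ∃ d ∈ D, ∃ d' ∈ D, z = d * d'}

/-- two-sided annihilator -/
def annI (J : Submodule F A) : Submodule F A where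
  carrier := {z | ∀ j ∈ J, z * j = 0 ∧ j * z = 0}
  add_mem' := by
    intro a b ha hb j hj
    simp [add_mul, mul_add, ha j hj, hb j hj]
  zero_mem' := by intro j _; simp
  smul_mem' := by
    intro c x hx j hj
    simp [smul_mul_assoc, mul_smul_comm, hx j hj]

/-- product of an ideal with itself is an ideal:
`(dd')a = (d,d',a) + d(d'a)`, `(d,d',a) = -(d,a,d') = -(da)d' + d(ad')`. -/
theorem sqI_isIdeal (hA : IsAlt A) {D : Submodule F A} (hD : IsIdeal D) : IsIdeal (sqI D) := by
  have hg : ∀ d ∈ D, ∀ d' ∈ D, d * d' ∈ sqI D := fun d hd d' hd' =>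
    Submodule.subset_span ⟨d, hd, d', hd', rfl⟩
  intro z hz
  induction hz using Submodule.span_induction with
  | mem z h =>
    obtain ⟨d, hd, d', hd', rfl⟩ := h
    intro a
    have e1 := ass23 hA d d' a
    have e2 := ass12 hA a d d'
    rw [associator_apply, associator_apply] at e1 e2
    have e1' : d * d' * a = d * (d' * a) + d * (a * d') - d * a * d' := by
      rw [sub_eq_iff_eq_add] at e1
      rw [e1]; abel
    have e2' : a * (d * d') = a * d * d' + d * a * d' - d * (a * d') := by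
      have e3 : a * (d * d') = a * d * d' - (a * d * d' - a * (d * d')) := by abel
      rw [e3, e2]; abel
    constructor
    · rw [e2']
      exact (sqI D).sub_mem ((sqI D).add_mem (hg _ (hD d hd a).1 _ hd')
        (hg _ (hD d hd a).2 _ hd')) (hg _ hd _ (hD d' hd' a).1)
    · rw [e1']
      exact (sqI D).sub_mem ((sqI D).add_mem (hg _ hd _ (hD d' hd' a).2)
        (hg _ hd _ (hD d' hd' a).1)) (hg _ (hD d hd a).2 _ hd')
  | zero =>
    intro a
    rw [mul_zero, zero_mul]
    exact ⟨(sqI D).zero_mem, (sqI D).zero_mem⟩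
  | add x y _ _ hx hy =>
    intro a
    rw [mul_add, add_mul]
    exact ⟨(sqI D).add_mem (hx a).1 (hy a).1, (sqI D).add_mem (hx a).2 (hy a).2⟩
  | smul c x _ hx =>
    intro a
    rw [mul_smul_comm, smul_mul_assoc]
    exact ⟨(sqI D).smul_mem c (hx a).1, (sqI D).smul_mem c (hx a).2⟩

/-- `(za)j = (z,a,j) + z(aj) = -(z,j,a) = 0` etc. -/
theorem annI_isIdeal (hA : IsAlt A) {J : Submodule F A} (hJ : IsIdeal J) :
    IsIdeal (annI J) := by
  intro z hz a
  have h0 : ∀ j ∈ J, associator z j a = 0 := by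
    intro j hj
    rw [associator_apply, (hz j hj).1, (hz _ (hJ j hj a).2).1, zero_mul, sub_zero]
  have h1 : ∀ j ∈ J, associator z a j = 0 := by
    intro j hj
    rw [ass23 hA, h0 j hj, neg_zero]
  have h2 : ∀ j ∈ J, associator j z a = 0 := by
    intro j hj
    rw [ass12 hA, h0 j hj, neg_zero]
  have h3 : ∀ j ∈ J, associator a z j = 0 := by
    intro j hj
    rw [ass12 hA, h1 j hj, neg_zero]
  have h4 : ∀ j ∈ J, associator j a z = 0 := by
    intro j hj
    rw [ass13 hA, h1 j hj, neg_zero]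
  constructor
  · intro j hj
    constructor
    · have e := h3 j hj
      rw [associator_apply, (hz j hj).1, mul_zero, sub_zero] at e
      exact e
    · have e := h4 j hj
      rw [associator_apply, (hz _ (hJ j hj a).2).2, zero_sub, neg_eq_zero] at e
      exact e
  · intro j hj
    constructor
    · have e := h1 j hj
      rw [associator_apply, (hz _ (hJ j hj a).1).1, sub_zero] at e
      exact e
    · have e := h2 j hj
      rw [associator_apply, (hz j hj).2, zero_mul, zero_sub, neg_eq_zero] at e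
      exact e

/-- The ideal of the answer: `I₁ = D² ∩ Ann(D²)`. -/
def I1 (F : Type u) [Field F] (A : Type v) [NonUnitalNonAssocRing A] [Module F A]
    [IsScalarTower F A A] [SMulCommClass F A A] : Submodule F A :=
  sqI (DD F A) ⊓ annI (sqI (DD F A))

theorem I1_isIdeal (hA : IsAlt A) : IsIdeal (I1 F A) := by
  have h1 := sqI_isIdeal (F := F) hA (DD_isIdeal hA)
  intro x hx a
  exact ⟨⟨(h1 x hx.1 a).1, (annI_isIdeal hA h1 x hx.2 a).1⟩,
    ⟨(h1 x hx.1 a).2, (annI_isIdeal hA h1 x hx.2 a).2⟩⟩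

theorem I1_trivial {x y : A} (hx : x ∈ I1 F A) (hy : y ∈ I1 F A) : x * y = 0 :=
  (hx.2 y hy.1).1

/-- closed under derivations -/
theorem I1_der (δ : A →ₗ[F] A) (hδ : ∀ x y, δ (x * y) = δ x * y + x * δ y) {x : A}
    (hx : x ∈ I1 F A) : δ x ∈ I1 F A := by
  have hass : ∀ a b c : A, δ (associator a b c) =
      associator (δ a) b c + associator a (δ b) c + associator a b (δ c) := by
    intro a b c
    simp only [associator_apply, map_sub, hδ, add_mul, mul_add]
    abel
  have hassm : ∀ a b c d : A, associator a b c * d ∈ DD F A := fun a b c d =>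
    Submodule.subset_span (Or.inr ⟨a, b, c, d, rfl⟩)
  have hDD : ∀ d ∈ DD F A, δ d ∈ DD F A := by
    intro d hd
    induction hd using Submodule.span_induction with
    | mem z h =>
      rcases h with ⟨a, b, c, rfl⟩ | ⟨a, b, c, d, rfl⟩
      · rw [hass]
        exact (DD F A).add_mem ((DD F A).add_mem (ass_mem_DD _ _ _) (ass_mem_DD _ _ _))
          (ass_mem_DD _ _ _)
      · rw [hδ, hass, add_mul, add_mul]
        exact (DD F A).add_mem ((DD F A).add_mem ((DD F A).add_mem (hassm _ _ _ _)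
          (hassm _ _ _ _)) (hassm _ _ _ _)) (hassm _ _ _ _)
    | zero => rw [map_zero]; exact (DD F A).zero_mem
    | add x y _ _ hx hy => rw [map_add]; exact (DD F A).add_mem hx hy
    | smul c x _ hx => rw [map_smul]; exact (DD F A).smul_mem c hx
  have hsq : ∀ d ∈ sqI (DD F A), δ d ∈ sqI (DD F A) := by
    intro d hd
    induction hd using Submodule.span_induction with
    | mem z h =>
      obtain ⟨d, hd, d', hd', rfl⟩ := h
      rw [hδ]
      exact (sqI (DD F A)).add_mem (Submodule.subset_span ⟨_, hDD d hd, _, hd', rfl⟩)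
        (Submodule.subset_span ⟨_, hd, _, hDD d' hd', rfl⟩)
    | zero => rw [map_zero]; exact (sqI (DD F A)).zero_mem
    | add x y _ _ hx hy => rw [map_add]; exact (sqI (DD F A)).add_mem hx hy
    | smul c x _ hx => rw [map_smul]; exact (sqI (DD F A)).smul_mem c hx
  refine ⟨hsq x hx.1, fun j hj => ?_⟩
  have h1 := hδ x j
  have h2 := hδ j x
  rw [(hx.2 j hj).1, map_zero, (hx.2 _ (hsq j hj)).1, add_zero] at h1
  rw [(hx.2 j hj).2, map_zero, (hx.2 _ (hsq j hj)).2, zero_add] at h2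
  exact ⟨h1.symm, h2.symm⟩

/-- `K⁺ = {z : zD + Dz ⊆ K}` -/
def Kp (K : Submodule F A) : Submodule F A where
  carrier := {z | ∀ d ∈ DD F A, z * d ∈ K ∧ d * z ∈ K}
  add_mem' := by
    intro a b ha hb d hd
    exact ⟨by rw [add_mul]; exact K.add_mem (ha d hd).1 (hb d hd).1,
      by rw [mul_add]; exact K.add_mem (ha d hd).2 (hb d hd).2⟩
  zero_mem' := by intro d _; simp
  smul_mem' := by
    intro c x hx d hd
    exact ⟨by rw [smul_mul_assoc]; exact K.smul_mem c (hx d hd).1,
      by rw [mul_smul_comm]; exact K.smul_mem c (hx d hd).2⟩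

/-- `(za)d = -(z,d,a) + z(ad)`, etc. -/
theorem Kp_isIdeal (hA : IsAlt A) {K : Submodule F A} (hK : IsIdeal K) : IsIdeal (Kp K) := by
  intro z hz a
  have hD := DD_isIdeal (F := F) hA
  have h0 : ∀ d ∈ DD F A, associator z d a ∈ K := by
    intro d hd
    rw [associator_apply]
    exact K.sub_mem (hK _ (hz d hd).1 a).2 (hz _ (hD d hd a).2).1
  have h1 : ∀ d ∈ DD F A, associator z a d ∈ K := by
    intro d hd
    rw [ass23 hA]
    exact K.neg_mem (h0 d hd)
  have h2 : ∀ d ∈ DD F A, associator d z a ∈ K := by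
    intro d hd
    rw [ass12 hA]
    exact K.neg_mem (h0 d hd)
  have h3 : ∀ d ∈ DD F A, associator a z d ∈ K := by
    intro d hd
    rw [ass12 hA]
    exact K.neg_mem (h1 d hd)
  have h4 : ∀ d ∈ DD F A, associator d a z ∈ K := by
    intro d hd
    rw [ass13 hA]
    exact K.neg_mem (h1 d hd)
  constructor
  · intro d hd
    constructor
    · have e : a * z * d = associator a z d + a * (z * d) := by rw [associator_apply]; abel
      rw [e]
      exact K.add_mem (h3 d hd) (hK _ (hz d hd).1 a).1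
    · have e : d * (a * z) = d * a * z - associator d a z := by rw [associator_apply]; abel
      rw [e]
      exact K.sub_mem (hz _ (hD d hd a).2).2 (h4 d hd)
  · intro d hd
    constructor
    · have e : z * a * d = associator z a d + z * (a * d) := by rw [associator_apply]; abel
      rw [e]
      exact K.add_mem (h1 d hd) (hz _ (hD d hd a).1).1
    · have e : d * (z * a) = d * z * a - associator d z a := by rw [associator_apply]; abel
      rw [e]
      exact K.sub_mem (hK _ (hz d hd).2 a).2 (h2 d hd)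

/-- the key step: if `(n,A,A) ⊆ K` then `[n,b] ∈ K⁺⁺`.
Apply `nuc_F7, nuc_F7', nuc_F8` in the quotient algebra `QAlg K hK` to the image of `n`
(nuclear there, all positions of `n` by `ass12` etc.); the image of `DD F A` lies in
`DD F (QAlg K hK)`. -/
theorem cm_mem_Kpp (hA : IsAlt A) (h2 : (2 : F) ≠ 0) (h3 : (3 : F) ≠ 0) {K : Submodule F A}
    (hK : IsIdeal K) {n : A} (hn : ∀ a b : A, associator n a b ∈ K) (b : A) :
    cm n b ∈ Kp (Kp K) := by
  have hQ : IsAlt (QAlg K hK) := QAlg.isAlt K hK hA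
  have hT : TF (QAlg K hK) := TF.of_module F h2 h3 _
  have hDm : ∀ d ∈ DD F A, QAlg.mk K hK d ∈ DD F (QAlg K hK) := by
    intro d hd
    induction hd using Submodule.span_induction with
    | mem z h =>
      rcases h with ⟨a, b, c, rfl⟩ | ⟨a, b, c, d, rfl⟩
      · rw [QAlg.mk_assoc]
        exact ass_mem_DD _ _ _
      · rw [QAlg.mk_mul, QAlg.mk_assoc]
        exact Submodule.subset_span (Or.inr ⟨_, _, _, _, rfl⟩)
    | zero => rw [map_zero]; exact Submodule.zero_mem _
    | add x y _ _ hx hy => rw [map_add]; exact Submodule.add_mem _ hx hy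
    | smul c x _ hx => rw [map_smul]; exact Submodule.smul_mem _ c hx
  have h0 : ∀ x y : QAlg K hK, associator (QAlg.mk K hK n) x y = 0 := by
    intro x y
    obtain ⟨a, rfl⟩ := QAlg.mk_surj K hK x
    obtain ⟨c, rfl⟩ := QAlg.mk_surj K hK y
    rw [← QAlg.mk_assoc, QAlg.mk_eq_zero]
    exact hn a c
  have hnuc : InNuc (QAlg.mk K hK n) := by
    intro x y
    refine ⟨h0 x y, ?_, ?_⟩
    · rw [ass12 hQ, h0, neg_zero]
    · rw [ass13 hQ, h0, neg_zero]
  have hy := nuc_cm hQ hnuc (QAlg.mk K hK b)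
  intro d hd
  have hd' := hDm d hd
  constructor
  · intro e he
    have he' := hDm e he
    constructor
    · rw [← QAlg.mk_eq_zero K hK, QAlg.mk_mul, QAlg.mk_mul, QAlg.mk_cm]
      have h4 := (hy (QAlg.mk K hK d) (QAlg.mk K hK e)).1
      rw [associator_apply, nuc_F7 hQ hT hnuc _ hd' he', sub_zero] at h4
      exact h4
    · rw [← QAlg.mk_eq_zero K hK, QAlg.mk_mul, QAlg.mk_mul, QAlg.mk_cm]
      exact nuc_F8 hQ hT hnuc _ hd' he'
  · intro e he
    have he' := hDm e he
    constructor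
    · rw [← QAlg.mk_eq_zero K hK, QAlg.mk_mul, QAlg.mk_mul, QAlg.mk_cm]
      have h4 := (hy (QAlg.mk K hK d) (QAlg.mk K hK e)).2.1
      rw [associator_apply, nuc_F8 hQ hT hnuc _ he' hd', sub_zero] at h4
      exact h4
    · rw [← QAlg.mk_eq_zero K hK, QAlg.mk_mul, QAlg.mk_mul, QAlg.mk_cm]
      have h4 := (hy (QAlg.mk K hK e) (QAlg.mk K hK d)).2.2
      rw [associator_apply, nuc_F7' hQ hT hnuc _ he' hd', zero_sub, neg_eq_zero] at h4
      exact h4

/-- `I₁ ⊆ N(A)` implies `I₁ D = D I₁ = 0`: `u(a,b,c) = (ua,b,c) = 0`, `u(sa) = (us)a = 0`, and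
similarly on the left (with `DD_eq_left`). -/
theorem I1_D (hA : IsAlt A) (hI : ∀ x ∈ I1 F A, InNuc x) {x d : A} (hx : x ∈ I1 F A)
    (hd : d ∈ DD F A) : x * d = 0 ∧ d * x = 0 := by
  have hid := I1_isIdeal (F := F) hA
  have n1 : ∀ u v : A, x * u * v = x * (u * v) := by
    intro u v
    have := (hI x hx u v).1
    rw [associator_apply, sub_eq_zero] at this
    exact this
  have n3 : ∀ u v : A, u * v * x = u * (v * x) := by
    intro u v
    have := (hI x hx u v).2.2
    rw [associator_apply, sub_eq_zero] at this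
    exact this
  have hl : ∀ a b c : A, x * associator a b c = 0 := by
    intro a b c
    have h1 := (hI _ (hid x hx a).2 b c).1
    rw [associator_apply, n1, n1, n1, ← mul_sub, ← associator_apply] at h1
    exact h1
  have hr : ∀ a b c : A, associator a b c * x = 0 := by
    intro a b c
    have h1 := (hI _ (hid x hx c).1 a b).2.2
    rw [associator_apply, ← n3 (a * b) c, ← n3 b c, ← n3 a (b * c), ← sub_mul,
      ← associator_apply] at h1
    exact h1
  constructor
  · induction hd using Submodule.span_induction with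
    | mem z h =>
      rcases h with ⟨a, b, c, rfl⟩ | ⟨a, b, c, d, rfl⟩
      · exact hl a b c
      · rw [← n1, hl, zero_mul]
    | zero => rw [mul_zero]
    | add u v _ _ hu hv => rw [mul_add, hu, hv, add_zero]
    | smul c u _ hu => rw [mul_smul_comm, hu, smul_zero]
  · rw [DD_eq_left hA] at hd
    induction hd using Submodule.span_induction with
    | mem z h =>
      rcases h with ⟨a, b, c, rfl⟩ | ⟨a, b, c, d, rfl⟩
      · exact hr a b c
      · rw [n3, hr, mul_zero]
    | zero => rw [zero_mul]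
    | add u v _ _ hu hv => rw [add_mul, hu, hv, add_zero]
    | smul c u _ hu => rw [smul_mul_assoc, hu, smul_zero]

/-- one step of the chain: if `I₁ ⊆ N(A)` and `K ∩ D² ⊆ I₁` then `K⁺ ∩ D² ⊆ I₁`.
For `f ∈ K⁺ ∩ D²` and `d ∈ D`: `fd, df ∈ K ∩ D² ⊆ I₁`, so `(fd)d' = 0` etc.;
`f(dd') = (fd)d' - (f,d,d') = (d,f,d') = (df)d' - d(fd') = 0`, similarly `(dd')f = 0`. -/
theorem Kp_step (hA : IsAlt A) (hI : ∀ x ∈ I1 F A, InNuc x) {K : Submodule F A}
    (hK : K ⊓ sqI (DD F A) ≤ I1 F A) : Kp K ⊓ sqI (DD F A) ≤ I1 F A := by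
  have hsq := sqI_isIdeal (F := F) hA (DD_isIdeal hA)
  rintro f ⟨hf1, hf2⟩
  have hl : ∀ d ∈ DD F A, f * d ∈ I1 F A := fun d hd => hK ⟨(hf1 d hd).1, (hsq f hf2 d).2⟩
  have hr : ∀ d ∈ DD F A, d * f ∈ I1 F A := fun d hd => hK ⟨(hf1 d hd).2, (hsq f hf2 d).1⟩
  have hmid : ∀ d ∈ DD F A, ∀ e ∈ DD F A, associator d f e = 0 := by
    intro d hd e he
    rw [associator_apply, (I1_D hA hI (hr d hd) he).1, (I1_D hA hI (hl e he) hd).2, sub_zero]
  refine ⟨hf2, fun j hj => ?_⟩
  induction hj using Submodule.span_induction with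
  | mem z h =>
    obtain ⟨d, hd, e, he, rfl⟩ := h
    constructor
    · have h1 := ass12 hA f d e
      rw [hmid d hd e he, neg_zero, associator_apply, (I1_D hA hI (hl d hd) he).1, zero_sub,
        neg_eq_zero] at h1
      exact h1
    · have h1 := ass23 hA d e f
      rw [hmid d hd e he, neg_zero, associator_apply, (I1_D hA hI (hr e he) hd).2, sub_zero] at h1
      exact h1
  | zero => rw [mul_zero, zero_mul]; exact ⟨rfl, rfl⟩
  | add u v _ _ hu hv =>
    rw [mul_add, add_mul, hu.1, hu.2, hv.1, hv.2, add_zero]; exact ⟨rfl, rfl⟩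
  | smul c u _ hu =>
    rw [mul_smul_comm, smul_mul_assoc, hu.1, hu.2, smul_zero]; exact ⟨rfl, rfl⟩

end

/-- `c(r₀,…,r₄;a) = Σ ± (r_i,r_j,r_k)∘(a,r_l,r_m)` over a list of signed index tuples -/
def ccL {R : Type*} [NonUnitalNonAssocRing R] (P : List (ℤ × ℕ × ℕ × ℕ × ℕ × ℕ)) (r : ℕ → R)
    (a : R) : R :=
  (P.map fun t => t.1 • jr (associator (r t.2.1) (r t.2.2.1) (r t.2.2.2.1))
    (associator a (r t.2.2.2.2.1) (r t.2.2.2.2.2))).sum

theorem ccL_mem {F : Type u} [Field F] {A : Type v} [NonUnitalNonAssocRing A] [Module F A]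
    [IsScalarTower F A A] [SMulCommClass F A A] (P : List (ℤ × ℕ × ℕ × ℕ × ℕ × ℕ)) (r : ℕ → A)
    (a : A) : ccL P r a ∈ sqI (DD F A) := by
  unfold ccL
  apply list_sum_mem
  intro z hz
  obtain ⟨t, _, rfl⟩ := List.mem_map.1 hz
  refine zsmul_mem ?_ _
  exact (sqI (DD F A)).add_mem
    (Submodule.subset_span ⟨_, ass_mem_DD _ _ _, _, ass_mem_DD _ _ _, rfl⟩)
    (Submodule.subset_span ⟨_, ass_mem_DD _ _ _, _, ass_mem_DD _ _ _, rfl⟩)

theorem ch_mk_ccL {F : Type u} [Field F] {A : Type v} [NonUnitalNonAssocRing A] [Module F A]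
    [IsScalarTower F A A] [SMulCommClass F A A] (K : Submodule F A) (hK : IsIdeal K)
    (P : List (ℤ × ℕ × ℕ × ℕ × ℕ × ℕ)) (r : ℕ → A) (a : A) :
    QAlg.mk K hK (ccL P r a) = ccL P (fun i => QAlg.mk K hK (r i)) (QAlg.mk K hK a) := by
  unfold ccL
  rw [map_list_sum, List.map_map]
  congr 1
  apply List.map_congr_left
  intro t _
  simp only [Function.comp, map_zsmul, QAlg.mk_jr, QAlg.mk_assoc]

theorem ch_two {F : Type u} [Field F] (h2 : (2 : F) ≠ 0) {A : Type v} [AddCommGroup A]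
    [Module F A] (K : Submodule F A) {x : A} (hx : x + x ∈ K) : x ∈ K := by
  have e : x = (2 : F)⁻¹ • (x + x) := by
    rw [← two_smul F x, smul_smul, inv_mul_cancel₀ h2, one_smul]
  rw [e]
  exact K.smul_mem _ hx

theorem ch_three {F : Type u} [Field F] (h3 : (3 : F) ≠ 0) {A : Type v} [AddCommGroup A]
    [Module F A] (K : Submodule F A) {x : A} (hx : x + x + x ∈ K) : x ∈ K := by
  have e : x = (3 : F)⁻¹ • (x + x + x) := by
    have e3 : x + x + x = (3 : F) • x := by
      have e4 : (3 : F) = 1 + 1 + 1 := by norm_num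
      rw [e4, add_smul, add_smul, one_smul]
    rw [e3, smul_smul, inv_mul_cancel₀ h3, one_smul]
  rw [e]
  exact K.smul_mem _ hx

/-- `Q1b`: in every alternative algebra in which all `h(a,b)` commute with everything,
`h(a,b)∘[c,d] = 0`. -/
def Q1b (F : Type u) [Field F] : Prop :=
  ∀ (B : Type v) [NonUnitalNonAssocRing B] [Module F B] [IsScalarTower F B B]
    [SMulCommClass F B B], IsAlt B → (∀ a b c : B, cm (hh a b) c = 0) →
    ∀ a b c d : B, jr (hh a b) (cm c d) = 0

/-- `Q2`: in every alternative algebra with `h = 0` the elements `c(r;a)` satisfy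
`(c,s,t) = 0`. -/
def Q2 (F : Type u) [Field F] (P : List (ℤ × ℕ × ℕ × ℕ × ℕ × ℕ)) : Prop :=
  ∀ (B : Type v) [NonUnitalNonAssocRing B] [Module F B] [IsScalarTower F B B]
    [SMulCommClass F B B], IsAlt B → (∀ a b : B, hh a b = 0) →
    ∀ (r : ℕ → B) (a s t : B), associator (ccL P r a) s t = 0

/-- The reduction.  Put `K₀ = 0`, `K_{i+1} = K_i⁺`.
`h(a,b)` is nuclear (`hh_nuc`), so `[h,c] ∈ K₂` (`cm_mem_Kpp` with `K = 0`); in `A/K₂` all `h`
are commuting, so by `Q1b` `h∘[c,d] ∈ K₂`, hence `2h[c,d] = h∘[c,d] + [h,[c,d]] ∈ K₂`,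
`h[c,d] ∈ K₂`; by `three_ass` `3h(c,d,e) = h[cd,e] - h(c[d,e]) - h([c,e]d) ∈ K₂`
(`h(c[d,e]) = (hc)[d,e] = ([h,c] + ch)[d,e]`, `(ch)[d,e] = c(h[d,e])`), so `hD ⊆ K₂`, `Dh ⊆ K₂`
and `h ∈ K₃`.  In `A/K₃`: `h = 0`, so `(c,s,t) ∈ K₃` by `Q2` and `[c,b] ∈ K₃⁺⁺ = K₅`
(`cm_mem_Kpp`).  `[c,b] ∈ D²` (`ccL_mem`, `sqI_isIdeal`), and `K_i ∩ D² ⊆ I₁` for all `i`
(`Kp_step`), so `[c,b] ∈ I₁ ⊆ N(A)`. -/
theorem reduction {F : Type u} [Field F] (h2 : (2 : F) ≠ 0) (h3 : (3 : F) ≠ 0)
    (P : List (ℤ × ℕ × ℕ × ℕ × ℕ × ℕ)) (hQ1b : Q1b.{u, v} F) (hQ2 : Q2.{u, v} F P)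
    {A : Type v} [NonUnitalNonAssocRing A] [Module F A]
    [IsScalarTower F A A] [SMulCommClass F A A] (hA : IsAlt A)
    (hI : ∀ x ∈ I1 F A, InNuc x) (r : ℕ → A) (a b : A) : InNuc (cm (ccL P r a) b) := by
  have hT : TF A := TF.of_module F h2 h3 A
  have hK0 : IsIdeal (⊥ : Submodule F A) := by
    intro i hi c
    rw [Submodule.mem_bot] at hi
    subst hi
    rw [mul_zero, zero_mul]
    exact ⟨Submodule.zero_mem _, Submodule.zero_mem _⟩
  have hK1 := Kp_isIdeal hA hK0
  have hK2 := Kp_isIdeal hA hK1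
  have hK3 := Kp_isIdeal hA hK2
  set K1 : Submodule F A := Kp ⊥ with hK1d
  set K2 : Submodule F A := Kp K1 with hK2d
  set K3 : Submodule F A := Kp K2 with hK3d
  -- h commutes modulo K2
  have hc : ∀ a b c : A, cm (hh a b) c ∈ K2 := by
    intro a b c
    refine cm_mem_Kpp hA h2 h3 hK0 (fun x y => ?_) c
    rw [(hh_nuc hA hT a b x y).1]
    exact Submodule.zero_mem _
  have hjr : ∀ a b c d : A, jr (hh a b) (cm c d) ∈ K2 := by
    intro a b c d
    have h4 := hQ1b (QAlg K2 hK2) (QAlg.isAlt K2 hK2 hA) (by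
      intro x y z
      obtain ⟨x, rfl⟩ := QAlg.mk_surj K2 hK2 x
      obtain ⟨y, rfl⟩ := QAlg.mk_surj K2 hK2 y
      obtain ⟨z, rfl⟩ := QAlg.mk_surj K2 hK2 z
      rw [← QAlg.mk_hh, ← QAlg.mk_cm, QAlg.mk_eq_zero]
      exact hc x y z) (QAlg.mk K2 hK2 a) (QAlg.mk K2 hK2 b) (QAlg.mk K2 hK2 c) (QAlg.mk K2 hK2 d)
    rw [← QAlg.mk_hh, ← QAlg.mk_cm, ← QAlg.mk_jr, QAlg.mk_eq_zero] at h4
    exact h4
  have hcm : ∀ a b c d : A, hh a b * cm c d ∈ K2 := by
    intro a b c d
    apply ch_two h2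
    have e : hh a b * cm c d + hh a b * cm c d = jr (hh a b) (cm c d) + cm (hh a b) (cm c d) := by
      unfold jr
      rw [show cm (hh a b) (cm c d) = hh a b * cm c d - cm c d * hh a b from rfl]
      abel
    rw [e]
    exact K2.add_mem (hjr a b c d) (hc a b _)
  have hass : ∀ a b c d e : A, hh a b * associator c d e ∈ K2 := by
    intro a b c d e
    apply ch_three h3
    have hn := hh_nuc hA hT a b
    have e1 : hh a b * (c * cm d e) = cm (hh a b) c * cm d e + c * (hh a b * cm d e) := by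
      have e2 := (hn c (cm d e)).1
      have e3 := (hn c (cm d e)).2.1
      rw [associator_apply, sub_eq_zero] at e2 e3
      rw [← e2, ← e3, ← add_mul]
      congr 1
      unfold cm
      abel
    have e2 : hh a b * (cm c e * d) = hh a b * cm c e * d := by
      have e2 := (hn (cm c e) d).1
      rw [associator_apply, sub_eq_zero] at e2
      exact e2.symm
    have e3 := congrArg (fun z => hh a b * z) (three_ass hA c d e)
    simp only [mul_sub, mul_add] at e3
    rw [← e3, e1, e2]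
    exact K2.sub_mem (K2.sub_mem (hcm _ _ _ _) (K2.add_mem (hK2 _ (hc a b c) _).2
      (hK2 _ (hcm a b d e) _).1)) (hK2 _ (hcm a b c e) _).2
  have hh3 : ∀ a b : A, hh a b ∈ K3 := by
    intro a b d hd
    have h5 : hh a b * d ∈ K2 := by
      induction hd using Submodule.span_induction with
      | mem z h =>
        rcases h with ⟨x, y, z, rfl⟩ | ⟨x, y, z, w, rfl⟩
        · exact hass a b x y z
        · have e2 := (hh_nuc hA hT a b (associator x y z) w).1
          rw [associator_apply, sub_eq_zero] at e2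
          rw [← e2]
          exact (hK2 _ (hass a b x y z) w).2
      | zero => rw [mul_zero]; exact K2.zero_mem
      | add u v _ _ hu hv => rw [mul_add]; exact K2.add_mem hu hv
      | smul c u _ hu => rw [mul_smul_comm]; exact K2.smul_mem c hu
    refine ⟨h5, ?_⟩
    have e : d * hh a b = hh a b * d - cm (hh a b) d := by unfold cm; abel
    rw [e]
    exact K2.sub_mem h5 (hc a b d)
  have hcass : ∀ s t : A, associator (ccL P r a) s t ∈ K3 := by
    intro s t
    have h4 := hQ2 (QAlg K3 hK3) (QAlg.isAlt K3 hK3 hA) (by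
      intro x y
      obtain ⟨x, rfl⟩ := QAlg.mk_surj K3 hK3 x
      obtain ⟨y, rfl⟩ := QAlg.mk_surj K3 hK3 y
      rw [← QAlg.mk_hh, QAlg.mk_eq_zero]
      exact hh3 x y) (fun i => QAlg.mk K3 hK3 (r i)) (QAlg.mk K3 hK3 a) (QAlg.mk K3 hK3 s)
      (QAlg.mk K3 hK3 t)
    rw [← ch_mk_ccL, ← QAlg.mk_assoc, QAlg.mk_eq_zero] at h4
    exact h4
  have h5 := cm_mem_Kpp hA h2 h3 hK3 hcass b
  have hs0 : (⊥ : Submodule F A) ⊓ sqI (DD F A) ≤ I1 F A := by
    rw [bot_inf_eq]; exact bot_le
  have hs5 := Kp_step hA hI (Kp_step hA hI (Kp_step hA hI (Kp_step hA hI (Kp_step hA hI hs0))))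
  have h6 : cm (ccL P r a) b ∈ sqI (DD F A) := by
    have h7 := sqI_isIdeal hA (DD_isIdeal hA) _ (ccL_mem (F := F) P r a) b
    unfold cm
    exact Submodule.sub_mem _ h7.2 h7.1
  exact hI _ (hs5 ⟨h5, h6⟩)

end H85.FA
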