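import Pool.Agent.H85.FA.Tree

/-!
# MP_273d7a_al, module E : the doubling `Dbl V = V + V e`, second components, the Up theorem
-/

set_option linter.unusedSectionVars false

namespace H85.FA

universe v

/-! ### doubling -/

/-- `V ⊕ V e` -/
def Dbl (V : Type v) : Type v := V × V

section Dbl

variable {V : Type v} [GrAlg V]

instance : AddCommGroup (Dbl V) := inferInstanceAs (AddCommGroup (V × V))

instance : Mul (Dbl V) := ⟨fun p q => (p.1 * q.1, p.1 * q.2 + p.2 * bar q.1)⟩

theorem Dbl.ext {p q : Dbl V} (h1 : p.1 = q.1) (h2 : p.2 = q.2) : p = q := Prod.ext h1 h2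

theorem Dbl.add_fst (p q : Dbl V) : (p + q).1 = p.1 + q.1 := rfl
theorem Dbl.add_snd (p q : Dbl V) : (p + q).2 = p.2 + q.2 := rfl
theorem Dbl.neg_fst (p : Dbl V) : (-p).1 = - p.1 := rfl
theorem Dbl.neg_snd (p : Dbl V) : (-p).2 = - p.2 := rfl
theorem Dbl.sub_fst (p q : Dbl V) : (p - q).1 = p.1 - q.1 := rfl
theorem Dbl.sub_snd (p q : Dbl V) : (p - q).2 = p.2 - q.2 := rfl
theorem Dbl.zero_fst : (0 : Dbl V).1 = 0 := rfl
theorem Dbl.zero_snd : (0 : Dbl V).2 = 0 := rfl
theorem Dbl.zsmul_fst (c : ℤ) (p : Dbl V) : (c • p).1 = c • p.1 := rfl
theorem Dbl.zsmul_snd (c : ℤ) (p : Dbl V) : (c • p).2 = c • p.2 := rfl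
theorem Dbl.mul_fst' (p q : Dbl V) : (p * q).1 = p.1 * q.1 := rfl
theorem Dbl.mul_snd' (p q : Dbl V) : (p * q).2 = p.1 * q.2 + p.2 * bar q.1 := rfl
theorem Dbl.sg_fst (b : Bool) (p : Dbl V) : (sg b p).1 = sg b p.1 := by
  cases b <;> rfl
theorem Dbl.sg_snd (b : Bool) (p : Dbl V) : (sg b p).2 = sg b p.2 := by
  cases b <;> rfl

/-- the double as a ring -/
instance : NonUnitalNonAssocRing (Dbl V) where
  left_distrib p q r := by
    refine Dbl.ext ?_ ?_
    · simp only [Dbl.mul_fst', Dbl.add_fst, mul_add]
    · simp only [Dbl.mul_snd', Dbl.add_fst, Dbl.add_snd, mul_add, map_add]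
      abel
  right_distrib p q r := by
    refine Dbl.ext ?_ ?_
    · simp only [Dbl.mul_fst', Dbl.add_fst, add_mul]
    · simp only [Dbl.mul_snd', Dbl.add_fst, Dbl.add_snd, add_mul]
      abel
  zero_mul p := by
    refine Dbl.ext ?_ ?_
    · simp only [Dbl.mul_fst', Dbl.zero_fst, zero_mul]
    · simp only [Dbl.mul_snd', Dbl.zero_fst, Dbl.zero_snd, zero_mul, add_zero]
  mul_zero p := by
    refine Dbl.ext ?_ ?_
    · simp only [Dbl.mul_fst', Dbl.zero_fst, mul_zero]
    · simp only [Dbl.mul_snd', Dbl.zero_fst, Dbl.zero_snd, mul_zero, add_zero, map_zero]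

instance : GrAlg (Dbl V) where
  bar := { toFun := fun p => (bar p.1, - bar p.2)
           map_zero' := by
             refine Dbl.ext ?_ ?_
             · simp only [Dbl.zero_fst, map_zero]
             · simp only [Dbl.zero_snd, map_zero, neg_zero]
           map_add' := by
             intro p q
             refine Dbl.ext ?_ ?_
             · simp only [Dbl.add_fst, map_add]
             · simp only [Dbl.add_snd, map_add, neg_add] }
  bar_mul p q := by
    refine Dbl.ext ?_ ?_
    · change bar (p.1 * q.1) = bar p.1 * bar q.1
      exact bar_mul _ _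
    · change - bar (p.1 * q.2 + p.2 * bar q.1) = bar p.1 * (- bar q.2) + (- bar p.2) * bar (bar q.1)
      rw [map_add, bar_mul, bar_mul, mul_neg, neg_mul, neg_add]

theorem Dbl.mul_fst (p q : Dbl V) : (p * q).1 = p.1 * q.1 := rfl
theorem Dbl.mul_snd (p q : Dbl V) : (p * q).2 = p.1 * q.2 + p.2 * bar q.1 := rfl
theorem Dbl.bar_fst (p : Dbl V) : (bar p : Dbl V).1 = bar p.1 := rfl
theorem Dbl.bar_snd (p : Dbl V) : (bar p : Dbl V).2 = - bar p.2 := rfl

theorem TF.dbl (h : TF V) : TF (Dbl V) := by
  constructor
  · intro x hx
    refine Dbl.ext (h.1 _ ?_) (h.1 _ ?_)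
    · exact congrArg Prod.fst hx
    · exact congrArg Prod.snd hx
  · intro x hx
    refine Dbl.ext (h.2 _ ?_) (h.2 _ ?_)
    · exact congrArg Prod.fst hx
    · exact congrArg Prod.snd hx

/-- `(p,p')` is homogeneous of parity `ε` iff `p` has parity `ε` and `p'` has parity `!ε` -/
theorem Dbl.hom_iff {ε : Bool} {p : Dbl V} : Hom ε p ↔ Hom ε p.1 ∧ Hom (!ε) p.2 := by
  unfold Hom
  constructor
  · intro h
    have h1 := congrArg Prod.fst h
    have h2 := congrArg Prod.snd h
    rw [Dbl.bar_fst, Dbl.sg_fst] at h1
    rw [Dbl.bar_snd, Dbl.sg_snd] at h2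
    refine ⟨h1, ?_⟩
    cases ε
    · simp only [sg_false, Bool.not_false, sg_true] at h2 ⊢
      exact neg_eq_iff_eq_neg.1 h2
    · simp only [sg_true, Bool.not_true, sg_false] at h2 ⊢
      exact neg_injective h2
  · rintro ⟨h1, h2⟩
    refine Dbl.ext ?_ ?_
    · rw [Dbl.bar_fst, Dbl.sg_fst, h1]
    · rw [Dbl.bar_snd, Dbl.sg_snd, h2]
      cases ε <;> simp

theorem Dbl.op_fst (o a b : Bool) (L R : Dbl V) : (op o a b L R).1 = op o a b L.1 R.1 := by
  unfold op
  rw [Dbl.add_fst, Dbl.sg_fst, Dbl.mul_fst, Dbl.mul_fst]

/-- `(L∘R)'= L∘R' ± L'∘R` -/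
theorem Dbl.op_snd {o a b : Bool} {L R : Dbl V} (hL : Hom a L.1) (hR : Hom b R.1) :
    (op o a b L R).2 = op o a (!b) L.1 R.2 + sg b (op o (!a) b L.2 R.1) := by
  unfold Hom at hL hR
  unfold op
  rw [Dbl.add_snd, Dbl.sg_snd, Dbl.mul_snd, Dbl.mul_snd, hL, hR]
  cases o <;> cases a <;> cases b <;> simp <;> abel

theorem Dbl.ass_fst (L M R : Dbl V) :
    (associator L M R).1 = associator L.1 M.1 R.1 := by
  unfold associator
  rw [Dbl.sub_fst]
  simp only [Dbl.mul_fst]

theorem Dbl.ass_snd {b c : Bool} {L M R : Dbl V} (hM : Hom b M.1) (hR : Hom c R.1) :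
    (associator L M R).2 = associator L.1 M.1 R.2 + sg c (associator L.1 M.2 R.1)
      + sg (xor b c) (associator L.2 M.1 R.1) := by
  unfold Hom at hM hR
  unfold associator
  rw [Dbl.sub_snd]
  simp only [Dbl.mul_snd, Dbl.mul_fst, bar_mul, hM, hR]
  cases b <;> cases c <;>
    simp only [sg_false, sg_true, Bool.xor_false, Bool.xor_true, Bool.not_false, Bool.not_true,
      mul_add, add_mul, mul_neg, neg_mul, neg_neg] <;> abel

theorem Dbl.ev_fst (ε : ℕ → Bool) (P : ℕ → Dbl V) (t : Tree) :
    (t.ev ε P).1 = t.ev ε (fun i => (P i).1) := by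
  induction t with
  | leaf n => rfl
  | bin o l r ihl ihr => simp only [Tree.ev, Dbl.op_fst, ihl, ihr]
  | ass l m r ihl ihm ihr => simp only [Tree.ev, Dbl.ass_fst, ihl, ihm, ihr]

/-- the letters of the word `l` after the first occurrence of `i` -/
def aft (i : ℕ) : List ℕ → List ℕ
  | [] => []
  | a :: l => if a = i then l else aft i l

theorem aft_append_of_mem {i : ℕ} {l m : List ℕ} (h : i ∈ l) : aft i (l ++ m) = aft i l ++ m := by
  induction l with
  | nil => simp at h
  | cons a l ih =>
    by_cases ha : a = i
    · simp [aft, ha]
    · have : i ∈ l := by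
        rcases List.mem_cons.1 h with h | h
        · exact absurd h.symm ha
        · exact h
      simp [aft, ha, ih this]

theorem aft_append_of_not_mem {i : ℕ} {l m : List ℕ} (h : i ∉ l) :
    aft i (l ++ m) = aft i m := by
  induction l with
  | nil => rfl
  | cons a l ih =>
    have ha : a ≠ i := fun e => h (e ▸ List.mem_cons_self)
    have h' : i ∉ l := fun e => h (List.mem_cons_of_mem _ e)
    simp [aft, ha, ih h']

theorem par_flip_of_not_mem {ε : ℕ → Bool} {l : List ℕ} {i : ℕ} (h : i ∉ l) (b : Bool) :
    par (Function.update ε i b) l = par ε l := by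
  refine par_congr fun j hj => ?_
  rw [Function.update_of_ne]
  rintro rfl
  exact h hj

theorem par_flip_of_mem {ε : ℕ → Bool} {l : List ℕ} (hl : l.Nodup) {i : ℕ} (h : i ∈ l) :
    par (Function.update ε i (!ε i)) l = !par ε l := by
  induction l with
  | nil => simp at h
  | cons a l ih =>
    rw [List.nodup_cons] at hl
    rcases List.mem_cons.1 h with h | h
    · subst h
      simp only [par, Function.update_self]
      rw [par_flip_of_not_mem hl.1]
      cases ε i <;> cases par ε l <;> rfl
    · have ha : a ≠ i := by
        rintro rfl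
        exact hl.1 h
      simp only [par, Function.update_of_ne ha, ih hl.2 h]
      cases ε a <;> cases par ε l <;> rfl

theorem map_sum_of_add {ι : Type*} {V W : Type*} [AddCommGroup V] [AddCommGroup W] (g : V → W)
    (h0 : g 0 = 0) (hadd : ∀ x y, g (x + y) = g x + g y) (l : List ι) (f : ι → V) :
    g ((l.map f).sum) = (l.map fun i => g (f i)).sum := by
  induction l with
  | nil => simpa using h0
  | cons a l ih => simp [hadd, ih]

theorem dop_add_left (o a b : Bool) (x y z : V) :
    op o a b (x + y) z = op o a b x z + op o a b y z := by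
  unfold op
  rw [add_mul, mul_add, sg_add]
  abel

theorem dop_add_right (o a b : Bool) (x y z : V) :
    op o a b x (y + z) = op o a b x y + op o a b x z := by
  unfold op
  rw [add_mul, mul_add, sg_add]
  abel

theorem dop_zero_left (o a b : Bool) (x : V) : op o a b 0 x = 0 := by
  unfold op
  simp

theorem dop_zero_right (o a b : Bool) (x : V) : op o a b x 0 = 0 := by
  unfold op
  simp

theorem dop_sg_left (o a b s : Bool) (x y : V) : op o a b (sg s x) y = sg s (op o a b x y) := by
  unfold op
  cases s
  · rfl
  · simp only [sg_true, neg_mul, mul_neg]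
    cases xor (!o) (a && b) <;> simp <;> abel

theorem dop_sg_right (o a b s : Bool) (x y : V) : op o a b x (sg s y) = sg s (op o a b x y) := by
  unfold op
  cases s
  · rfl
  · simp only [sg_true, neg_mul, mul_neg]
    cases xor (!o) (a && b) <;> simp <;> abel

theorem ass_sg_left (s : Bool) (x y z : V) :
    associator (sg s x) y z = sg s (associator x y z) := by
  cases s
  · rfl
  · simp only [sg_true, associator, neg_mul]
    abel

theorem ass_sg_mid (s : Bool) (x y z : V) :
    associator x (sg s y) z = sg s (associator x y z) := by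
  cases s
  · rfl
  · simp only [sg_true, associator, neg_mul, mul_neg]
    abel

theorem ass_sg_right (s : Bool) (x y z : V) :
    associator x y (sg s z) = sg s (associator x y z) := by
  cases s
  · rfl
  · simp only [sg_true, associator, mul_neg]
    abel

/-- **Second component of a multilinear tree.**  Induction on `t` with `Dbl.op_snd`,
`Dbl.ass_snd`, `Dbl.ev_fst`, `Tree.hom_ev`.  For `t = bin o l r` and `i ∈ leaves r`: `i ∉ leaves l`,
so `l` has the same value for the new arguments (`Tree.ev_congr`), the parity of `r` changes,
and `aft i (leaves l ++ leaves r) = aft i (leaves r)`; for `i ∈ leaves l` the sign of `aft`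
changes by `par ε (leaves r)`. -/
theorem Dbl.ev_snd {ε : ℕ → Bool} {P : ℕ → Dbl V} (hP : ∀ i, Hom (ε i) (P i)) (t : Tree)
    (ht : t.leaves.Nodup) :
    (t.ev ε P).2 = (t.leaves.map fun i => sg (par ε (aft i t.leaves))
      (t.ev (Function.update ε i (!ε i)) (Function.update (fun j => (P j).1) i (P i).2))).sum := by
  have hsame : ∀ (t : Tree) (i : ℕ), i ∉ t.leaves →
      t.ev (Function.update ε i (!ε i)) (Function.update (fun j => (P j).1) i (P i).2) =
        t.ev ε (fun j => (P j).1) := by
    intro t i hi
    refine Tree.ev_congr ?_ ?_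
    · intro j hj
      rw [Function.update_of_ne]
      rintro rfl
      exact hi hj
    · intro j hj
      rw [Function.update_of_ne]
      rintro rfl
      exact hi hj
  induction t with
  | leaf n =>
    simp [Tree.leaves, Tree.ev, aft, par]
  | bin o l r ihl ihr =>
    simp only [Tree.leaves] at ht
    rw [List.nodup_append'] at ht
    obtain ⟨hl, hr, hd⟩ := ht
    have ihl := ihl hl
    have ihr := ihr hr
    simp only [Tree.ev, Tree.leaves]
    rw [Dbl.op_snd (Dbl.hom_iff.1 (Tree.hom_ev hP l)).1 (Dbl.hom_iff.1 (Tree.hom_ev hP r)).1,
      ihl, ihr, List.map_append, List.sum_append, Dbl.ev_fst, Dbl.ev_fst, add_comm]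
    congr 1
    · rw [map_sum_of_add (fun x => sg (par ε r.leaves) (op o (!par ε l.leaves) (par ε r.leaves) x
        (r.ev ε fun j => (P j).1))) (by simp [dop_zero_left])
        (fun x y => by simp only [dop_add_left, sg_add])]
      refine congrArg List.sum (List.map_congr_left fun i hi => ?_)
      have hir : i ∉ r.leaves := fun h => hd hi h
      rw [dop_sg_left, sg_sg, aft_append_of_mem hi, par_append, par_flip_of_mem hl hi,
        par_flip_of_not_mem hir, hsame r i hir, Bool.xor_comm]
    · rw [map_sum_of_add (fun x => op o (par ε l.leaves) (!par ε r.leaves)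
        (l.ev ε fun j => (P j).1) x) (dop_zero_right _ _ _ _)
        (fun x y => dop_add_right _ _ _ _ _ _)]
      refine congrArg List.sum (List.map_congr_left fun i hi => ?_)
      have hil : i ∉ l.leaves := fun h => hd h hi
      rw [dop_sg_right, aft_append_of_not_mem hil, par_flip_of_mem hr hi,
        par_flip_of_not_mem hil, hsame l i hil]
  | ass l m r ihl ihm ihr =>
    simp only [Tree.leaves] at ht
    rw [List.nodup_append', List.nodup_append'] at ht
    obtain ⟨hl, ⟨hm, hr, hd2⟩, hd1⟩ := ht
    have ihl := ihl hl
    have ihm := ihm hm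
    have ihr := ihr hr
    simp only [Tree.ev, Tree.leaves]
    rw [Dbl.ass_snd (Dbl.hom_iff.1 (Tree.hom_ev hP m)).1 (Dbl.hom_iff.1 (Tree.hom_ev hP r)).1,
      ihl, ihm, ihr, List.map_append, List.sum_append, List.map_append, List.sum_append,
      Dbl.ev_fst, Dbl.ev_fst, Dbl.ev_fst]
    have e1 : sg (xor (par ε m.leaves) (par ε r.leaves))
        (associator (l.leaves.map fun i => sg (par ε (aft i l.leaves))
      (l.ev (Function.update ε i (!ε i)) (Function.update (fun j => (P j).1) i (P i).2))).sum
          (m.ev ε fun j => (P j).1) (r.ev ε fun j => (P j).1)) =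
        (l.leaves.map fun i => sg (par ε (aft i (l.leaves ++ (m.leaves ++ r.leaves))))
          (associator (l.ev (Function.update ε i (!ε i))
            (Function.update (fun j => (P j).1) i (P i).2))
          (m.ev (Function.update ε i (!ε i)) (Function.update (fun j => (P j).1) i (P i).2))
          (r.ev (Function.update ε i (!ε i))
            (Function.update (fun j => (P j).1) i (P i).2)))).sum := by
      rw [map_sum_of_add (fun x => sg (xor (par ε m.leaves) (par ε r.leaves))
        (associator x (m.ev ε fun j => (P j).1) (r.ev ε fun j => (P j).1)))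
        (by simp [associator])
        (fun x y => by
          rw [← sg_add]
          congr 1
          simp only [associator, add_mul]
          abel)]
      refine congrArg List.sum (List.map_congr_left fun i hi => ?_)
      have hi2 : i ∉ m.leaves ++ r.leaves := fun h => hd1 hi h
      rw [List.mem_append, not_or] at hi2
      rw [ass_sg_left, sg_sg, aft_append_of_mem hi, par_append, par_append,
        hsame m i hi2.1, hsame r i hi2.2, Bool.xor_comm]
    have e2 : sg (par ε r.leaves)
        (associator (l.ev ε fun j => (P j).1) (m.leaves.map fun i => sg (par ε (aft i m.leaves))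
      (m.ev (Function.update ε i (!ε i)) (Function.update (fun j => (P j).1) i (P i).2))).sum
          (r.ev ε fun j => (P j).1)) =
        (m.leaves.map fun i => sg (par ε (aft i (l.leaves ++ (m.leaves ++ r.leaves))))
          (associator (l.ev (Function.update ε i (!ε i))
            (Function.update (fun j => (P j).1) i (P i).2))
          (m.ev (Function.update ε i (!ε i)) (Function.update (fun j => (P j).1) i (P i).2))
          (r.ev (Function.update ε i (!ε i))
            (Function.update (fun j => (P j).1) i (P i).2)))).sum := by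
      rw [map_sum_of_add (fun x => sg (par ε r.leaves)
        (associator (l.ev ε fun j => (P j).1) x (r.ev ε fun j => (P j).1)))
        (by simp [associator])
        (fun x y => by
          rw [← sg_add]
          congr 1
          simp only [associator, add_mul, mul_add]
          abel)]
      refine congrArg List.sum (List.map_congr_left fun i hi => ?_)
      have hil : i ∉ l.leaves := fun h => hd1 h (List.mem_append_left _ hi)
      have hir : i ∉ r.leaves := fun h => hd2 hi h
      rw [ass_sg_mid, sg_sg, aft_append_of_not_mem hil, aft_append_of_mem hi, par_append,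
        hsame l i hil, hsame r i hir, Bool.xor_comm]
    have e3 : associator (l.ev ε fun j => (P j).1) (m.ev ε fun j => (P j).1)
          (r.leaves.map fun i => sg (par ε (aft i r.leaves))
      (r.ev (Function.update ε i (!ε i)) (Function.update (fun j => (P j).1) i (P i).2))).sum =
        (r.leaves.map fun i => sg (par ε (aft i (l.leaves ++ (m.leaves ++ r.leaves))))
          (associator (l.ev (Function.update ε i (!ε i))
            (Function.update (fun j => (P j).1) i (P i).2))
          (m.ev (Function.update ε i (!ε i)) (Function.update (fun j => (P j).1) i (P i).2))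
          (r.ev (Function.update ε i (!ε i))
            (Function.update (fun j => (P j).1) i (P i).2)))).sum := by
      rw [map_sum_of_add (fun x =>
        (associator (l.ev ε fun j => (P j).1) (m.ev ε fun j => (P j).1) x))
        (by simp [associator])
        (fun x y => by
          simp only [associator, mul_add]
          abel)]
      refine congrArg List.sum (List.map_congr_left fun i hi => ?_)
      have hil : i ∉ l.leaves := fun h => hd1 h (List.mem_append_right _ hi)
      have him : i ∉ m.leaves := fun h => hd2 h hi
      rw [ass_sg_right, aft_append_of_not_mem hil, aft_append_of_not_mem him,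
        hsame l i hil, hsame m i him]
    rw [e1, e2, e3]
    abel

theorem par_split {ε : ℕ → Bool} {l : List ℕ} {a : ℕ} (h : a ∉ l) :
    par ε l = xor (par ε (l.filter fun b => b < a)) (par ε (l.filter fun b => a < b)) := by
  induction l with
  | nil => rfl
  | cons c l ih =>
    rw [List.mem_cons, not_or] at h
    have ih := ih h.2
    rcases lt_or_gt_of_ne h.1 with h1 | h1
    · have h2 : ¬ c < a := by omega
      simp only [par, h1, h2, ih, List.filter_cons, decide_true, decide_false, if_true,
        Bool.false_eq_true, if_false]
      exact Bool.xor_left_comm _ _ _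
    · have h2 : ¬ a < c := by omega
      simp [par, h1, h2, ih]

/-- **Sign lemma.**  Induction on `l`. -/
theorem ks_flip {ε : ℕ → Bool} {l : List ℕ} (hl : l.Nodup) {i : ℕ} (hi : i ∈ l) :
    ks (Function.update ε i (!ε i)) l
      = xor (ks ε l) (xor (par ε (aft i l)) (par ε (l.filter fun j => i < j))) := by
  induction l with
  | nil => simp at hi
  | cons a l ih =>
    rw [List.nodup_cons] at hl
    by_cases ha : a = i
    · subst ha
      have h1 : ks (Function.update ε a (!ε a)) l = ks ε l := by
        refine ks_congr fun j hj => ?_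
        rw [Function.update_of_ne]
        rintro rfl
        exact hl.1 hj
      have h2 : a ∉ l.filter fun b => b < a := fun h => hl.1 (List.mem_of_mem_filter h)
      simp only [ks, Function.update_self, h1, par_flip_of_not_mem h2, aft, if_true]
      rw [par_split hl.1]
      have h3 : (a :: l).filter (fun j => decide (a < j)) = l.filter fun j => decide (a < j) := by
        simp
      rw [h3]
      generalize par ε (l.filter fun b => decide (b < a)) = x
      generalize par ε (l.filter fun b => decide (a < b)) = y
      generalize ks ε l = z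
      generalize ε a = w
      revert x y z w
      decide
    · have hi' : i ∈ l := by
        rcases List.mem_cons.1 hi with h | h
        · exact absurd h.symm ha
        · exact h
      simp only [ks, Function.update_of_ne ha, aft, if_neg ha, ih hl.2 hi']
      rcases lt_or_gt_of_ne ha with h1 | h1
      · -- a < i
        have h2 : i ∉ l.filter fun b => decide (b < a) := by
          intro h
          have := List.of_mem_filter h
          simp at this
          omega
        have h3 : (a :: l).filter (fun j => decide (i < j)) = l.filter fun j => decide (i < j) := by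
          have : ¬ i < a := by omega
          simp [this]
        rw [par_flip_of_not_mem h2, h3]
        generalize par ε (l.filter fun b => decide (b < a)) = x
        generalize par ε (l.filter fun b => decide (i < b)) = y
        generalize ks ε l = z
        generalize ε a = w
        generalize par ε (aft i l) = u
        revert x y z w u
        decide
      · have h2 : i ∈ l.filter fun b => decide (b < a) := by
          rw [List.mem_filter]
          exact ⟨hi', by simpa using h1⟩
        have h3 : (a :: l).filter (fun j => decide (i < j)) =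
            a :: l.filter fun j => decide (i < j) := by
          simp [h1]
        rw [par_flip_of_mem (hl.2.filter _) h2, h3]
        simp only [par]
        generalize par ε (l.filter fun b => decide (b < a)) = x
        generalize par ε (l.filter fun b => decide (i < b)) = y
        generalize ks ε l = z
        generalize ε a = w
        generalize par ε (aft i l) = u
        revert x y z w u
        decide

theorem evP_fst (ε : ℕ → Bool) (P : ℕ → Dbl V) (f : List (ℤ × Tree)) :
    (evP ε P f).1 = evP ε (fun i => (P i).1) f := by
  unfold evP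
  induction f with
  | nil => rfl
  | cons c f ih =>
    rw [List.map_cons, List.sum_cons, List.map_cons, List.sum_cons, Dbl.add_fst, ih,
      Dbl.zsmul_fst, Dbl.sg_fst, Dbl.ev_fst]

theorem evP_snd {ε : ℕ → Bool} {P : ℕ → Dbl V} (hP : ∀ i, Hom (ε i) (P i)) {n : ℕ}
    {f : List (ℤ × Tree)} (hf : MLin n f) :
    (evP ε P f).2 = ((List.range n).map fun i =>
      sg (par ε ((List.range n).filter fun j => i < j))
        (evP (Function.update ε i (!ε i)) (Function.update (fun j => (P j).1) i (P i).2) f)).sum := by
  induction f with
  | nil =>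
    simp only [evP, List.map_nil, List.sum_nil, Dbl.zero_snd, sg_zero]
    simp
  | cons c f ih =>
    have hf' : MLin n f := fun d hd => hf d (List.mem_cons_of_mem _ hd)
    have hc : c.2.leaves.Perm (List.range n) := hf c List.mem_cons_self
    have ih := ih hf'
    unfold evP at ih ⊢
    simp only [List.map_cons, List.sum_cons]
    rw [Dbl.add_snd, ih]
    simp only [sg_add, List.sum_map_add]
    congr 1
    have hnd : c.2.leaves.Nodup := hc.nodup_iff.2 List.nodup_range
    rw [Dbl.zsmul_snd, Dbl.sg_snd, Dbl.ev_snd hP c.2 hnd]
    rw [map_sum_of_add (fun x => c.1 • sg (ks ε c.2.leaves) x) (by simp)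
      (fun x y => by rw [← smul_add, ← sg_add])]
    rw [← (hc.map _).sum_eq]
    refine congrArg List.sum (List.map_congr_left fun i hi => ?_)
    rw [sg_sg, sg_smul, sg_sg, ks_flip hnd hi]
    have h1 : par ε ((List.range n).filter fun j => decide (i < j)) =
        par ε (c.2.leaves.filter fun j => decide (i < j)) := par_perm ε (hc.symm.filter _)
    rw [h1]
    congr 2
    generalize par ε (c.2.leaves.filter fun j => decide (i < j)) = x
    generalize ks ε c.2.leaves = z
    generalize par ε (aft i c.2.leaves) = u
    revert x z u
    decide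

/-- **Up theorem**: multilinear super-identities pass to the double.  The first component is
`Dbl.ev_fst`.  The second component is the sum over `i < n` of
`± evP (update ε i) (update P i) f`, the sign being `par ε ((List.range n).filter (i < ·))`
(`Dbl.ev_snd`, `ks_flip`, interchange of the sums over `c ∈ f` and `i < n`; `List.Perm.sum_eq`,
`par_perm`, `List.Perm.filter`). -/
theorem SuperId.dbl {n : ℕ} {f : List (ℤ × Tree)} (hf : MLin n f) (h : SuperId V f) :
    SuperId (Dbl V) f := by
  intro ε P hP
  refine Dbl.ext ?_ ?_
  · rw [evP_fst, Dbl.zero_fst]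
    exact h ε _ fun i => (Dbl.hom_iff.1 (hP i)).1
  · rw [evP_snd hP hf, Dbl.zero_snd]
    refine List.sum_eq_zero fun x hx => ?_
    rw [List.mem_map] at hx
    obtain ⟨i, _, rfl⟩ := hx
    have h1 : evP (Function.update ε i (!ε i))
        (Function.update (fun j => (P j).1) i (P i).2) f = 0 := by
      refine h _ _ fun j => ?_
      by_cases hj : j = i
      · subst hj
        rw [Function.update_self, Function.update_self]
        exact (Dbl.hom_iff.1 (hP j)).2
      · rw [Function.update_of_ne hj, Function.update_of_ne hj]
        exact (Dbl.hom_iff.1 (hP j)).1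
    rw [h1, sg_zero]

end Dbl

end H85.FA
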