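import Pool.Agent.H85.FA.Dbl

/-!
# MP_273d7a_al, module E : derivatives of trees with repeated leaves, the Down theorem
-/

set_option linter.unusedSectionVars false

namespace H85.FA

universe v

/-! ### derivatives of trees with repeated leaves -/

/-- replace one leaf `x` by `y` in all possible ways; sign: parity of the leaves after it -/
def Tree.der (ε : ℕ → Bool) (x y : ℕ) : Tree → List (Bool × Tree)
  | .leaf n => if n = x then [(false, .leaf y)] else []
  | .bin o l r =>
      (r.der ε x y).map (fun c => (c.1, .bin o l c.2)) ++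
      (l.der ε x y).map (fun c => (xor c.1 (par ε r.leaves), .bin o c.2 r))
  | .ass l m r =>
      (r.der ε x y).map (fun c => (c.1, .ass l m c.2)) ++
      ((m.der ε x y).map (fun c => (xor c.1 (par ε r.leaves), .ass l c.2 r)) ++
      (l.der ε x y).map (fun c => (xor c.1 (xor (par ε m.leaves) (par ε r.leaves)),
        .ass c.2 m r)))

/-- derivative of a signed sum of trees -/
def derL (ε : ℕ → Bool) (x y : ℕ) (L : List (Bool × Tree)) : List (Bool × Tree) :=
  L.flatMap fun c => (c.2.der ε x y).map fun d => (xor c.1 d.1, d.2)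

/-- trees occurring in `der` have the opposite parity (as `ε y = !ε x`) -/
theorem Tree.par_der {ε : ℕ → Bool} {x y : ℕ} (hy : ε y = !ε x) (t : Tree) :
    ∀ c ∈ t.der ε x y, par ε c.2.leaves = !par ε t.leaves := by
  induction t with
  | leaf n =>
    intro c hc
    unfold Tree.der at hc
    split_ifs at hc with h
    · rw [List.mem_singleton] at hc
      subst hc
      subst h
      simp only [Tree.leaves, par, hy]
      cases ε n <;> rfl
    · simp at hc
  | bin o l r ihl ihr =>
    intro c hc
    unfold Tree.der at hc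
    rw [List.mem_append, List.mem_map, List.mem_map] at hc
    rcases hc with ⟨d, hd, rfl⟩ | ⟨d, hd, rfl⟩
    · simp only [Tree.leaves, par_append, ihr d hd]
      cases par ε l.leaves <;> cases par ε r.leaves <;> rfl
    · simp only [Tree.leaves, par_append, ihl d hd]
      cases par ε l.leaves <;> cases par ε r.leaves <;> rfl
  | ass l m r ihl ihm ihr =>
    intro c hc
    unfold Tree.der at hc
    rw [List.mem_append, List.mem_append, List.mem_map, List.mem_map, List.mem_map] at hc
    rcases hc with ⟨d, hd, rfl⟩ | ⟨d, hd, rfl⟩ | ⟨d, hd, rfl⟩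
    · simp only [Tree.leaves, par_append, ihr d hd]
      cases par ε l.leaves <;> cases par ε m.leaves <;> cases par ε r.leaves <;> rfl
    · simp only [Tree.leaves, par_append, ihm d hd]
      cases par ε l.leaves <;> cases par ε m.leaves <;> cases par ε r.leaves <;> rfl
    · simp only [Tree.leaves, par_append, ihl d hd]
      cases par ε l.leaves <;> cases par ε m.leaves <;> cases par ε r.leaves <;> rfl

section aux

variable {V : Type v} [GrAlg V]

theorem map_sg {W W' : Type*} [AddCommGroup W] [AddCommGroup W'] (g : W →+ W') (b : Bool)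
    (w : W) : g (sg b w) = sg b (g w) := by
  cases b <;> simp

theorem evL_nil (ε : ℕ → Bool) (P : ℕ → V) : evL ε P [] = 0 := rfl

theorem evL_append (ε : ℕ → Bool) (P : ℕ → V) (L M : List (Bool × Tree)) :
    evL ε P (L ++ M) = evL ε P L + evL ε P M := by
  unfold evL
  rw [List.map_append, List.sum_append]

/-- additive maps applied to signed sums of trees -/
theorem evL_map (ε : ℕ → Bool) (P : ℕ → V) (L : List (Bool × Tree)) (g : V →+ V) (b : Bool)
    (T : Tree → Tree) (hT : ∀ c ∈ L, (T c.2).ev ε P = g (c.2.ev ε P)) :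
    evL ε P (L.map fun c => (xor c.1 b, T c.2)) = sg b (g (evL ε P L)) := by
  induction L with
  | nil => simp [evL]
  | cons c L ih =>
    have h1 : evL ε P (List.map (fun c => (xor c.1 b, T c.2)) (c :: L)) =
        sg (xor c.1 b) ((T c.2).ev ε P) + evL ε P (List.map (fun c => (xor c.1 b, T c.2)) L) := by
      simp only [evL, List.map_cons, List.sum_cons]
    have h2 : evL ε P (c :: L) = sg c.1 (c.2.ev ε P) + evL ε P L := by
      simp only [evL, List.map_cons, List.sum_cons]
    rw [h1, h2, ih (fun d hd => hT d (List.mem_cons_of_mem _ hd)), hT c List.mem_cons_self,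
      map_add, sg_add, map_sg, sg_sg, Bool.xor_comm]

theorem evL_map' (ε : ℕ → Bool) (P : ℕ → V) (L : List (Bool × Tree)) (g : V →+ V)
    (T : Tree → Tree) (hT : ∀ c ∈ L, (T c.2).ev ε P = g (c.2.ev ε P)) :
    evL ε P (L.map fun c => (c.1, T c.2)) = g (evL ε P L) := by
  have := evL_map ε P L g false T hT
  simpa using this

/-- `op` is additive in the second argument -/
def opRight (o a b : Bool) (p : V) : V →+ V :=
  AddMonoidHom.mk' (fun q => op o a b p q) (by
    intro q q'
    simp only [op, mul_add, add_mul, sg_add]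
    abel)

/-- `op` is additive in the first argument -/
def opLeft (o a b : Bool) (q : V) : V →+ V :=
  AddMonoidHom.mk' (fun p => op o a b p q) (by
    intro p p'
    simp only [op, mul_add, add_mul, sg_add]
    abel)

/-- the associator as an additive map of the third argument -/
def assR (p q : V) : V →+ V :=
  AddMonoidHom.mk' (fun r => associator p q r) (by
    intro r r'
    simp only [associator, mul_add]
    abel)

/-- the associator as an additive map of the second argument -/
def assM (p r : V) : V →+ V :=
  AddMonoidHom.mk' (fun q => associator p q r) (by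
    intro r r'
    simp only [associator, mul_add, add_mul]
    abel)

/-- the associator as an additive map of the first argument -/
def assL (q r : V) : V →+ V :=
  AddMonoidHom.mk' (fun p => associator p q r) (by
    intro r r'
    simp only [associator, add_mul]
    abel)

/-- second component as an additive map -/
def Dbl.sndHom : Dbl V →+ V := AddMonoidHom.mk' (fun p => p.2) (fun _ _ => rfl)

theorem Hom.zero (b : Bool) : Hom b (0 : V) := by
  unfold Hom
  rw [map_zero, sg_zero]

end aux

/-- the arguments `(P i, δ_{ix} P y)` in the double -/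
def dpt {V : Type v} [GrAlg V] (x y : ℕ) (P : ℕ → V) : ℕ → Dbl V :=
  fun i => (P i, if i = x then P y else 0)

/-- **Derivative lemma**: the second component of the value at `(P i, δ_{ix} P y)`.
Induction on `t` with `Dbl.op_snd`, `Dbl.ass_snd`, `Dbl.ev_fst`, `Tree.par_der` and additivity
of `op` and `associator` in each argument. -/
theorem Dbl.ev_der {V : Type v} [GrAlg V] {ε : ℕ → Bool} {x y : ℕ} (hy : ε y = !ε x)
    {P : ℕ → V} (hP : ∀ i, Hom (ε i) (P i)) (t : Tree) :
    (t.ev ε (dpt x y P)).2 = evL ε P (t.der ε x y) := by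
  have hfst : ∀ t : Tree, (t.ev ε (dpt x y P)).1 = t.ev ε P :=
    fun t => Dbl.ev_fst ε (dpt x y P) t
  have hhom : ∀ t : Tree, Hom (par ε t.leaves) (t.ev ε (dpt x y P)).1 := by
    intro t
    rw [hfst]
    exact Tree.hom_ev hP t
  induction t with
  | leaf n =>
    unfold Tree.der
    by_cases h : n = x
    · rw [if_pos h]
      simp [Tree.ev, evL, h, dpt]
    · rw [if_neg h]
      simp [Tree.ev, evL, h, dpt]
  | bin o l r ihl ihr =>
    have h1 := Dbl.op_snd (o := o) (hhom l) (hhom r)
    have hR : evL ε P ((r.der ε x y).map (fun c => (c.1, Tree.bin o l c.2))) =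
        op o (par ε l.leaves) (!par ε r.leaves) (l.ev ε P) (evL ε P (r.der ε x y)) := by
      refine evL_map' ε P (r.der ε x y)
        (opRight o (par ε l.leaves) (!par ε r.leaves) (l.ev ε P)) (fun c => Tree.bin o l c) ?_
      intro c hc
      show op o (par ε l.leaves) (par ε c.2.leaves) (l.ev ε P) (c.2.ev ε P) =
        op o (par ε l.leaves) (!par ε r.leaves) (l.ev ε P) (c.2.ev ε P)
      rw [Tree.par_der hy r c hc]
    have hL : evL ε P ((l.der ε x y).map (fun c => (xor c.1 (par ε r.leaves), Tree.bin o c.2 r))) =
        sg (par ε r.leaves) (op o (!par ε l.leaves) (par ε r.leaves) (evL ε P (l.der ε x y))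
          (r.ev ε P)) := by
      refine evL_map ε P (l.der ε x y)
        (opLeft o (!par ε l.leaves) (par ε r.leaves) (r.ev ε P)) (par ε r.leaves)
        (fun c => Tree.bin o c r) ?_
      intro c hc
      show op o (par ε c.2.leaves) (par ε r.leaves) (c.2.ev ε P) (r.ev ε P) =
        op o (!par ε l.leaves) (par ε r.leaves) (c.2.ev ε P) (r.ev ε P)
      rw [Tree.par_der hy l c hc]
    unfold Tree.der
    rw [evL_append, hR, hL, ← ihl, ← ihr, ← hfst l, ← hfst r]
    exact h1
  | ass l m r ihl ihm ihr =>
    have h1 := Dbl.ass_snd (L := l.ev ε (dpt x y P)) (hhom m) (hhom r)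
    have hR : evL ε P ((r.der ε x y).map (fun c => (c.1, Tree.ass l m c.2))) =
        associator (l.ev ε P) (m.ev ε P) (evL ε P (r.der ε x y)) :=
      evL_map' ε P (r.der ε x y) (assR (l.ev ε P) (m.ev ε P)) (fun c => Tree.ass l m c)
        (fun c _ => rfl)
    have hM : evL ε P ((m.der ε x y).map
        (fun c => (xor c.1 (par ε r.leaves), Tree.ass l c.2 r))) =
        sg (par ε r.leaves) (associator (l.ev ε P) (evL ε P (m.der ε x y)) (r.ev ε P)) :=
      evL_map ε P (m.der ε x y) (assM (l.ev ε P) (r.ev ε P)) (par ε r.leaves)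
        (fun c => Tree.ass l c r) (fun c _ => rfl)
    have hL : evL ε P ((l.der ε x y).map
        (fun c => (xor c.1 (xor (par ε m.leaves) (par ε r.leaves)), Tree.ass c.2 m r))) =
        sg (xor (par ε m.leaves) (par ε r.leaves))
          (associator (evL ε P (l.der ε x y)) (m.ev ε P) (r.ev ε P)) :=
      evL_map ε P (l.der ε x y) (assL (m.ev ε P) (r.ev ε P))
        (xor (par ε m.leaves) (par ε r.leaves)) (fun c => Tree.ass c m r) (fun c _ => rfl)
    unfold Tree.der
    rw [evL_append, evL_append, hR, hM, hL, ← ihl, ← ihm, ← ihr, ← hfst l, ← hfst m, ← hfst r,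
      ← add_assoc]
    exact h1

/-- `V` has no 2,3-torsion and satisfies the super-identities `Fs` -/
def Good (Fs : List (List (ℤ × Tree))) (V : Type v) [GrAlg V] : Prop :=
  TF V ∧ ∀ f ∈ Fs, SuperId V f

theorem Good.dbl {Fs : List (List (ℤ × Tree))} (hF : ∀ f ∈ Fs, ∃ n, MLin n f)
    {V : Type v} [GrAlg V] (h : Good Fs V) : Good Fs (Dbl V) := by
  refine ⟨TF.dbl h.1, fun f hf => ?_⟩
  obtain ⟨n, hn⟩ := hF f hf
  exact SuperId.dbl hn (h.2 f hf)

/-- **Down theorem**: if the signed sum `L` vanishes in all good `V` for all homogeneous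
arguments of the parities `ε`, then so does its derivative: apply the hypothesis to `Dbl V` and
the arguments `(P i, δ_{ix} P y)` (homogeneous by `Dbl.hom_iff`) and take second components. -/
theorem down {Fs : List (List (ℤ × Tree))} (hF : ∀ f ∈ Fs, ∃ n, MLin n f)
    {ε : ℕ → Bool} {x y : ℕ} (hy : ε y = !ε x) {L : List (Bool × Tree)}
    (hL : ∀ (V : Type v) [GrAlg V], Good Fs V → ∀ P : ℕ → V, (∀ i, Hom (ε i) (P i)) →
      evL ε P L = 0) :
    ∀ (V : Type v) [GrAlg V], Good Fs V → ∀ P : ℕ → V, (∀ i, Hom (ε i) (P i)) →
      evL ε P (derL ε x y L) = 0 := by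
  intro V _ hV P hP
  have h1 := hL (Dbl V) (Good.dbl hF hV) (dpt x y P) (fun i => by
      rw [Dbl.hom_iff]
      refine ⟨hP i, ?_⟩
      show Hom (!ε i) (if i = x then P y else 0)
      by_cases h : i = x
      · rw [if_pos h, h, ← hy]
        exact hP y
      · rw [if_neg h]
        exact Hom.zero _)
  have key : ∀ L : List (Bool × Tree), evL ε P (derL ε x y L) =
      (Dbl.sndHom : Dbl V →+ V) (evL ε (dpt x y P) L) := by
    intro L
    induction L with
    | nil => simp [derL, evL]
    | cons c L ih =>
      have h2 : derL ε x y (c :: L) =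
          ((c.2.der ε x y).map fun d => (xor c.1 d.1, d.2)) ++ derL ε x y L := by
        simp only [derL, List.flatMap_cons]
      have h3 : evL ε (dpt x y P) (c :: L) =
          sg c.1 (c.2.ev ε (dpt x y P)) + evL ε (dpt x y P) L := by
        simp only [evL, List.map_cons, List.sum_cons]
      have h4 : evL ε P ((c.2.der ε x y).map fun d => (xor c.1 d.1, d.2)) =
          sg c.1 (evL ε P (c.2.der ε x y)) := by
        have h5 := evL_map ε P (c.2.der ε x y) (AddMonoidHom.id V) c.1 (fun t => t)
          (fun _ _ => rfl)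
        have h6 : ((c.2.der ε x y).map fun d => (xor c.1 d.1, d.2)) =
            ((c.2.der ε x y).map fun d => (xor d.1 c.1, d.2)) := by
          refine List.map_congr_left fun d _ => ?_
          rw [Bool.xor_comm]
        rw [h6]
        exact h5
      rw [h2, evL_append, h4, ih, h3, map_add, map_sg, ← Dbl.ev_der hy hP c.2]
      rfl
  rw [key, h1, map_zero]

end H85.FA
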