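import Pool.Agent.H85.FA.Tree

/-!
# MP_273d7a_al, module F : the certificate checker
-/

set_option linter.unusedSectionVars false

namespace H85.FA

universe v

/-- abbreviations for integer literals in certificates: `p n = n`, `n m = -(m+1)` -/
def p (k : ℕ) : ℤ := Int.ofNat k
@[inherit_doc p] def n (k : ℕ) : ℤ := Int.negSucc k

/-- sparse vectors: linear combinations of named elements -/
abbrev Vec := List (ℕ × ℤ)

/-- a node of the multiplication table: the symbol `(o,i,j)` (`i ≤ j`), its search key, its name,
its rank, its value `vec` (times `1/D`) and, if the rank is positive, the justification: a list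
of instances (coefficient, number of the identity, arguments) -/
structure Node where
  o : Bool
  i : ℕ
  j : ℕ
  key : ℕ
  name : ℕ
  rank : ℕ
  vec : Vec
  just : List (ℤ × ℕ × List ℕ)

/-- search tree -/
inductive Tab where
  | nil : Tab
  | node (n : Node) (l r : Tab) : Tab

/-- key of a symbol -/
def enc (o : Bool) (i j : ℕ) : ℕ := bif o then (i * 1024 + j) * 2 + 1 else (i * 1024 + j) * 2

/-- search for a key -/
def Tab.find (key : ℕ) : Tab → Option Node
  | .nil => none
  | .node n l r => bif Nat.blt key n.key then l.find key else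
      bif Nat.blt n.key key then r.find key else some n

/-- the value of the symbol `(o,i,j)` in terms of names: symbols of rank `< cur` by the table -/
def Tab.get (T : Tab) (D : ℤ) (cur : ℕ) (o : Bool) (i j : ℕ) : Option Vec :=
  (T.find (enc o i j)).bind fun n =>
    bif Nat.beq n.i i && (Nat.beq n.j j && !(xor n.o o)) then
      (bif Nat.blt n.rank cur then some n.vec else some [(n.name, D)])
    else none

/-- insertion loop of the merge -/
def insLoop (k : ℕ) (x : ℤ) (rest : Vec → Vec) : Vec → Vec
  | [] => (k, x) :: rest []
  | (k', x') :: w => bif Nat.blt k' k then (k', x') :: insLoop k x rest w else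
      bif Nat.beq k k' then (k, x + x') :: rest w else (k, x) :: rest ((k', x') :: w)

/-- `merge c u w = c • u + w` -/
def merge (c : ℤ) : Vec → Vec → Vec
  | [], w => w
  | (k, x) :: u, w => insLoop k (c * x) (merge c u) w

/-- `mulR g s i x v acc = acc + x • [e_i, v]`; `g i j` is the value of the symbol `[e_i,e_j]` for
`i ≤ j`, and `[e_j,e_i] = ±[e_i,e_j]` with the sign `s` -/
def mulR (g : ℕ → ℕ → Option Vec) (s : Bool) (i : ℕ) (x : ℤ) : Vec → Vec → Option Vec
  | [], acc => some acc
  | (j, y) :: v, acc =>
    bif Nat.blt i j then (g i j).bind fun w => mulR g s i x v (merge (x * y) w acc) else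
    bif Nat.beq i j then
      (bif s then mulR g s i x v acc else
        (g i j).bind fun w => mulR g s i x v (merge (x * y) w acc))
    else (g j i).bind fun w => mulR g s i x v (merge (bif s then -(x * y) else x * y) w acc)

/-- `mulV g s u v acc = acc + [u, v]` -/
def mulV (g : ℕ → ℕ → Option Vec) (s : Bool) : Vec → Vec → Vec → Option Vec
  | [], _, acc => some acc
  | (i, x) :: u, v, acc => (mulR g s i x v acc).bind fun acc' => mulV g s u v acc'

/-- number of operations -/
def Tree.size : Tree → ℕ
  | .leaf _ => 0
  | .bin _ l r => l.size + r.size + 1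
  | .ass _ _ _ => 0

/-- value of the tree at named elements, times `D ^ size` -/
def Tree.vec (T : Tab) (D : ℤ) (cur : ℕ) (ε : ℕ → Bool) (a : ℕ → ℕ) : Tree → Option Vec
  | .leaf n => some [(a n, 1)]
  | .bin o l r => (l.vec T D cur ε a).bind fun u => (r.vec T D cur ε a).bind fun v =>
      mulV (T.get D cur o)
        (xor (!o) (par (fun n => ε (a n)) l.leaves && par (fun n => ε (a n)) r.leaves)) u v []
  | .ass _ _ _ => none

/-- `polyV … y f acc = acc + y • f(a)` times `D ^ s`, all trees of `f` having size `s`,
`k = true` : with Koszul signs -/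
def polyV (T : Tab) (D : ℤ) (cur : ℕ) (ε : ℕ → Bool) (a : ℕ → ℕ) (k : Bool) (s : ℕ) (y : ℤ) :
    List (ℤ × Tree) → Vec → Option Vec
  | [], acc => some acc
  | (c, t) :: f, acc => bif Nat.beq t.size s then
      (t.vec T D cur ε a).bind fun u =>
        polyV T D cur ε a k s y f
          (merge (bif (k && ks (fun n => ε (a n)) t.leaves) then -(c * y) else c * y) u acc)
      else none

/-- number `i` of a list of polynomials -/
def nth (Fs : List (ℕ × List (ℤ × Tree))) (i : ℕ) : ℕ × List (ℤ × Tree) :=
  Fs.getD i (0, [])

/-- sum of instances -/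
def instV (T : Tab) (D : ℤ) (cur : ℕ) (ε : ℕ → Bool) (Fs : List (ℕ × List (ℤ × Tree))) :
    List (ℤ × ℕ × List ℕ) → Vec → Option Vec
  | [], acc => some acc
  | (y, i, a) :: js, acc =>
      (polyV T D cur ε (fun n => a.getD n 0) true (nth Fs i).1 y (nth Fs i).2 acc).bind fun acc' =>
        instV T D cur ε Fs js acc'

/-- coefficient of the name `k` -/
def coef (k : ℕ) : Vec → ℤ
  | [] => 0
  | (i, x) :: v => bif Nat.beq i k then x + coef k v else coef k v

/-- replace `D • name k` by `w` in `D • v` -/
def substV (k : ℕ) (w : Vec) (D : ℤ) : Vec → Vec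
  | [] => []
  | (i, x) :: v => bif Nat.beq i k then merge x w (substV k w D v)
      else merge x [(i, D)] (substV k w D v)

/-- all coefficients are zero -/
def allZero : Vec → Bool
  | [] => true
  | (_, x) :: v => Nat.beq x.natAbs 0 && allZero v

/-- `c` divides `6^20` -/
def smooth (c : ℤ) : Bool := Nat.beq (3656158440062976 % c.natAbs) 0 && !(Nat.beq c.natAbs 0)

/-- all indices of the vector have parity `b` -/
def parAll (ε : ℕ → Bool) (b : Bool) : Vec → Bool
  | [] => true
  | (i, _) :: v => !(xor (ε i) b) && parAll ε b v

/-- check of one node -/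
def Node.check (T : Tab) (D : ℤ) (ε : ℕ → Bool) (Fs : List (ℕ × List (ℤ × Tree))) (n : Node) :
    Bool :=
  (parAll ε (xor (ε n.i) (ε n.j)) n.vec && parAll ε (xor (ε n.i) (ε n.j)) [(n.name, 1)]) &&
  (bif Nat.beq n.rank 0 then
    (match n.vec with
      | [(k, x)] => Nat.beq k n.name && Nat.beq (x - D).natAbs 0
      | _ => false)
  else
    match instV T D n.rank ε Fs n.just [] with
      | none => false
      | some tot => smooth (coef n.name tot) && allZero (substV n.name n.vec D tot))

/-- check of all nodes of a subtree -/
def Tab.check (T : Tab) (D : ℤ) (ε : ℕ → Bool) (Fs : List (ℕ × List (ℤ × Tree))) : Tab → Bool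
  | .nil => true
  | .node n l r => n.check T D ε Fs && (Tab.check T D ε Fs l && Tab.check T D ε Fs r)

/-- check of the final identity -/
def topCheck (T : Tab) (D : ℤ) (ε : ℕ → Bool) (Fs : List (ℕ × List (ℤ × Tree)))
    (top : List (ℤ × ℕ × List ℕ)) (cT : ℤ) (s : ℕ) (target : List (ℤ × Tree)) : Bool :=
  match instV T D 1000000 ε Fs top [] with
    | none => false
    | some tot =>
      match polyV T D 1000000 ε (fun n => n) false s cT target tot with
        | none => false
        | some tot' => smooth cT && allZero tot'

/-- parities of the names -/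
def parMask (m : ℕ) (k : ℕ) : Bool := Nat.testBit m k

/-- the definitions have increasing names, larger than `lo`, and are built from smaller names -/
def defsOk (m : ℕ) : ℕ → List (ℕ × Bool × ℕ × ℕ) → Bool
  | _, [] => true
  | lo, (k, _, i, j) :: ds => Nat.ble lo k && (Nat.blt i k && (Nat.blt j k &&
      (!(xor (parMask m k) (xor (parMask m i) (parMask m j))) && defsOk m (k + 1) ds)))

end H85.FA
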