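import Pool.Agent.H85.FA.Engine

/-!
# MP_273d7a_al : the multilinear identities used by the certificates
-/

namespace H85.FA

/-- Malcev (Sagle) identity -/
def fSagle : List (ℤ × Tree) :=
  [(p 1, (.bin false (.bin false (.leaf 0) (.leaf 2)) (.bin false (.leaf 1) (.leaf 3)))), (n 0, (.bin false (.bin false (.bin false (.leaf 0) (.leaf 1)) (.leaf 2)) (.leaf 3))), (n 0, (.bin false (.bin false (.bin false (.leaf 1) (.leaf 2)) (.leaf 3)) (.leaf 0))), (n 0, (.bin false (.bin false (.bin false (.leaf 2) (.leaf 3)) (.leaf 0)) (.leaf 1))), (n 0, (.bin false (.bin false (.bin false (.leaf 3) (.leaf 0)) (.leaf 1)) (.leaf 2)))]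

/-- `[a,b]∘J(a,b,c) = 0`, linearised -/
def fR2 : List (ℤ × Tree) :=
  [(p 1, (.bin true (.bin false (.leaf 0) (.leaf 2)) (.bin false (.bin false (.leaf 1) (.leaf 3)) (.leaf 4)))), (p 1, (.bin true (.bin false (.leaf 0) (.leaf 2)) (.bin false (.bin false (.leaf 3) (.leaf 4)) (.leaf 1)))), (p 1, (.bin true (.bin false (.leaf 0) (.leaf 2)) (.bin false (.bin false (.leaf 4) (.leaf 1)) (.leaf 3)))), (p 1, (.bin true (.bin false (.leaf 0) (.leaf 3)) (.bin false (.bin false (.leaf 1) (.leaf 2)) (.leaf 4)))), (p 1, (.bin true (.bin false (.leaf 0) (.leaf 3)) (.bin false (.bin false (.leaf 2) (.leaf 4)) (.leaf 1)))), (p 1, (.bin true (.bin false (.leaf 0) (.leaf 3)) (.bin false (.bin false (.leaf 4) (.leaf 1)) (.leaf 2)))), (p 1, (.bin true (.bin false (.leaf 1) (.leaf 2)) (.bin false (.bin false (.leaf 0) (.leaf 3)) (.leaf 4)))), (p 1, (.bin true (.bin false (.leaf 1) (.leaf 2)) (.bin false (.bin false (.leaf 3) (.leaf 4)) (.leaf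 0)))), (p 1, (.bin true (.bin false (.leaf 1) (.leaf 2)) (.bin false (.bin false (.leaf 4) (.leaf 0)) (.leaf 3)))), (p 1, (.bin true (.bin false (.leaf 1) (.leaf 3)) (.bin false (.bin false (.leaf 0) (.leaf 2)) (.leaf 4)))), (p 1, (.bin true (.bin false (.leaf 1) (.leaf 3)) (.bin false (.bin false (.leaf 2) (.leaf 4)) (.leaf 0)))), (p 1, (.bin true (.bin false (.leaf 1) (.leaf 3)) (.bin false (.bin false (.leaf 4) (.leaf 0)) (.leaf 2))))]

/-- `[p,q]∘[[p,q],p]`, linearised in `p` and `q` -/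
def fH : List (ℤ × Tree) :=
  [(p 1, (.bin true (.bin false (.leaf 0) (.leaf 3)) (.bin false (.bin false (.leaf 1) (.leaf 4)) (.leaf 2)))), (p 1, (.bin true (.bin false (.leaf 0) (.leaf 4)) (.bin false (.bin false (.leaf 1) (.leaf 3)) (.leaf 2)))), (p 1, (.bin true (.bin false (.leaf 0) (.leaf 3)) (.bin false (.bin false (.leaf 2) (.leaf 4)) (.leaf 1)))), (p 1, (.bin true (.bin false (.leaf 0) (.leaf 4)) (.bin false (.bin false (.leaf 2) (.leaf 3)) (.leaf 1)))), (p 1, (.bin true (.bin false (.leaf 1) (.leaf 3)) (.bin false (.bin false (.leaf 0) (.leaf 4)) (.leaf 2)))), (p 1, (.bin true (.bin false (.leaf 1) (.leaf 4)) (.bin false (.bin false (.leaf 0) (.leaf 3)) (.leaf 2)))), (p 1, (.bin true (.bin false (.leaf 1) (.leaf 3)) (.bin false (.bin false (.leaf 2) (.leaf 4)) (.leaf 0)))), (p 1, (.bin true (.bin false (.leaf 1) (.leaf 4)) (.bin false (.bin false (.leaf 2) (.leaf 3)) (.leaf 0)))), (p 1, (.bin true (.bin false (.leaf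 2) (.leaf 3)) (.bin false (.bin false (.leaf 0) (.leaf 4)) (.leaf 1)))), (p 1, (.bin true (.bin false (.leaf 2) (.leaf 4)) (.bin false (.bin false (.leaf 0) (.leaf 3)) (.leaf 1)))), (p 1, (.bin true (.bin false (.leaf 2) (.leaf 3)) (.bin false (.bin false (.leaf 1) (.leaf 4)) (.leaf 0)))), (p 1, (.bin true (.bin false (.leaf 2) (.leaf 4)) (.bin false (.bin false (.leaf 1) (.leaf 3)) (.leaf 0))))]

/-- `[[p,q]∘[[p,q],p], y]`, linearised, expanded by the derivation rule -/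
def fHc : List (ℤ × Tree) :=
  [(p 1, (.bin true (.bin false (.leaf 0) (.leaf 3)) (.bin false (.bin false (.bin false (.leaf 1) (.leaf 4)) (.leaf 2)) (.leaf 5)))), (p 1, (.bin true (.bin false (.bin false (.leaf 0) (.leaf 3)) (.leaf 5)) (.bin false (.bin false (.leaf 1) (.leaf 4)) (.leaf 2)))), (p 1, (.bin true (.bin false (.leaf 0) (.leaf 4)) (.bin false (.bin false (.bin false (.leaf 1) (.leaf 3)) (.leaf 2)) (.leaf 5)))), (p 1, (.bin true (.bin false (.bin false (.leaf 0) (.leaf 4)) (.leaf 5)) (.bin false (.bin false (.leaf 1) (.leaf 3)) (.leaf 2)))), (p 1, (.bin true (.bin false (.leaf 0) (.leaf 3)) (.bin false (.bin false (.bin false (.leaf 2) (.leaf 4)) (.leaf 1)) (.leaf 5)))), (p 1, (.bin true (.bin false (.bin false (.leaf 0) (.leaf 3)) (.leaf 5)) (.bin false (.bin false (.leaf 2) (.leaf 4)) (.leaf 1)))), (p 1, (.bin true (.bin false (.leaf 0) (.leaf 4)) (.bin false (.bin false (.bin false (.leaf 2) (.leaf 3)) (.leaf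 1)) (.leaf 5)))), (p 1, (.bin true (.bin false (.bin false (.leaf 0) (.leaf 4)) (.leaf 5)) (.bin false (.bin false (.leaf 2) (.leaf 3)) (.leaf 1)))), (p 1, (.bin true (.bin false (.leaf 1) (.leaf 3)) (.bin false (.bin false (.bin false (.leaf 0) (.leaf 4)) (.leaf 2)) (.leaf 5)))), (p 1, (.bin true (.bin false (.bin false (.leaf 1) (.leaf 3)) (.leaf 5)) (.bin false (.bin false (.leaf 0) (.leaf 4)) (.leaf 2)))), (p 1, (.bin true (.bin false (.leaf 1) (.leaf 4)) (.bin false (.bin false (.bin false (.leaf 0) (.leaf 3)) (.leaf 2)) (.leaf 5)))), (p 1, (.bin true (.bin false (.bin false (.leaf 1) (.leaf 4)) (.leaf 5)) (.bin false (.bin false (.leaf 0) (.leaf 3)) (.leaf 2)))), (p 1, (.bin true (.bin false (.leaf 1) (.leaf 3)) (.bin false (.bin false (.bin false (.leaf 2) (.leaf 4)) (.leaf 0)) (.leaf 5)))), (p 1, (.bin true (.bin false (.bin false (.leaf 1) (.leaf 3)) (.leaf 5)) (.bin false (.bin false (.leaf 2) (.leaf 4)) (.leaf 0)))),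 (p 1, (.bin true (.bin false (.leaf 1) (.leaf 4)) (.bin false (.bin false (.bin false (.leaf 2) (.leaf 3)) (.leaf 0)) (.leaf 5)))), (p 1, (.bin true (.bin false (.bin false (.leaf 1) (.leaf 4)) (.leaf 5)) (.bin false (.bin false (.leaf 2) (.leaf 3)) (.leaf 0)))), (p 1, (.bin true (.bin false (.leaf 2) (.leaf 3)) (.bin false (.bin false (.bin false (.leaf 0) (.leaf 4)) (.leaf 1)) (.leaf 5)))), (p 1, (.bin true (.bin false (.bin false (.leaf 2) (.leaf 3)) (.leaf 5)) (.bin false (.bin false (.leaf 0) (.leaf 4)) (.leaf 1)))), (p 1, (.bin true (.bin false (.leaf 2) (.leaf 4)) (.bin false (.bin false (.bin false (.leaf 0) (.leaf 3)) (.leaf 1)) (.leaf 5)))), (p 1, (.bin true (.bin false (.bin false (.leaf 2) (.leaf 4)) (.leaf 5)) (.bin false (.bin false (.leaf 0) (.leaf 3)) (.leaf 1)))), (p 1, (.bin true (.bin false (.leaf 2) (.leaf 3)) (.bin false (.bin false (.bin false (.leaf 1) (.leaf 4)) (.leaf 0)) (.leaf 5)))), (p 1, (.bin true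 (.bin false (.bin false (.leaf 2) (.leaf 3)) (.leaf 5)) (.bin false (.bin false (.leaf 1) (.leaf 4)) (.leaf 0)))), (p 1, (.bin true (.bin false (.leaf 2) (.leaf 4)) (.bin false (.bin false (.bin false (.leaf 1) (.leaf 3)) (.leaf 0)) (.leaf 5)))), (p 1, (.bin true (.bin false (.bin false (.leaf 2) (.leaf 4)) (.leaf 5)) (.bin false (.bin false (.leaf 1) (.leaf 3)) (.leaf 0))))]

/-- `[p∘q,r] = p∘[q,r] + [p,r]∘q` -/
def fAd : List (ℤ × Tree) :=
  [(p 1, (.bin false (.bin true (.leaf 0) (.leaf 1)) (.leaf 2))), (n 0, (.bin true (.leaf 0) (.bin false (.leaf 1) (.leaf 2)))), (n 0, (.bin true (.bin false (.leaf 0) (.leaf 2)) (.leaf 1)))]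

/-- `3((p∘q)∘r - p∘(q∘r) - [q,[p,r]]) + J(p,q,r) = 0` -/
def fJj : List (ℤ × Tree) :=
  [(p 3, (.bin true (.bin true (.leaf 0) (.leaf 1)) (.leaf 2))), (n 2, (.bin true (.leaf 0) (.bin true (.leaf 1) (.leaf 2)))), (n 2, (.bin false (.leaf 1) (.bin false (.leaf 0) (.leaf 2)))), (p 1, (.bin false (.bin false (.leaf 0) (.leaf 1)) (.leaf 2))), (p 1, (.bin false (.bin false (.leaf 1) (.leaf 2)) (.leaf 0))), (p 1, (.bin false (.bin false (.leaf 2) (.leaf 0)) (.leaf 1)))]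

/-- `6(a,b,c) - J(a,b,c)` -/
def fJ6 : List (ℤ × Tree) :=
  [(p 6, .ass (.leaf 0) (.leaf 1) (.leaf 2)),
   (n 0, .bin false (.bin false (.leaf 0) (.leaf 1)) (.leaf 2)),
   (n 0, .bin false (.bin false (.leaf 1) (.leaf 2)) (.leaf 0)),
   (n 0, .bin false (.bin false (.leaf 2) (.leaf 0)) (.leaf 1))]

/-- `(p∘q,y,z) = p∘(q,y,z) + q∘(p,y,z)` -/
def fR3 : List (ℤ × Tree) :=
  [(p 1, .ass (.bin true (.leaf 0) (.leaf 1)) (.leaf 2) (.leaf 3)),
   (n 0, .bin true (.leaf 0) (.ass (.leaf 1) (.leaf 2) (.leaf 3))),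
   (n 0, .bin true (.leaf 1) (.ass (.leaf 0) (.leaf 2) (.leaf 3)))]

end H85.FA
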