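import Pool.Agent.H85.FA.Der
import Pool.Agent.H85.FA.Polys

/-!
# MP_273d7a_al, module G1 : the multilinear identities hold in alternative rings
-/

set_option linter.unusedSectionVars false

namespace H85.FA

universe v

section
variable {R : Type v} [NonUnitalNonAssocRing R]

theorem par_false (l : List ℕ) : par (fun _ => false) l = false := by
  induction l with
  | nil => rfl
  | cons a l ih => simp [par, ih]

theorem ev_cm (P : ℕ → R) (l r : Tree) :
    (Tree.bin false l r).ev (fun _ => false) P
      = cm (l.ev (fun _ => false) P) (r.ev (fun _ => false) P) := by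
  simp only [Tree.ev, par_false, op, cm, Bool.not_false, Bool.and_false, Bool.xor_false, sg_true]
  abel

theorem ev_jr (P : ℕ → R) (l r : Tree) :
    (Tree.bin true l r).ev (fun _ => false) P
      = jr (l.ev (fun _ => false) P) (r.ev (fun _ => false) P) := by
  simp only [Tree.ev, par_false, op, jr, Bool.not_true, Bool.and_false, Bool.xor_false, sg_false]

theorem ev_ass (P : ℕ → R) (l m r : Tree) :
    (Tree.ass l m r).ev (fun _ => false) P
      = associator (l.ev (fun _ => false) P) (m.ev (fun _ => false) P)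
        (r.ev (fun _ => false) P) := rfl

theorem ev_leaf (P : ℕ → R) (i : ℕ) : (Tree.leaf i).ev (fun _ => false) P = P i := rfl

theorem p_one_smul (x : R) : (p 1) • x = x := by
  change (1 : ℤ) • x = x
  exact one_smul _ _

theorem n_zero_smul (x : R) : (n 0) • x = -x := by
  change (-1 : ℤ) • x = -x
  rw [neg_smul, one_smul]

theorem n_two_smul (x : R) : (n 2) • x = -((3 : ℤ) • x) := by
  change (-3 : ℤ) • x = -((3 : ℤ) • x)
  rw [neg_smul]

theorem p_three_smul (x : R) : (p 3) • x = (3 : ℤ) • x := rfl

theorem p_six_smul (x : R) : (p 6) • x = (6 : ℤ) • x := rfl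

theorem jr_smul_right (c : ℤ) (x y : R) : jr x (c • y) = c • jr x y := by
  unfold jr
  rw [mul_smul_comm, smul_mul_assoc, smul_add]

/-- the identity holds in the (ungraded) ring `R` -/
def IdR (R : Type v) [NonUnitalNonAssocRing R] (f : List (ℤ × Tree)) : Prop :=
  ∀ P : ℕ → R, (f.map fun c => c.1 • c.2.ev (fun _ => false) P).sum = 0

theorem id_sagle (hA : IsAlt R) (h : TF R) : IdR R fSagle := by
  intro P
  have := sagle hA h (P 0) (P 1) (P 2) (P 3)
  simp only [fSagle, List.map_cons, List.map_nil, List.sum_cons, List.sum_nil, ev_cm,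
    ev_leaf, p_one_smul, n_zero_smul]
  rw [this]; abel

theorem jr_jac (hA : IsAlt R) (x a b c : R) :
    jr x (cm (cm a b) c) + jr x (cm (cm b c) a) + jr x (cm (cm c a) b)
      = (6 : ℤ) • jr x (associator a b c) := by
  rw [← jr_smul_right, ← jac hA a b c, jr_add_right, jr_add_right]

theorem id_r2 (hA : IsAlt R) (h : TF R) : IdR R fR2 := by
  intro P
  have := r2_lin hA h (P 0) (P 1) (P 2) (P 3) (P 4)
  have e1 := jr_jac hA (cm (P 0) (P 2)) (P 1) (P 3) (P 4)
  have e2 := jr_jac hA (cm (P 0) (P 3)) (P 1) (P 2) (P 4)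
  have e3 := jr_jac hA (cm (P 1) (P 2)) (P 0) (P 3) (P 4)
  have e4 := jr_jac hA (cm (P 1) (P 3)) (P 0) (P 2) (P 4)
  simp only [fR2, List.map_cons, List.map_nil, List.sum_cons, List.sum_nil, ev_cm, ev_jr,
    ev_leaf, p_one_smul]
  linear_combination (norm := (simp only [smul_add, smul_zero]; abel)) e1 + e2 + e3 + e4 + (6 : ℤ) • this

theorem id_h (hA : IsAlt R) (hh0 : ∀ a b : R, hh a b = 0) : IdR R fH := by
  intro P
  have := hPol_mem hA (⊥ : AddSubgroup R) (fun a b => by rw [hh0]; exact AddSubgroup.zero_mem _)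
    (P 0) (P 1) (P 2) (P 3) (P 4)
  rw [AddSubgroup.mem_bot] at this
  simp only [fH, List.map_cons, List.map_nil, List.sum_cons, List.sum_nil, ev_cm, ev_jr,
    ev_leaf, p_one_smul]
  simp only [hPol, hT] at this
  linear_combination (norm := abel) this

theorem cm_zero_left (x : R) : cm (0 : R) x = 0 := by simp [cm]

/-- elements commuting with everything -/
def comK (R : Type v) [NonUnitalNonAssocRing R] : AddSubgroup R where
  carrier := {x | ∀ c, cm x c = 0}
  add_mem' := by intro a b ha hb c; rw [cm_add_left, ha c, hb c, add_zero]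
  zero_mem' := by intro c; exact cm_zero_left c
  neg_mem' := by
    intro a ha c
    have := ha c
    unfold cm at this ⊢
    rw [neg_mul, mul_neg, ← neg_sub', this, neg_zero]

theorem id_hc (hA : IsAlt R) (h : TF R) (hc : ∀ a b c : R, cm (hh a b) c = 0) : IdR R fHc := by
  intro P
  have := hPol_mem hA (comK R) hc (P 0) (P 1) (P 2) (P 3) (P 4) (P 5)
  simp only [hPol, hT, cm_add_left, ad_der hA h] at this
  simp only [fHc, List.map_cons, List.map_nil, List.sum_cons, List.sum_nil, ev_cm, ev_jr,
    ev_leaf, p_one_smul]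
  linear_combination (norm := abel) this

theorem id_ad (hA : IsAlt R) (h : TF R) : IdR R fAd := by
  intro P
  have := ad_der hA h (P 0) (P 1) (P 2)
  simp only [fAd, List.map_cons, List.map_nil, List.sum_cons, List.sum_nil, ev_cm, ev_jr,
    ev_leaf, p_one_smul, n_zero_smul]
  rw [this]; abel

theorem id_jj (hA : IsAlt R) : IdR R fJj := by
  intro P
  have e1 := jj hA (P 0) (P 1) (P 2)
  have e2 := jac hA (P 0) (P 1) (P 2)
  simp only [fJj, List.map_cons, List.map_nil, List.sum_cons, List.sum_nil, ev_cm, ev_jr,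
    ev_leaf, p_one_smul, n_two_smul, p_three_smul]
  linear_combination (norm := (simp only [smul_add, smul_sub]; abel)) (3 : ℤ) • e1 + e2

theorem id_j6 (hA : IsAlt R) : IdR R fJ6 := by
  intro P
  have e2 := jac hA (P 0) (P 1) (P 2)
  simp only [fJ6, List.map_cons, List.map_nil, List.sum_cons, List.sum_nil, ev_cm, ev_ass,
    ev_leaf, n_zero_smul, p_six_smul]
  linear_combination (norm := abel) - e2

theorem id_r3 (hA : IsAlt R) (h : TF R) : IdR R fR3 := by
  intro P
  have e := ass_jr hA h (P 0) (P 1) (P 2) (P 3)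
  simp only [fR3, List.map_cons, List.map_nil, List.sum_cons, List.sum_nil, ev_jr, ev_ass,
    ev_leaf, p_one_smul, n_zero_smul]
  rw [e]; abel

end

end H85.FA
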