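import Pool.Agent.H85.FA.AltIds2

/-!
# MP_273d7a_al, module C : commutators with nuclear elements

`A` is an alternative algebra over a field `F`, `2, 3 ≠ 0` in `F`.
-/

set_option linter.unusedSectionVars false

namespace H85.FA

universe u v

variable {F : Type u} [Field F] {A : Type v} [NonUnitalNonAssocRing A] [Module F A]
  [IsScalarTower F A A] [SMulCommClass F A A]

/-- the associator ideal `D = S + SA` (as a span; `D_isIdeal` shows it is an ideal) -/
def DD (F : Type u) [Field F] (A : Type v) [NonUnitalNonAssocRing A] [Module F A] :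
    Submodule F A :=
  Submodule.span F ({s | ∃ a b c : A, s = associator a b c} ∪
    {s | ∃ a b c d : A, s = associator a b c * d})

theorem ass_mem_DD (a b c : A) : associator a b c ∈ DD F A :=
  Submodule.subset_span (Or.inl ⟨a, b, c, rfl⟩)

/-- Teichmueller (`associator_cocycle`): `a(b,c,d) ∈ S + SA`; `(sa)b = (s,a,b) + s(ab)`;
`a(sb) = (as)b - (a,s,b)`. -/
theorem DD_isIdeal (hA : IsAlt A) : IsIdeal (DD F A) := by
  have hS : ∀ a b c : A, associator a b c ∈ DD F A := ass_mem_DD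
  have hSA : ∀ a b c d : A, associator a b c * d ∈ DD F A :=
    fun a b c d => Submodule.subset_span (Or.inr ⟨a, b, c, d, rfl⟩)
  have hAS : ∀ a b c d : A, a * associator b c d ∈ DD F A := by
    intro a b c d
    have h := associator_cocycle a b c d
    have e : a * associator b c d = associator (a * b) c d - associator a (b * c) d
        + associator a b (c * d) - associator a b c * d := by
      rw [← sub_eq_zero, ← h]; abel
    rw [e]
    exact (DD F A).sub_mem ((DD F A).add_mem ((DD F A).sub_mem (hS _ _ _) (hS _ _ _))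
      (hS _ _ _)) (hSA _ _ _ _)
  have hR : ∀ i ∈ DD F A, ∀ a : A, i * a ∈ DD F A := by
    intro i hi a
    induction hi using Submodule.span_induction with
    | mem x hx =>
      rcases hx with ⟨p, q, r, rfl⟩ | ⟨p, q, r, t, rfl⟩
      · exact hSA _ _ _ _
      · have e : associator p q r * t * a =
            associator (associator p q r) t a + associator p q r * (t * a) := by
          rw [associator_apply (associator p q r) t a]; abel
        rw [e]
        exact (DD F A).add_mem (hS _ _ _) (hSA _ _ _ _)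
    | zero => rw [zero_mul]; exact (DD F A).zero_mem
    | add x y _ _ h1 h2 => rw [add_mul]; exact (DD F A).add_mem h1 h2
    | smul r x _ h1 => rw [smul_mul_assoc]; exact (DD F A).smul_mem r h1
  intro i hi a
  refine ⟨?_, hR i hi a⟩
  induction hi using Submodule.span_induction with
  | mem x hx =>
    rcases hx with ⟨p, q, r, rfl⟩ | ⟨p, q, r, t, rfl⟩
    · exact hAS _ _ _ _
    · have e : a * (associator p q r * t) =
          a * associator p q r * t - associator a (associator p q r) t := by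
        rw [associator_apply a (associator p q r) t]; abel
      rw [e]
      exact (DD F A).sub_mem (hR _ (hAS _ _ _ _) _) (hS _ _ _)
  | zero => rw [mul_zero]; exact (DD F A).zero_mem
  | add x y _ _ h1 h2 => rw [mul_add]; exact (DD F A).add_mem h1 h2
  | smul r x _ h1 => rw [mul_smul_comm]; exact (DD F A).smul_mem r h1

/-- also `D = S + AS` -/
theorem DD_eq_left (hA : IsAlt A) : DD F A =
    Submodule.span F ({s | ∃ a b c : A, s = associator a b c} ∪
      {s | ∃ a b c d : A, s = d * associator a b c}) := by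
  apply le_antisymm
  · refine Submodule.span_le.2 ?_
    set E := Submodule.span F ({s | ∃ a b c : A, s = associator a b c} ∪
      {s | ∃ a b c d : A, s = d * associator a b c}) with hE
    have hS : ∀ a b c : A, associator a b c ∈ E :=
      fun a b c => Submodule.subset_span (Or.inl ⟨a, b, c, rfl⟩)
    have hAS : ∀ a b c d : A, a * associator b c d ∈ E :=
      fun a b c d => Submodule.subset_span (Or.inr ⟨b, c, d, a, rfl⟩)
    rintro x (⟨p, q, r, rfl⟩ | ⟨p, q, r, t, rfl⟩)
    · exact hS _ _ _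
    · have h := associator_cocycle p q r t
      have e : associator p q r * t = associator (p * q) r t - associator p (q * r) t
          + associator p q (r * t) - p * associator q r t := by
        rw [← sub_eq_zero, ← h]; abel
      rw [SetLike.mem_coe, e]
      exact E.sub_mem (E.add_mem (E.sub_mem (hS _ _ _) (hS _ _ _)) (hS _ _ _)) (hAS _ _ _ _)
  · refine Submodule.span_le.2 ?_
    rintro x (⟨p, q, r, rfl⟩ | ⟨p, q, r, t, rfl⟩)
    · exact ass_mem_DD _ _ _
    · exact (DD_isIdeal hA _ (ass_mem_DD p q r) t).1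

/-! multiplication by a nuclear element -/

theorem nn1 {n : A} (hn : InNuc n) (a b : A) : n * a * b = n * (a * b) :=
  sub_eq_zero.1 (hn a b).1

theorem nn2 {n : A} (hn : InNuc n) (a b : A) : a * n * b = a * (n * b) :=
  sub_eq_zero.1 (hn a b).2.1

theorem nn3 {n : A} (hn : InNuc n) (a b : A) : a * b * n = a * (b * n) :=
  sub_eq_zero.1 (hn a b).2.2

theorem nass1 {n : A} (hn : InNuc n) (a b c : A) :
    associator (n * a) b c = n * associator a b c := by
  simp only [associator_apply, mul_sub, nn1 hn]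

theorem nass2 {n : A} (hn : InNuc n) (a b c : A) :
    associator (a * n) b c = associator a (n * b) c := by
  simp only [associator_apply, nn1 hn, nn2 hn]

theorem nass3 {n : A} (hn : InNuc n) (a b c : A) :
    associator a (b * n) c = associator a b (n * c) := by
  simp only [associator_apply, nn2 hn, ← nn3 hn]

theorem nass4 {n : A} (hn : InNuc n) (a b c : A) :
    associator a b (c * n) = associator a b c * n := by
  simp only [associator_apply, sub_mul, nn3 hn]

/-- criterion: it suffices to check the first associator -/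
theorem inNuc_of_left (hA : IsAlt A) {x : A} (h : ∀ a b : A, associator x a b = 0) :
    InNuc x := by
  intro a b
  exact ⟨h a b, (ass_cyc hA a x b).trans (h b a), (ass_cyc hA x a b).symm.trans (h a b)⟩

section
variable (hA : IsAlt A) (hT : TF A) {n : A} (hn : InNuc n)
include hA hn

/-- F1: `n` commutes with associators: `(b,c,na) = (na,b,c) = n(a,b,c)` and
`(na,b,c)`, `(a,nb,c)`, ... give `(a,b,c)n = n(a,b,c)`. -/
theorem nuc_comm (a b c : A) : n * associator a b c = associator a b c * n := by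
  calc n * associator a b c = n * associator b c a := by rw [ass_cyc hA a b c]
    _ = associator (n * b) c a := (nass1 hn _ _ _).symm
    _ = associator a (n * b) c := (ass_cyc hA a (n * b) c).symm
    _ = associator (a * n) b c := (nass2 hn _ _ _).symm
    _ = associator b c (a * n) := ass_cyc hA _ _ _
    _ = associator b c a * n := nass4 hn _ _ _
    _ = associator a b c * n := by rw [ass_cyc hA a b c]

/-- F1: `[n,a]` is nuclear -/
theorem nuc_cm (a : A) : InNuc (cm n a) := by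
  refine inNuc_of_left hA fun b c => ?_
  have h1 : associator (n * a) b c = n * associator a b c := nass1 hn _ _ _
  have h2 : associator (a * n) b c = associator a b c * n := by
    calc associator (a * n) b c = associator b c (a * n) := ass_cyc hA _ _ _
      _ = associator b c a * n := nass4 hn _ _ _
      _ = associator a b c * n := by rw [ass_cyc hA a b c]
  have h3 : associator (cm n a) b c = associator (n * a) b c - associator (a * n) b c := by
    simp only [cm, associator_apply, sub_mul]; abel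
  rw [h3, h1, h2, nuc_comm hA hn, sub_self]

/-- F2: `[n,·]` is a derivation -/
theorem nuc_der (a b : A) : cm n (a * b) = cm n a * b + a * cm n b := by
  simp only [cm, sub_mul, mul_sub, nn1 hn, nn2 hn, nn3 hn]
  abel

/-- F2: `[n,·]` kills associators -/
theorem nuc_cm_ass (a b c : A) : cm n (associator a b c) = 0 := by
  rw [cm, nuc_comm hA hn, sub_self]

include hT

/-- F3: `[n,a](a,c,d) = 0`, from `(a^2,c,d) = a∘(a,c,d)` (i.e. `kf a a c d = 0`): apply `[n,·]`:
`0 = [n,a]∘(a,c,d) = 2[n,a](a,c,d)`. -/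
theorem nuc_H0 (a c d : A) : cm n a * associator a c d = 0 := by
  have h1 : kf a a c d = 0 := by
    apply hT.1
    have := kf12 hA hT a a c d
    nth_rewrite 1 [this]
    rw [neg_add_cancel]
  have h2 : associator (a * a) c d = a * associator a c d + associator a c d * a := by
    rw [kf, sub_sub, sub_eq_zero] at h1
    exact h1
  have h3 := congrArg (cm n) h2
  have h4 : cm n (a * associator a c d + associator a c d * a)
      = cm n (a * associator a c d) + cm n (associator a c d * a) := by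
    simp only [cm, mul_add, add_mul]; abel
  rw [nuc_cm_ass hA hn, h4, nuc_der hA hn, nuc_der hA hn, nuc_cm_ass hA hn, mul_zero, zero_mul,
    add_zero, zero_add, ← nuc_comm hA (nuc_cm hA hn a)] at h3
  exact hT.1 _ h3.symm

/-- `H(a,b,c,d) = [n,a](b,c,d)` is alternating -/
theorem nuc_H_swap (a b c d : A) :
    cm n a * associator b c d = - (cm n b * associator a c d) := by
  have h1 := nuc_H0 hA hT hn (a + b) c d
  have h2 := nuc_H0 hA hT hn a c d
  have h3 := nuc_H0 hA hT hn b c d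
  have e1 : cm n (a + b) = cm n a + cm n b := by
    simp only [cm, mul_add, add_mul]; abel
  have e2 : associator (a + b) c d = associator a c d + associator b c d := by
    simp only [associator_apply, add_mul]; abel
  rw [e1, e2, add_mul, mul_add, mul_add, h2, h3, zero_add, add_zero] at h1
  exact eq_neg_of_add_eq_zero_left h1

/-- F4: `[n,a](p,x,y) = -[n,p](a,x,y) = 0` for an associator `p`. -/
theorem nuc_H_ass (a b c d x y : A) : cm n a * associator (associator b c d) x y = 0 := by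
  rw [nuc_H_swap hA hT hn, nuc_cm_ass hA hn, zero_mul, neg_zero]

/-- F4: `[n,a](b,c,d)` is nuclear (`([n,a]s,x,y) = [n,a](s,x,y) = 0`). -/
theorem nuc_H_nuc (a b c d : A) : InNuc (cm n a * associator b c d) := by
  refine inNuc_of_left hA fun x y => ?_
  rw [nass1 (nuc_cm hA hn a), nuc_H_ass hA hT hn]

/-- F5, exchange of `b` and `c₁` -/
theorem nuc_sw1 (b c₁ c₂ c₃ q : A) :
    cm n b * (associator c₁ c₂ c₃ * q) = - (cm n c₁ * (associator b c₂ c₃ * q)) := by
  rw [← nn1 (nuc_cm hA hn b), ← nn1 (nuc_cm hA hn c₁), nuc_H_swap hA hT hn, neg_mul]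

/-- F5, exchange of `b` and `d₁` -/
theorem nuc_sw2 (b c₁ c₂ c₃ d₁ d₂ d₃ : A) :
    cm n b * (associator c₁ c₂ c₃ * associator d₁ d₂ d₃)
      = - (cm n d₁ * (associator c₁ c₂ c₃ * associator b d₂ d₃)) := by
  rw [← nn1 (nuc_cm hA hn b), nuc_comm hA (nuc_cm hA hn b), nn2 (nuc_cm hA hn b),
    nuc_H_swap hA hT hn, mul_neg, ← nn2 (nuc_cm hA hn d₁), ← nuc_comm hA (nuc_cm hA hn d₁),
    nn1 (nuc_cm hA hn d₁)]

/-- F5, exchange of `c₁` and `d₁` -/
theorem nuc_sw3 (b c₁ c₂ c₃ d₁ d₂ d₃ : A) :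
    cm n b * (associator c₁ c₂ c₃ * associator d₁ d₂ d₃)
      = - (cm n b * (associator d₁ c₂ c₃ * associator c₁ d₂ d₃)) := by
  rw [nuc_sw1 hA hT hn b c₁, nuc_sw2 hA hT hn c₁ b c₂ c₃ d₁, nuc_sw1 hA hT hn d₁ b, neg_neg]

/-- F5, exchange of the two associators -/
theorem nuc_sw (b c₁ c₂ c₃ d₁ d₂ d₃ : A) :
    cm n b * (associator c₁ c₂ c₃ * associator d₁ d₂ d₃)
      = - (cm n b * (associator d₁ d₂ d₃ * associator c₁ c₂ c₃)) := by
  rw [nuc_sw3 hA hT hn b c₁ c₂ c₃ d₁ d₂ d₃, ass_cyc hA d₁ c₂ c₃, ass_cyc hA c₁ d₂ d₃,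
    nuc_sw3 hA hT hn b c₂ c₃ d₁ d₂ d₃ c₁, ass_cyc hA d₂ c₃ d₁, ass_cyc hA c₂ d₃ c₁,
    nuc_sw3 hA hT hn b c₃ d₁ d₂ d₃ c₁ c₂, ass_cyc hA d₃ d₁ d₂, ass_cyc hA c₃ c₁ c₂, neg_neg]

/-- F6: `[n,a](b(p,c,d)) = 0` for an associator `p` -/
theorem nuc_F6a (a b p₁ p₂ p₃ c d : A) :
    cm n a * (b * associator (associator p₁ p₂ p₃) c d) = 0 := by
  have h1 : cm n a * b = cm n (a * b) - a * cm n b := by
    rw [nuc_der hA hn]; abel
  rw [← nn1 (nuc_cm hA hn a), h1, sub_mul, nn2 (nuc_cm hA hn b), nuc_H_ass hA hT hn,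
    nuc_H_ass hA hT hn, mul_zero, sub_zero]

/-- F5 + F6: `[n,b](pq) = 0` for associators `p,q`.
F5: `Φ(b;c1,c2,c3;d1,d2,d3) = [n,b](pq)`, `p = (c1,c2,c3)`, `q = (d1,d2,d3)`, is alternating in all
7 variables: `[n,b](pq) = ([n,b]p)q` (alternating in `b,c1,c2,c3`) `= (p[n,b])q = p([n,b]q)`
(alternating in `b,d1,d2,d3`).  Swapping the blocks `p,q` is three transpositions, so
`[n,b](pq + qp) = 0`.
F6: `[n,a](b(p,c,d)) = 0` for an associator `p` because `[n,a]b = [n,ab] - a[n,b]` and F4;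
`[n,a]((p,c,d)b) = 0` clearly.  `H(pb,x,w,z) = [n,pb](x,w,z) = (p[n,b])s' = [n,b](ps')`,
`s' = (x,w,z)`; on the other hand `H(pb,x,w,z) = -[n,x](pb,w,z)` and
`(pb,w,z) = f(p,b,w,z) + b(p,w,z) + (b,w,z)p`, `f(p,b,w,z) = ([p,b],w,z) + ([w,z],p,b)`;
`[n,x]([w,z],p,b) = 0` (F4), `[n,x]([p,b],w,z) = -[n,[p,b]](x,w,z) = -[p,[n,b]](x,w,z) = 0`.
So `[n,b](ps') = -[n,x]((b,w,z)p) = [n,b]((x,w,z)p) = [n,b](s'p)` (F5, swap of `x` and `b`).
Together `2[n,b](ps') = 0`. -/
theorem nuc_sq (b c₁ c₂ c₃ d₁ d₂ d₃ : A) :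
    cm n b * (associator c₁ c₂ c₃ * associator d₁ d₂ d₃) = 0 := by
  -- `p = (c₁,c₂,c₃)`, `(x,w,z) = (d₁,d₂,d₃)`
  obtain ⟨p, hp⟩ : ∃ p, p = associator c₁ c₂ c₃ := ⟨_, rfl⟩
  -- value 1 of `H(pb,x,w,z)`
  have h1 : cm n (p * b) * associator d₁ d₂ d₃ = cm n b * (p * associator d₁ d₂ d₃) := by
    rw [nuc_der hA hn, hp, nuc_cm_ass hA hn, zero_mul, zero_add,
      ← nuc_comm hA (nuc_cm hA hn b), nn1 (nuc_cm hA hn b)]
  -- value 2
  have h2 : cm n (p * b) * associator d₁ d₂ d₃ = - (cm n d₁ * associator (p * b) d₂ d₃) :=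
    nuc_H_swap hA hT hn _ _ _ _
  have h3 : associator (p * b) d₂ d₃ = associator (cm p b) d₂ d₃
      + associator (cm d₂ d₃) p b + b * associator p d₂ d₃ + associator b d₂ d₃ * p := by
    have := kf_eq hA hT p b d₂ d₃
    rw [kf] at this
    rw [← this]; abel
  have h4 : cm n d₁ * associator (cm p b) d₂ d₃ = 0 := by
    rw [nuc_H_swap hA hT hn]
    have : cm n (cm p b) = 0 := by
      have e : cm n (cm p b) = cm n (p * b) - cm n (b * p) := by
        simp only [cm, mul_sub, sub_mul]; abel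
      rw [e, nuc_der hA hn, nuc_der hA hn, hp, nuc_cm_ass hA hn, zero_mul, mul_zero, zero_add,
        add_zero, ← nuc_comm hA (nuc_cm hA hn b), sub_self]
    rw [this, zero_mul, neg_zero]
  have h5 : cm n d₁ * associator (cm d₂ d₃) p b = 0 := by
    rw [ass_cyc hA, hp, nuc_H_ass hA hT hn]
  have h6 : cm n d₁ * (b * associator p d₂ d₃) = 0 := by
    rw [hp, nuc_F6a hA hT hn]
  have h7 : cm n d₁ * (associator b d₂ d₃ * p) = cm n b * (p * associator d₁ d₂ d₃) := by
    rw [nuc_sw1 hA hT hn, hp, nuc_sw hA hT hn, neg_neg]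
  have h8 : cm n (p * b) * associator d₁ d₂ d₃ = - (cm n b * (p * associator d₁ d₂ d₃)) := by
    rw [h2, h3, mul_add, mul_add, mul_add, h4, h5, h6, h7, zero_add, zero_add, zero_add]
  rw [h1] at h8
  rw [← hp]
  apply hT.1
  nth_rewrite 1 [h8]
  rw [neg_add_cancel]

/-- F7: `y(dd') = 0` for `y = [n,b]` and `d, d' ∈ D`.  Use `D = S + SA` for both:
`y(p d'') = (yp)d''` with `yp` nuclear, `y(p(qv)) = (yp)(qv) = ((yp)q)v = (y(pq))v = 0`;
`y((pu)d') = (y(pu))d' = ((yp)u)d' = (yp)(ud') = y(p(ud'))`, `ud' ∈ D`. -/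
theorem nuc_F7 (b : A) {d d' : A} (hd : d ∈ DD F A) (hd' : d' ∈ DD F A) :
    cm n b * (d * d') = 0 := by
  have h1 : ∀ (p₁ p₂ p₃ : A) (e : A), e ∈ DD F A →
      cm n b * (associator p₁ p₂ p₃ * e) = 0 := by
    intro p₁ p₂ p₃ e he
    induction he using Submodule.span_induction with
    | mem x hx =>
      rcases hx with ⟨q₁, q₂, q₃, rfl⟩ | ⟨q₁, q₂, q₃, t, rfl⟩
      · exact nuc_sq hA hT hn _ _ _ _ _ _ _
      · rw [← nn1 (nuc_cm hA hn b), ← nn1 (nuc_H_nuc hA hT hn b p₁ p₂ p₃),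
          nn1 (nuc_cm hA hn b), nuc_sq hA hT hn, zero_mul]
    | zero => rw [mul_zero, mul_zero]
    | add x y _ _ h1 h2 => rw [mul_add, mul_add, h1, h2, add_zero]
    | smul r x _ h1 => rw [mul_smul_comm, mul_smul_comm, h1, smul_zero]
  induction hd using Submodule.span_induction with
  | mem x hx =>
    rcases hx with ⟨p₁, p₂, p₃, rfl⟩ | ⟨p₁, p₂, p₃, u, rfl⟩
    · exact h1 _ _ _ _ hd'
    · have h2 := h1 p₁ p₂ p₃ (u * d') ((DD_isIdeal hA _ hd' u).1)
      rw [← nn1 (nuc_cm hA hn b), ← nn1 (nuc_cm hA hn b), nn1 (nuc_H_nuc hA hT hn b p₁ p₂ p₃),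
        nn1 (nuc_cm hA hn b), h2]
  | zero => rw [zero_mul, mul_zero]
  | add x y _ _ h1 h2 => rw [add_mul, mul_add, h1, h2, add_zero]
  | smul r x _ h1 => rw [smul_mul_assoc, mul_smul_comm, h1, smul_zero]

/-- F7 left: `(dd')y = 0`; use `D = S + AS`. `(pq)y = p(qy) = p(yq) = (yp)q = y(pq) = 0`;
`d(vq)·y = d(v(qy)) = (dv)(qy)` (`qy = yq` nuclear), `dv = Σ up`:
`(up)(qy) = u(p(qy)) = u((pq)y) = 0`. -/
theorem nuc_F7' (b : A) {d d' : A} (hd : d ∈ DD F A) (hd' : d' ∈ DD F A) :
    (d * d') * cm n b = 0 := by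
  have hy := nuc_cm hA hn b
  have hqy : ∀ q₁ q₂ q₃ : A, InNuc (associator q₁ q₂ q₃ * cm n b) := by
    intro q₁ q₂ q₃
    rw [← nuc_comm hA hy]
    exact nuc_H_nuc hA hT hn _ _ _ _
  have h0 : ∀ p₁ p₂ p₃ q₁ q₂ q₃ : A,
      associator p₁ p₂ p₃ * (associator q₁ q₂ q₃ * cm n b) = 0 := by
    intro p₁ p₂ p₃ q₁ q₂ q₃
    rw [← nuc_comm hA hy, ← nn2 hy, ← nuc_comm hA hy, nn1 hy, nuc_sq hA hT hn]
  have h1 : ∀ (q₁ q₂ q₃ : A) (e : A), e ∈ DD F A →
      (e * associator q₁ q₂ q₃) * cm n b = 0 := by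
    intro q₁ q₂ q₃ e he
    rw [DD_eq_left hA] at he
    induction he using Submodule.span_induction with
    | mem x hx =>
      rcases hx with ⟨p₁, p₂, p₃, rfl⟩ | ⟨p₁, p₂, p₃, t, rfl⟩
      · rw [nn3 hy, h0]
      · rw [nn3 hy, nn3 (hqy _ _ _), h0, mul_zero]
    | zero => rw [zero_mul, zero_mul]
    | add x y _ _ h1 h2 => rw [add_mul, add_mul, h1, h2, add_zero]
    | smul r x _ h1 => rw [smul_mul_assoc, smul_mul_assoc, h1, smul_zero]
  have hd'' := hd'
  rw [DD_eq_left hA] at hd''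
  induction hd'' using Submodule.span_induction with
  | mem x hx =>
    rcases hx with ⟨q₁, q₂, q₃, rfl⟩ | ⟨q₁, q₂, q₃, v, rfl⟩
    · exact h1 _ _ _ _ hd
    · rw [nn3 hy, nn3 hy, ← nn3 (hqy _ _ _), ← nn3 hy, h1 _ _ _ _ (DD_isIdeal hA _ hd v).2]
  | zero => rw [mul_zero, zero_mul]
  | add x y hx hy' h1 h2 =>
    rw [← DD_eq_left hA] at hx hy'
    rw [mul_add, add_mul, h1 hx, h2 hy', add_zero]
  | smul r x hx h1 =>
    rw [← DD_eq_left hA] at hx
    rw [mul_smul_comm, smul_mul_assoc, h1 hx, smul_zero]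

/-- F8: `d'(yd) = 0`: `d'(yd) = (d'y)d`; for `d' = vq`: `(vq)y·d = (v(qy))d = v((qy)d)
= v((yq)d) = v(y(qd)) = 0` (`qy` nuclear, F7). -/
theorem nuc_F8 (b : A) {d d' : A} (hd : d ∈ DD F A) (hd' : d' ∈ DD F A) :
    d' * (cm n b * d) = 0 := by
  have hy := nuc_cm hA hn b
  have hqy : ∀ q₁ q₂ q₃ : A, InNuc (associator q₁ q₂ q₃ * cm n b) := by
    intro q₁ q₂ q₃
    rw [← nuc_comm hA hy]
    exact nuc_H_nuc hA hT hn _ _ _ _
  rw [DD_eq_left hA] at hd'
  induction hd' using Submodule.span_induction with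
  | mem x hx =>
    rcases hx with ⟨q₁, q₂, q₃, rfl⟩ | ⟨q₁, q₂, q₃, v, rfl⟩
    · rw [← nn2 hy, ← nuc_comm hA hy, nn1 hy, nuc_F7 hA hT hn b (ass_mem_DD _ _ _) hd]
    · rw [← nn2 hy, nn3 hy, nn2 (hqy _ _ _), ← nuc_comm hA hy, nn1 hy,
        nuc_F7 hA hT hn b (ass_mem_DD _ _ _) hd, mul_zero]
  | zero => rw [zero_mul]
  | add x y _ _ h1 h2 => rw [add_mul, h1, h2, add_zero]
  | smul r x _ h1 => rw [smul_mul_assoc, h1, smul_zero]

end

end H85.FA
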