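import Pool.Agent.H85.FA.Q1bFs

/-!
# MP_273d7a_al : kernel check of the certificate of `Q1b`, part A
-/

set_option maxRecDepth 100000

namespace H85.FA.Q1bd

theorem cA : Tab.check tab 4 (parMask mask) Fs tab.left = true := by decide +kernel

end H85.FA.Q1bd
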