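import Pool.Agent.H85.FA.Q1bFs

/-!
# MP_273d7a_al : kernel check of the certificate of `Q1b`, part C
-/

set_option maxRecDepth 100000

namespace H85.FA.Q1bd

theorem cC : instV tab 4 1000000 (parMask mask) Fs (top.take 63) [] = some v1 := by
  decide +kernel

end H85.FA.Q1bd
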