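import Pool.Agent.H85.FA.Engine

set_option maxRecDepth 100000

namespace H85.FA.Q1bd

/-- the set of odd names -/
def mask : ℕ := 164379246923349296587741372816772912320654222051690657781396441652439816733371343116402690212136326662940217928046288273668013170730671431007170320326615515583885454608090570061533798567945270275944671336399284

/-- the definitions of the names, in blocks of 32 -/
def defsB : List (List (ℕ × Bool × ℕ × ℕ)) :=
  [[(3, false, 2, 2), (4, false, 1, 2), (5, true, 1, 2), (6, true, 1, 1), (7, false, 0, 2), (8, true, 0, 2), (9, false, 0, 1), (10, true, 0, 1), (11, true, 0, 0), (12, false, 1, 3), (13, false, 2, 4), (14, true, 1, 3), (15, true, 2, 4), (16, false, 1, 4), (17, true, 1, 4), (18, false, 0, 3), (19, false, 2, 7), (20, true, 0, 3), (21, true, 2, 7), (22, false, 0, 4), (23, false, 1, 7), (24, false, 2, 9), (25, true, 0, 4), (26, true, 1, 7), (27, true, 2,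 9), (28, false, 1, 9), (29, true, 1, 9), (30, false, 0, 7), (31, true, 0, 7)],
   [(32, false, 0, 9), (33, true, 0, 9), (34, false, 1, 12), (35, false, 1, 13), (36, false, 2, 16), (37, true, 1, 12), (38, true, 1, 13), (39, true, 2, 16), (40, false, 0, 12), (41, false, 0, 13), (42, false, 1, 18), (43, false, 1, 19), (44, false, 2, 22), (45, false, 2, 23), (46, true, 0, 12), (47, true, 0, 13), (48, true, 1, 18), (49, true, 1, 19), (50, true, 2, 22), (51, true, 2, 23), (52, true, 2, 24), (53, true, 3, 9), (54, true, 4, 7), (55, false, 0, 16), (56, false, 1, 22), (57, false, 1, 23), (58, false, 1, 24), (59, true, 0, 16), (60, true, 1, 22), (61, true, 1, 23), (62, true, 1, 24), (63, true, 2, 28)],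
   [(64, true, 4, 9), (65, false, 0, 18), (66, false, 0, 19), (67, false, 2, 30), (68, true, 0, 18), (69, true, 0, 19), (70, true, 2, 30), (71, false, 0, 22), (72, false, 0, 23), (73, false, 0, 24), (74, false, 1, 30), (75, true, 0, 22), (76, true, 0, 23), (77, true, 0, 24), (78, true, 1, 30), (79, true, 2, 32), (80, true, 7, 9), (81, false, 0, 28), (82, true, 0, 28), (83, true, 1, 32), (84, true, 9, 9), (85, false, 0, 30), (86, true, 0, 30), (87, false, 0, 32), (88, true, 0, 32), (89, false, 0, 34), (90, false, 0, 35), (91, false, 0, 36), (92, false, 1, 40), (93, false, 1, 41), (94, false, 1, 42), (95, false, 1, 43)],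
   [(96, false, 1, 44), (97, false, 1, 45), (98, false, 2, 55), (99, false, 2, 56), (100, true, 0, 34), (101, true, 0, 35), (102, true, 0, 36), (103, true, 1, 40), (104, true, 1, 41), (105, true, 1, 42), (106, true, 1, 43), (107, true, 1, 44), (108, true, 1, 45), (109, true, 2, 55), (110, true, 2, 56), (111, true, 2, 57), (112, true, 2, 58), (113, true, 3, 28), (114, true, 4, 22), (115, true, 4, 23), (116, true, 4, 24), (117, true, 7, 16), (118, true, 9, 12), (119, false, 0, 40), (120, false, 0, 41), (121, false, 0, 42), (122, false, 0, 43), (123, false, 0, 44), (124, false, 0, 45), (125, false, 1, 65), (126, false, 1, 66), (127, false, 1, 67)],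
   [(128, false, 2, 71), (129, false, 2, 72), (130, true, 0, 40), (131, true, 0, 41), (132, true, 0, 42), (133, true, 0, 43), (134, true, 0, 44), (135, true, 0, 45), (136, true, 1, 65), (137, true, 1, 66), (138, true, 1, 67), (139, true, 2, 71), (140, true, 2, 72), (141, true, 2, 73), (142, true, 2, 74), (143, true, 3, 32), (144, true, 4, 30), (145, true, 7, 22), (146, true, 7, 23), (147, true, 7, 24), (148, true, 9, 18), (149, false, 0, 55), (150, false, 0, 56), (151, false, 0, 57), (152, false, 0, 58), (153, false, 1, 71), (154, false, 1, 72), (155, false, 1, 73), (156, false, 1, 74), (157, true, 0, 55), (158, true, 0, 56), (159, true, 0, 57)],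
   [(160, true, 0, 58), (161, true, 1, 71), (162, true, 1, 72), (163, true, 1, 73), (164, true, 1, 74), (165, true, 2, 81), (166, true, 4, 32), (167, true, 7, 28), (168, true, 9, 22), (169, true, 9, 23), (170, false, 0, 65), (171, false, 0, 66), (172, false, 0, 67), (173, true, 0, 65), (174, true, 0, 66), (175, true, 0, 67), (176, true, 2, 85), (177, true, 7, 30), (178, false, 0, 71), (179, false, 0, 72), (180, false, 0, 73), (181, false, 0, 74), (182, false, 1, 85), (183, true, 0, 71), (184, true, 0, 72), (185, true, 0, 73), (186, true, 0, 74), (187, true, 1, 85), (188, true, 2, 87), (189, true, 7, 32), (190, true, 9, 30), (191, false, 0, 81)],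
   [(192, false, 1, 87), (193, true, 0, 81), (194, true, 1, 87), (195, true, 9, 32), (196, false, 0, 89), (197, false, 0, 90), (198, false, 0, 91), (199, false, 0, 92), (200, false, 0, 93), (201, false, 0, 94), (202, false, 0, 95), (203, false, 0, 96), (204, false, 0, 97), (205, false, 0, 98), (206, false, 0, 99), (207, false, 1, 119), (208, false, 1, 120), (209, false, 1, 121), (210, false, 1, 122), (211, false, 1, 123), (212, false, 1, 124), (213, false, 1, 125), (214, false, 1, 126), (215, false, 1, 127), (216, false, 1, 128), (217, false, 2, 149), (218, false, 2, 150), (219, false, 2, 151), (220, false, 2, 153), (221, true, 0, 89), (222, true, 0, 90), (223, true, 0, 91)],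
   [(224, true, 0, 92), (225, true, 0, 93), (226, true, 0, 94), (227, true, 0, 95), (228, true, 0, 96), (229, true, 0, 97), (230, true, 0, 98), (231, true, 0, 99), (232, true, 1, 119), (233, true, 1, 120), (234, true, 1, 121), (235, true, 1, 122), (236, true, 1, 123), (237, true, 1, 124), (238, true, 1, 125), (239, true, 1, 126), (240, true, 1, 127), (241, true, 1, 128), (242, true, 1, 129), (243, true, 2, 149), (244, true, 2, 150), (245, true, 2, 151), (246, true, 2, 152), (247, true, 2, 153), (248, true, 2, 154), (249, true, 2, 155), (250, true, 2, 156), (251, true, 3, 81), (252, true, 4, 71), (253, true, 4, 72), (254, true, 4, 73), (255, true, 4, 74)],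
   [(256, true, 7, 55), (257, true, 7, 56), (258, true, 7, 57), (259, true, 7, 58), (260, true, 9, 40), (261, true, 9, 42), (262, true, 9, 44), (263, true, 12, 32), (264, false, 0, 119), (265, false, 0, 120), (266, false, 0, 121), (267, false, 0, 122), (268, false, 0, 123), (269, false, 0, 124), (270, false, 0, 125), (271, false, 0, 126), (272, false, 0, 127), (273, false, 0, 128), (274, false, 1, 170), (275, false, 1, 171), (276, false, 1, 172), (277, false, 2, 178), (278, false, 2, 179), (279, true, 0, 119), (280, true, 0, 120), (281, true, 0, 121), (282, true, 0, 122), (283, true, 0, 123), (284, true, 0, 124), (285, true, 0, 125), (286, true, 0, 126), (287, true, 0, 127)],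
   [(288, true, 0, 128), (289, true, 0, 129), (290, true, 1, 170), (291, true, 1, 171), (292, true, 1, 172), (293, true, 2, 178), (294, true, 2, 179), (295, true, 2, 180), (296, true, 2, 181), (297, true, 2, 182), (298, true, 3, 87), (299, true, 4, 85), (300, true, 7, 71), (301, true, 7, 72), (302, true, 7, 73), (303, true, 7, 74), (304, true, 9, 65), (305, true, 9, 67), (306, true, 18, 32), (307, false, 0, 149), (308, false, 0, 150), (309, false, 0, 151), (310, false, 0, 152), (311, false, 0, 153), (312, false, 0, 154), (313, false, 0, 155), (314, false, 0, 156), (315, false, 1, 178), (316, false, 1, 179), (317, false, 1, 181), (318, false, 1, 182), (319, true, 0, 149)],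
   [(320, true, 0, 150), (321, true, 0, 151), (322, true, 0, 152), (323, true, 0, 153), (324, true, 0, 154), (325, true, 0, 155), (326, true, 0, 156), (327, true, 1, 178), (328, true, 1, 179), (329, true, 1, 180), (330, true, 1, 181), (331, true, 1, 182), (332, true, 2, 191), (333, true, 2, 192), (334, true, 4, 87), (335, true, 7, 81), (336, true, 9, 71), (337, true, 9, 72), (338, true, 9, 74), (339, false, 2, 5), (340, false, 1, 5), (341, false, 2, 6), (342, false, 2, 8), (343, false, 0, 5), (344, false, 1, 8), (345, false, 2, 10), (346, false, 0, 6), (347, false, 1, 10), (348, false, 0, 8), (349, false, 2, 11), (350, false, 0, 10), (351, false, 1, 11)],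
   [(352, false, 0, 11), (353, false, 4, 4), (354, false, 4, 5), (355, false, 3, 6), (356, false, 1, 14), (357, false, 1, 15), (358, false, 2, 17), (359, false, 3, 9), (360, false, 2, 24), (361, false, 4, 7), (362, false, 5, 7), (363, false, 4, 8), (364, false, 3, 10), (365, false, 0, 14), (366, false, 0, 15), (367, false, 1, 20), (368, false, 1, 21), (369, false, 2, 25), (370, false, 2, 26), (371, false, 2, 27), (372, false, 2, 28), (373, false, 4, 9), (374, false, 5, 9), (375, false, 6, 7), (376, false, 4, 10), (377, false, 0, 17), (378, false, 1, 25), (379, false, 1, 26), (380, false, 1, 27), (381, false, 2, 29), (382, false, 7, 7), (383, false, 7, 8)],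
   [(384, false, 3, 11), (385, false, 0, 20), (386, false, 0, 21), (387, false, 2, 31), (388, false, 7, 9), (389, false, 2, 32), (390, false, 8, 9), (391, false, 7, 10), (392, false, 4, 11), (393, false, 0, 25), (394, false, 0, 26), (395, false, 0, 27), (396, false, 1, 31), (397, false, 2, 33), (398, false, 1, 32), (399, false, 9, 10), (400, false, 0, 29), (401, false, 1, 33), (402, false, 7, 11), (403, false, 0, 31), (404, false, 9, 11), (405, false, 0, 33), (406, false, 3, 28), (407, false, 9, 12), (408, false, 2, 58), (409, false, 4, 23), (410, false, 7, 16), (411, false, 9, 13), (412, false, 2, 57), (413, false, 4, 24), (414, false, 4, 22), (415, true, 9, 13)],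
   [(416, false, 0, 37), (417, false, 0, 38), (418, false, 0, 39), (419, false, 1, 46), (420, false, 1, 47), (421, false, 1, 48), (422, false, 1, 49), (423, false, 1, 50), (424, false, 1, 51), (425, false, 1, 52), (426, false, 1, 53), (427, false, 1, 54), (428, false, 2, 59), (429, false, 2, 60), (430, false, 2, 61), (431, false, 2, 62), (432, false, 2, 63), (433, false, 2, 64), (434, false, 9, 18), (435, false, 3, 32), (436, false, 7, 22), (437, false, 4, 30), (438, false, 7, 24), (439, false, 2, 74), (440, false, 9, 19), (441, false, 7, 23), (442, false, 2, 73), (443, true, 9, 19), (444, false, 0, 46), (445, false, 0, 47), (446, false, 0, 48), (447, false, 0, 49)],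
   [(448, false, 0, 50), (449, false, 0, 51), (450, false, 0, 52), (451, false, 0, 53), (452, false, 0, 54), (453, false, 1, 68), (454, false, 1, 69), (455, false, 1, 70), (456, false, 2, 75), (457, false, 2, 76), (458, false, 2, 77), (459, false, 2, 78), (460, false, 2, 79), (461, false, 2, 80), (462, false, 9, 22), (463, false, 9, 23), (464, false, 4, 32), (465, false, 7, 28), (466, false, 2, 81), (467, false, 9, 24), (468, true, 9, 24), (469, false, 0, 59), (470, false, 0, 60), (471, false, 0, 61), (472, false, 0, 62), (473, false, 0, 63), (474, false, 0, 64), (475, false, 1, 75), (476, false, 1, 76), (477, false, 1, 77), (478, false, 1, 78), (479, false, 1, 79)],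
   [(480, false, 1, 80), (481, false, 2, 82), (482, false, 2, 83), (483, false, 2, 84), (484, false, 7, 30), (485, false, 2, 85), (486, false, 0, 68), (487, false, 0, 69), (488, false, 0, 70), (489, false, 2, 86), (490, false, 7, 32), (491, false, 9, 30), (492, false, 2, 87), (493, false, 0, 75), (494, false, 0, 76), (495, false, 0, 77), (496, false, 0, 78), (497, false, 0, 79), (498, false, 0, 80), (499, false, 1, 86), (500, false, 2, 88), (501, false, 9, 32), (502, false, 0, 82), (503, false, 0, 83), (504, false, 0, 84), (505, false, 1, 88), (506, false, 9, 40), (507, false, 9, 42), (508, false, 13, 32), (509, false, 9, 41), (510, false, 12, 32), (511, false, 18, 28)],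
   [(512, false, 7, 55), (513, false, 16, 30), (514, false, 3, 81), (515, false, 23, 24), (516, false, 4, 72), (517, false, 2, 154), (518, false, 7, 57), (519, false, 23, 23), (520, false, 7, 58), (521, false, 2, 155), (522, false, 24, 24), (523, false, 1, 129), (524, false, 22, 23), (525, false, 19, 28), (526, false, 9, 43), (527, false, 4, 74), (528, false, 2, 156), (529, false, 9, 45), (530, false, 9, 44), (531, false, 2, 152), (532, false, 22, 22), (533, false, 7, 56), (534, false, 22, 24), (535, false, 4, 71), (536, false, 4, 73), (537, true, 9, 45), (538, true, 9, 41), (539, true, 9, 43), (540, true, 13, 32), (541, true, 22, 24), (542, true, 22, 23), (543, true, 23, 24)],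
   [(544, true, 19, 28), (545, true, 18, 28), (546, true, 16, 30), (547, false, 0, 100), (548, false, 0, 101), (549, false, 0, 102), (550, false, 0, 103), (551, false, 0, 104), (552, false, 0, 105), (553, false, 0, 106), (554, false, 0, 107), (555, false, 0, 108), (556, false, 0, 109), (557, false, 0, 110), (558, false, 0, 111), (559, false, 0, 112), (560, false, 0, 113), (561, false, 0, 114), (562, false, 0, 115), (563, false, 0, 116), (564, false, 0, 117), (565, false, 0, 118), (566, false, 1, 130), (567, false, 1, 131), (568, false, 1, 132), (569, false, 1, 133), (570, false, 1, 134), (571, false, 1, 135), (572, false, 1, 136), (573, false, 1, 137), (574, false, 1, 138), (575, false, 1, 139)],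
   [(576, false, 1, 140), (577, false, 1, 141), (578, false, 1, 142), (579, false, 1, 143), (580, false, 1, 144), (581, false, 1, 145), (582, false, 1, 146), (583, false, 1, 147), (584, false, 1, 148), (585, false, 2, 157), (586, false, 2, 158), (587, false, 2, 159), (588, false, 2, 160), (589, false, 2, 161), (590, false, 2, 162), (591, false, 2, 163), (592, false, 2, 164), (593, false, 2, 165), (594, false, 2, 166), (595, false, 2, 167), (596, false, 2, 168), (597, false, 2, 169), (598, false, 7, 72), (599, false, 18, 32), (600, false, 9, 65), (601, false, 7, 71), (602, false, 22, 30), (603, false, 3, 87), (604, false, 4, 85), (605, false, 2, 182), (606, false, 2, 180), (607, false, 7, 74)],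
   [(608, false, 24, 30), (609, false, 2, 181), (610, false, 0, 129), (611, false, 23, 30), (612, false, 9, 66), (613, false, 19, 32), (614, false, 7, 73), (615, false, 9, 67), (616, true, 9, 66), (617, true, 19, 32), (618, true, 24, 30), (619, true, 22, 30), (620, true, 23, 30), (621, false, 0, 130), (622, false, 0, 131), (623, false, 0, 132), (624, false, 0, 133), (625, false, 0, 134), (626, false, 0, 135), (627, false, 0, 136), (628, false, 0, 137), (629, false, 0, 138), (630, false, 0, 139), (631, false, 0, 140), (632, false, 0, 141), (633, false, 0, 142), (634, false, 0, 143), (635, false, 0, 144), (636, false, 0, 145), (637, false, 0, 146), (638, false, 0, 147), (639, false, 0, 148)],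
   [(640, false, 1, 173), (641, false, 1, 174), (642, false, 1, 175), (643, false, 1, 176), (644, false, 1, 177), (645, false, 2, 183), (646, false, 2, 184), (647, false, 2, 185), (648, false, 2, 186), (649, false, 2, 187), (650, false, 2, 188), (651, false, 2, 189), (652, false, 2, 190), (653, false, 9, 72), (654, false, 22, 32), (655, false, 9, 71), (656, false, 23, 32), (657, false, 4, 87), (658, false, 24, 32), (659, false, 9, 73), (660, false, 1, 180), (661, false, 9, 74), (662, false, 28, 30), (663, false, 2, 191), (664, false, 7, 81), (665, false, 2, 192), (666, true, 9, 73), (667, true, 24, 32), (668, true, 22, 32), (669, true, 23, 32), (670, true, 28, 30), (671, false, 0, 157)],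
   [(672, false, 0, 158), (673, false, 0, 159), (674, false, 0, 160), (675, false, 0, 161), (676, false, 0, 162), (677, false, 0, 163), (678, false, 0, 164), (679, false, 0, 165), (680, false, 0, 166), (681, false, 0, 167), (682, false, 0, 168), (683, false, 0, 169), (684, false, 1, 183), (685, false, 1, 184), (686, false, 1, 185), (687, false, 1, 186), (688, false, 1, 187), (689, false, 1, 188), (690, false, 1, 189), (691, false, 1, 190), (692, false, 2, 193), (693, false, 2, 194), (694, false, 2, 195), (695, false, 0, 196), (696, false, 0, 197), (697, false, 0, 198), (698, false, 0, 199), (699, false, 0, 200), (700, false, 0, 201), (701, false, 0, 202), (702, false, 0, 203), (703, false, 0, 204)],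
   [(704, false, 0, 205), (705, false, 0, 206), (706, false, 0, 207), (707, false, 0, 208), (708, false, 0, 209), (709, false, 0, 210), (710, false, 0, 211), (711, false, 0, 212), (712, false, 0, 213), (713, false, 0, 214), (714, false, 0, 215), (715, false, 0, 216), (716, false, 0, 217), (717, false, 0, 218), (718, false, 0, 219), (719, false, 0, 220), (720, false, 1, 264), (721, false, 1, 265), (722, false, 1, 266), (723, false, 1, 267), (724, false, 1, 268), (725, false, 1, 269), (726, false, 1, 270), (727, false, 1, 271), (728, false, 1, 272), (729, false, 1, 273), (730, false, 1, 274), (731, false, 1, 275), (732, false, 1, 276), (733, false, 1, 277), (734, false, 1, 278), (735, false, 2, 307)],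
   [(736, false, 2, 308), (737, false, 2, 309), (738, false, 2, 310), (739, false, 2, 311), (740, false, 2, 312), (741, false, 2, 313), (742, false, 2, 314), (743, false, 2, 315), (744, false, 2, 316), (745, false, 2, 317), (746, false, 2, 318), (747, false, 3, 191), (748, false, 3, 192), (749, false, 4, 178), (750, false, 4, 179), (751, false, 4, 180), (752, false, 4, 181), (753, false, 4, 182), (754, false, 7, 149), (755, false, 7, 150), (756, false, 7, 151), (757, false, 7, 152), (758, false, 7, 153), (759, false, 7, 154), (760, false, 7, 155), (761, false, 7, 156), (762, false, 9, 119), (763, false, 9, 120), (764, false, 9, 121), (765, false, 9, 122), (766, false, 9, 123), (767, false, 9, 124)],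
   [(768, false, 9, 125), (769, false, 9, 126), (770, false, 9, 127), (771, false, 9, 128), (772, false, 9, 129), (773, false, 12, 87), (774, false, 16, 85), (775, false, 18, 81), (776, false, 19, 81), (777, false, 22, 71), (778, false, 22, 72), (779, false, 22, 73), (780, false, 22, 74), (781, false, 23, 71), (782, false, 23, 72), (783, false, 23, 73), (784, false, 23, 74), (785, false, 24, 71), (786, false, 24, 72), (787, false, 24, 73), (788, false, 24, 74), (789, false, 28, 65), (790, false, 28, 66), (791, false, 28, 67), (792, false, 30, 55), (793, false, 30, 56), (794, false, 30, 57), (795, false, 30, 58), (796, false, 32, 40), (797, false, 32, 41), (798, false, 32, 42), (799, false, 32, 43)],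
   [(800, false, 32, 44), (801, false, 32, 45), (802, true, 0, 261), (803, true, 0, 262), (804, true, 1, 300), (805, true, 1, 301), (806, true, 1, 302), (807, true, 1, 303), (808, true, 1, 305), (809, true, 1, 306), (810, true, 2, 334), (811, true, 2, 335), (812, true, 2, 336), (813, true, 2, 337), (814, true, 2, 338), (815, true, 3, 193), (816, true, 3, 195), (817, true, 4, 184), (818, true, 4, 185), (819, true, 4, 186), (820, true, 4, 189), (821, true, 4, 190), (822, true, 7, 157), (823, true, 7, 158), (824, true, 7, 159), (825, true, 7, 160), (826, true, 7, 162), (827, true, 7, 163), (828, true, 7, 164), (829, true, 7, 165), (830, true, 7, 166), (831, true, 7, 167)],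
   [(832, true, 7, 168), (833, true, 7, 169), (834, true, 9, 132), (835, true, 9, 133), (836, true, 9, 134), (837, true, 9, 135), (838, true, 9, 138), (839, true, 9, 140), (840, true, 9, 141), (841, true, 9, 142), (842, true, 9, 143), (843, true, 9, 144), (844, true, 9, 145), (845, true, 9, 146), (846, true, 9, 147), (847, true, 9, 148), (848, true, 12, 88), (849, true, 13, 88), (850, true, 16, 86), (851, true, 18, 82), (852, true, 18, 84), (853, true, 19, 82), (854, true, 19, 83), (855, true, 19, 84), (856, true, 21, 81), (857, true, 22, 76), (858, true, 22, 77), (859, true, 22, 80), (860, true, 23, 75), (861, true, 23, 76), (862, true, 23, 77), (863, true, 23, 78)],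
   [(864, true, 23, 79), (865, true, 23, 80), (866, true, 24, 75), (867, true, 24, 76), (868, true, 24, 78), (869, true, 24, 79), (870, true, 24, 80), (871, true, 26, 72), (872, true, 26, 73), (873, true, 26, 74), (874, true, 27, 72), (875, true, 27, 73), (876, true, 27, 74), (877, true, 28, 68), (878, true, 28, 69), (879, true, 28, 70), (880, true, 29, 67), (881, true, 30, 61), (882, true, 30, 62), (883, true, 30, 63), (884, true, 30, 64), (885, true, 31, 55), (886, true, 31, 56), (887, true, 31, 57), (888, true, 31, 58), (889, true, 32, 49), (890, true, 32, 52), (891, true, 32, 53), (892, true, 32, 54), (893, true, 33, 42), (894, true, 33, 43), (895, true, 33, 44)],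
   [(896, true, 33, 45)]]

/-- the definitions of the names -/
def defs : List (ℕ × Bool × ℕ × ℕ) := defsB.flatten

/-- the multiplication table -/
def tab : Tab :=
 (.node ⟨false, 2, 5, 4106, 339, 1, [(14, p 4), (15, p 4)], [(p 1, 3, [1, 2, 2])]⟩ (.node ⟨false, 0, 159, 318, 673, 335, [(321, p 4)], [(p 1, 3, [0, 57, 0])]⟩ (.node ⟨true, 0, 74, 149, 186, 0, [(186, p 4)], []⟩ (.node ⟨false, 0, 36, 72, 91, 0, [(91, p 4)], []⟩ (.node ⟨false, 0, 18, 36, 65, 0, [(65, p 4)], []⟩ (.node ⟨false, 0, 8, 16, 348, 10, [(31, p 4)], [(p 1, 3, [0, 2, 0])]⟩ (.node ⟨true, 0, 3, 7, 20, 0, [(20, p 4)], []⟩ (.node ⟨false, 0, 2, 4, 7, 0, [(7, p 4)], []⟩ (.node ⟨false, 0, 1, 2, 9, 0, [(9, p 4)], []⟩ (.node ⟨true, 0, 0, 1, 11, 0, [(11, p 4)], []⟩ .nil .nil) (.node ⟨true, 0, 1, 3, 10, 0, [(10, p 4)], []⟩ .nil .nil)) (.node ⟨false, 0, 3, 6, 18, 0, [(18, p 4)], []⟩ (.node ⟨true, 0, 2, 5, 8, 0, [(8, p 4)], []⟩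 .nil .nil) .nil)) (.node ⟨false, 0, 6, 12, 346, 8, [(29, p 8)], [(p 1, 3, [1, 1, 0])]⟩ (.node ⟨true, 0, 4, 9, 25, 0, [(25, p 4)], []⟩ (.node ⟨false, 0, 4, 8, 22, 0, [(22, p 4)], []⟩ .nil .nil) (.node ⟨false, 0, 5, 10, 343, 5, [(26, p 4), (27, p 4)], [(p 1, 3, [1, 2, 0])]⟩ .nil .nil)) (.node ⟨true, 0, 7, 15, 31, 0, [(31, p 4)], []⟩ (.node ⟨false, 0, 7, 14, 30, 0, [(30, p 4)], []⟩ .nil .nil) .nil))) (.node ⟨false, 0, 13, 26, 41, 0, [(41, p 4)], []⟩ (.node ⟨false, 0, 11, 22, 352, 14, [], [(p 1, 3, [0, 0, 0])]⟩ (.node ⟨true, 0, 9, 19, 33, 0, [(33, p 4)], []⟩ (.node ⟨false, 0, 9, 18, 32, 0, [(32, p 4)], []⟩ .nil .nil) (.node ⟨false, 0, 10, 20, 350, 12, [(33, p 4)], [(p 1, 3, [0, 1, 0])]⟩ .nil .nil)) (.node ⟨true, 0, 12, 25, 46, 0, [(46, p 4)], []⟩ (.node ⟨false, 0, 12, 24, 40, 0, [(40, p 4)], []⟩ .nil .nil) .nil)) (.node ⟨false, 0, 16, 32, 55, 0, [(55, p 4)], []⟩ (.node ⟨false, 0, 14, 28,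 365, 27, [(48, p 4), (53, p 4)], [(p 1, 3, [1, 3, 0])]⟩ (.node ⟨true, 0, 13, 27, 47, 0, [(47, p 4)], []⟩ .nil .nil) (.node ⟨false, 0, 15, 30, 366, 28, [(50, p 4), (54, n 3)], [(p 1, 3, [2, 4, 0])]⟩ .nil .nil)) (.node ⟨false, 0, 17, 34, 377, 39, [(60, p 4), (64, p 4)], [(p 1, 3, [1, 4, 0])]⟩ (.node ⟨true, 0, 16, 33, 59, 0, [(59, p 4)], []⟩ .nil .nil) .nil)))) (.node ⟨false, 0, 27, 54, 395, 57, [(79, p 4), (80, p 4)], [(p 1, 3, [2, 9, 0])]⟩ (.node ⟨true, 0, 22, 45, 75, 0, [(75, p 4)], []⟩ (.node ⟨false, 0, 20, 40, 385, 47, [(68, p 4)], [(p 1, 3, [0, 3, 0])]⟩ (.node ⟨false, 0, 19, 38, 66, 0, [(66, p 4)], []⟩ (.node ⟨true, 0, 18, 37, 68, 0, [(68, p 4)], []⟩ .nil .nil) (.node ⟨true, 0, 19, 39, 69, 0, [(69, p 4)], []⟩ .nil .nil)) (.node ⟨false, 0, 22, 44, 71, 0, [(71, p 4)], []⟩ (.node ⟨false, 0, 21, 42, 386, 48, [(70, p 4)], [(p 1, 3, [2, 7, 0])]⟩ .nil .nil) .nil)) (.node ⟨true, 0, 24, 49,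 77, 0, [(77, p 4)], []⟩ (.node ⟨true, 0, 23, 47, 76, 0, [(76, p 4)], []⟩ (.node ⟨false, 0, 23, 46, 72, 0, [(72, p 4)], []⟩ .nil .nil) (.node ⟨false, 0, 24, 48, 73, 0, [(73, p 4)], []⟩ .nil .nil)) (.node ⟨false, 0, 26, 52, 394, 56, [(78, p 4), (80, p 4)], [(p 1, 3, [1, 7, 0])]⟩ (.node ⟨false, 0, 25, 50, 393, 55, [(75, p 4)], [(p 1, 3, [0, 4, 0])]⟩ .nil .nil) .nil))) (.node ⟨false, 0, 32, 64, 87, 0, [(87, p 4)], []⟩ (.node ⟨false, 0, 30, 60, 85, 0, [(85, p 4)], []⟩ (.node ⟨true, 0, 28, 57, 82, 0, [(82, p 4)], []⟩ (.node ⟨false, 0, 28, 56, 81, 0, [(81, p 4)], []⟩ .nil .nil) (.node ⟨false, 0, 29, 58, 400, 62, [(83, p 4), (84, p 4)], [(p 1, 3, [1, 9, 0])]⟩ .nil .nil)) (.node ⟨false, 0, 31, 62, 403, 65, [(86, p 4)], [(p 1, 3, [0, 7, 0])]⟩ (.node ⟨true, 0, 30, 61, 86, 0, [(86, p 4)], []⟩ .nil .nil) .nil)) (.node ⟨true, 0, 34, 69, 100, 0, [(100, p 4)], []⟩ (.node ⟨false, 0, 33, 66, 405, 67,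 [(88, p 4)], [(p 1, 3, [0, 9, 0])]⟩ (.node ⟨true, 0, 32, 65, 88, 0, [(88, p 4)], []⟩ .nil .nil) (.node ⟨false, 0, 34, 68, 89, 0, [(89, p 4)], []⟩ .nil .nil)) (.node ⟨true, 0, 35, 71, 101, 0, [(101, p 4)], []⟩ (.node ⟨false, 0, 35, 70, 90, 0, [(90, p 4)], []⟩ .nil .nil) .nil))))) (.node ⟨false, 0, 56, 112, 150, 0, [(150, p 4)], []⟩ (.node ⟨true, 0, 44, 89, 134, 0, [(134, p 4)], []⟩ (.node ⟨false, 0, 41, 82, 120, 0, [(120, p 4)], []⟩ (.node ⟨false, 0, 39, 78, 418, 80, [(109, p 4), (117, p 4)], [(p 1, 3, [2, 16, 0])]⟩ (.node ⟨false, 0, 37, 74, 416, 78, [(103, p 4), (118, p 4)], [(p 1, 3, [1, 12, 0])]⟩ (.node ⟨true, 0, 36, 73, 102, 0, [(102, p 4)], []⟩ .nil .nil) (.node ⟨false, 0, 38, 76, 417, 79, [(104, p 4), (114, p 2), (115, n 1), (116, p 2), (118, p 2)], [(p 1, 3, [1, 13, 0])]⟩ .nil .nil)) (.node ⟨true, 0, 40, 81, 130, 0, [(130, p 4)], []⟩ (.node ⟨false, 0, 40, 80, 119, 0, [(119, p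 4)], []⟩ .nil .nil) .nil)) (.node ⟨false, 0, 43, 86, 122, 0, [(122, p 4)], []⟩ (.node ⟨false, 0, 42, 84, 121, 0, [(121, p 4)], []⟩ (.node ⟨true, 0, 41, 83, 131, 0, [(131, p 4)], []⟩ .nil .nil) (.node ⟨true, 0, 42, 85, 132, 0, [(132, p 4)], []⟩ .nil .nil)) (.node ⟨false, 0, 44, 88, 123, 0, [(123, p 4)], []⟩ (.node ⟨true, 0, 43, 87, 133, 0, [(133, p 4)], []⟩ .nil .nil) .nil))) (.node ⟨false, 0, 50, 100, 448, 110, [(139, p 4), (145, p 4)], [(p 1, 3, [2, 22, 0])]⟩ (.node ⟨false, 0, 47, 94, 445, 107, [(131, p 4)], [(p 1, 3, [0, 13, 0])]⟩ (.node ⟨true, 0, 45, 91, 135, 0, [(135, p 4)], []⟩ (.node ⟨false, 0, 45, 90, 124, 0, [(124, p 4)], []⟩ .nil .nil) (.node ⟨false, 0, 46, 92, 444, 106, [(130, p 4)], [(p 1, 3, [0, 12, 0])]⟩ .nil .nil)) (.node ⟨false, 0, 49, 98, 447, 109, [(137, p 4), (145, p 2), (146, n 1), (147, p 2), (148, p 2)], [(p 1, 3, [1, 19, 0])]⟩ (.node ⟨false, 0, 48, 96, 446, 108,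 [(136, p 4), (148, p 4)], [(p 1, 3, [1, 18, 0])]⟩ .nil .nil) .nil)) (.node ⟨false, 0, 54, 108, 452, 114, [(144, p 4), (145, n 3)], [(p 1, 3, [4, 7, 0])]⟩ (.node ⟨false, 0, 52, 104, 450, 112, [(141, p 4), (147, p 4)], [(p 1, 3, [2, 24, 0])]⟩ (.node ⟨false, 0, 51, 102, 449, 111, [(140, p 4), (146, p 4)], [(p 1, 3, [2, 23, 0])]⟩ .nil .nil) (.node ⟨false, 0, 53, 106, 451, 113, [(143, p 4), (148, p 4)], [(p 1, 3, [3, 9, 0])]⟩ .nil .nil)) (.node ⟨true, 0, 55, 111, 157, 0, [(157, p 4)], []⟩ (.node ⟨false, 0, 55, 110, 149, 0, [(149, p 4)], []⟩ .nil .nil) .nil)))) (.node ⟨false, 0, 66, 132, 171, 0, [(171, p 4)], []⟩ (.node ⟨false, 0, 60, 120, 470, 132, [(161, p 4), (168, p 4)], [(p 1, 3, [1, 22, 0])]⟩ (.node ⟨false, 0, 58, 116, 152, 0, [(152, p 4)], []⟩ (.node ⟨false, 0, 57, 114, 151, 0, [(151, p 4)], []⟩ (.node ⟨true, 0, 56, 113, 158, 0, [(158, p 4)], []⟩ .nil .nil) (.node ⟨true, 0, 57, 115,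 159, 0, [(159, p 4)], []⟩ .nil .nil)) (.node ⟨false, 0, 59, 118, 469, 131, [(157, p 4)], [(p 1, 3, [0, 16, 0])]⟩ (.node ⟨true, 0, 58, 117, 160, 0, [(160, p 4)], []⟩ .nil .nil) .nil)) (.node ⟨false, 0, 64, 128, 474, 136, [(166, p 4), (168, p 4)], [(p 1, 3, [4, 9, 0])]⟩ (.node ⟨false, 0, 62, 124, 472, 134, [(163, p 4), (168, n 3), (169, p 4)], [(p 1, 3, [1, 24, 0])]⟩ (.node ⟨false, 0, 61, 122, 471, 133, [(162, p 4), (169, p 4)], [(p 1, 3, [1, 23, 0])]⟩ .nil .nil) (.node ⟨false, 0, 63, 126, 473, 135, [(165, p 4), (167, p 4)], [(p 1, 3, [2, 28, 0])]⟩ .nil .nil)) (.node ⟨true, 0, 65, 131, 173, 0, [(173, p 4)], []⟩ (.node ⟨false, 0, 65, 130, 170, 0, [(170, p 4)], []⟩ .nil .nil) .nil))) (.node ⟨false, 0, 71, 142, 178, 0, [(178, p 4)], []⟩ (.node ⟨false, 0, 68, 136, 486, 148, [(173, p 4)], [(p 1, 3, [0, 18, 0])]⟩ (.node ⟨false, 0, 67, 134, 172, 0, [(172, p 4)], []⟩ (.node ⟨true, 0, 66, 133,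 174, 0, [(174, p 4)], []⟩ .nil .nil) (.node ⟨true, 0, 67, 135, 175, 0, [(175, p 4)], []⟩ .nil .nil)) (.node ⟨false, 0, 70, 140, 488, 150, [(176, p 4), (177, p 4)], [(p 1, 3, [2, 30, 0])]⟩ (.node ⟨false, 0, 69, 138, 487, 149, [(174, p 4)], [(p 1, 3, [0, 19, 0])]⟩ .nil .nil) .nil)) (.node ⟨false, 0, 73, 146, 180, 0, [(180, p 4)], []⟩ (.node ⟨false, 0, 72, 144, 179, 0, [(179, p 4)], []⟩ (.node ⟨true, 0, 71, 143, 183, 0, [(183, p 4)], []⟩ .nil .nil) (.node ⟨true, 0, 72, 145, 184, 0, [(184, p 4)], []⟩ .nil .nil)) (.node ⟨false, 0, 74, 148, 181, 0, [(181, p 4)], []⟩ (.node ⟨true, 0, 73, 147, 185, 0, [(185, p 4)], []⟩ .nil .nil) .nil)))))) (.node ⟨true, 0, 120, 241, 280, 0, [(280, p 4)], []⟩ (.node ⟨false, 0, 97, 194, 204, 0, [(204, p 4)], []⟩ (.node ⟨false, 0, 90, 180, 197, 0, [(197, p 4)], []⟩ (.node ⟨false, 0, 81, 162, 191, 0, [(191, p 4)], []⟩ (.node ⟨false, 0, 78, 156, 496, 158, [(187,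 p 4), (190, p 4)], [(p 1, 3, [1, 30, 0])]⟩ (.node ⟨false, 0, 76, 152, 494, 156, [(184, p 4)], [(p 1, 3, [0, 23, 0])]⟩ (.node ⟨false, 0, 75, 150, 493, 155, [(183, p 4)], [(p 1, 3, [0, 22, 0])]⟩ .nil .nil) (.node ⟨false, 0, 77, 154, 495, 157, [(185, p 4)], [(p 1, 3, [0, 24, 0])]⟩ .nil .nil)) (.node ⟨false, 0, 80, 160, 498, 160, [(189, p 4), (190, p 4)], [(p 1, 3, [7, 9, 0])]⟩ (.node ⟨false, 0, 79, 158, 497, 159, [(188, p 4), (189, p 4)], [(p 1, 3, [2, 32, 0])]⟩ .nil .nil) .nil)) (.node ⟨false, 0, 84, 168, 504, 166, [(195, p 8)], [(p 1, 3, [9, 9, 0])]⟩ (.node ⟨false, 0, 82, 164, 502, 164, [(193, p 4)], [(p 1, 3, [0, 28, 0])]⟩ (.node ⟨true, 0, 81, 163, 193, 0, [(193, p 4)], []⟩ .nil .nil) (.node ⟨false, 0, 83, 166, 503, 165, [(194, p 4), (195, p 4)], [(p 1, 3, [1, 32, 0])]⟩ .nil .nil)) (.node ⟨true, 0, 89, 179, 221, 0, [(221, p 4)], []⟩ (.node ⟨false, 0, 89, 178, 196, 0, [(196, p 4)], []⟩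 .nil .nil) .nil))) (.node ⟨true, 0, 93, 187, 225, 0, [(225, p 4)], []⟩ (.node ⟨false, 0, 92, 184, 199, 0, [(199, p 4)], []⟩ (.node ⟨false, 0, 91, 182, 198, 0, [(198, p 4)], []⟩ (.node ⟨true, 0, 90, 181, 222, 0, [(222, p 4)], []⟩ .nil .nil) (.node ⟨true, 0, 91, 183, 223, 0, [(223, p 4)], []⟩ .nil .nil)) (.node ⟨false, 0, 93, 186, 200, 0, [(200, p 4)], []⟩ (.node ⟨true, 0, 92, 185, 224, 0, [(224, p 4)], []⟩ .nil .nil) .nil)) (.node ⟨true, 0, 95, 191, 227, 0, [(227, p 4)], []⟩ (.node ⟨true, 0, 94, 189, 226, 0, [(226, p 4)], []⟩ (.node ⟨false, 0, 94, 188, 201, 0, [(201, p 4)], []⟩ .nil .nil) (.node ⟨false, 0, 95, 190, 202, 0, [(202, p 4)], []⟩ .nil .nil)) (.node ⟨true, 0, 96, 193, 228, 0, [(228, p 4)], []⟩ (.node ⟨false, 0, 96, 192, 203, 0, [(203, p 4)], []⟩ .nil .nil) .nil)))) (.node ⟨false, 0, 108, 216, 555, 217, [(237, p 4), (252, n 1), (253, p 2), (254, n 1), (257, p 2), (258, n 1),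 (259, p 2), (260, n 1), (261, p 2), (262, p 4)], [(p 1, 3, [1, 45, 0])]⟩ (.node ⟨false, 0, 101, 202, 548, 210, [(222, p 4)], [(p 1, 3, [0, 35, 0])]⟩ (.node ⟨false, 0, 99, 198, 206, 0, [(206, p 4)], []⟩ (.node ⟨false, 0, 98, 196, 205, 0, [(205, p 4)], []⟩ (.node ⟨true, 0, 97, 195, 229, 0, [(229, p 4)], []⟩ .nil .nil) (.node ⟨true, 0, 98, 197, 230, 0, [(230, p 4)], []⟩ .nil .nil)) (.node ⟨false, 0, 100, 200, 547, 209, [(221, p 4)], [(p 1, 3, [0, 34, 0])]⟩ (.node ⟨true, 0, 99, 199, 231, 0, [(231, p 4)], []⟩ .nil .nil) .nil)) (.node ⟨false, 0, 105, 210, 552, 214, [(234, p 4), (261, p 4)], [(p 1, 3, [1, 42, 0])]⟩ (.node ⟨false, 0, 103, 206, 550, 212, [(232, p 4), (260, p 4)], [(p 1, 3, [1, 40, 0])]⟩ (.node ⟨false, 0, 102, 204, 549, 211, [(223, p 4)], [(p 1, 3, [0, 36, 0])]⟩ .nil .nil) (.node ⟨false, 0, 104, 208, 551, 213, [(233, p 4), (257, p 2), (258, n 1), (259, p 2), (260, p 2)], [(p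 1, 3, [1, 41, 0])]⟩ .nil .nil)) (.node ⟨false, 0, 107, 214, 554, 216, [(236, p 4), (262, p 4)], [(p 1, 3, [1, 44, 0])]⟩ (.node ⟨false, 0, 106, 212, 553, 215, [(235, p 4), (252, p 2), (253, n 1), (254, p 2), (261, p 2)], [(p 1, 3, [1, 43, 0])]⟩ .nil .nil) .nil))) (.node ⟨false, 0, 115, 230, 562, 224, [(254, n 3), (255, p 4), (257, p 2), (258, n 1), (259, p 2), (260, p 2), (261, n 1), (262, p 4), (263, p 2)], [(p 1, 3, [4, 23, 0])]⟩ (.node ⟨false, 0, 112, 224, 559, 221, [(246, p 4), (259, p 4)], [(p 1, 3, [2, 58, 0])]⟩ (.node ⟨false, 0, 110, 220, 557, 219, [(244, p 4), (257, p 4)], [(p 1, 3, [2, 56, 0])]⟩ (.node ⟨false, 0, 109, 218, 556, 218, [(243, p 4), (256, p 4)], [(p 1, 3, [2, 55, 0])]⟩ .nil .nil) (.node ⟨false, 0, 111, 222, 558, 220, [(245, p 4), (258, p 4)], [(p 1, 3, [2, 57, 0])]⟩ .nil .nil)) (.node ⟨false, 0, 114, 228, 561, 223, [(252, p 4)], [(p 1, 3, [4, 22, 0])]⟩ (.node ⟨false,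 0, 113, 226, 560, 222, [(251, p 4), (253, n 7), (254, n 7), (255, p 8), (256, p 8), (257, n 7), (259, p 8), (260, p 12), (261, n 11), (263, p 4)], [(p 1, 3, [3, 28, 0])]⟩ .nil .nil) .nil)) (.node ⟨false, 0, 119, 238, 264, 0, [(264, p 4)], []⟩ (.node ⟨false, 0, 117, 234, 564, 226, [(251, n 3), (252, n 1), (253, p 6), (254, p 2), (256, n 7), (257, p 10), (258, n 1), (259, n 5), (260, n 13), (261, p 8), (262, p 8), (263, n 5)], [(p 1, 3, [7, 16, 0])]⟩ (.node ⟨false, 0, 116, 232, 563, 225, [(253, n 3), (255, p 4), (257, n 1), (258, p 2), (259, n 1), (260, p 2), (261, n 1), (262, p 4), (263, p 2)], [(p 1, 3, [4, 24, 0])]⟩ .nil .nil) (.node ⟨false, 0, 118, 236, 565, 227, [(260, p 4), (263, p 4)], [(p 1, 3, [9, 12, 0])]⟩ .nil .nil)) (.node ⟨false, 0, 120, 240, 265, 0, [(265, p 4)], []⟩ (.node ⟨true, 0, 119, 239, 279, 0, [(279, p 4)], []⟩ .nil .nil) .nil))))) (.node ⟨false, 0, 139, 278, 630,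 292, [(293, p 4), (300, p 4)], [(p 1, 3, [2, 71, 0])]⟩ (.node ⟨true, 0, 127, 255, 287, 0, [(287, p 4)], []⟩ (.node ⟨false, 0, 124, 248, 269, 0, [(269, p 4)], []⟩ (.node ⟨true, 0, 122, 245, 282, 0, [(282, p 4)], []⟩ (.node ⟨true, 0, 121, 243, 281, 0, [(281, p 4)], []⟩ (.node ⟨false, 0, 121, 242, 266, 0, [(266, p 4)], []⟩ .nil .nil) (.node ⟨false, 0, 122, 244, 267, 0, [(267, p 4)], []⟩ .nil .nil)) (.node ⟨true, 0, 123, 247, 283, 0, [(283, p 4)], []⟩ (.node ⟨false, 0, 123, 246, 268, 0, [(268, p 4)], []⟩ .nil .nil) .nil)) (.node ⟨false, 0, 126, 252, 271, 0, [(271, p 4)], []⟩ (.node ⟨false, 0, 125, 250, 270, 0, [(270, p 4)], []⟩ (.node ⟨true, 0, 124, 249, 284, 0, [(284, p 4)], []⟩ .nil .nil) (.node ⟨true, 0, 125, 251, 285, 0, [(285, p 4)], []⟩ .nil .nil)) (.node ⟨false, 0, 127, 254, 272, 0, [(272, p 4)], []⟩ (.node ⟨true, 0, 126, 253, 286, 0, [(286, p 4)], []⟩ .nil .nil) .nil))) (.node ⟨false,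 0, 132, 264, 623, 285, [(281, p 4)], [(p 1, 3, [0, 42, 0])]⟩ (.node ⟨true, 0, 129, 259, 289, 0, [(289, p 4)], []⟩ (.node ⟨true, 0, 128, 257, 288, 0, [(288, p 4)], []⟩ (.node ⟨false, 0, 128, 256, 273, 0, [(273, p 4)], []⟩ .nil .nil) (.node ⟨false, 0, 129, 258, 610, 272, [(265, n 1), (266, n 0), (267, p 4), (268, p 2), (269, p 2), (270, n 2), (271, p 4), (272, p 2)], [(p 1, 0, [0, 2, 0, 24])]⟩ .nil .nil)) (.node ⟨false, 0, 131, 262, 622, 284, [(280, p 4)], [(p 1, 3, [0, 41, 0])]⟩ (.node ⟨false, 0, 130, 260, 621, 283, [(279, p 4)], [(p 1, 3, [0, 40, 0])]⟩ .nil .nil) .nil)) (.node ⟨false, 0, 136, 272, 627, 289, [(290, p 4), (304, p 4)], [(p 1, 3, [1, 65, 0])]⟩ (.node ⟨false, 0, 134, 268, 625, 287, [(283, p 4)], [(p 1, 3, [0, 44, 0])]⟩ (.node ⟨false, 0, 133, 266, 624, 286, [(282, p 4)], [(p 1, 3, [0, 43, 0])]⟩ .nil .nil) (.node ⟨false, 0, 135, 270, 626, 288, [(284, p 4)], [(p 1, 3, [0, 45,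 0])]⟩ .nil .nil)) (.node ⟨false, 0, 138, 276, 629, 291, [(292, p 4), (305, p 4)], [(p 1, 3, [1, 67, 0])]⟩ (.node ⟨false, 0, 137, 274, 628, 290, [(291, p 4), (300, p 2), (301, n 1), (302, p 2), (304, p 2)], [(p 1, 3, [1, 66, 0])]⟩ .nil .nil) .nil)))) (.node ⟨false, 0, 151, 302, 309, 0, [(309, p 4)], []⟩ (.node ⟨false, 0, 146, 292, 637, 299, [(298, n 1), (299, p 2), (300, n 0), (301, n 2), (302, n 2), (303, p 6), (304, n 2), (305, p 6), (306, n 1)], [(p 1, 3, [7, 23, 0])]⟩ (.node ⟨false, 0, 143, 286, 634, 296, [(298, p 4), (306, p 4)], [(p 1, 3, [3, 32, 0])]⟩ (.node ⟨false, 0, 141, 282, 632, 294, [(295, p 4), (302, p 4)], [(p 1, 3, [2, 73, 0])]⟩ (.node ⟨false, 0, 140, 280, 631, 293, [(294, p 4), (301, p 4)], [(p 1, 3, [2, 72, 0])]⟩ .nil .nil) (.node ⟨false, 0, 142, 284, 633, 295, [(296, p 4), (303, p 4)], [(p 1, 3, [2, 74, 0])]⟩ .nil .nil)) (.node ⟨false, 0, 145, 290, 636, 298, [(298,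 n 1), (299, p 2), (300, p 1), (301, n 0), (302, n 0), (303, p 2), (304, n 2), (305, p 2), (306, n 3)], [(p 1, 3, [7, 22, 0])]⟩ (.node ⟨false, 0, 144, 288, 635, 297, [(298, p 2), (299, p 2), (300, p 3), (301, p 1), (302, p 1), (303, n 1), (304, p 3), (305, n 1), (306, p 4)], [(p 1, 3, [4, 30, 0])]⟩ .nil .nil) .nil)) (.node ⟨true, 0, 149, 299, 319, 0, [(319, p 4)], []⟩ (.node ⟨false, 0, 148, 296, 639, 301, [(304, p 4), (306, p 4)], [(p 1, 3, [9, 18, 0])]⟩ (.node ⟨false, 0, 147, 294, 638, 300, [(300, n 1), (301, n 1), (302, n 1), (303, p 4), (305, p 4), (306, p 2)], [(p 1, 3, [7, 24, 0])]⟩ .nil .nil) (.node ⟨false, 0, 149, 298, 307, 0, [(307, p 4)], []⟩ .nil .nil)) (.node ⟨true, 0, 150, 301, 320, 0, [(320, p 4)], []⟩ (.node ⟨false, 0, 150, 300, 308, 0, [(308, p 4)], []⟩ .nil .nil) .nil))) (.node ⟨true, 0, 154, 309, 324, 0, [(324, p 4)], []⟩ (.node ⟨false, 0, 153, 306, 311, 0, [(311, p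 4)], []⟩ (.node ⟨false, 0, 152, 304, 310, 0, [(310, p 4)], []⟩ (.node ⟨true, 0, 151, 303, 321, 0, [(321, p 4)], []⟩ .nil .nil) (.node ⟨true, 0, 152, 305, 322, 0, [(322, p 4)], []⟩ .nil .nil)) (.node ⟨false, 0, 154, 308, 312, 0, [(312, p 4)], []⟩ (.node ⟨true, 0, 153, 307, 323, 0, [(323, p 4)], []⟩ .nil .nil) .nil)) (.node ⟨true, 0, 156, 313, 326, 0, [(326, p 4)], []⟩ (.node ⟨true, 0, 155, 311, 325, 0, [(325, p 4)], []⟩ (.node ⟨false, 0, 155, 310, 313, 0, [(313, p 4)], []⟩ .nil .nil) (.node ⟨false, 0, 156, 312, 314, 0, [(314, p 4)], []⟩ .nil .nil)) (.node ⟨false, 0, 158, 316, 672, 334, [(320, p 4)], [(p 1, 3, [0, 56, 0])]⟩ (.node ⟨false, 0, 157, 314, 671, 333, [(319, p 4)], [(p 1, 3, [0, 55, 0])]⟩ .nil .nil) .nil))))))) (.node ⟨false, 1, 72, 2192, 154, 0, [(154, p 4)], []⟩ (.node ⟨true, 1, 13, 2075, 38, 0, [(38, p 4)], []⟩ (.node ⟨false, 0, 213, 426, 712, 0, [(712, p 4)], []⟩ (.node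 ⟨false, 0, 199, 398, 698, 0, [(698, p 4)], []⟩ (.node ⟨false, 0, 166, 332, 680, 342, [(334, p 2), (336, n 1), (337, n 1), (338, p 2)], [(p 1, 3, [4, 32, 0])]⟩ (.node ⟨false, 0, 163, 326, 677, 339, [(329, p 4), (336, n 3), (337, p 4)], [(p 1, 3, [1, 73, 0])]⟩ (.node ⟨false, 0, 161, 322, 675, 337, [(327, p 4), (336, p 4)], [(p 1, 3, [1, 71, 0])]⟩ (.node ⟨false, 0, 160, 320, 674, 336, [(322, p 4)], [(p 1, 3, [0, 58, 0])]⟩ .nil .nil) (.node ⟨false, 0, 162, 324, 676, 338, [(328, p 4), (337, p 4)], [(p 1, 3, [1, 72, 0])]⟩ .nil .nil)) (.node ⟨false, 0, 165, 330, 679, 341, [(332, p 4), (335, p 4)], [(p 1, 3, [2, 81, 0])]⟩ (.node ⟨false, 0, 164, 328, 678, 340, [(330, p 4), (338, p 4)], [(p 1, 3, [1, 74, 0])]⟩ .nil .nil) .nil)) (.node ⟨false, 0, 196, 392, 695, 0, [(695, p 4)], []⟩ (.node ⟨false, 0, 168, 336, 682, 344, [(334, n 1), (336, p 2), (337, n 1), (338, p 2)], [(p 1, 3, [9, 22, 0])]⟩ (.node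 ⟨false, 0, 167, 334, 681, 343, [(334, p 2), (336, n 1), (337, p 10), (338, n 9)], [(p 1, 3, [7, 28, 0])]⟩ .nil .nil) (.node ⟨false, 0, 169, 338, 683, 345, [(334, n 1), (336, p 2), (337, n 5), (338, p 6)], [(p 1, 3, [9, 23, 0])]⟩ .nil .nil)) (.node ⟨false, 0, 198, 396, 697, 0, [(697, p 4)], []⟩ (.node ⟨false, 0, 197, 394, 696, 0, [(696, p 4)], []⟩ .nil .nil) .nil))) (.node ⟨false, 0, 206, 412, 705, 0, [(705, p 4)], []⟩ (.node ⟨false, 0, 203, 406, 702, 0, [(702, p 4)], []⟩ (.node ⟨false, 0, 201, 402, 700, 0, [(700, p 4)], []⟩ (.node ⟨false, 0, 200, 400, 699, 0, [(699, p 4)], []⟩ .nil .nil) (.node ⟨false, 0, 202, 404, 701, 0, [(701, p 4)], []⟩ .nil .nil)) (.node ⟨false, 0, 205, 410, 704, 0, [(704, p 4)], []⟩ (.node ⟨false, 0, 204, 408, 703, 0, [(703, p 4)], []⟩ .nil .nil) .nil)) (.node ⟨false, 0, 210, 420, 709, 0, [(709, p 4)], []⟩ (.node ⟨false, 0, 208, 416, 707, 0, [(707, p 4)], []⟩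 (.node ⟨false, 0, 207, 414, 706, 0, [(706, p 4)], []⟩ .nil .nil) (.node ⟨false, 0, 209, 418, 708, 0, [(708, p 4)], []⟩ .nil .nil)) (.node ⟨false, 0, 212, 424, 711, 0, [(711, p 4)], []⟩ (.node ⟨false, 0, 211, 422, 710, 0, [(710, p 4)], []⟩ .nil .nil) .nil)))) (.node ⟨true, 1, 3, 2055, 14, 0, [(14, p 4)], []⟩ (.node ⟨false, 0, 220, 440, 719, 0, [(719, p 4)], []⟩ (.node ⟨false, 0, 217, 434, 716, 0, [(716, p 4)], []⟩ (.node ⟨false, 0, 215, 430, 714, 0, [(714, p 4)], []⟩ (.node ⟨false, 0, 214, 428, 713, 0, [(713, p 4)], []⟩ .nil .nil) (.node ⟨false, 0, 216, 432, 715, 0, [(715, p 4)], []⟩ .nil .nil)) (.node ⟨false, 0, 219, 438, 718, 0, [(718, p 4)], []⟩ (.node ⟨false, 0, 218, 436, 717, 0, [(717, p 4)], []⟩ .nil .nil) .nil)) (.node ⟨false, 1, 2, 2052, 4, 0, [(4, p 4)], []⟩ (.node ⟨true, 0, 262, 525, 803, 0, [(803, p 4)], []⟩ (.node ⟨true, 0, 261, 523, 802, 0, [(802, p 4)], []⟩ .nil .nil) (.node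 ⟨true, 1, 1, 2051, 6, 0, [(6, p 4)], []⟩ .nil .nil)) (.node ⟨false, 1, 3, 2054, 12, 0, [(12, p 4)], []⟩ (.node ⟨true, 1, 2, 2053, 5, 0, [(5, p 4)], []⟩ .nil .nil) .nil))) (.node ⟨false, 1, 9, 2066, 28, 0, [(28, p 4)], []⟩ (.node ⟨false, 1, 7, 2062, 23, 0, [(23, p 4)], []⟩ (.node ⟨true, 1, 4, 2057, 17, 0, [(17, p 4)], []⟩ (.node ⟨false, 1, 4, 2056, 16, 0, [(16, p 4)], []⟩ .nil .nil) (.node ⟨false, 1, 5, 2058, 340, 2, [(17, p 4)], [(p 1, 3, [1, 2, 1])]⟩ .nil .nil)) (.node ⟨false, 1, 8, 2064, 344, 6, [(25, p 4), (27, n 3)], [(p 1, 3, [0, 2, 1])]⟩ (.node ⟨true, 1, 7, 2063, 26, 0, [(26, p 4)], []⟩ .nil .nil) .nil)) (.node ⟨false, 1, 12, 2072, 34, 0, [(34, p 4)], []⟩ (.node ⟨false, 1, 10, 2068, 347, 9, [(29, n 3)], [(p 1, 3, [0, 1, 1])]⟩ (.node ⟨true, 1, 9, 2067, 29, 0, [(29, p 4)], []⟩ .nil .nil) (.node ⟨false, 1, 11, 2070, 351, 13, [(33, n 7)], [(p 1, 3, [0, 0, 1])]⟩ .nil .nil)) (.node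 ⟨false, 1, 13, 2074, 35, 0, [(35, p 4)], []⟩ (.node ⟨true, 1, 12, 2073, 37, 0, [(37, p 4)], []⟩ .nil .nil) .nil))))) (.node ⟨false, 1, 42, 2132, 94, 0, [(94, p 4)], []⟩ (.node ⟨true, 1, 24, 2097, 62, 0, [(62, p 4)], []⟩ (.node ⟨false, 1, 20, 2088, 367, 29, [(46, p 4), (53, n 3)], [(p 1, 3, [0, 3, 1])]⟩ (.node ⟨true, 1, 18, 2085, 48, 0, [(48, p 4)], []⟩ (.node ⟨false, 1, 15, 2078, 357, 19, [(39, p 4)], [(p 1, 3, [2, 4, 1])]⟩ (.node ⟨false, 1, 14, 2076, 356, 18, [(37, p 4)], [(p 1, 3, [1, 3, 1])]⟩ .nil .nil) (.node ⟨false, 1, 18, 2084, 42, 0, [(42, p 4)], []⟩ .nil .nil)) (.node ⟨true, 1, 19, 2087, 49, 0, [(49, p 4)], []⟩ (.node ⟨false, 1, 19, 2086, 43, 0, [(43, p 4)], []⟩ .nil .nil) .nil)) (.node ⟨false, 1, 23, 2094, 57, 0, [(57, p 4)], []⟩ (.node ⟨false, 1, 22, 2092, 56, 0, [(56, p 4)], []⟩ (.node ⟨false, 1, 21, 2090, 368, 30, [(51, p 4), (54, p 4)], [(p 1, 3, [2, 7, 1])]⟩ .nil .nil)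 (.node ⟨true, 1, 22, 2093, 60, 0, [(60, p 4)], []⟩ .nil .nil)) (.node ⟨false, 1, 24, 2096, 58, 0, [(58, p 4)], []⟩ (.node ⟨true, 1, 23, 2095, 61, 0, [(61, p 4)], []⟩ .nil .nil) .nil))) (.node ⟨false, 1, 32, 2112, 398, 60, [(81, p 4)], [(p 1, 0, [0, 0, 1, 1])]⟩ (.node ⟨false, 1, 30, 2108, 74, 0, [(74, p 4)], []⟩ (.node ⟨false, 1, 26, 2100, 379, 41, [(61, p 4)], [(p 1, 3, [1, 7, 1])]⟩ (.node ⟨false, 1, 25, 2098, 378, 40, [(59, p 4), (64, n 3)], [(p 1, 3, [0, 4, 1])]⟩ .nil .nil) (.node ⟨false, 1, 27, 2102, 380, 42, [(63, p 4), (64, p 4)], [(p 1, 3, [2, 9, 1])]⟩ .nil .nil)) (.node ⟨false, 1, 31, 2110, 396, 58, [(76, p 4), (80, n 3)], [(p 1, 3, [0, 7, 1])]⟩ (.node ⟨true, 1, 30, 2109, 78, 0, [(78, p 4)], []⟩ .nil .nil) .nil)) (.node ⟨true, 1, 40, 2129, 103, 0, [(103, p 4)], []⟩ (.node ⟨false, 1, 33, 2114, 401, 63, [(82, p 4), (84, n 3)], [(p 1, 3, [0, 9, 1])]⟩ (.node ⟨true, 1, 32, 2113, 83,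 0, [(83, p 4)], []⟩ .nil .nil) (.node ⟨false, 1, 40, 2128, 92, 0, [(92, p 4)], []⟩ .nil .nil)) (.node ⟨true, 1, 41, 2131, 104, 0, [(104, p 4)], []⟩ (.node ⟨false, 1, 41, 2130, 93, 0, [(93, p 4)], []⟩ .nil .nil) .nil)))) (.node ⟨false, 1, 52, 2152, 425, 87, [(112, p 4), (116, p 4)], [(p 1, 3, [2, 24, 1])]⟩ (.node ⟨true, 1, 45, 2139, 108, 0, [(108, p 4)], []⟩ (.node ⟨false, 1, 44, 2136, 96, 0, [(96, p 4)], []⟩ (.node ⟨false, 1, 43, 2134, 95, 0, [(95, p 4)], []⟩ (.node ⟨true, 1, 42, 2133, 105, 0, [(105, p 4)], []⟩ .nil .nil) (.node ⟨true, 1, 43, 2135, 106, 0, [(106, p 4)], []⟩ .nil .nil)) (.node ⟨false, 1, 45, 2138, 97, 0, [(97, p 4)], []⟩ (.node ⟨true, 1, 44, 2137, 107, 0, [(107, p 4)], []⟩ .nil .nil) .nil)) (.node ⟨false, 1, 49, 2146, 422, 84, [(106, p 4)], [(p 1, 3, [1, 19, 1])]⟩ (.node ⟨false, 1, 47, 2142, 420, 82, [(101, p 4), (114, n 1), (115, p 2), (116, n 1), (118, n 1)], [(p 1,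 3, [0, 13, 1])]⟩ (.node ⟨false, 1, 46, 2140, 419, 81, [(100, p 4), (118, n 3)], [(p 1, 3, [0, 12, 1])]⟩ .nil .nil) (.node ⟨false, 1, 48, 2144, 421, 83, [(105, p 4)], [(p 1, 3, [1, 18, 1])]⟩ .nil .nil)) (.node ⟨false, 1, 51, 2150, 424, 86, [(111, p 4), (115, p 4)], [(p 1, 3, [2, 23, 1])]⟩ (.node ⟨false, 1, 50, 2148, 423, 85, [(110, p 4), (114, p 4)], [(p 1, 3, [2, 22, 1])]⟩ .nil .nil) .nil))) (.node ⟨false, 1, 67, 2182, 127, 0, [(127, p 4)], []⟩ (.node ⟨true, 1, 65, 2179, 136, 0, [(136, p 4)], []⟩ (.node ⟨false, 1, 54, 2156, 427, 89, [(115, p 4), (117, n 3)], [(p 1, 3, [4, 7, 1])]⟩ (.node ⟨false, 1, 53, 2154, 426, 88, [(113, p 4), (118, p 4)], [(p 1, 3, [3, 9, 1])]⟩ .nil .nil) (.node ⟨false, 1, 65, 2178, 125, 0, [(125, p 4)], []⟩ .nil .nil)) (.node ⟨true, 1, 66, 2181, 137, 0, [(137, p 4)], []⟩ (.node ⟨false, 1, 66, 2180, 126, 0, [(126, p 4)], []⟩ .nil .nil) .nil)) (.node ⟨false, 1, 70,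 2188, 455, 117, [(142, p 4), (144, p 4)], [(p 1, 3, [2, 30, 1])]⟩ (.node ⟨false, 1, 68, 2184, 453, 115, [(132, p 4), (148, n 3)], [(p 1, 3, [0, 18, 1])]⟩ (.node ⟨true, 1, 67, 2183, 138, 0, [(138, p 4)], []⟩ .nil .nil) (.node ⟨false, 1, 69, 2186, 454, 116, [(133, p 4), (145, n 1), (146, p 2), (147, n 1), (148, n 1)], [(p 1, 3, [0, 19, 1])]⟩ .nil .nil)) (.node ⟨true, 1, 71, 2191, 161, 0, [(161, p 4)], []⟩ (.node ⟨false, 1, 71, 2190, 153, 0, [(153, p 4)], []⟩ .nil .nil) .nil)))))) (.node ⟨false, 1, 146, 2340, 582, 244, [(258, p 4)], [(p 1, 3, [7, 23, 1])]⟩ (.node ⟨false, 1, 124, 2296, 212, 0, [(212, p 4)], []⟩ (.node ⟨false, 1, 86, 2220, 499, 161, [(186, p 4), (190, n 3)], [(p 1, 3, [0, 30, 1])]⟩ (.node ⟨false, 1, 76, 2200, 476, 138, [(159, p 4), (169, n 3)], [(p 1, 3, [0, 23, 1])]⟩ (.node ⟨false, 1, 74, 2196, 156, 0, [(156, p 4)], []⟩ (.node ⟨false, 1, 73, 2194, 155, 0, [(155, p 4)],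 []⟩ (.node ⟨true, 1, 72, 2193, 162, 0, [(162, p 4)], []⟩ .nil .nil) (.node ⟨true, 1, 73, 2195, 163, 0, [(163, p 4)], []⟩ .nil .nil)) (.node ⟨false, 1, 75, 2198, 475, 137, [(158, p 4), (168, n 3)], [(p 1, 3, [0, 22, 1])]⟩ (.node ⟨true, 1, 74, 2197, 164, 0, [(164, p 4)], []⟩ .nil .nil) .nil)) (.node ⟨false, 1, 80, 2208, 480, 142, [(167, p 4), (169, p 4)], [(p 1, 3, [7, 9, 1])]⟩ (.node ⟨false, 1, 78, 2204, 478, 140, [(164, p 4)], [(p 1, 3, [1, 30, 1])]⟩ (.node ⟨false, 1, 77, 2202, 477, 139, [(160, p 4), (168, p 4), (169, n 3)], [(p 1, 3, [0, 24, 1])]⟩ .nil .nil) (.node ⟨false, 1, 79, 2206, 479, 141, [(165, p 4), (166, p 4)], [(p 1, 3, [2, 32, 1])]⟩ .nil .nil)) (.node ⟨true, 1, 85, 2219, 187, 0, [(187, p 4)], []⟩ (.node ⟨false, 1, 85, 2218, 182, 0, [(182, p 4)], []⟩ .nil .nil) .nil))) (.node ⟨true, 1, 120, 2289, 233, 0, [(233, p 4)], []⟩ (.node ⟨false, 1, 119, 2286, 207, 0, [(207, p 4)],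 []⟩ (.node ⟨true, 1, 87, 2223, 194, 0, [(194, p 4)], []⟩ (.node ⟨false, 1, 87, 2222, 192, 0, [(192, p 4)], []⟩ .nil .nil) (.node ⟨false, 1, 88, 2224, 505, 167, [(193, p 4), (195, n 3)], [(p 1, 3, [0, 32, 1])]⟩ .nil .nil)) (.node ⟨false, 1, 120, 2288, 208, 0, [(208, p 4)], []⟩ (.node ⟨true, 1, 119, 2287, 232, 0, [(232, p 4)], []⟩ .nil .nil) .nil)) (.node ⟨true, 1, 122, 2293, 235, 0, [(235, p 4)], []⟩ (.node ⟨true, 1, 121, 2291, 234, 0, [(234, p 4)], []⟩ (.node ⟨false, 1, 121, 2290, 209, 0, [(209, p 4)], []⟩ .nil .nil) (.node ⟨false, 1, 122, 2292, 210, 0, [(210, p 4)], []⟩ .nil .nil)) (.node ⟨true, 1, 123, 2295, 236, 0, [(236, p 4)], []⟩ (.node ⟨false, 1, 123, 2294, 211, 0, [(211, p 4)], []⟩ .nil .nil) .nil)))) (.node ⟨false, 1, 132, 2312, 568, 230, [(226, p 4), (261, n 3)], [(p 1, 3, [0, 42, 1])]⟩ (.node ⟨true, 1, 127, 2303, 240, 0, [(240, p 4)], []⟩ (.node ⟨false, 1, 126, 2300, 214,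 0, [(214, p 4)], []⟩ (.node ⟨false, 1, 125, 2298, 213, 0, [(213, p 4)], []⟩ (.node ⟨true, 1, 124, 2297, 237, 0, [(237, p 4)], []⟩ .nil .nil) (.node ⟨true, 1, 125, 2299, 238, 0, [(238, p 4)], []⟩ .nil .nil)) (.node ⟨false, 1, 127, 2302, 215, 0, [(215, p 4)], []⟩ (.node ⟨true, 1, 126, 2301, 239, 0, [(239, p 4)], []⟩ .nil .nil) .nil)) (.node ⟨true, 1, 129, 2307, 242, 0, [(242, p 4)], []⟩ (.node ⟨true, 1, 128, 2305, 241, 0, [(241, p 4)], []⟩ (.node ⟨false, 1, 128, 2304, 216, 0, [(216, p 4)], []⟩ .nil .nil) (.node ⟨false, 1, 129, 2306, 523, 185, [(196, p 3), (197, n 3), (198, n 1), (199, p 1), (200, n 3), (202, p 2), (203, n 1), (204, n 1), (206, p 4), (208, n 1), (209, n 0), (210, p 4), (211, p 2), (212, p 2), (213, n 2), (214, p 4), (215, p 2)], [(n 0, 0, [0, 2, 1, 22]), (p 1, 0, [0, 23, 2, 1]), (p 1, 0, [0, 1, 3, 9]), (p 1, 0, [0, 2, 1, 23]), (p 1, 0, [0, 1, 19, 1]), (p 1, 0, [0, 1, 1,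 19])]⟩ .nil .nil)) (.node ⟨false, 1, 131, 2310, 567, 229, [(225, p 4), (257, n 1), (258, p 2), (259, n 1), (260, n 1)], [(p 1, 3, [0, 41, 1])]⟩ (.node ⟨false, 1, 130, 2308, 566, 228, [(224, p 4), (260, n 3)], [(p 1, 3, [0, 40, 1])]⟩ .nil .nil) .nil))) (.node ⟨false, 1, 139, 2326, 575, 237, [(247, p 4), (252, p 4)], [(p 1, 3, [2, 71, 1])]⟩ (.node ⟨false, 1, 136, 2320, 572, 234, [(238, p 4)], [(p 1, 3, [1, 65, 1])]⟩ (.node ⟨false, 1, 134, 2316, 570, 232, [(228, p 4), (262, n 3)], [(p 1, 3, [0, 44, 1])]⟩ (.node ⟨false, 1, 133, 2314, 569, 231, [(227, p 4), (252, n 1), (253, p 2), (254, n 1), (261, n 1)], [(p 1, 3, [0, 43, 1])]⟩ .nil .nil) (.node ⟨false, 1, 135, 2318, 571, 233, [(229, p 4), (252, p 2), (253, n 1), (254, p 2), (257, n 1), (258, p 2), (259, n 1), (260, p 2), (261, n 1), (262, n 3)], [(p 1, 3, [0, 45, 1])]⟩ .nil .nil)) (.node ⟨false, 1, 138, 2324, 574, 236, [(240, p 4)], [(p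 1, 3, [1, 67, 1])]⟩ (.node ⟨false, 1, 137, 2322, 573, 235, [(239, p 4)], [(p 1, 3, [1, 66, 1])]⟩ .nil .nil) .nil)) (.node ⟨false, 1, 143, 2334, 579, 241, [(251, p 4), (263, p 4)], [(p 1, 3, [3, 32, 1])]⟩ (.node ⟨false, 1, 141, 2330, 577, 239, [(249, p 4), (254, p 4)], [(p 1, 3, [2, 73, 1])]⟩ (.node ⟨false, 1, 140, 2328, 576, 238, [(248, p 4), (253, p 4)], [(p 1, 3, [2, 72, 1])]⟩ .nil .nil) (.node ⟨false, 1, 142, 2332, 578, 240, [(250, p 4), (255, p 4)], [(p 1, 3, [2, 74, 1])]⟩ .nil .nil)) (.node ⟨false, 1, 145, 2338, 581, 243, [(253, p 4), (254, p 4), (255, n 3), (257, p 2), (258, p 2), (259, n 1), (260, n 1), (261, p 2), (262, n 3), (263, n 1)], [(p 1, 3, [7, 22, 1])]⟩ (.node ⟨false, 1, 144, 2336, 580, 242, [(251, p 4), (252, p 2), (253, n 5), (254, n 1), (255, p 4), (256, p 12), (257, n 9), (258, p 2), (259, p 6), (260, p 14), (261, n 7), (262, n 7), (263, p 6)], [(p 1, 3, [4, 30,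 1])]⟩ .nil .nil) .nil))))) (.node ⟨false, 1, 187, 2422, 688, 350, [(331, p 4)], [(p 1, 3, [1, 85, 1])]⟩ (.node ⟨false, 1, 178, 2404, 315, 0, [(315, p 4)], []⟩ (.node ⟨false, 1, 172, 2392, 276, 0, [(276, p 4)], []⟩ (.node ⟨true, 1, 170, 2389, 290, 0, [(290, p 4)], []⟩ (.node ⟨false, 1, 148, 2344, 584, 246, [(253, n 7), (254, n 7), (255, p 8), (256, p 8), (257, n 7), (259, p 8), (260, p 12), (261, n 7), (263, p 4)], [(p 1, 3, [9, 18, 1])]⟩ (.node ⟨false, 1, 147, 2342, 583, 245, [(252, n 3), (254, n 7), (255, p 4), (257, p 2), (258, n 1), (259, p 6), (260, p 2), (261, n 1), (262, p 4), (263, p 2)], [(p 1, 3, [7, 24, 1])]⟩ .nil .nil) (.node ⟨false, 1, 170, 2388, 274, 0, [(274, p 4)], []⟩ .nil .nil)) (.node ⟨true, 1, 171, 2391, 291, 0, [(291, p 4)], []⟩ (.node ⟨false, 1, 171, 2390, 275, 0, [(275, p 4)], []⟩ .nil .nil) .nil)) (.node ⟨false, 1, 175, 2398, 642, 304, [(287, p 4), (305, n 3)],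 [(p 1, 3, [0, 67, 1])]⟩ (.node ⟨false, 1, 173, 2394, 640, 302, [(285, p 4), (304, n 3)], [(p 1, 3, [0, 65, 1])]⟩ (.node ⟨true, 1, 172, 2393, 292, 0, [(292, p 4)], []⟩ .nil .nil) (.node ⟨false, 1, 174, 2396, 641, 303, [(286, p 4), (300, n 1), (301, p 2), (302, n 1), (304, n 1)], [(p 1, 3, [0, 66, 1])]⟩ .nil .nil)) (.node ⟨false, 1, 177, 2402, 644, 306, [(298, p 2), (299, n 1), (300, p 1), (301, p 7), (302, p 3), (303, n 1), (304, p 3), (305, n 5), (306, p 2)], [(p 1, 3, [7, 30, 1])]⟩ (.node ⟨false, 1, 176, 2400, 643, 305, [(297, p 4), (299, p 4)], [(p 1, 3, [2, 85, 1])]⟩ .nil .nil) .nil))) (.node ⟨true, 1, 181, 2411, 330, 0, [(330, p 4)], []⟩ (.node ⟨false, 1, 180, 2408, 660, 322, [(308, p 4), (309, n 3), (310, p 4), (315, n 3), (316, p 4)], [(p 1, 0, [0, 1, 0, 24])]⟩ (.node ⟨false, 1, 179, 2406, 316, 0, [(316, p 4)], []⟩ (.node ⟨true, 1, 178, 2405, 327, 0, [(327, p 4)], []⟩ .nil .nil)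 (.node ⟨true, 1, 179, 2407, 328, 0, [(328, p 4)], []⟩ .nil .nil)) (.node ⟨false, 1, 181, 2410, 317, 0, [(317, p 4)], []⟩ (.node ⟨true, 1, 180, 2409, 329, 0, [(329, p 4)], []⟩ .nil .nil) .nil)) (.node ⟨false, 1, 184, 2416, 685, 347, [(324, p 4), (337, n 3)], [(p 1, 3, [0, 72, 1])]⟩ (.node ⟨true, 1, 182, 2413, 331, 0, [(331, p 4)], []⟩ (.node ⟨false, 1, 182, 2412, 318, 0, [(318, p 4)], []⟩ .nil .nil) (.node ⟨false, 1, 183, 2414, 684, 346, [(323, p 4), (336, n 3)], [(p 1, 3, [0, 71, 1])]⟩ .nil .nil)) (.node ⟨false, 1, 186, 2420, 687, 349, [(326, p 4), (338, n 3)], [(p 1, 3, [0, 74, 1])]⟩ (.node ⟨false, 1, 185, 2418, 686, 348, [(325, p 4), (336, p 4), (337, n 3)], [(p 1, 3, [0, 73, 1])]⟩ .nil .nil) .nil)))) (.node ⟨false, 1, 274, 2596, 730, 0, [(730, p 4)], []⟩ (.node ⟨false, 1, 267, 2582, 723, 0, [(723, p 4)], []⟩ (.node ⟨false, 1, 264, 2576, 720, 0, [(720, p 4)], []⟩ (.node ⟨false, 1,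 189, 2426, 690, 352, [(334, n 1), (335, p 4), (336, p 2), (337, n 9), (338, p 6)], [(p 1, 3, [7, 32, 1])]⟩ (.node ⟨false, 1, 188, 2424, 689, 351, [(333, p 4), (334, p 4)], [(p 1, 3, [2, 87, 1])]⟩ .nil .nil) (.node ⟨false, 1, 190, 2428, 691, 353, [(334, p 2), (335, n 3), (336, n 1), (337, p 10), (338, n 5)], [(p 1, 3, [9, 30, 1])]⟩ .nil .nil)) (.node ⟨false, 1, 266, 2580, 722, 0, [(722, p 4)], []⟩ (.node ⟨false, 1, 265, 2578, 721, 0, [(721, p 4)], []⟩ .nil .nil) .nil)) (.node ⟨false, 1, 271, 2590, 727, 0, [(727, p 4)], []⟩ (.node ⟨false, 1, 269, 2586, 725, 0, [(725, p 4)], []⟩ (.node ⟨false, 1, 268, 2584, 724, 0, [(724, p 4)], []⟩ .nil .nil) (.node ⟨false, 1, 270, 2588, 726, 0, [(726, p 4)], []⟩ .nil .nil)) (.node ⟨false, 1, 273, 2594, 729, 0, [(729, p 4)], []⟩ (.node ⟨false, 1, 272, 2592, 728, 0, [(728, p 4)], []⟩ .nil .nil) .nil))) (.node ⟨true, 1, 302, 2653, 806, 0, [(806, p 4)],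 []⟩ (.node ⟨false, 1, 278, 2604, 734, 0, [(734, p 4)], []⟩ (.node ⟨false, 1, 276, 2600, 732, 0, [(732, p 4)], []⟩ (.node ⟨false, 1, 275, 2598, 731, 0, [(731, p 4)], []⟩ .nil .nil) (.node ⟨false, 1, 277, 2602, 733, 0, [(733, p 4)], []⟩ .nil .nil)) (.node ⟨true, 1, 301, 2651, 805, 0, [(805, p 4)], []⟩ (.node ⟨true, 1, 300, 2649, 804, 0, [(804, p 4)], []⟩ .nil .nil) .nil)) (.node ⟨false, 2, 2, 4100, 3, 0, [(3, p 4)], []⟩ (.node ⟨true, 1, 305, 2659, 808, 0, [(808, p 4)], []⟩ (.node ⟨true, 1, 303, 2655, 807, 0, [(807, p 4)], []⟩ .nil .nil) (.node ⟨true, 1, 306, 2661, 809, 0, [(809, p 4)], []⟩ .nil .nil)) (.node ⟨true, 2, 4, 4105, 15, 0, [(15, p 4)], []⟩ (.node ⟨false, 2, 4, 4104, 13, 0, [(13, p 4)], []⟩ .nil .nil) .nil)))))))) (.node ⟨true, 7, 56, 14449, 257, 0, [(257, p 4)], []⟩ (.node ⟨false, 2, 187, 4470, 649, 311, [(290, n 3), (291, p 6), (292, p 6), (299, n 3)], [(p 1, 3, [1, 85, 2])]⟩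 (.node ⟨false, 2, 79, 4254, 460, 122, [(140, n 3), (141, n 3), (142, p 4), (143, p 4)], [(p 1, 3, [2, 32, 2])]⟩ (.node ⟨true, 2, 32, 4161, 79, 0, [(79, p 4)], []⟩ (.node ⟨false, 2, 23, 4142, 45, 0, [(45, p 4)], []⟩ (.node ⟨false, 2, 10, 4116, 345, 7, [(25, n 3), (26, n 3)], [(p 1, 3, [0, 1, 2])]⟩ (.node ⟨false, 2, 8, 4112, 342, 4, [(20, p 4), (21, p 4)], [(p 1, 3, [0, 2, 2])]⟩ (.node ⟨false, 2, 7, 4110, 19, 0, [(19, p 4)], []⟩ (.node ⟨false, 2, 6, 4108, 341, 3, [(17, n 7)], [(p 1, 3, [1, 1, 2])]⟩ .nil .nil) (.node ⟨true, 2, 7, 4111, 21, 0, [(21, p 4)], []⟩ .nil .nil)) (.node ⟨true, 2, 9, 4115, 27, 0, [(27, p 4)], []⟩ (.node ⟨false, 2, 9, 4114, 24, 0, [(24, p 4)], []⟩ .nil .nil) .nil)) (.node ⟨false, 2, 17, 4130, 358, 20, [(38, p 4)], [(p 1, 3, [1, 4, 2])]⟩ (.node ⟨false, 2, 16, 4128, 36, 0, [(36, p 4)], []⟩ (.node ⟨false, 2, 11, 4118, 349, 11, [(31, n 7)], [(p 1, 3, [0, 0, 2])]⟩ .nil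 .nil) (.node ⟨true, 2, 16, 4129, 39, 0, [(39, p 4)], []⟩ .nil .nil)) (.node ⟨true, 2, 22, 4141, 50, 0, [(50, p 4)], []⟩ (.node ⟨false, 2, 22, 4140, 44, 0, [(44, p 4)], []⟩ .nil .nil) .nil))) (.node ⟨false, 2, 28, 4152, 372, 34, [(55, p 4), (56, n 3), (58, p 4)], [(p 1, 0, [0, 1, 2, 1])]⟩ (.node ⟨false, 2, 25, 4146, 369, 31, [(47, p 4), (54, p 4)], [(p 1, 3, [0, 4, 2])]⟩ (.node ⟨false, 2, 24, 4144, 360, 22, [(40, n 1), (41, n 1), (42, p 2), (43, p 2), (44, p 2), (45, n 1)], [(n 0, 0, [0, 2, 2, 1]), (p 1, 0, [0, 1, 2, 2])]⟩ (.node ⟨true, 2, 23, 4143, 51, 0, [(51, p 4)], []⟩ .nil .nil) (.node ⟨true, 2, 24, 4145, 52, 0, [(52, p 4)], []⟩ .nil .nil)) (.node ⟨false, 2, 27, 4150, 371, 33, [(52, n 3), (53, p 4)], [(p 1, 3, [2, 9, 2])]⟩ (.node ⟨false, 2, 26, 4148, 370, 32, [(49, p 4), (54, n 3)], [(p 1, 3, [1, 7, 2])]⟩ .nil .nil) .nil)) (.node ⟨true, 2, 30, 4157, 70, 0, [(70, p 4)], []⟩ (.node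 ⟨false, 2, 29, 4154, 381, 43, [(62, p 4), (64, n 3)], [(p 1, 3, [1, 9, 2])]⟩ (.node ⟨true, 2, 28, 4153, 63, 0, [(63, p 4)], []⟩ .nil .nil) (.node ⟨false, 2, 30, 4156, 67, 0, [(67, p 4)], []⟩ .nil .nil)) (.node ⟨false, 2, 32, 4160, 389, 51, [(72, p 4), (73, p 4), (74, n 3)], [(p 1, 0, [0, 1, 0, 2])]⟩ (.node ⟨false, 2, 31, 4158, 387, 49, [(69, p 4)], [(p 1, 3, [0, 7, 2])]⟩ .nil .nil) .nil)))) (.node ⟨false, 2, 63, 4222, 432, 94, [(109, n 3), (110, p 4), (112, n 3), (113, p 4)], [(p 1, 3, [2, 28, 2])]⟩ (.node ⟨true, 2, 57, 4211, 111, 0, [(111, p 4)], []⟩ (.node ⟨false, 2, 56, 4208, 99, 0, [(99, p 4)], []⟩ (.node ⟨false, 2, 55, 4206, 98, 0, [(98, p 4)], []⟩ (.node ⟨false, 2, 33, 4162, 397, 59, [(77, p 4), (80, n 3)], [(p 1, 3, [0, 9, 2])]⟩ .nil .nil) (.node ⟨true, 2, 55, 4207, 109, 0, [(109, p 4)], []⟩ .nil .nil)) (.node ⟨false, 2, 57, 4210, 412, 74, [(89, n 3), (90, p 6), (91, p 6), (92,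 n 3), (93, p 6), (94, n 3), (95, p 6), (96, p 6), (97, p 6), (98, n 3), (99, n 3)], [(p 1, 0, [1, 1, 2, 7])]⟩ (.node ⟨true, 2, 56, 4209, 110, 0, [(110, p 4)], []⟩ .nil .nil) .nil)) (.node ⟨false, 2, 60, 4216, 429, 91, [(107, p 4), (114, n 3)], [(p 1, 3, [1, 22, 2])]⟩ (.node ⟨true, 2, 58, 4213, 112, 0, [(112, p 4)], []⟩ (.node ⟨false, 2, 58, 4212, 408, 70, [(90, p 2), (91, p 2), (92, n 1), (94, n 1), (95, p 4), (97, p 4), (98, n 3)], [(n 0, 0, [1, 2, 2, 9]), (p 1, 0, [0, 4, 1, 2]), (p 1, 0, [0, 2, 4, 1])]⟩ .nil .nil) (.node ⟨false, 2, 59, 4214, 428, 90, [(102, p 4), (117, n 3)], [(p 1, 3, [0, 16, 2])]⟩ .nil .nil)) (.node ⟨false, 2, 62, 4220, 431, 93, [(103, n 1), (104, n 1), (105, p 2), (106, p 2), (107, p 2), (108, n 1), (116, n 3)], [(p 1, 3, [1, 24, 2])]⟩ (.node ⟨false, 2, 61, 4218, 430, 92, [(108, p 4), (115, n 3)], [(p 1, 3, [1, 23, 2])]⟩ .nil .nil) .nil))) (.node ⟨true, 2, 73,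 4243, 141, 0, [(141, p 4)], []⟩ (.node ⟨false, 2, 72, 4240, 129, 0, [(129, p 4)], []⟩ (.node ⟨false, 2, 71, 4238, 128, 0, [(128, p 4)], []⟩ (.node ⟨false, 2, 64, 4224, 433, 95, [(114, p 2), (115, n 1), (116, n 1), (118, p 2)], [(p 1, 3, [4, 9, 2])]⟩ .nil .nil) (.node ⟨true, 2, 71, 4239, 139, 0, [(139, p 4)], []⟩ .nil .nil)) (.node ⟨false, 2, 73, 4242, 442, 104, [(119, n 1), (120, p 2), (121, n 1), (122, p 6), (123, p 2), (124, p 6), (125, n 3), (126, p 4), (127, p 4), (128, n 3), (129, n 3)], [(p 1, 0, [0, 9, 2, 2])]⟩ (.node ⟨true, 2, 72, 4241, 140, 0, [(140, p 4)], []⟩ .nil .nil) .nil)) (.node ⟨false, 2, 76, 4248, 457, 119, [(135, p 4), (146, n 3)], [(p 1, 3, [0, 23, 2])]⟩ (.node ⟨true, 2, 74, 4245, 142, 0, [(142, p 4)], []⟩ (.node ⟨false, 2, 74, 4244, 439, 101, [(119, n 3), (120, p 6), (121, n 3), (122, p 6), (123, p 6), (124, p 6), (125, n 3), (126, p 6), (127, p 6), (128, n 3),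 (129, n 3)], [(n 0, 0, [0, 2, 1, 7]), (p 1, 0, [0, 7, 1, 2]), (p 1, 0, [0, 1, 2, 7])]⟩ .nil .nil) (.node ⟨false, 2, 75, 4246, 456, 118, [(134, p 4), (145, n 3)], [(p 1, 3, [0, 22, 2])]⟩ .nil .nil)) (.node ⟨false, 2, 78, 4252, 459, 121, [(138, p 4), (144, n 3)], [(p 1, 3, [1, 30, 2])]⟩ (.node ⟨false, 2, 77, 4250, 458, 120, [(130, n 1), (131, n 1), (132, p 2), (133, p 2), (134, p 2), (135, n 1), (147, n 3)], [(p 1, 3, [0, 24, 2])]⟩ .nil .nil) .nil))))) (.node ⟨true, 2, 156, 4409, 250, 0, [(250, p 4)], []⟩ (.node ⟨true, 2, 149, 4395, 243, 0, [(243, p 4)], []⟩ (.node ⟨false, 2, 85, 4266, 485, 147, [(170, n 3), (171, p 6), (172, p 6)], [(p 1, 0, [0, 0, 2, 7])]⟩ (.node ⟨false, 2, 82, 4260, 481, 143, [(157, p 4), (158, n 3), (160, p 4), (167, n 3)], [(p 1, 3, [0, 28, 2])]⟩ (.node ⟨false, 2, 81, 4258, 466, 128, [(149, p 4), (150, n 1), (151, n 5), (152, p 6), (153, p 6), (154, p 2), (155, p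 6), (156, n 3)], [(p 1, 0, [0, 2, 9, 1]), (p 1, 0, [0, 1, 2, 9])]⟩ (.node ⟨false, 2, 80, 4256, 461, 123, [(145, p 2), (146, n 1), (147, n 1), (148, p 2)], [(p 1, 3, [7, 9, 2])]⟩ .nil .nil) (.node ⟨true, 2, 81, 4259, 165, 0, [(165, p 4)], []⟩ .nil .nil)) (.node ⟨false, 2, 84, 4264, 483, 145, [(168, n 7), (169, p 8)], [(p 1, 3, [9, 9, 2])]⟩ (.node ⟨false, 2, 83, 4262, 482, 144, [(162, p 4), (163, p 4), (164, n 3), (166, n 3)], [(p 1, 3, [1, 32, 2])]⟩ .nil .nil) .nil)) (.node ⟨true, 2, 87, 4271, 188, 0, [(188, p 4)], []⟩ (.node ⟨false, 2, 86, 4268, 489, 151, [(175, p 4), (177, n 3)], [(p 1, 3, [0, 30, 2])]⟩ (.node ⟨true, 2, 85, 4267, 176, 0, [(176, p 4)], []⟩ .nil .nil) (.node ⟨false, 2, 87, 4270, 492, 154, [(178, p 8), (180, p 12), (181, n 11), (182, p 4)], [(p 1, 0, [0, 0, 2, 9])]⟩ .nil .nil)) (.node ⟨false, 2, 149, 4394, 217, 0, [(217, p 4)], []⟩ (.node ⟨false, 2, 88, 4272, 500, 162,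 [(184, p 4), (185, p 4), (186, n 3), (189, n 3)], [(p 1, 3, [0, 32, 2])]⟩ .nil .nil) .nil))) (.node ⟨false, 2, 153, 4402, 220, 0, [(220, p 4)], []⟩ (.node ⟨true, 2, 151, 4399, 245, 0, [(245, p 4)], []⟩ (.node ⟨true, 2, 150, 4397, 244, 0, [(244, p 4)], []⟩ (.node ⟨false, 2, 150, 4396, 218, 0, [(218, p 4)], []⟩ .nil .nil) (.node ⟨false, 2, 151, 4398, 219, 0, [(219, p 4)], []⟩ .nil .nil)) (.node ⟨true, 2, 152, 4401, 246, 0, [(246, p 4)], []⟩ (.node ⟨false, 2, 152, 4400, 531, 193, [(196, n 5), (197, p 4), (198, p 8), (199, n 3), (200, p 14), (201, n 1), (202, n 1), (203, p 10), (204, p 6), (206, n 15), (207, n 7), (208, p 12), (209, p 2), (211, p 4), (212, n 3), (213, p 2), (214, n 3), (218, n 3), (219, p 4)], [(p 1, 0, [0, 2, 28, 2])]⟩ .nil .nil) .nil)) (.node ⟨false, 2, 155, 4406, 521, 183, [(196, p 5), (197, n 1), (198, n 3), (199, p 1), (200, n 11), (201, p 2), (202, p 2), (203, n 5),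 (204, n 5), (205, n 3), (206, p 12), (207, p 4), (208, n 5), (209, n 2), (210, p 4), (211, p 2), (212, p 6), (213, n 4), (214, p 8), (215, p 2), (216, n 3), (218, p 4), (220, n 3)], [(p 1, 0, [0, 1, 23, 2])]⟩ (.node ⟨false, 2, 154, 4404, 517, 179, [(196, n 4), (197, p 10), (198, p 4), (199, n 0), (200, p 4), (201, n 5), (202, p 6), (203, n 1), (204, p 6), (205, n 3), (206, n 3), (207, p 2), (209, n 2), (210, p 2), (212, p 8), (213, p 1), (214, n 3), (215, p 2), (216, n 3), (218, p 4)], [(n 0, 0, [1, 1, 7, 7]), (p 2, 0, [0, 1, 2, 23]), (p 2, 0, [0, 23, 1, 2]), (p 2, 0, [0, 1, 19, 1]), (p 2, 0, [0, 1, 1, 19]), (p 2, 0, [0, 1, 3, 9]), (p 1, 0, [0, 1, 22, 2]), (n 1, 0, [0, 22, 1, 2]), (n 1, 0, [0, 0, 4, 4]), (n 0, 0, [0, 2, 24, 1]), (p 1, 0, [0, 7, 4, 1]), (p 1, 0, [1, 1, 30, 2]), (n 0, 0, [0, 1, 2, 24]), (p 1, 0, [0, 4, 7, 1]), (p 1, 0, [0, 1, 23, 2])]⟩ (.node ⟨true, 2, 153, 4403, 247,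 0, [(247, p 4)], []⟩ .nil .nil) (.node ⟨true, 2, 154, 4405, 248, 0, [(248, p 4)], []⟩ .nil .nil)) (.node ⟨false, 2, 156, 4408, 528, 190, [(196, n 6), (197, p 10), (198, p 8), (199, n 2), (200, p 8), (201, n 1), (202, p 2), (203, p 6), (204, p 2), (205, n 7), (206, n 7), (207, n 5), (208, p 10), (209, n 4), (210, p 4), (211, p 10), (212, p 6), (213, n 0), (214, p 2), (215, p 4), (216, n 7), (217, p 4)], [(p 1, 0, [1, 2, 1, 30])]⟩ (.node ⟨true, 2, 155, 4407, 249, 0, [(249, p 4)], []⟩ .nil .nil) .nil)))) (.node ⟨false, 2, 178, 4452, 277, 0, [(277, p 4)], []⟩ (.node ⟨false, 2, 163, 4422, 591, 253, [(232, n 1), (233, p 2), (234, n 1), (235, p 6), (236, p 2), (237, p 6), (238, n 3), (239, p 4), (240, p 4), (241, n 3), (242, n 3), (254, n 3)], [(p 1, 3, [1, 73, 2])]⟩ (.node ⟨false, 2, 160, 4416, 588, 250, [(222, p 2), (223, p 2), (224, n 1), (226, n 1), (227, p 4), (229, p 4), (230, n 3),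 (259, n 3)], [(p 1, 3, [0, 58, 2])]⟩ (.node ⟨false, 2, 158, 4412, 586, 248, [(231, p 4), (257, n 3)], [(p 1, 3, [0, 56, 2])]⟩ (.node ⟨false, 2, 157, 4410, 585, 247, [(230, p 4), (256, n 3)], [(p 1, 3, [0, 55, 2])]⟩ .nil .nil) (.node ⟨false, 2, 159, 4414, 587, 249, [(221, n 3), (222, p 6), (223, p 6), (224, n 3), (225, p 6), (226, n 3), (227, p 6), (228, p 6), (229, p 6), (230, n 3), (231, n 3), (258, n 3)], [(p 1, 3, [0, 57, 2])]⟩ .nil .nil)) (.node ⟨false, 2, 162, 4420, 590, 252, [(242, p 4), (253, n 3)], [(p 1, 3, [1, 72, 2])]⟩ (.node ⟨false, 2, 161, 4418, 589, 251, [(241, p 4), (252, n 3)], [(p 1, 3, [1, 71, 2])]⟩ .nil .nil) .nil)) (.node ⟨false, 2, 167, 4430, 595, 257, [(252, n 3), (254, n 7), (255, p 4), (257, p 2), (258, n 1), (259, p 2), (260, p 6), (261, n 5), (263, p 2)], [(p 1, 3, [7, 28, 2])]⟩ (.node ⟨false, 2, 165, 4426, 593, 255, [(243, n 3), (244, p 2), (245, p 6), (246,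 n 5), (247, n 5), (248, n 1), (249, n 5), (250, p 4), (251, p 4)], [(p 1, 3, [2, 81, 2])]⟩ (.node ⟨false, 2, 164, 4424, 592, 254, [(232, n 3), (233, p 6), (234, n 3), (235, p 6), (236, p 6), (237, p 6), (238, n 3), (239, p 6), (240, p 6), (241, n 3), (242, n 3), (255, n 3)], [(p 1, 3, [1, 74, 2])]⟩ .nil .nil) (.node ⟨false, 2, 166, 4428, 594, 256, [(252, p 2), (253, n 5), (254, n 1), (255, p 4), (257, n 3), (258, p 4), (259, n 3), (263, p 2)], [(p 1, 3, [4, 32, 2])]⟩ .nil .nil)) (.node ⟨false, 2, 169, 4434, 597, 259, [(252, p 2), (253, p 2), (254, p 6), (255, n 3), (260, n 3), (261, p 4), (263, n 1)], [(p 1, 3, [9, 23, 2])]⟩ (.node ⟨false, 2, 168, 4432, 596, 258, [(253, p 4), (254, p 4), (255, n 3), (257, p 2), (258, n 1), (259, p 2), (260, n 1), (261, p 2), (263, n 1)], [(p 1, 3, [9, 22, 2])]⟩ .nil .nil) .nil))) (.node ⟨true, 2, 181, 4459, 296, 0, [(296, p 4)], []⟩ (.node ⟨false, 2,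 180, 4456, 606, 268, [(264, n 1), (265, n 1), (266, p 6), (267, n 5), (268, p 6), (269, n 5), (274, n 3), (275, p 8), (277, n 3), (278, p 4)], [(p 1, 0, [0, 1, 2, 30]), (p 1, 0, [0, 2, 30, 1]), (n 0, 0, [0, 30, 2, 1])]⟩ (.node ⟨false, 2, 179, 4454, 278, 0, [(278, p 4)], []⟩ (.node ⟨true, 2, 178, 4453, 293, 0, [(293, p 4)], []⟩ .nil .nil) (.node ⟨true, 2, 179, 4455, 294, 0, [(294, p 4)], []⟩ .nil .nil)) (.node ⟨false, 2, 181, 4458, 609, 271, [(264, n 3), (265, p 4), (266, p 2), (267, n 3), (268, p 8), (269, n 3), (270, p 2), (273, n 3), (274, n 3), (275, p 6), (276, p 2), (278, p 4)], [(p 1, 0, [0, 30, 2, 1])]⟩ (.node ⟨true, 2, 180, 4457, 295, 0, [(295, p 4)], []⟩ .nil .nil) .nil)) (.node ⟨false, 2, 184, 4464, 646, 308, [(289, p 4), (301, n 3)], [(p 1, 3, [0, 72, 2])]⟩ (.node ⟨true, 2, 182, 4461, 297, 0, [(297, p 4)], []⟩ (.node ⟨false, 2, 182, 4460, 605, 267, [(264, n 3), (265, p 12),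 (266, n 7), (267, p 8), (268, p 4), (269, p 8), (273, n 11), (275, n 1), (276, p 6), (277, p 4)], [(p 1, 0, [0, 1, 2, 30]), (p 1, 0, [0, 7, 7, 1]), (n 0, 0, [0, 0, 23, 2]), (n 0, 0, [0, 0, 24, 2])]⟩ .nil .nil) (.node ⟨false, 2, 183, 4462, 645, 307, [(288, p 4), (300, n 3)], [(p 1, 3, [0, 71, 2])]⟩ .nil .nil)) (.node ⟨false, 2, 186, 4468, 648, 310, [(279, n 3), (280, p 6), (281, n 3), (282, p 6), (283, p 6), (284, p 6), (285, n 3), (286, p 6), (287, p 6), (288, n 3), (289, n 3), (303, n 3)], [(p 1, 3, [0, 74, 2])]⟩ (.node ⟨false, 2, 185, 4466, 647, 309, [(279, n 1), (280, p 2), (281, n 1), (282, p 6), (283, p 2), (284, p 6), (285, n 3), (286, p 4), (287, p 4), (288, n 3), (289, n 3), (302, n 3)], [(p 1, 3, [0, 73, 2])]⟩ .nil .nil) .nil)))))) (.node ⟨false, 4, 23, 8238, 409, 71, [(89, p 4), (90, n 5), (91, n 5), (92, p 2), (93, n 3), (94, p 2), (96, n 3), (97, n 3), (98, p 4), (99, p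 4)], [(n 0, 0, [1, 2, 2, 9]), (p 1, 0, [1, 1, 7, 2]), (n 0, 0, [0, 1, 2, 4]), (p 1, 0, [0, 2, 1, 4])]⟩ (.node ⟨false, 3, 6, 6156, 355, 17, [(37, n 7)], [(p 1, 3, [1, 1, 3])]⟩ (.node ⟨false, 2, 310, 4716, 738, 0, [(738, p 4)], []⟩ (.node ⟨true, 2, 192, 4481, 333, 0, [(333, p 4)], []⟩ (.node ⟨false, 2, 191, 4478, 663, 325, [(307, p 4), (308, p 2), (309, n 13), (310, p 10), (311, p 10), (312, p 6), (313, p 10), (314, n 3), (317, n 7), (318, p 4)], [(p 1, 0, [0, 2, 32, 1])]⟩ (.node ⟨false, 2, 189, 4474, 651, 313, [(300, n 1), (301, n 1), (302, n 5), (303, p 4), (306, p 2)], [(p 1, 3, [7, 32, 2])]⟩ (.node ⟨false, 2, 188, 4472, 650, 312, [(293, n 7), (295, n 11), (296, p 12), (297, n 3), (298, p 4)], [(p 1, 3, [2, 87, 2])]⟩ .nil .nil) (.node ⟨false, 2, 190, 4476, 652, 314, [(300, p 2), (301, p 2), (302, p 6), (303, n 3), (306, n 1)], [(p 1, 3, [9, 30, 2])]⟩ .nil .nil)) (.node ⟨false, 2, 192,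 4480, 665, 327, [(307, p 4), (308, p 8), (309, n 19), (310, p 20), (311, p 12), (315, n 7), (316, p 12), (317, n 11), (318, p 4)], [(p 1, 0, [0, 32, 1, 2])]⟩ (.node ⟨true, 2, 191, 4479, 332, 0, [(332, p 4)], []⟩ .nil .nil) .nil)) (.node ⟨false, 2, 307, 4710, 735, 0, [(735, p 4)], []⟩ (.node ⟨false, 2, 194, 4484, 693, 355, [(327, p 8), (329, p 12), (330, n 11), (331, p 4), (334, n 3)], [(p 1, 3, [1, 87, 2])]⟩ (.node ⟨false, 2, 193, 4482, 692, 354, [(319, p 4), (320, n 1), (321, n 5), (322, p 6), (323, p 6), (324, p 2), (325, p 6), (326, n 3), (335, n 3)], [(p 1, 3, [0, 81, 2])]⟩ .nil .nil) (.node ⟨false, 2, 195, 4486, 694, 356, [], [(p 1, 3, [9, 32, 2])]⟩ .nil .nil)) (.node ⟨false, 2, 309, 4714, 737, 0, [(737, p 4)], []⟩ (.node ⟨false, 2, 308, 4712, 736, 0, [(736, p 4)], []⟩ .nil .nil) .nil))) (.node ⟨false, 2, 317, 4730, 745, 0, [(745, p 4)], []⟩ (.node ⟨false, 2, 314, 4724, 742, 0,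 [(742, p 4)], []⟩ (.node ⟨false, 2, 312, 4720, 740, 0, [(740, p 4)], []⟩ (.node ⟨false, 2, 311, 4718, 739, 0, [(739, p 4)], []⟩ .nil .nil) (.node ⟨false, 2, 313, 4722, 741, 0, [(741, p 4)], []⟩ .nil .nil)) (.node ⟨false, 2, 316, 4728, 744, 0, [(744, p 4)], []⟩ (.node ⟨false, 2, 315, 4726, 743, 0, [(743, p 4)], []⟩ .nil .nil) .nil)) (.node ⟨true, 2, 336, 4769, 812, 0, [(812, p 4)], []⟩ (.node ⟨true, 2, 334, 4765, 810, 0, [(810, p 4)], []⟩ (.node ⟨false, 2, 318, 4732, 746, 0, [(746, p 4)], []⟩ .nil .nil) (.node ⟨true, 2, 335, 4767, 811, 0, [(811, p 4)], []⟩ .nil .nil)) (.node ⟨true, 2, 338, 4773, 814, 0, [(814, p 4)], []⟩ (.node ⟨true, 2, 337, 4771, 813, 0, [(813, p 4)], []⟩ .nil .nil) .nil)))) (.node ⟨false, 3, 192, 6528, 748, 0, [(748, p 4)], []⟩ (.node ⟨false, 3, 32, 6208, 435, 97, [(120, n 3), (121, p 4), (122, p 4), (123, n 3), (124, p 4), (125, n 3)], [(p 1, 0, [0, 1, 0, 3])]⟩ (.node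 ⟨false, 3, 11, 6166, 384, 46, [(68, n 7)], [(p 1, 3, [0, 0, 3])]⟩ (.node ⟨true, 3, 9, 6163, 53, 0, [(53, p 4)], []⟩ (.node ⟨false, 3, 9, 6162, 359, 21, [(41, n 3), (43, p 4), (44, n 3), (45, p 4)], [(p 1, 0, [0, 2, 1, 2])]⟩ .nil .nil) (.node ⟨false, 3, 10, 6164, 364, 26, [(46, n 3), (48, n 3)], [(p 1, 3, [0, 1, 3])]⟩ .nil .nil)) (.node ⟨true, 3, 28, 6201, 113, 0, [(113, p 4)], []⟩ (.node ⟨false, 3, 28, 6200, 406, 68, [(89, p 4), (92, n 3), (93, n 3), (95, p 4), (96, n 3), (97, p 4)], [(p 1, 0, [0, 1, 3, 1])]⟩ .nil .nil) .nil)) (.node ⟨false, 3, 87, 6318, 603, 265, [(264, p 8), (265, n 11), (267, p 12), (268, n 11), (269, p 12), (270, n 11), (274, p 4)], [(p 1, 0, [0, 0, 3, 9])]⟩ (.node ⟨false, 3, 81, 6306, 514, 176, [(196, p 4), (199, n 1), (200, n 5), (201, n 5), (202, p 6), (203, n 5), (204, p 6), (207, p 6), (208, n 5), (209, p 2), (210, p 6), (211, n 5), (212, p 6), (213, n 3)],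 [(p 1, 0, [0, 1, 3, 9]), (p 1, 0, [0, 3, 9, 1])]⟩ (.node ⟨true, 3, 32, 6209, 143, 0, [(143, p 4)], []⟩ .nil .nil) (.node ⟨true, 3, 81, 6307, 251, 0, [(251, p 4)], []⟩ .nil .nil)) (.node ⟨false, 3, 191, 6526, 747, 0, [(747, p 4)], []⟩ (.node ⟨true, 3, 87, 6319, 298, 0, [(298, p 4)], []⟩ .nil .nil) .nil))) (.node ⟨false, 4, 8, 8208, 363, 25, [(47, p 4), (50, p 4)], [(p 1, 3, [0, 2, 4])]⟩ (.node ⟨false, 4, 5, 8202, 354, 16, [(38, p 4), (39, p 4)], [(p 1, 3, [1, 2, 4])]⟩ (.node ⟨true, 3, 195, 6535, 816, 0, [(816, p 4)], []⟩ (.node ⟨true, 3, 193, 6531, 815, 0, [(815, p 4)], []⟩ .nil .nil) (.node ⟨false, 4, 4, 8200, 353, 15, [(34, p 4), (35, n 3), (36, n 3)], [(p 1, 0, [1, 1, 2, 2])]⟩ .nil .nil)) (.node ⟨true, 4, 7, 8207, 54, 0, [(54, p 4)], []⟩ (.node ⟨false, 4, 7, 8206, 361, 23, [(40, p 2), (41, n 1), (42, p 2), (43, n 1), (44, n 1), (45, n 1)], [(p 1, 0, [0, 1, 2, 2])]⟩ .nil .nil) .nil))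 (.node ⟨false, 4, 11, 8214, 392, 54, [(75, n 7)], [(p 1, 3, [0, 0, 4])]⟩ (.node ⟨true, 4, 9, 8211, 64, 0, [(64, p 4)], []⟩ (.node ⟨false, 4, 9, 8210, 373, 35, [(55, n 3), (57, p 4), (58, n 3)], [(p 1, 0, [0, 2, 1, 1])]⟩ .nil .nil) (.node ⟨false, 4, 10, 8212, 376, 38, [(59, n 3), (60, n 3)], [(p 1, 3, [0, 1, 4])]⟩ .nil .nil)) (.node ⟨true, 4, 22, 8237, 114, 0, [(114, p 4)], []⟩ (.node ⟨false, 4, 22, 8236, 414, 76, [(90, p 2), (91, n 1), (93, p 2), (95, n 1), (96, n 1), (97, p 2)], [(p 1, 0, [0, 4, 1, 2])]⟩ .nil .nil) .nil))))) (.node ⟨true, 4, 189, 8571, 820, 0, [(820, p 4)], []⟩ (.node ⟨false, 4, 74, 8340, 527, 189, [(196, p 7), (197, n 9), (198, n 7), (199, p 3), (200, n 7), (201, p 2), (202, n 1), (203, n 5), (204, n 1), (205, p 8), (206, p 8), (207, p 4), (208, n 7), (209, p 3), (210, n 1), (211, n 3), (212, n 3), (213, p 1), (214, n 1), (216, p 4), (217, n 3)], [(p 1, 0, [1, 1,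 30, 2])]⟩ (.node ⟨true, 4, 32, 8257, 166, 0, [(166, p 4)], []⟩ (.node ⟨false, 4, 30, 8252, 437, 99, [(119, p 2), (120, n 1), (121, p 2), (122, n 1), (123, n 5), (124, n 1), (128, p 4)], [(p 1, 0, [0, 2, 0, 4])]⟩ (.node ⟨false, 4, 24, 8240, 413, 75, [(90, n 1), (91, n 1), (92, p 2), (94, p 2), (95, n 3), (96, n 3), (98, p 4)], [(p 1, 0, [0, 1, 2, 4])]⟩ (.node ⟨true, 4, 23, 8239, 115, 0, [(115, p 4)], []⟩ .nil .nil) (.node ⟨true, 4, 24, 8241, 116, 0, [(116, p 4)], []⟩ .nil .nil)) (.node ⟨false, 4, 32, 8256, 464, 126, [(149, n 3), (150, p 4), (151, p 4), (152, n 3), (153, n 3)], [(p 1, 0, [0, 1, 0, 4])]⟩ (.node ⟨true, 4, 30, 8253, 144, 0, [(144, p 4)], []⟩ .nil .nil) .nil)) (.node ⟨true, 4, 72, 8337, 253, 0, [(253, p 4)], []⟩ (.node ⟨true, 4, 71, 8335, 252, 0, [(252, p 4)], []⟩ (.node ⟨false, 4, 71, 8334, 535, 197, [(196, p 5), (197, n 5), (198, n 3), (199, p 2), (200, n 8), (201, p 1),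 (202, p 3), (203, n 2), (204, n 4), (206, p 8), (207, p 5), (208, n 8), (210, n 0), (211, n 0), (212, p 1), (213, n 0), (214, p 2), (216, p 4), (220, n 3)], [(p 1, 0, [0, 1, 22, 2])]⟩ .nil .nil) (.node ⟨false, 4, 72, 8336, 516, 178, [(197, n 3), (199, p 1), (200, p 3), (201, p 3), (202, n 6), (203, p 3), (204, p 1), (205, p 4), (206, n 3), (207, n 2), (208, p 3), (209, p 3), (210, n 2), (211, n 0), (212, n 2), (216, p 4), (218, n 3)], [(p 1, 0, [0, 2, 23, 1])]⟩ .nil .nil)) (.node ⟨true, 4, 73, 8339, 254, 0, [(254, p 4)], []⟩ (.node ⟨false, 4, 73, 8338, 536, 198, [(196, n 2), (198, p 2), (199, n 0), (200, p 8), (202, n 1), (203, p 6), (204, p 2), (205, p 4), (206, n 7), (207, n 5), (208, p 6), (209, p 3), (211, p 2), (212, n 5), (213, p 3), (214, n 5), (218, n 3), (220, p 4)], [(p 1, 0, [0, 4, 2, 9])]⟩ .nil .nil) .nil))) (.node ⟨false, 4, 179, 8550, 750, 0, [(750, p 4)], []⟩ (.node ⟨false,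 4, 87, 8366, 657, 319, [(307, n 3), (309, p 12), (310, n 11), (311, n 11), (315, p 4)], [(p 1, 0, [0, 0, 4, 9])]⟩ (.node ⟨false, 4, 85, 8362, 604, 266, [(264, p 6), (265, n 13), (266, p 6), (267, n 5), (268, n 5), (269, n 5), (273, p 12), (277, n 3)], [(p 1, 0, [0, 4, 0, 7])]⟩ (.node ⟨true, 4, 74, 8341, 255, 0, [(255, p 4)], []⟩ .nil .nil) (.node ⟨true, 4, 85, 8363, 299, 0, [(299, p 4)], []⟩ .nil .nil)) (.node ⟨false, 4, 178, 8548, 749, 0, [(749, p 4)], []⟩ (.node ⟨true, 4, 87, 8367, 334, 0, [(334, p 4)], []⟩ .nil .nil) .nil)) (.node ⟨true, 4, 184, 8561, 817, 0, [(817, p 4)], []⟩ (.node ⟨false, 4, 181, 8554, 752, 0, [(752, p 4)], []⟩ (.node ⟨false, 4, 180, 8552, 751, 0, [(751, p 4)], []⟩ .nil .nil) (.node ⟨false, 4, 182, 8556, 753, 0, [(753, p 4)], []⟩ .nil .nil)) (.node ⟨true, 4, 186, 8565, 819, 0, [(819, p 4)], []⟩ (.node ⟨true, 4, 185, 8563, 818, 0, [(818, p 4)], []⟩ .nil .nil) .nil))))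 (.node ⟨true, 7, 22, 14381, 145, 0, [(145, p 4)], []⟩ (.node ⟨false, 7, 9, 14354, 388, 50, [(71, n 3), (73, n 3), (74, p 4)], [(p 1, 0, [0, 0, 1, 2])]⟩ (.node ⟨false, 6, 7, 12302, 375, 37, [(61, p 8)], [(p 1, 3, [1, 1, 7])]⟩ (.node ⟨false, 5, 7, 10254, 362, 24, [(49, p 4), (51, p 4)], [(p 1, 3, [1, 2, 7])]⟩ (.node ⟨true, 4, 190, 8573, 821, 0, [(821, p 4)], []⟩ .nil .nil) (.node ⟨false, 5, 9, 10258, 374, 36, [(62, p 4), (63, p 4)], [(p 1, 3, [1, 2, 9])]⟩ .nil .nil)) (.node ⟨false, 7, 8, 14352, 383, 45, [(69, p 4), (70, p 4)], [(p 1, 3, [0, 2, 7])]⟩ (.node ⟨false, 7, 7, 14350, 382, 44, [(65, p 4), (66, n 3), (67, n 3)], [(p 1, 0, [0, 0, 2, 2])]⟩ .nil .nil) .nil)) (.node ⟨false, 7, 16, 14368, 410, 72, [(89, n 3), (90, p 6), (91, p 6), (92, n 1), (93, p 4), (94, n 1), (95, p 4), (96, p 4), (98, n 3), (99, n 3)], [(p 1, 0, [1, 1, 7, 2])]⟩ (.node ⟨false, 7, 10, 14356, 391, 53, [(76, n 3),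 (78, n 3)], [(p 1, 3, [0, 1, 7])]⟩ (.node ⟨true, 7, 9, 14355, 80, 0, [(80, p 4)], []⟩ .nil .nil) (.node ⟨false, 7, 11, 14358, 402, 64, [(86, n 7)], [(p 1, 3, [0, 0, 7])]⟩ .nil .nil)) (.node ⟨false, 7, 22, 14380, 436, 98, [(119, n 1), (120, p 6), (121, n 1), (122, p 2), (123, p 2), (124, p 2), (128, n 3)], [(p 1, 0, [0, 0, 2, 4])]⟩ (.node ⟨true, 7, 16, 14369, 117, 0, [(117, p 4)], []⟩ .nil .nil) .nil))) (.node ⟨false, 7, 30, 14396, 484, 146, [(171, p 2), (172, n 1)], [(p 1, 0, [0, 0, 7, 2])]⟩ (.node ⟨true, 7, 24, 14385, 147, 0, [(147, p 4)], []⟩ (.node ⟨true, 7, 23, 14383, 146, 0, [(146, p 4)], []⟩ (.node ⟨false, 7, 23, 14382, 441, 103, [(120, n 1), (122, p 2), (123, p 2), (124, n 1), (126, p 2), (127, n 1)], [(p 1, 0, [0, 1, 2, 7])]⟩ .nil .nil) (.node ⟨false, 7, 24, 14384, 438, 100, [(119, p 2), (120, n 1), (121, p 2), (122, n 5), (123, n 5), (124, n 1), (125, p 4), (126, n 3), (127,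 n 3), (128, p 4), (129, p 4)], [(p 1, 0, [0, 2, 7, 1])]⟩ .nil .nil)) (.node ⟨true, 7, 28, 14393, 167, 0, [(167, p 4)], []⟩ (.node ⟨false, 7, 28, 14392, 465, 127, [(151, p 4), (153, n 3), (154, n 3), (155, n 3), (156, p 4)], [(p 1, 0, [0, 1, 7, 1])]⟩ .nil .nil) .nil)) (.node ⟨false, 7, 55, 14446, 512, 174, [(196, p 4), (197, n 5), (198, n 1), (199, p 2), (200, n 3), (201, p 2), (202, n 3), (203, n 3), (205, p 4), (206, p 4), (217, n 3)], [(p 1, 0, [0, 0, 2, 16])]⟩ (.node ⟨false, 7, 32, 14400, 490, 152, [(178, n 3), (180, n 3), (181, p 8), (182, n 3)], [(p 1, 0, [0, 1, 0, 7])]⟩ (.node ⟨true, 7, 30, 14397, 177, 0, [(177, p 4)], []⟩ .nil .nil) (.node ⟨true, 7, 32, 14401, 189, 0, [(189, p 4)], []⟩ .nil .nil)) (.node ⟨false, 7, 56, 14448, 533, 195, [(196, n 4), (197, p 4), (198, p 6), (199, n 1), (200, p 7), (201, n 0), (202, n 0), (203, p 9), (204, p 3), (206, n 7), (207, n 2), (208, p 3),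 (209, p 2), (210, n 0), (211, p 3), (212, n 2), (213, p 1), (214, n 1), (218, n 3)], [(p 1, 0, [1, 2, 7, 9])]⟩ (.node ⟨true, 7, 55, 14447, 256, 0, [(256, p 4)], []⟩ .nil .nil) .nil))))))) (.node ⟨false, 13, 32, 26688, 508, 170, [(197, n 1), (198, n 1), (199, p 2), (201, p 2), (204, n 3), (206, p 4), (208, n 3)], [(p 1, 0, [0, 1, 0, 13])]⟩ (.node ⟨true, 9, 32, 18497, 195, 0, [(195, p 4)], []⟩ (.node ⟨true, 7, 163, 14663, 827, 0, [(827, p 4)], []⟩ (.node ⟨true, 7, 81, 14499, 335, 0, [(335, p 4)], []⟩ (.node ⟨false, 7, 72, 14480, 598, 260, [(265, p 2), (267, n 1), (268, n 1), (269, p 6), (271, n 1), (272, p 2), (278, n 3)], [(p 1, 0, [0, 0, 2, 23])]⟩ (.node ⟨true, 7, 58, 14453, 259, 0, [(259, p 4)], []⟩ (.node ⟨true, 7, 57, 14451, 258, 0, [(258, p 4)], []⟩ (.node ⟨false, 7, 57, 14450, 518, 180, [(196, p 1), (198, p 2), (199, n 1), (200, n 2), (201, p 1), (202, p 1), (203, p 3), (204, p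 1), (205, n 3), (206, p 4), (207, p 1), (208, n 0), (210, n 0), (211, n 0), (212, p 1), (213, n 0), (214, p 2), (219, n 3)], [(p 1, 0, [0, 1, 2, 23])]⟩ .nil .nil) (.node ⟨false, 7, 58, 14452, 520, 182, [(196, p 1), (197, p 4), (198, n 1), (199, n 0), (200, n 7), (202, p 6), (203, n 1), (204, n 1), (205, n 3), (206, p 8), (207, p 6), (208, n 9), (209, n 0), (211, n 1), (212, p 2), (213, n 0), (214, p 2), (218, p 4), (219, n 3)], [(p 1, 0, [0, 4, 7, 1])]⟩ .nil .nil)) (.node ⟨true, 7, 71, 14479, 300, 0, [(300, p 4)], []⟩ (.node ⟨false, 7, 71, 14478, 601, 263, [(264, p 2), (265, n 5), (266, p 2), (267, n 1), (268, p 2), (269, n 1), (273, p 4), (277, n 3)], [(p 1, 0, [0, 0, 2, 22])]⟩ .nil .nil) .nil)) (.node ⟨false, 7, 74, 14484, 607, 269, [(266, n 1), (267, p 4), (269, p 4), (270, n 1), (272, p 4), (274, p 4), (275, n 5), (276, n 1), (278, n 3)], [(p 1, 0, [0, 1, 7, 7]), (n 0, 0, [0, 0,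 23, 2]), (p 1, 0, [0, 0, 2, 24])]⟩ (.node ⟨false, 7, 73, 14482, 614, 276, [(264, n 1), (265, p 4), (266, n 4), (267, p 10), (269, p 4), (270, n 0), (272, p 2), (273, n 3), (274, p 4), (275, n 7), (277, p 4), (278, n 3)], [(p 1, 0, [0, 0, 2, 24])]⟩ (.node ⟨true, 7, 72, 14481, 301, 0, [(301, p 4)], []⟩ .nil .nil) (.node ⟨true, 7, 73, 14483, 302, 0, [(302, p 4)], []⟩ .nil .nil)) (.node ⟨false, 7, 81, 14498, 664, 326, [(308, n 5), (309, p 10), (310, n 5), (311, n 5), (312, n 1), (313, n 5), (317, p 8), (318, n 3)], [(p 1, 0, [0, 7, 1, 9])]⟩ (.node ⟨true, 7, 74, 14485, 303, 0, [(303, p 4)], []⟩ .nil .nil) .nil))) (.node ⟨false, 7, 155, 14646, 760, 0, [(760, p 4)], []⟩ (.node ⟨false, 7, 152, 14640, 757, 0, [(757, p 4)], []⟩ (.node ⟨false, 7, 150, 14636, 755, 0, [(755, p 4)], []⟩ (.node ⟨false, 7, 149, 14634, 754, 0, [(754, p 4)], []⟩ .nil .nil) (.node ⟨false, 7, 151, 14638, 756, 0, [(756,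 p 4)], []⟩ .nil .nil)) (.node ⟨false, 7, 154, 14644, 759, 0, [(759, p 4)], []⟩ (.node ⟨false, 7, 153, 14642, 758, 0, [(758, p 4)], []⟩ .nil .nil) .nil)) (.node ⟨true, 7, 159, 14655, 824, 0, [(824, p 4)], []⟩ (.node ⟨true, 7, 157, 14651, 822, 0, [(822, p 4)], []⟩ (.node ⟨false, 7, 156, 14648, 761, 0, [(761, p 4)], []⟩ .nil .nil) (.node ⟨true, 7, 158, 14653, 823, 0, [(823, p 4)], []⟩ .nil .nil)) (.node ⟨true, 7, 162, 14661, 826, 0, [(826, p 4)], []⟩ (.node ⟨true, 7, 160, 14657, 825, 0, [(825, p 4)], []⟩ .nil .nil) .nil)))) (.node ⟨true, 9, 13, 18459, 415, 77, [(114, p 2), (115, n 1), (116, p 2), (118, p 2)], [(p 1, 1, [0, 1, 1, 2, 2])]⟩ (.node ⟨false, 8, 9, 16402, 390, 52, [(77, p 4), (79, p 4)], [(p 1, 3, [0, 2, 9])]⟩ (.node ⟨true, 7, 167, 14671, 831, 0, [(831, p 4)], []⟩ (.node ⟨true, 7, 165, 14667, 829, 0, [(829, p 4)], []⟩ (.node ⟨true, 7, 164, 14665, 828, 0, [(828, p 4)], []⟩ .nil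 .nil) (.node ⟨true, 7, 166, 14669, 830, 0, [(830, p 4)], []⟩ .nil .nil)) (.node ⟨true, 7, 169, 14675, 833, 0, [(833, p 4)], []⟩ (.node ⟨true, 7, 168, 14673, 832, 0, [(832, p 4)], []⟩ .nil .nil) .nil)) (.node ⟨false, 9, 12, 18456, 407, 69, [(89, p 4), (93, n 3), (94, n 3), (95, p 4), (96, n 3), (97, p 4)], [(p 1, 0, [0, 3, 1, 1])]⟩ (.node ⟨false, 9, 10, 18452, 399, 61, [(82, n 3), (83, n 3)], [(p 1, 3, [0, 1, 9])]⟩ (.node ⟨true, 9, 9, 18451, 84, 0, [(84, p 4)], []⟩ .nil .nil) (.node ⟨false, 9, 11, 18454, 404, 66, [(88, n 7)], [(p 1, 3, [0, 0, 9])]⟩ .nil .nil)) (.node ⟨false, 9, 13, 18458, 411, 73, [(90, p 2), (91, p 2), (92, n 1), (93, p 4), (94, n 1), (97, p 4), (99, n 3)], [(p 1, 0, [0, 2, 1, 4])]⟩ (.node ⟨true, 9, 12, 18457, 118, 0, [(118, p 4)], []⟩ .nil .nil) .nil))) (.node ⟨false, 9, 23, 18478, 463, 125, [(151, p 4), (153, n 3), (155, n 3)], [(p 1, 0, [0, 7, 1, 1])]⟩ (.node ⟨true,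 9, 19, 18471, 443, 105, [(145, p 2), (146, n 1), (147, p 2), (148, p 2)], [(p 1, 1, [0, 0, 1, 2, 2])]⟩ (.node ⟨true, 9, 18, 18469, 148, 0, [(148, p 4)], []⟩ (.node ⟨false, 9, 18, 18468, 434, 96, [(119, p 4), (120, n 3), (122, p 4), (123, n 3), (124, p 4), (125, n 3)], [(p 1, 0, [0, 0, 1, 3])]⟩ .nil .nil) (.node ⟨false, 9, 19, 18470, 440, 102, [(119, p 2), (121, p 2), (122, n 3), (123, n 3), (126, n 1), (127, n 1), (129, p 4)], [(p 1, 0, [0, 7, 1, 2])]⟩ .nil .nil)) (.node ⟨true, 9, 22, 18477, 168, 0, [(168, p 4)], []⟩ (.node ⟨false, 9, 22, 18476, 462, 124, [(151, p 4), (152, n 3), (153, n 3)], [(p 1, 0, [0, 0, 1, 4])]⟩ .nil .nil) .nil)) (.node ⟨false, 9, 30, 18492, 491, 153, [(178, n 3), (179, p 4), (180, n 3), (181, p 4), (182, n 3)], [(p 1, 0, [0, 0, 1, 7])]⟩ (.node ⟨false, 9, 24, 18480, 467, 129, [(150, n 1), (151, p 2), (152, p 2), (153, p 2), (154, n 1), (155, n 1)], [(p 1, 0, [0,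 1, 2, 9])]⟩ (.node ⟨true, 9, 23, 18479, 169, 0, [(169, p 4)], []⟩ .nil .nil) (.node ⟨true, 9, 24, 18481, 468, 130, [(168, n 3), (169, p 4)], [(p 1, 1, [0, 0, 1, 1, 2])]⟩ .nil .nil)) (.node ⟨false, 9, 32, 18496, 501, 163, [(191, p 4), (192, n 3)], [(p 1, 0, [0, 0, 1, 9])]⟩ (.node ⟨true, 9, 30, 18493, 190, 0, [(190, p 4)], []⟩ .nil .nil) .nil))))) (.node ⟨false, 9, 120, 18672, 763, 0, [(763, p 4)], []⟩ (.node ⟨true, 9, 65, 18563, 304, 0, [(304, p 4)], []⟩ (.node ⟨false, 9, 43, 18518, 526, 188, [(196, n 2), (197, p 4), (198, p 2), (199, n 0), (200, p 4), (202, p 2), (203, p 2), (204, p 2), (206, n 3), (207, n 1), (208, p 2), (209, n 0), (211, p 2), (212, n 1), (213, p 3), (214, n 5)], [(p 1, 0, [0, 19, 1, 1])]⟩ (.node ⟨true, 9, 41, 18515, 538, 200, [(257, p 2), (258, n 1), (259, p 2), (260, p 2)], [(p 1, 1, [0, 0, 1, 1, 3]), (n 3, 1, [0, 0, 1, 2, 4])]⟩ (.node ⟨true, 9, 40, 18513, 260,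 0, [(260, p 4)], []⟩ (.node ⟨false, 9, 40, 18512, 506, 168, [(200, p 4), (201, p 4), (202, n 3), (203, p 4), (204, n 3), (207, n 3)], [(p 1, 0, [0, 0, 1, 12])]⟩ .nil .nil) (.node ⟨false, 9, 41, 18514, 509, 171, [(197, p 2), (198, n 1), (199, p 2), (200, n 3), (201, p 2), (204, n 3), (206, p 4), (208, n 3)], [(p 1, 0, [0, 0, 1, 13])]⟩ .nil .nil)) (.node ⟨true, 9, 42, 18517, 261, 0, [(261, p 4)], []⟩ (.node ⟨false, 9, 42, 18516, 507, 169, [(201, p 4), (207, n 3), (208, p 4), (210, n 3), (211, p 4), (212, n 3)], [(p 1, 0, [0, 18, 1, 1])]⟩ .nil .nil) .nil)) (.node ⟨false, 9, 45, 18522, 529, 191, [(196, p 2), (197, n 1), (198, n 1), (199, n 0), (200, n 2), (201, p 3), (202, n 0), (203, p 1), (204, n 0), (206, p 4), (207, p 1), (208, n 0), (209, p 1), (210, n 2), (211, n 0), (212, n 2), (213, n 1), (214, p 4)], [(p 1, 0, [0, 2, 1, 23])]⟩ (.node ⟨false, 9, 44, 18520, 530, 192, [(196, n 0),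 (198, p 2), (199, n 1), (200, p 7), (201, n 0), (202, n 0), (203, p 5), (204, p 3), (206, n 3), (207, n 2), (208, p 3), (209, p 2), (210, n 0), (211, n 0), (212, n 2), (213, p 1), (214, n 1)], [(p 1, 0, [0, 2, 1, 22])]⟩ (.node ⟨true, 9, 43, 18519, 539, 201, [(252, p 2), (253, n 1), (254, p 2), (261, p 2)], [(p 1, 1, [0, 0, 1, 1, 3])]⟩ .nil .nil) (.node ⟨true, 9, 44, 18521, 262, 0, [(262, p 4)], []⟩ .nil .nil)) (.node ⟨false, 9, 65, 18562, 600, 262, [(264, n 3), (265, p 4), (266, p 4), (267, n 3), (268, p 4), (269, n 3), (270, p 4), (274, n 3)], [(p 1, 0, [0, 0, 1, 18])]⟩ (.node ⟨true, 9, 45, 18523, 537, 199, [(252, n 1), (253, p 2), (254, n 1), (257, p 2), (258, n 1), (259, p 2), (260, n 1), (261, p 2), (262, p 4)], [(p 1, 1, [0, 2, 1, 2, 9])]⟩ .nil .nil) .nil))) (.node ⟨false, 9, 72, 18576, 653, 315, [(311, p 4), (313, p 4), (316, n 3)], [(p 1, 0, [0, 0, 1, 23])]⟩ (.node ⟨true, 9,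 67, 18567, 305, 0, [(305, p 4)], []⟩ (.node ⟨true, 9, 66, 18565, 616, 278, [(300, p 2), (301, n 1), (302, p 2), (304, p 2)], [(p 1, 1, [0, 0, 1, 2, 7])]⟩ (.node ⟨false, 9, 66, 18564, 612, 274, [(264, n 1), (265, p 2), (266, n 0), (267, p 4), (268, p 2), (269, n 1), (270, p 3), (271, n 1), (275, n 3)], [(p 1, 0, [0, 0, 1, 19])]⟩ .nil .nil) (.node ⟨false, 9, 67, 18566, 615, 277, [(264, n 1), (265, p 2), (266, p 3), (267, n 3), (268, p 2), (269, n 1), (270, n 0), (271, p 2), (272, p 4), (276, n 3)], [(p 1, 0, [0, 7, 2, 9])]⟩ .nil .nil)) (.node ⟨true, 9, 71, 18575, 336, 0, [(336, p 4)], []⟩ (.node ⟨false, 9, 71, 18574, 655, 317, [(308, p 4), (309, n 3), (310, p 4), (311, p 4), (315, n 3)], [(p 1, 0, [0, 0, 1, 22])]⟩ .nil .nil) .nil)) (.node ⟨false, 9, 74, 18580, 661, 323, [(308, p 4), (309, n 3), (310, p 4), (314, p 4), (317, n 3)], [(p 1, 0, [0, 30, 1, 1])]⟩ (.node ⟨false, 9, 73, 18578,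 659, 321, [(308, n 1), (309, p 2), (310, n 1), (311, n 1), (312, p 2), (313, p 2), (315, p 4), (316, n 3)], [(p 1, 0, [0, 0, 24, 1])]⟩ (.node ⟨true, 9, 72, 18577, 337, 0, [(337, p 4)], []⟩ .nil .nil) (.node ⟨true, 9, 73, 18579, 666, 328, [(336, n 3), (337, p 4)], [(p 1, 1, [0, 0, 1, 1, 7])]⟩ .nil .nil)) (.node ⟨false, 9, 119, 18670, 762, 0, [(762, p 4)], []⟩ (.node ⟨true, 9, 74, 18581, 338, 0, [(338, p 4)], []⟩ .nil .nil) .nil)))) (.node ⟨true, 9, 138, 18709, 838, 0, [(838, p 4)], []⟩ (.node ⟨false, 9, 127, 18686, 770, 0, [(770, p 4)], []⟩ (.node ⟨false, 9, 124, 18680, 767, 0, [(767, p 4)], []⟩ (.node ⟨false, 9, 122, 18676, 765, 0, [(765, p 4)], []⟩ (.node ⟨false, 9, 121, 18674, 764, 0, [(764, p 4)], []⟩ .nil .nil) (.node ⟨false, 9, 123, 18678, 766, 0, [(766, p 4)], []⟩ .nil .nil)) (.node ⟨false, 9, 126, 18684, 769, 0, [(769, p 4)], []⟩ (.node ⟨false, 9, 125, 18682, 768, 0, [(768, p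 4)], []⟩ .nil .nil) .nil)) (.node ⟨true, 9, 133, 18699, 835, 0, [(835, p 4)], []⟩ (.node ⟨false, 9, 129, 18690, 772, 0, [(772, p 4)], []⟩ (.node ⟨false, 9, 128, 18688, 771, 0, [(771, p 4)], []⟩ .nil .nil) (.node ⟨true, 9, 132, 18697, 834, 0, [(834, p 4)], []⟩ .nil .nil)) (.node ⟨true, 9, 135, 18703, 837, 0, [(837, p 4)], []⟩ (.node ⟨true, 9, 134, 18701, 836, 0, [(836, p 4)], []⟩ .nil .nil) .nil))) (.node ⟨true, 9, 146, 18725, 845, 0, [(845, p 4)], []⟩ (.node ⟨true, 9, 143, 18719, 842, 0, [(842, p 4)], []⟩ (.node ⟨true, 9, 141, 18715, 840, 0, [(840, p 4)], []⟩ (.node ⟨true, 9, 140, 18713, 839, 0, [(839, p 4)], []⟩ .nil .nil) (.node ⟨true, 9, 142, 18717, 841, 0, [(841, p 4)], []⟩ .nil .nil)) (.node ⟨true, 9, 145, 18723, 844, 0, [(844, p 4)], []⟩ (.node ⟨true, 9, 144, 18721, 843, 0, [(843, p 4)], []⟩ .nil .nil) .nil)) (.node ⟨true, 12, 32, 24641, 263, 0, [(263, p 4)], []⟩ (.node ⟨true,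 9, 148, 18729, 847, 0, [(847, p 4)], []⟩ (.node ⟨true, 9, 147, 18727, 846, 0, [(846, p 4)], []⟩ .nil .nil) (.node ⟨false, 12, 32, 24640, 510, 172, [(196, n 3), (199, p 4), (200, p 4), (201, p 4), (202, n 3), (203, p 4), (204, n 3), (207, n 3)], [(p 1, 0, [0, 1, 0, 12])]⟩ .nil .nil)) (.node ⟨true, 12, 88, 24753, 848, 0, [(848, p 4)], []⟩ (.node ⟨false, 12, 87, 24750, 773, 0, [(773, p 4)], []⟩ .nil .nil) .nil)))))) (.node ⟨false, 24, 24, 49200, 522, 184, [(196, n 5), (198, p 8), (199, n 1), (200, p 20), (201, n 3), (202, n 3), (203, p 12), (204, p 8), (205, p 4), (206, n 19), (207, n 11), (208, p 14), (209, p 6), (210, n 1), (211, p 2), (212, n 9), (213, p 6), (214, n 9), (215, n 1), (216, p 4), (218, n 7), (219, p 4), (220, p 4)], [(p 1, 0, [0, 1, 2, 24])]⟩ (.node ⟨false, 22, 30, 45116, 602, 264, [(264, n 1), (265, p 6), (266, n 1), (267, p 2), (268, p 2), (269, p 2), (273, n 7), (277,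 p 4)], [(p 1, 0, [0, 2, 0, 22])]⟩ (.node ⟨false, 19, 28, 38968, 525, 187, [(196, n 2), (197, p 4), (198, p 2), (199, n 0), (200, p 4), (202, p 2), (203, p 2), (204, p 2), (206, n 3), (207, n 1), (208, p 2), (209, n 0), (210, n 3), (211, p 2), (212, n 1), (213, p 3), (214, n 1)], [(p 1, 0, [0, 1, 19, 1])]⟩ (.node ⟨false, 18, 28, 36920, 511, 173, [(201, p 4), (207, n 3), (208, p 4), (209, n 3), (210, n 3), (211, p 4), (212, n 3), (213, p 4)], [(p 1, 0, [0, 1, 18, 1])]⟩ (.node ⟨true, 16, 30, 32829, 546, 208, [(251, p 4), (252, p 2), (253, n 5), (254, n 1), (256, p 12), (257, n 9), (258, p 2), (259, p 6), (260, p 14), (261, n 7), (262, n 7), (263, p 6)], [(p 1, 2, [0, 0, 2, 1, 2, 1])]⟩ (.node ⟨true, 13, 88, 26801, 849, 0, [(849, p 4)], []⟩ (.node ⟨true, 13, 32, 26689, 540, 202, [(252, p 2), (253, n 1), (254, p 2), (257, n 3), (258, p 4), (259, n 3), (263, p 2)], [(p 2, 1, [0, 2, 2, 9, 1]),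 (p 2, 1, [0, 1, 2, 7, 1]), (n 0, 1, [0, 0, 2, 4, 1])]⟩ .nil .nil) (.node ⟨false, 16, 30, 32828, 513, 175, [(196, n 3), (197, p 6), (198, p 6), (199, n 1), (200, p 4), (201, n 1), (202, p 4), (203, p 4), (205, n 7), (206, n 3), (217, p 4)], [(p 1, 0, [0, 2, 0, 16])]⟩ .nil .nil)) (.node ⟨true, 16, 86, 32941, 850, 0, [(850, p 4)], []⟩ (.node ⟨false, 16, 85, 32938, 774, 0, [(774, p 4)], []⟩ .nil .nil) .nil)) (.node ⟨false, 18, 81, 37026, 775, 0, [(775, p 4)], []⟩ (.node ⟨false, 18, 32, 36928, 599, 261, [(264, n 3), (265, p 4), (267, n 3), (268, p 4), (269, n 3), (270, p 8), (274, n 3)], [(p 1, 0, [0, 1, 0, 18])]⟩ (.node ⟨true, 18, 28, 36921, 545, 207, [(253, n 7), (254, n 7), (255, p 8), (256, p 8), (257, n 7), (259, p 8), (260, p 12), (261, n 11), (263, p 4)], [(p 1, 1, [1, 2, 2, 9, 0])]⟩ .nil .nil) (.node ⟨true, 18, 32, 36929, 306, 0, [(306, p 4)], []⟩ .nil .nil)) (.node ⟨true, 18, 84,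 37033, 852, 0, [(852, p 4)], []⟩ (.node ⟨true, 18, 82, 37029, 851, 0, [(851, p 4)], []⟩ .nil .nil) .nil))) (.node ⟨true, 19, 84, 39081, 855, 0, [(855, p 4)], []⟩ (.node ⟨false, 19, 81, 39074, 776, 0, [(776, p 4)], []⟩ (.node ⟨false, 19, 32, 38976, 613, 275, [(264, n 1), (265, p 2), (266, n 0), (268, p 2), (269, n 1), (270, p 3), (271, p 2), (275, n 3)], [(p 1, 0, [0, 1, 0, 19])]⟩ (.node ⟨true, 19, 28, 38969, 544, 206, [(252, n 3), (254, n 7), (255, p 4), (256, p 4), (257, n 1), (258, n 1), (259, p 6), (260, p 6), (261, n 5), (263, p 2)], [(p 1, 2, [1, 1, 2, 0, 0, 2])]⟩ .nil .nil) (.node ⟨true, 19, 32, 38977, 617, 279, [(300, n 1), (301, p 2), (302, n 1), (306, p 2)], [(p 1, 1, [0, 0, 2, 9, 2])]⟩ .nil .nil)) (.node ⟨true, 19, 83, 39079, 854, 0, [(854, p 4)], []⟩ (.node ⟨true, 19, 82, 39077, 853, 0, [(853, p 4)], []⟩ .nil .nil) .nil)) (.node ⟨true, 22, 23, 45103, 542, 204, [(253, n 3),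 (254, n 3), (255, p 4), (257, p 2), (258, n 1), (259, p 2), (260, p 2), (261, n 1), (262, p 4), (263, p 2)], [(p 1, 1, [0, 0, 2, 4, 1])]⟩ (.node ⟨false, 22, 22, 45100, 532, 194, [(196, n 0), (198, p 2), (199, n 1), (200, p 7), (201, n 0), (202, n 0), (203, p 5), (204, p 3), (206, n 7), (207, n 4), (208, p 9), (210, p 1), (211, p 1), (212, n 0), (213, p 1), (214, n 1), (216, n 3), (220, p 4)], [(p 1, 0, [0, 22, 1, 2])]⟩ (.node ⟨true, 21, 81, 43171, 856, 0, [(856, p 4)], []⟩ .nil .nil) (.node ⟨false, 22, 23, 45102, 524, 186, [(196, p 1), (197, p 2), (198, n 3), (199, p 2), (200, n 4), (201, p 1), (202, n 0), (203, n 6), (204, n 0), (206, p 4), (207, p 3), (208, n 2), (209, n 1), (210, p 1), (211, p 1), (212, p 3), (213, n 0), (214, p 2), (216, n 3), (218, p 4)], [(p 1, 0, [0, 23, 2, 1])]⟩ .nil .nil)) (.node ⟨true, 22, 24, 45105, 541, 203, [(253, n 3), (254, n 3), (255, p 4), (257, n 1),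 (258, p 2), (259, n 1), (260, p 2), (261, n 1), (262, p 4), (263, p 2)], [(p 1, 2, [0, 0, 2, 1, 1, 2])]⟩ (.node ⟨false, 22, 24, 45104, 534, 196, [(196, p 5), (197, n 5), (198, n 3), (199, p 2), (200, n 8), (201, p 1), (202, p 3), (203, n 6), (204, n 4), (206, p 8), (207, p 3), (208, n 2), (209, n 1), (210, p 1), (211, p 1), (212, p 3), (213, n 0), (214, p 2), (218, p 4), (220, n 3)], [(p 1, 0, [0, 24, 1, 2])]⟩ .nil .nil) .nil)))) (.node ⟨false, 23, 30, 47164, 611, 273, [(266, p 1), (267, n 1), (269, n 3), (270, p 3), (271, n 1), (272, n 3), (278, p 4)], [(p 1, 0, [0, 0, 23, 2])]⟩ (.node ⟨false, 22, 74, 45204, 780, 0, [(780, p 4)], []⟩ (.node ⟨false, 22, 71, 45198, 777, 0, [(777, p 4)], []⟩ (.node ⟨false, 22, 32, 45120, 654, 316, [(309, n 3), (310, p 4), (311, p 8), (315, n 3)], [(p 1, 0, [0, 1, 0, 22])]⟩ (.node ⟨true, 22, 30, 45117, 619, 281, [(298, p 2), (299, n 1), (300, p 3), (301,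 p 1), (302, p 1), (303, n 1), (304, p 3), (305, n 1), (306, p 4)], [(p 1, 2, [0, 0, 2, 1, 2, 0])]⟩ .nil .nil) (.node ⟨true, 22, 32, 45121, 668, 330, [(334, n 1), (336, n 1), (337, n 1), (338, p 2)], [(p 1, 2, [0, 0, 2, 1, 1, 0])]⟩ .nil .nil)) (.node ⟨false, 22, 73, 45202, 779, 0, [(779, p 4)], []⟩ (.node ⟨false, 22, 72, 45200, 778, 0, [(778, p 4)], []⟩ .nil .nil) .nil)) (.node ⟨false, 23, 23, 47150, 519, 181, [(196, n 0), (198, n 1), (199, p 2), (200, p 3), (201, n 0), (202, n 0), (203, n 2), (204, n 0), (205, p 4), (206, n 3), (207, n 0), (208, p 3), (210, n 0), (211, n 0), (212, p 1), (213, p 5), (214, n 7), (215, n 1), (219, p 4)], [(p 1, 0, [1, 1, 7, 7])]⟩ (.node ⟨true, 22, 77, 45211, 858, 0, [(858, p 4)], []⟩ (.node ⟨true, 22, 76, 45209, 857, 0, [(857, p 4)], []⟩ .nil .nil) (.node ⟨true, 22, 80, 45217, 859, 0, [(859, p 4)], []⟩ .nil .nil)) (.node ⟨true, 23, 24, 47153, 543, 205,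 [(252, n 3), (254, n 7), (255, p 4), (257, p 2), (258, n 1), (259, p 2), (260, p 2), (261, n 1), (262, p 4), (263, p 2)], [(p 1, 1, [0, 2, 2, 9, 1])]⟩ (.node ⟨false, 23, 24, 47152, 515, 177, [(197, n 3), (199, p 1), (200, p 3), (201, p 3), (202, n 6), (203, p 3), (204, n 2), (205, p 4), (206, n 3), (207, n 2), (208, p 1), (209, p 3), (210, n 0), (211, p 1), (212, n 4), (214, p 2), (215, n 1), (216, p 4), (218, n 3), (219, p 4)], [(p 1, 0, [0, 1, 3, 9]), (n 1, 0, [0, 23, 1, 2]), (p 2, 0, [0, 1, 2, 23]), (n 1, 0, [1, 1, 7, 7]), (p 2, 0, [1, 1, 30, 2]), (n 1, 0, [0, 7, 1, 4]), (n 1, 0, [0, 2, 1, 22]), (p 2, 0, [0, 2, 1, 23])]⟩ .nil .nil) .nil))) (.node ⟨false, 23, 74, 47252, 784, 0, [(784, p 4)], []⟩ (.node ⟨false, 23, 71, 47246, 781, 0, [(781, p 4)], []⟩ (.node ⟨false, 23, 32, 47168, 656, 318, [(309, n 3), (311, p 4), (312, p 4), (313, p 4), (316, n 3)], [(p 1, 0, [0, 1, 0, 23])]⟩ (.node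 ⟨true, 23, 30, 47165, 620, 282, [(298, p 2), (299, n 1), (300, p 1), (301, p 7), (302, p 3), (303, n 5), (304, p 3), (305, n 5), (306, p 2)], [(p 1, 1, [0, 0, 1, 7, 2])]⟩ .nil .nil) (.node ⟨true, 23, 32, 47169, 669, 331, [(334, n 1), (336, p 2), (337, n 9), (338, p 6)], [(p 1, 1, [0, 0, 2, 9, 1])]⟩ .nil .nil)) (.node ⟨false, 23, 73, 47250, 783, 0, [(783, p 4)], []⟩ (.node ⟨false, 23, 72, 47248, 782, 0, [(782, p 4)], []⟩ .nil .nil) .nil)) (.node ⟨true, 23, 78, 47261, 863, 0, [(863, p 4)], []⟩ (.node ⟨true, 23, 76, 47257, 861, 0, [(861, p 4)], []⟩ (.node ⟨true, 23, 75, 47255, 860, 0, [(860, p 4)], []⟩ .nil .nil) (.node ⟨true, 23, 77, 47259, 862, 0, [(862, p 4)], []⟩ .nil .nil)) (.node ⟨true, 23, 80, 47265, 865, 0, [(865, p 4)], []⟩ (.node ⟨true, 23, 79, 47263, 864, 0, [(864, p 4)], []⟩ .nil .nil) .nil))))) (.node ⟨true, 29, 67, 59527, 880, 0, [(880, p 4)], []⟩ (.node ⟨true, 26, 72, 53393,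 871, 0, [(871, p 4)], []⟩ (.node ⟨false, 24, 73, 49298, 787, 0, [(787, p 4)], []⟩ (.node ⟨true, 24, 32, 49217, 667, 329, [(336, p 4), (337, n 7), (338, p 4)], [(p 1, 2, [0, 0, 0, 1, 1, 2])]⟩ (.node ⟨true, 24, 30, 49213, 618, 280, [(300, p 2), (301, p 2), (302, p 6), (303, n 3), (305, n 3), (306, n 1)], [(p 1, 2, [0, 0, 0, 1, 2, 2])]⟩ (.node ⟨false, 24, 30, 49212, 608, 270, [(264, p 2), (265, n 9), (266, p 8), (267, n 9), (268, p 2), (269, n 9), (270, p 2), (272, n 3), (273, p 8), (274, n 3), (275, p 8), (277, n 3), (278, p 4)], [(p 1, 0, [0, 1, 2, 30])]⟩ .nil .nil) (.node ⟨false, 24, 32, 49216, 658, 320, [(308, n 1), (309, p 2), (310, n 5), (311, n 1), (312, p 2), (313, p 6), (315, p 4), (316, n 3)], [(p 1, 0, [0, 2, 9, 9])]⟩ .nil .nil)) (.node ⟨false, 24, 72, 49296, 786, 0, [(786, p 4)], []⟩ (.node ⟨false, 24, 71, 49294, 785, 0, [(785, p 4)], []⟩ .nil .nil) .nil)) (.node ⟨true, 24,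 78, 49309, 868, 0, [(868, p 4)], []⟩ (.node ⟨true, 24, 75, 49303, 866, 0, [(866, p 4)], []⟩ (.node ⟨false, 24, 74, 49300, 788, 0, [(788, p 4)], []⟩ .nil .nil) (.node ⟨true, 24, 76, 49305, 867, 0, [(867, p 4)], []⟩ .nil .nil)) (.node ⟨true, 24, 80, 49313, 870, 0, [(870, p 4)], []⟩ (.node ⟨true, 24, 79, 49311, 869, 0, [(869, p 4)], []⟩ .nil .nil) .nil))) (.node ⟨true, 28, 30, 57405, 670, 332, [(334, p 2), (335, n 3), (336, n 1), (337, p 10), (338, n 9)], [(p 1, 2, [0, 0, 0, 1, 2, 1])]⟩ (.node ⟨true, 27, 73, 55443, 875, 0, [(875, p 4)], []⟩ (.node ⟨true, 26, 74, 53397, 873, 0, [(873, p 4)], []⟩ (.node ⟨true, 26, 73, 53395, 872, 0, [(872, p 4)], []⟩ .nil .nil) (.node ⟨true, 27, 72, 55441, 874, 0, [(874, p 4)], []⟩ .nil .nil)) (.node ⟨false, 28, 30, 57404, 662, 324, [(308, n 3), (309, p 4), (310, n 3), (314, n 3), (317, p 8), (318, n 3)], [(p 1, 0, [0, 1, 30, 1])]⟩ (.node ⟨true, 27, 74,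 55445, 876, 0, [(876, p 4)], []⟩ .nil .nil) .nil)) (.node ⟨true, 28, 68, 57481, 877, 0, [(877, p 4)], []⟩ (.node ⟨false, 28, 66, 57476, 790, 0, [(790, p 4)], []⟩ (.node ⟨false, 28, 65, 57474, 789, 0, [(789, p 4)], []⟩ .nil .nil) (.node ⟨false, 28, 67, 57478, 791, 0, [(791, p 4)], []⟩ .nil .nil)) (.node ⟨true, 28, 70, 57485, 879, 0, [(879, p 4)], []⟩ (.node ⟨true, 28, 69, 57483, 878, 0, [(878, p 4)], []⟩ .nil .nil) .nil)))) (.node ⟨false, 32, 41, 65618, 797, 0, [(797, p 4)], []⟩ (.node ⟨true, 30, 63, 61567, 883, 0, [(883, p 4)], []⟩ (.node ⟨false, 30, 58, 61556, 795, 0, [(795, p 4)], []⟩ (.node ⟨false, 30, 56, 61552, 793, 0, [(793, p 4)], []⟩ (.node ⟨false, 30, 55, 61550, 792, 0, [(792, p 4)], []⟩ .nil .nil) (.node ⟨false, 30, 57, 61554, 794, 0, [(794, p 4)], []⟩ .nil .nil)) (.node ⟨true, 30, 62, 61565, 882, 0, [(882, p 4)], []⟩ (.node ⟨true, 30, 61, 61563, 881, 0, [(881, p 4)], []⟩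 .nil .nil) .nil)) (.node ⟨true, 31, 57, 63603, 887, 0, [(887, p 4)], []⟩ (.node ⟨true, 31, 55, 63599, 885, 0, [(885, p 4)], []⟩ (.node ⟨true, 30, 64, 61569, 884, 0, [(884, p 4)], []⟩ .nil .nil) (.node ⟨true, 31, 56, 63601, 886, 0, [(886, p 4)], []⟩ .nil .nil)) (.node ⟨false, 32, 40, 65616, 796, 0, [(796, p 4)], []⟩ (.node ⟨true, 31, 58, 63605, 888, 0, [(888, p 4)], []⟩ .nil .nil) .nil))) (.node ⟨true, 32, 53, 65643, 891, 0, [(891, p 4)], []⟩ (.node ⟨false, 32, 45, 65626, 801, 0, [(801, p 4)], []⟩ (.node ⟨false, 32, 43, 65622, 799, 0, [(799, p 4)], []⟩ (.node ⟨false, 32, 42, 65620, 798, 0, [(798, p 4)], []⟩ .nil .nil) (.node ⟨false, 32, 44, 65624, 800, 0, [(800, p 4)], []⟩ .nil .nil)) (.node ⟨true, 32, 52, 65641, 890, 0, [(890, p 4)], []⟩ (.node ⟨true, 32, 49, 65635, 889, 0, [(889, p 4)], []⟩ .nil .nil) .nil)) (.node ⟨true, 33, 43, 67671, 894, 0, [(894, p 4)], []⟩ (.node ⟨true, 33, 42,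 67669, 893, 0, [(893, p 4)], []⟩ (.node ⟨true, 32, 54, 65645, 892, 0, [(892, p 4)], []⟩ .nil .nil) .nil) (.node ⟨true, 33, 45, 67675, 896, 0, [(896, p 4)], []⟩ (.node ⟨true, 33, 44, 67673, 895, 0, [(895, p 4)], []⟩ .nil .nil) .nil)))))))))

/-- instances of identities for the final identity -/
def top : List (ℤ × ℕ × List ℕ) := [(n 2303, 4, [72, 7, 1]), (n 3071, 0, [0, 1, 1, 66]), (p 38016, 0, [1, 7, 30, 1]), (p 6080, 0, [1, 2, 1, 85]), (p 45312, 0, [0, 71, 2, 1]), (n 8895, 0, [0, 1, 71, 2]), (p 2304, 4, [1, 9, 67]), (n 1151, 0, [0, 1, 1, 67]), (n 2303, 4, [7, 74, 1]), (n 2303, 4, [67, 1, 9]), (p 9024, 0, [1, 1, 2, 85]), (n 2303, 4, [19, 32, 1]), (p 1920, 0, [0, 1, 1, 65]), (p 13824, 0, [0, 2, 71, 1]), (n 37631, 0, [1, 30, 7, 1]), (p 2304, 4, [7, 73, 1]), (p 320, 0, [0, 42, 0, 1]), (p 17792, 0, [0, 42, 1, 0]), (p 7616, 0, [0, 41, 0, 1]), (p 18688, 0, [0, 55, 0, 2]), (n 14463, 0, [0,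 0, 40, 1]), (p 18176, 0, [0, 0, 55, 2]), (p 36800, 0, [0, 43, 1, 0]), (n 3327, 0, [0, 0, 45, 1]), (n 24575, 0, [0, 44, 1, 0]), (p 31296, 0, [0, 0, 9, 13]), (p 2240, 0, [0, 40, 0, 1]), (n 10175, 0, [0, 7, 0, 16]), (p 5888, 0, [0, 71, 1, 2]), (n 12671, 0, [0, 57, 2, 0]), (n 191, 0, [0, 0, 28, 3]), (n 9215, 0, [0, 65, 1, 1]), (n 44351, 0, [0, 7, 23, 1]), (p 28224, 0, [0, 23, 7, 1]), (p 8704, 0, [0, 1, 0, 44]), (p 23360, 0, [0, 0, 1, 43]), (p 19968, 0, [0, 66, 1, 1]), (n 2303, 4, [7, 4, 32]), (p 24640, 0, [0, 2, 0, 57]), (n 13695, 0, [0, 0, 22, 4]), (n 3391, 0, [0, 7, 22, 1]), (p 30272, 0, [0, 3, 9, 9]), (n 11391, 0, [0, 1, 45, 0]), (p 50048, 0, [0, 23, 4, 0]), (p 5696, 0, [0, 0, 56, 2]), (n 3711, 0, [0, 0, 58, 2]), (n 27071, 0, [0, 4, 23, 0]), (p 20160, 0, [1, 9, 7, 7]), (p 4096, 0, [0, 4, 30, 1]), (n 767, 4, [9, 0, 43]), (n 10047, 0, [0, 4, 24, 0]), (n 2303, 4, [1, 30, 24]), (p 32896,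 0, [0, 0, 2, 58]), (n 28927, 0, [0, 4, 2, 32]), (n 38527, 0, [0, 2, 56, 0]), (n 6911, 4, [24, 7, 9]), (p 2304, 4, [2, 32, 23]), (n 14591, 0, [2, 9, 9, 7]), (p 8448, 4, [23, 9, 7]), (p 2304, 4, [2, 30, 28]), (p 4608, 4, [2, 24, 32]), (p 16512, 0, [0, 2, 1, 72]), (p 2304, 4, [81, 7, 2]), (p 2304, 4, [7, 2, 81]), (n 2303, 4, [30, 4, 9]), (n 9023, 0, [0, 4, 0, 22]), (n 53, 2, [5, 0, 1, 0, 0, 2]), (p 2304, 4, [7, 1, 73]), (p 4608, 4, [2, 9, 72]), (n 2303, 4, [19, 1, 32]), (n 2303, 4, [9, 3, 32]), (p 4608, 4, [9, 32, 3]), (n 2303, 4, [72, 2, 9]), (p 2304, 4, [24, 2, 32]), (n 20735, 0, [2, 7, 9, 9]), (n 18431, 0, [0, 72, 2, 1]), (p 4608, 4, [9, 73, 2]), (n 2303, 4, [9, 0, 45]), (n 38335, 0, [0, 2, 1, 71]), (p 20928, 0, [2, 9, 2, 32]), (p 20928, 0, [0, 9, 9, 3]), (p 12480, 0, [0, 0, 24, 4]), (n 3007, 0, [0, 30, 4, 1]), (p 26112, 0, [1, 7, 7, 9]), (n 14783, 0, [2, 2, 32, 9]), (p 4928, 0, [1,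 87, 2, 2]), (p 4928, 0, [0, 12, 0, 9]), (n 4735, 0, [0, 22, 7, 1]), (p 10560, 0, [2, 2, 9, 32]), (n 7103, 0, [1, 7, 2, 32]), (p 2304, 4, [73, 2, 9]), (n 2303, 4, [2, 74, 9]), (n 2303, 4, [0, 9, 44]), (n 2303, 4, [22, 0, 24]), (n 26, 2, [11, 1, 1, 0, 2, 2]), (n 2303, 4, [9, 44, 0]), (p 3072, 4, [22, 7, 9]), (n 53, 2, [5, 0, 2, 0, 0, 1]), (p 2304, 4, [30, 1, 23]), (n 1151, 0, [1, 9, 30, 2]), (p 4608, 4, [7, 1, 72]), (n 53, 2, [0, 0, 2, 6, 0, 2]), (p 7680, 4, [9, 9, 19]), (p 4608, 4, [30, 1, 24]), (n 3071, 4, [28, 0, 19]), (p 2304, 4, [23, 7, 9]), (p 14592, 4, [7, 9, 24]), (p 27, 2, [0, 1, 1, 11, 2, 2]), (n 2303, 4, [7, 0, 55]), (n 767, 4, [22, 0, 23]), (p 768, 4, [7, 22, 9]), (n 383, 0, [0, 3, 0, 28]), (p 384, 0, [0, 2, 81, 2]), (n 767, 4, [0, 9, 42]), (p 1536, 4, [7, 0, 56]), (n 17, 2, [0, 1, 2, 11, 2, 1]), (n 767, 4, [18, 9, 9]), (n 3071, 4, [24, 0, 23]), (n 3071, 4, [58, 0, 7]), (n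 767, 4, [9, 42, 0]), (p 768, 4, [18, 0, 28]), (n 3071, 4, [0, 23, 23]), (p 9216, 4, [28, 7, 7]), (p 2304, 4, [28, 2, 30]), (n 1535, 4, [7, 0, 57]), (p 18, 2, [11, 1, 2, 0, 2, 1])]

/-- factor of the final identity -/
def cT : ℤ := p 54

/-- the final identity -/
def target : List (ℤ × Tree) := [(p 1, (.bin true (.bin true (.bin false (.leaf 0) (.leaf 1)) (.bin false (.bin false (.leaf 0) (.leaf 1)) (.leaf 0))) (.bin false (.leaf 2) (.leaf 2))))]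

end H85.FA.Q1bd
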