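import Pool.Agent.H85.FA.Ids
import Pool.Agent.H85.FA.Q1bChkA
import Pool.Agent.H85.FA.Q1bChkB
import Pool.Agent.H85.FA.Q1bChkC
import Pool.Agent.H85.FA.Q1bChkD
import Pool.Agent.H85.FA.Chain

/-!
# MP_273d7a_al, module G3 : `Q1b`
-/

set_option linter.unusedSectionVars false

namespace H85.FA.Q1bd

universe u v

/-- the identities used -/
def FsG : List (List (ℤ × Tree)) := [fSagle, fR2, fHc, fAd, fJj]

theorem c1 : defsOk mask 3 defs = true := by decide +kernel

theorem c1' : tab.namesB defsB = true := by decide +kernel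

theorem c2 : Tab.check tab 4 (parMask mask) Fs tab = true := Tab.check_split cB0 cA cB

theorem c3 : topCheck tab 4 (parMask mask) Fs top cT 6 target = true :=
  topCheck_split (List.take_append_drop 63 top) cC cD

theorem mlin : ∀ f ∈ FsG, ∃ n, MLin n f := by
  have h1 : MLin 4 fSagle := by unfold MLin; decide
  have h2 : MLin 5 fR2 := by unfold MLin; decide
  have h3 : MLin 6 fHc := by unfold MLin; decide
  have h4 : MLin 3 fAd := by unfold MLin; decide
  have h5 : MLin 3 fJj := by unfold MLin; decide
  simp only [FsG, List.forall_mem_cons, List.not_mem_nil, false_imp_iff, implies_true, and_true]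
  exact ⟨⟨_, h1⟩, ⟨_, h2⟩, ⟨_, h3⟩, ⟨_, h4⟩, ⟨_, h5⟩⟩

theorem good (B : Type v) [NonUnitalNonAssocRing B] (hA : IsAlt B) (h : TF B)
    (hc : ∀ a b c : B, cm (hh a b) c = 0) : Good FsG (Triv B) := by
  have h1 : MLin 4 fSagle := by unfold MLin; decide
  have h2 : MLin 5 fR2 := by unfold MLin; decide
  have h3 : MLin 6 fHc := by unfold MLin; decide
  have h4 : MLin 3 fAd := by unfold MLin; decide
  have h5 : MLin 3 fJj := by unfold MLin; decide
  refine ⟨h, ?_⟩
  simp only [FsG, List.forall_mem_cons, List.not_mem_nil, false_imp_iff, implies_true, and_true]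
  exact ⟨superId_triv h h1 (id_sagle hA h), superId_triv h h2 (id_r2 hA h),
    superId_triv h h3 (id_hc hA h hc), superId_triv h h4 (id_ad hA h),
    superId_triv h h5 (id_jj hA)⟩

/-- parities: only the letter `2` is odd -/
def ep (i : ℕ) : Bool := Nat.beq i 2

/-- `h∘[u,u]` -/
def t0 : Tree := .bin true (.bin true (.bin false (.leaf 0) (.leaf 1))
  (.bin false (.bin false (.leaf 0) (.leaf 1)) (.leaf 0))) (.bin false (.leaf 2) (.leaf 2))

theorem super (V : Type v) [GrAlg V] (hV : Good FsG V) (P : ℕ → V)
    (hP : ∀ i, Hom (ep i) (P i)) : evL ep P [(false, t0)] = 0 := by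
  have key := certificate (V := V) hV.1 (Fs := Fs) (T := tab) (D := 4) (cT := cT) (m := mask)
    (lo := 3) (s := 6) (ds := defs) (top := top) (target := target)
    (P := fun i => if i < 3 then P i else 0)
    (by
      intro f hf
      simp only [Fs, List.mem_cons, List.not_mem_nil, or_false] at hf
      rcases hf with rfl | rfl | rfl | rfl | rfl <;> exact hV.2 _ (by simp [FsG]))
    (by
      intro i
      by_cases hi : i < 3
      · simp only [hi, if_true]
        have e : parMask mask i = ep i := by
          interval_cases i <;> decide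
        rw [e]; exact hP i
      · simp only [hi, if_false]
        unfold Hom
        rw [map_zero, sg_zero])
    c1 (Tab.namesB_mem c1') (fun n hn => Tab.check_mem c2 hn) (by decide) c3 (by decide)
  have e0 : (target.map fun c => c.1 • c.2.ev (parMask mask) (fun i => if i < 3 then P i else 0)).sum
      = t0.ev (parMask mask) (fun i => if i < 3 then P i else 0) := by
    change (p 1) • _ + 0 = _
    rw [p_one_smul, add_zero]; rfl
  rw [e0] at key
  have e1 : t0.ev (parMask mask) (fun i => if i < 3 then P i else 0) = t0.ev ep P := by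
    have hl : ∀ i ∈ t0.leaves, i < 3 := by decide
    refine Tree.ev_congr ?_ ?_
    · intro i hi
      have := hl i hi
      interval_cases i <;> decide
    · intro i hi
      simp [hl i hi]
  rw [e1] at key
  simp only [evL, List.map_cons, List.map_nil, List.sum_cons, List.sum_nil, sg_false, add_zero]
  exact key

/-- `h∘[d,c]` with the letters `3, 4` -/
def t2 (i j : ℕ) : Tree := .bin true (.bin true (.bin false (.leaf 0) (.leaf 1))
  (.bin false (.bin false (.leaf 0) (.leaf 1)) (.leaf 0))) (.bin false (.leaf i) (.leaf j))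

theorem der_eq : derL ep 2 4 (derL ep 2 3 [(false, t0)]) = [(false, t2 4 3), (true, t2 3 4)] := rfl

theorem triv_eval (B : Type v) [NonUnitalNonAssocRing B] (hA : IsAlt B) (h : TF B)
    (hc : ∀ a b c : B, cm (hh a b) c = 0) (a b c d : B) : jr (hh a b) (cm c d) = 0 := by
  have d1 := down (Fs := FsG) mlin (ε := ep) (x := 2) (y := 3) rfl super.{v}
  have d2 := down (Fs := FsG) mlin (ε := ep) (x := 2) (y := 4) rfl d1
  have key := d2 (Triv B) (good B hA h hc)
    (fun i => match i with | 0 => a | 1 => b | 3 => c | 4 => d | _ => (0 : B))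
    (by
      intro i
      by_cases hi : i = 2
      · subst hi
        change (0 : B) = sg _ (0 : B)
        rw [sg_zero]
      · have : ep i = false := by
          unfold ep
          cases hb : Nat.beq i 2
          · rfl
          · exact absurd (Nat.eq_of_beq_eq_true hb) hi
        rw [this]
        rfl)
  rw [der_eq] at key
  have ht : ∀ (i j : ℕ), i ≠ 2 → j ≠ 2 → ∀ P : ℕ → B, (t2 i j).ev ep P
      = jr (jr (cm (P 0) (P 1)) (cm (cm (P 0) (P 1)) (P 0))) (cm (P i) (P j)) := by
    intro i j hi hj P
    rw [Tree.ev_congr (ε' := fun _ => false) (P' := P) _ (fun _ _ => rfl)]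
    · simp only [t2, ev_jr, ev_cm, ev_leaf]
    · intro k hk
      have : k ≠ 2 := by
        rintro rfl
        simp [t2, Tree.leaves] at hk
        omega
      unfold ep
      cases hb : Nat.beq k 2
      · rfl
      · exact absurd (Nat.eq_of_beq_eq_true hb) this
  have key2 : jr (jr (cm a b) (cm (cm a b) a)) (cm d c)
      - jr (jr (cm a b) (cm (cm a b) a)) (cm c d) = 0 := by
    have e1 := ht 4 3 (by decide) (by decide)
      (fun i => match i with | 0 => a | 1 => b | 3 => c | 4 => d | _ => (0 : B))
    have e2 := ht 3 4 (by decide) (by decide)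
      (fun i => match i with | 0 => a | 1 => b | 3 => c | 4 => d | _ => (0 : B))
    have : (t2 4 3).ev ep (fun i => match i with | 0 => a | 1 => b | 3 => c | 4 => d | _ => (0 : B))
      + (- ((t2 3 4).ev ep (fun i => match i with
        | 0 => a | 1 => b | 3 => c | 4 => d | _ => (0 : B))) + 0) = 0 := key
    rw [e1, e2, add_zero, ← sub_eq_add_neg] at this
    exact this
  rw [← hh_eq hA] at key2
  apply h.1
  have e3 : jr (hh a b) (cm d c) = - jr (hh a b) (cm c d) := by
    unfold jr cm
    simp only [mul_sub, sub_mul]; abel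
  rw [e3] at key2
  have e4 : jr (hh a b) (cm c d) + jr (hh a b) (cm c d)
      = -(- jr (hh a b) (cm c d) - jr (hh a b) (cm c d)) := by abel
  rw [e4, key2, neg_zero]

end H85.FA.Q1bd

namespace H85.FA

universe u v

/-- **Q1b** -/
theorem q1b (F : Type u) [Field F] (h2 : (2 : F) ≠ 0) (h3 : (3 : F) ≠ 0) : Q1b.{u, v} F := by
  intro B _ _ _ _ hA hc a b c d
  exact Q1bd.triv_eval B hA (TF.of_module F h2 h3 B) hc a b c d

end H85.FA
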