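import Pool.Agent.H85.FA.Cert

/-!
# MP_273d7a_al : the kernel checks in several parts
-/

set_option linter.unusedSectionVars false

namespace H85.FA

def Tab.left : Tab → Tab
  | .nil => .nil
  | .node _ l _ => l

def Tab.right : Tab → Tab
  | .nil => .nil
  | .node _ _ r => r

/-- check of the root of the third argument -/
def Tab.rootCheck (T : Tab) (D : ℤ) (ε : ℕ → Bool) (Fs : List (ℕ × List (ℤ × Tree))) :
    Tab → Bool
  | .nil => true
  | .node n _ _ => n.check T D ε Fs

theorem Tab.check_split {T : Tab} {D : ℤ} {ε : ℕ → Bool} {Fs : List (ℕ × List (ℤ × Tree))}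
    {T' : Tab} (h0 : Tab.rootCheck T D ε Fs T' = true)
    (h1 : Tab.check T D ε Fs T'.left = true) (h2 : Tab.check T D ε Fs T'.right = true) :
    Tab.check T D ε Fs T' = true := by
  cases T' with
  | nil => rfl
  | node n l r =>
    simp only [Tab.rootCheck, Tab.left, Tab.right] at h0 h1 h2
    simp only [Tab.check, h0, h1, h2, Bool.and_true]

theorem instV_append {T : Tab} {D : ℤ} {cur : ℕ} {ε : ℕ → Bool}
    {Fs : List (ℕ × List (ℤ × Tree))} (js ks : List (ℤ × ℕ × List ℕ)) (acc : Vec) :
    instV T D cur ε Fs (js ++ ks) acc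
      = (instV T D cur ε Fs js acc).bind fun a => instV T D cur ε Fs ks a := by
  induction js generalizing acc with
  | nil => simp [instV]
  | cons c js ih =>
    obtain ⟨y, i, a⟩ := c
    simp only [List.cons_append, instV, ih]
    cases polyV T D cur ε (fun n => a.getD n 0) true (nth Fs i).1 y (nth Fs i).2 acc with
    | none => rfl
    | some w => rfl

/-- all nodes of the table are defined in the list of blocks (name `k` in block `k / 32`) -/
def Tab.namesB (B : List (List (ℕ × Bool × ℕ × ℕ))) : Tab → Bool
  | .nil => true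
  | .node m l r => inDefs m.name m.o m.i m.j (B.getD (m.name / 32) []) &&
      (l.namesB B && r.namesB B)

theorem Tab.namesB_mem {B : List (List (ℕ × Bool × ℕ × ℕ))} {T : Tab}
    (h : T.namesB B = true) (n : Node) (hn : T.Mem n) :
    (n.name, n.o, n.i, n.j) ∈ B.flatten := by
  induction T with
  | nil => exact absurd hn (by simp [Tab.Mem])
  | node m l r ihl ihr =>
    simp only [Tab.namesB, Bool.and_eq_true] at h
    obtain ⟨h1, h2, h3⟩ := h
    rcases hn with rfl | hn | hn
    · have h4 := inDefs_mem h1
      rw [List.mem_flatten]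
      by_cases hk : n.name / 32 < B.length
      · refine ⟨B[n.name / 32], List.getElem_mem hk, ?_⟩
        rwa [List.getD_eq_getElem _ _ hk] at h4
      · rw [List.getD_eq_default _ _ (by omega)] at h4
        simp at h4
    · exact ihl h2 hn
    · exact ihr h3 hn

/-- the final check with a given accumulated vector -/
def topFrom (T : Tab) (D : ℤ) (ε : ℕ → Bool) (Fs : List (ℕ × List (ℤ × Tree))) (v : Vec)
    (ks : List (ℤ × ℕ × List ℕ)) (cT : ℤ) (s : ℕ) (target : List (ℤ × Tree)) : Bool :=
  match instV T D 1000000 ε Fs ks v with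
    | none => false
    | some tot =>
      match polyV T D 1000000 ε (fun n => n) false s cT target tot with
        | none => false
        | some tot' => smooth cT && allZero tot'

theorem topCheck_split {T : Tab} {D : ℤ} {ε : ℕ → Bool} {Fs : List (ℕ × List (ℤ × Tree))}
    {v : Vec} {js ks top : List (ℤ × ℕ × List ℕ)} {cT : ℤ} {s : ℕ} {target : List (ℤ × Tree)}
    (ht : js ++ ks = top) (h1 : instV T D 1000000 ε Fs js [] = some v)
    (h2 : topFrom T D ε Fs v ks cT s target = true) :
    topCheck T D ε Fs top cT s target = true := by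
  subst ht
  unfold topCheck
  rw [instV_append, h1]
  exact h2

end H85.FA
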