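import Pool.Agent.H85.FA.Q1bData
import Pool.Agent.H85.FA.Polys
import Pool.Agent.H85.FA.Split

/-!
# MP_273d7a_al : data of the certificate of `Q1b`
-/

set_option maxRecDepth 100000

namespace H85.FA.Q1bd

/-- the identities used, with the numbers of operations -/
def Fs : List (ℕ × List (ℤ × Tree)) :=
  [(3, fSagle), (4, fR2), (5, fHc), (2, fAd), (2, fJj)]

/-- the sum of the first 63 instances -/
def v1 : Vec := [(695, n 2514943), (696, p 3999744), (697, p 1685504), (698, n 740351), (699, p 2647040), (700, n 795647), (701, n 1467391), (702, n 1113087), (703, p 3034112), (704, n 73727), (705, n 2719743), (706, p 119808), (707, p 2219008), (708, n 304127), (709, n 879615), (710, n 435199), (711, p 283648), (712, p 708608), (713, n 827391), (714, n 516095), (715, n 1261567), (716, p 73728), (717, p 651264), (718, p 0), (719, p 573440), (720, p 481280), (721, n 1742847), (722, p 1790976), (723, n 2359295), (724, n 141311), (725, n 731135), (726, p 795648), (727, p 79872), (728, n 1781759), (729, p 1249280), (730, n 1744895), (731, p 1753088), (732, p 1597440), (733, p 1810432), (734, p 1253376), (735, n 655359), (736, p 1058816), (737, p 378880), (738, p 149504), (739, n 1071103),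 (740, n 1038335), (741, n 18431), (742, n 36863), (743, n 1314815), (744, p 36864), (745, p 0), (746, p 188416), (749, p 389120), (750, p 118784), (751, p 1282048), (752, n 1736703), (753, p 651264), (754, p 0), (755, n 110591), (756, p 2023424), (757, n 266239), (758, n 3485695), (759, n 823295), (760, n 3747839), (761, p 3612672), (762, n 956415), (763, p 1148928), (764, p 854016), (765, n 215039), (766, p 1271808), (767, n 436223), (768, n 466943), (769, n 430079), (770, p 1130496), (771, p 1421312), (772, p 233472), (774, p 0), (775, p 12288), (776, p 0), (777, p 552960), (778, p 1470464), (779, n 860159), (780, p 217088), (781, p 733184), (782, p 24576), (783, n 1720319), (784, p 1744896), (785, n 1929215), (786, p 147456), (787, n 897023), (788, p 860160), (789, p 110592), (790, n 196607), (791, n 110591), (792, p 303104), (793, p 290816), (794, n 98303), (795, p 172032), (796, p 1124352), (797, p 571392), (798, n 1136639), (799, n 534527), (800, n 1714175), (801, p 2095104), (804, p 0), (805, p 0), (806, p 0), (807, p 0), (808, p 0), (809, p 0), (810, p 0), (811, p 0), (812, n 221183), (813, p 442368), (814, n 110591), (827, n 110591), (828, p 110592), (830, p 110592),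 (833, n 405503), (835, p 36864), (838, n 110591), (846, p 331776), (854, p 110592), (856, p 110592), (864, n 110591), (865, n 405503), (868, p 110592), (870, p 331776), (871, n 110591), (879, p 110592), (880, p 221184), (890, p 221184), (892, p 110592), (894, n 36863)]

end H85.FA.Q1bd
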