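import Pool.Agent.H85.FA.Q2Fs

/-!
# MP_273d7a_al : kernel check of the certificate of `Q2`, part A
-/

set_option maxRecDepth 100000

namespace H85.FA.Q2d

theorem cA : Tab.check tab 2 (parMask mask) Fs tab.left = true := by decide +kernel

end H85.FA.Q2d
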