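import Pool.Agent.H85.FA.Q2Fs

/-!
# MP_273d7a_al : kernel check of the certificate of `Q2`, part D
-/

set_option maxRecDepth 100000

namespace H85.FA.Q2d

theorem cD : topFrom tab 2 (parMask mask) Fs v1 (top.drop 60) cT 7 target = true := by
  decide +kernel

end H85.FA.Q2d
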