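import Pool.Agent.H85.FA.Engine

set_option maxRecDepth 100000

namespace H85.FA.Q2d

/-- the set of odd names -/
def mask : ℕ := 44362715105933037753254626946289339254982993206012948484301501273145750001509853542181395589638595961215023696830424756603368082517

/-- the definitions of the names, in blocks of 32 -/
def defsB : List (List (ℕ × Bool × ℕ × ℕ)) :=
  [[(3, false, 2, 2), (4, false, 1, 2), (5, false, 0, 2), (6, false, 0, 1), (7, false, 0, 0), (8, false, 1, 3), (9, false, 2, 4), (10, false, 0, 3), (11, false, 2, 5), (12, false, 0, 4), (13, false, 1, 5), (14, false, 2, 6), (15, false, 0, 5), (16, false, 2, 7), (17, false, 0, 6), (18, false, 1, 7), (19, false, 0, 7), (20, false, 0, 8), (21, false, 0, 9), (22, false, 1, 10), (23, false, 1, 11), (24, false, 2, 12), (25, false, 2, 13), (26, false, 0, 10), (27, false, 0, 11), (28, false, 2, 15), (29, false, 0, 12), (30, false,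 0, 13), (31, false, 0, 14)],
   [(32, false, 1, 15), (33, false, 1, 16), (34, false, 2, 17), (35, false, 0, 15), (36, false, 0, 16), (37, false, 2, 19), (38, false, 0, 17), (39, false, 0, 18), (40, false, 1, 19), (41, false, 0, 19), (42, false, 0, 20), (43, false, 0, 21), (44, false, 0, 22), (45, false, 0, 23), (46, false, 0, 24), (47, false, 0, 25), (48, false, 1, 26), (49, false, 1, 27), (50, false, 1, 28), (51, false, 2, 29), (52, false, 2, 30), (53, false, 2, 31), (54, false, 2, 32), (55, false, 2, 34), (56, false, 0, 26), (57, false, 0, 27), (58, false, 0, 28), (59, false, 2, 35), (60, false, 2, 36), (61, false, 2, 37), (62, false, 0, 29), (63, false, 0, 30)],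
   [(64, false, 0, 31), (65, false, 0, 32), (66, false, 0, 33), (67, false, 0, 34), (68, false, 1, 35), (69, false, 1, 36), (70, false, 1, 37), (71, false, 2, 38), (72, false, 2, 39), (73, false, 0, 35), (74, false, 0, 36), (75, false, 0, 37), (76, false, 2, 41), (77, false, 0, 38), (78, false, 0, 39), (79, false, 0, 40), (80, false, 1, 41), (81, false, 0, 41), (82, false, 0, 42), (83, false, 0, 43), (84, false, 0, 44), (85, false, 0, 45), (86, false, 0, 46), (87, false, 0, 47), (88, false, 0, 48), (89, false, 0, 49), (90, false, 0, 50), (91, false, 0, 51), (92, false, 0, 52), (93, false, 0, 53), (94, false, 0, 54), (95, false, 0, 55)],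
   [(96, false, 1, 56), (97, false, 1, 57), (98, false, 1, 58), (99, false, 1, 59), (100, false, 1, 60), (101, false, 1, 61), (102, false, 2, 62), (103, false, 2, 63), (104, false, 2, 64), (105, false, 2, 65), (106, false, 2, 67), (107, false, 3, 38), (108, false, 0, 56), (109, false, 0, 57), (110, false, 0, 58), (111, false, 0, 59), (112, false, 0, 60), (113, false, 0, 61), (114, false, 2, 73), (115, false, 2, 74), (116, false, 2, 75), (117, false, 3, 41), (118, false, 0, 62), (119, false, 0, 63), (120, false, 0, 64), (121, false, 0, 65), (122, false, 0, 66), (123, false, 0, 67), (124, false, 0, 68), (125, false, 0, 69), (126, false, 0, 70), (127, false, 0, 71)],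
   [(128, false, 0, 72), (129, false, 1, 73), (130, false, 1, 74), (131, false, 1, 75), (132, false, 2, 77), (133, false, 4, 41), (134, false, 0, 73), (135, false, 0, 74), (136, false, 0, 75), (137, false, 2, 81), (138, false, 5, 41), (139, false, 0, 77), (140, false, 0, 78), (141, false, 0, 79), (142, false, 1, 81), (143, false, 6, 41), (144, false, 3, 6), (145, false, 2, 14), (146, false, 4, 5), (147, false, 3, 7), (148, false, 2, 16), (149, false, 5, 6), (150, false, 4, 7), (151, false, 2, 18), (152, false, 5, 7), (153, false, 6, 7), (154, false, 2, 33), (155, false, 4, 15), (156, false, 5, 14), (157, false, 5, 12), (158, false, 5, 13), (159, false, 7, 9)],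
   [(160, false, 6, 11), (161, false, 6, 10), (162, false, 4, 16), (163, false, 3, 18), (164, false, 3, 17), (165, false, 7, 8), (166, false, 5, 15), (167, false, 5, 16), (168, false, 7, 11), (169, false, 7, 10), (170, false, 3, 19), (171, false, 2, 40), (172, false, 4, 19), (173, false, 7, 12), (174, false, 7, 14), (175, false, 7, 13), (176, false, 5, 18), (177, false, 6, 16), (178, false, 6, 15), (179, false, 5, 17), (180, false, 5, 19), (181, false, 7, 15), (182, false, 7, 16), (183, false, 6, 19), (184, false, 7, 17), (185, false, 7, 18), (186, false, 7, 19), (187, false, 6, 28), (188, false, 13, 15), (189, false, 7, 25), (190, false, 2, 71), (191, false, 2, 72)],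
   [(192, false, 2, 68), (193, false, 12, 15), (194, false, 7, 24), (195, false, 6, 26), (196, false, 10, 17), (197, false, 10, 18), (198, false, 6, 27), (199, false, 7, 22), (200, false, 11, 17), (201, false, 11, 18), (202, false, 3, 39), (203, false, 2, 70), (204, false, 7, 23), (205, false, 5, 34), (206, false, 3, 40), (207, false, 5, 29), (208, false, 2, 69), (209, false, 7, 21), (210, false, 9, 19), (211, false, 7, 20), (212, false, 8, 19), (213, false, 5, 33), (214, false, 12, 16), (215, false, 4, 35), (216, false, 5, 32), (217, false, 5, 31), (218, false, 4, 37), (219, false, 14, 15), (220, false, 4, 36), (221, false, 14, 16), (222, false, 2, 66), (223, false, 5, 30)],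
   [(224, false, 13, 16), (225, false, 5, 36), (226, false, 15, 16), (227, false, 16, 16), (228, false, 5, 35), (229, false, 5, 37), (230, false, 10, 19), (231, false, 15, 15), (232, false, 7, 26), (233, false, 2, 76), (234, false, 7, 28), (235, false, 11, 19), (236, false, 7, 27), (237, false, 12, 19), (238, false, 7, 29), (239, false, 5, 40), (240, false, 7, 32), (241, false, 15, 17), (242, false, 7, 34), (243, false, 6, 36), (244, false, 16, 17), (245, false, 16, 18), (246, false, 5, 38), (247, false, 7, 33), (248, false, 6, 37), (249, false, 2, 79), (250, false, 1, 76), (251, false, 6, 35), (252, false, 14, 19), (253, false, 2, 80), (254, false, 13, 19), (255, false, 5, 39)],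
   [(256, false, 7, 30), (257, false, 15, 18), (258, false, 7, 31), (259, false, 2, 78), (260, false, 7, 35), (261, false, 0, 76), (262, false, 15, 19), (263, false, 16, 19), (264, false, 7, 37), (265, false, 7, 36), (266, false, 7, 38), (267, false, 0, 80), (268, false, 17, 19), (269, false, 18, 19), (270, false, 7, 40), (271, false, 7, 39), (272, true, 3, 140), (273, true, 3, 141), (274, true, 3, 142), (275, true, 3, 143), (276, true, 4, 135), (277, true, 4, 136), (278, true, 4, 137), (279, true, 4, 138), (280, true, 5, 118), (281, true, 5, 119), (282, true, 5, 120), (283, true, 5, 121), (284, true, 5, 122), (285, true, 5, 123), (286, true, 5, 124), (287, true, 5, 125)],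
   [(288, true, 5, 126), (289, true, 5, 127), (290, true, 5, 128), (291, true, 5, 129), (292, true, 5, 130), (293, true, 5, 131), (294, true, 5, 132), (295, true, 5, 133), (296, true, 6, 108), (297, true, 6, 109), (298, true, 6, 110), (299, true, 6, 111), (300, true, 6, 112), (301, true, 6, 113), (302, true, 6, 114), (303, true, 6, 115), (304, true, 6, 116), (305, true, 6, 117), (306, true, 7, 82), (307, true, 7, 83), (308, true, 7, 84), (309, true, 7, 85), (310, true, 7, 86), (311, true, 7, 87), (312, true, 7, 88), (313, true, 7, 89), (314, true, 7, 90), (315, true, 7, 91), (316, true, 7, 92), (317, true, 7, 93), (318, true, 7, 94), (319, true, 7, 95)],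
   [(320, true, 7, 96), (321, true, 7, 97), (322, true, 7, 98), (323, true, 7, 99), (324, true, 7, 100), (325, true, 7, 101), (326, true, 7, 102), (327, true, 7, 103), (328, true, 7, 104), (329, true, 7, 105), (330, true, 7, 106), (331, true, 7, 107), (332, true, 8, 81), (333, true, 9, 81), (334, true, 10, 77), (335, true, 10, 78), (336, true, 10, 79), (337, true, 10, 80), (338, true, 11, 77), (339, true, 11, 78), (340, true, 11, 79), (341, true, 11, 80), (342, true, 12, 74), (343, true, 12, 75), (344, true, 12, 76), (345, true, 13, 73), (346, true, 13, 74), (347, true, 13, 75), (348, true, 13, 76), (349, true, 14, 73), (350, true, 14, 74), (351, true, 14, 75)],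
   [(352, true, 14, 76), (353, true, 15, 62), (354, true, 15, 63), (355, true, 15, 64), (356, true, 15, 65), (357, true, 15, 66), (358, true, 15, 67), (359, true, 15, 68), (360, true, 15, 69), (361, true, 15, 70), (362, true, 15, 71), (363, true, 15, 72), (364, true, 16, 62), (365, true, 16, 63), (366, true, 16, 64), (367, true, 16, 65), (368, true, 16, 66), (369, true, 16, 67), (370, true, 16, 68), (371, true, 16, 69), (372, true, 16, 70), (373, true, 16, 71), (374, true, 16, 72), (375, true, 17, 56), (376, true, 17, 57), (377, true, 17, 58), (378, true, 17, 59), (379, true, 17, 60), (380, true, 17, 61), (381, true, 18, 56), (382, true, 18, 57), (383, true, 18, 58)],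
   [(384, true, 18, 59), (385, true, 18, 60), (386, true, 18, 61), (387, true, 19, 42), (388, true, 19, 43), (389, true, 19, 44), (390, true, 19, 45), (391, true, 19, 46), (392, true, 19, 47), (393, true, 19, 48), (394, true, 19, 49), (395, true, 19, 50), (396, true, 19, 51), (397, true, 19, 52), (398, true, 19, 53), (399, true, 19, 54), (400, true, 19, 55), (401, true, 20, 41), (402, true, 21, 41), (403, true, 22, 41), (404, true, 23, 41), (405, true, 24, 41), (406, true, 25, 41), (407, true, 26, 38), (408, true, 26, 39), (409, true, 26, 40), (410, true, 27, 38), (411, true, 27, 39), (412, true, 27, 40), (413, true, 28, 38), (414, true, 28, 39), (415, true, 28, 40)],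
   [(416, true, 29, 35), (417, true, 29, 36), (418, true, 29, 37), (419, true, 30, 35), (420, true, 30, 36), (421, true, 30, 37), (422, true, 31, 35), (423, true, 31, 36), (424, true, 31, 37), (425, true, 32, 35), (426, true, 32, 36), (427, true, 32, 37), (428, true, 33, 35), (429, true, 33, 36), (430, true, 33, 37), (431, true, 34, 35), (432, true, 34, 36), (433, true, 34, 37)]]

/-- the definitions of the names -/
def defs : List (ℕ × Bool × ℕ × ℕ) := defsB.flatten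

/-- the multiplication table -/
def tab : Tab :=
 (.node ⟨true, 5, 130, 10501, 292, 0, [(292, p 2)], []⟩ (.node ⟨false, 1, 81, 2210, 142, 0, [(142, p 2)], []⟩ (.node ⟨false, 0, 53, 106, 93, 0, [(93, p 2)], []⟩ (.node ⟨false, 0, 26, 52, 56, 0, [(56, p 2)], []⟩ (.node ⟨false, 0, 13, 26, 30, 0, [(30, p 2)], []⟩ (.node ⟨false, 0, 6, 12, 17, 0, [(17, p 2)], []⟩ (.node ⟨false, 0, 3, 6, 10, 0, [(10, p 2)], []⟩ (.node ⟨false, 0, 1, 2, 6, 0, [(6, p 2)], []⟩ (.node ⟨false, 0, 0, 0, 7, 0, [(7, p 2)], []⟩ .nil .nil) (.node ⟨false, 0, 2, 4, 5, 0, [(5, p 2)], []⟩ .nil .nil)) (.node ⟨false, 0, 5, 10, 15, 0, [(15, p 2)], []⟩ (.node ⟨false, 0, 4, 8, 12, 0, [(12, p 2)], []⟩ .nil .nil) .nil)) (.node ⟨false, 0, 10, 20, 26, 0, [(26, p 2)], []⟩ (.node ⟨false, 0, 8, 16, 20, 0, [(20, p 2)], []⟩ (.node ⟨false, 0, 7, 14, 19, 0, [(19, p 2)], []⟩ .nil .nil) (.node ⟨false, 0, 9, 18, 21, 0, [(21, p 2)],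 []⟩ .nil .nil)) (.node ⟨false, 0, 12, 24, 29, 0, [(29, p 2)], []⟩ (.node ⟨false, 0, 11, 22, 27, 0, [(27, p 2)], []⟩ .nil .nil) .nil))) (.node ⟨false, 0, 20, 40, 42, 0, [(42, p 2)], []⟩ (.node ⟨false, 0, 17, 34, 38, 0, [(38, p 2)], []⟩ (.node ⟨false, 0, 15, 30, 35, 0, [(35, p 2)], []⟩ (.node ⟨false, 0, 14, 28, 31, 0, [(31, p 2)], []⟩ .nil .nil) (.node ⟨false, 0, 16, 32, 36, 0, [(36, p 2)], []⟩ .nil .nil)) (.node ⟨false, 0, 19, 38, 41, 0, [(41, p 2)], []⟩ (.node ⟨false, 0, 18, 36, 39, 0, [(39, p 2)], []⟩ .nil .nil) .nil)) (.node ⟨false, 0, 23, 46, 45, 0, [(45, p 2)], []⟩ (.node ⟨false, 0, 22, 44, 44, 0, [(44, p 2)], []⟩ (.node ⟨false, 0, 21, 42, 43, 0, [(43, p 2)], []⟩ .nil .nil) .nil) (.node ⟨false, 0, 25, 50, 47, 0, [(47, p 2)], []⟩ (.node ⟨false, 0, 24, 48, 46, 0, [(46, p 2)], []⟩ .nil .nil) .nil)))) (.node ⟨false, 0, 40, 80, 79, 0, [(79, p 2)], []⟩ (.node ⟨false, 0, 33, 66,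 66, 0, [(66, p 2)], []⟩ (.node ⟨false, 0, 30, 60, 63, 0, [(63, p 2)], []⟩ (.node ⟨false, 0, 28, 56, 58, 0, [(58, p 2)], []⟩ (.node ⟨false, 0, 27, 54, 57, 0, [(57, p 2)], []⟩ .nil .nil) (.node ⟨false, 0, 29, 58, 62, 0, [(62, p 2)], []⟩ .nil .nil)) (.node ⟨false, 0, 32, 64, 65, 0, [(65, p 2)], []⟩ (.node ⟨false, 0, 31, 62, 64, 0, [(64, p 2)], []⟩ .nil .nil) .nil)) (.node ⟨false, 0, 37, 74, 75, 0, [(75, p 2)], []⟩ (.node ⟨false, 0, 35, 70, 73, 0, [(73, p 2)], []⟩ (.node ⟨false, 0, 34, 68, 67, 0, [(67, p 2)], []⟩ .nil .nil) (.node ⟨false, 0, 36, 72, 74, 0, [(74, p 2)], []⟩ .nil .nil)) (.node ⟨false, 0, 39, 78, 78, 0, [(78, p 2)], []⟩ (.node ⟨false, 0, 38, 76, 77, 0, [(77, p 2)], []⟩ .nil .nil) .nil))) (.node ⟨false, 0, 47, 94, 87, 0, [(87, p 2)], []⟩ (.node ⟨false, 0, 44, 88, 84, 0, [(84, p 2)], []⟩ (.node ⟨false, 0, 42, 84, 82, 0, [(82, p 2)], []⟩ (.node ⟨false, 0, 41, 82, 81,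 0, [(81, p 2)], []⟩ .nil .nil) (.node ⟨false, 0, 43, 86, 83, 0, [(83, p 2)], []⟩ .nil .nil)) (.node ⟨false, 0, 46, 92, 86, 0, [(86, p 2)], []⟩ (.node ⟨false, 0, 45, 90, 85, 0, [(85, p 2)], []⟩ .nil .nil) .nil)) (.node ⟨false, 0, 50, 100, 90, 0, [(90, p 2)], []⟩ (.node ⟨false, 0, 49, 98, 89, 0, [(89, p 2)], []⟩ (.node ⟨false, 0, 48, 96, 88, 0, [(88, p 2)], []⟩ .nil .nil) .nil) (.node ⟨false, 0, 52, 104, 92, 0, [(92, p 2)], []⟩ (.node ⟨false, 0, 51, 102, 91, 0, [(91, p 2)], []⟩ .nil .nil) .nil))))) (.node ⟨false, 0, 80, 160, 267, 124, [(141, n 1)], [(p 1, 0, [0, 0, 1, 19]), (n 0, 0, [0, 7, 7, 1]), (n 0, 0, [0, 1, 0, 19]), (p 1, 0, [0, 0, 0, 17])]⟩ (.node ⟨false, 0, 67, 134, 123, 0, [(123, p 2)], []⟩ (.node ⟨false, 0, 60, 120, 112, 0, [(112, p 2)], []⟩ (.node ⟨false, 0, 57, 114, 109, 0, [(109, p 2)], []⟩ (.node ⟨false, 0, 55, 110, 95, 0, [(95, p 2)], []⟩ (.node ⟨false, 0, 54, 108,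 94, 0, [(94, p 2)], []⟩ .nil .nil) (.node ⟨false, 0, 56, 112, 108, 0, [(108, p 2)], []⟩ .nil .nil)) (.node ⟨false, 0, 59, 118, 111, 0, [(111, p 2)], []⟩ (.node ⟨false, 0, 58, 116, 110, 0, [(110, p 2)], []⟩ .nil .nil) .nil)) (.node ⟨false, 0, 64, 128, 120, 0, [(120, p 2)], []⟩ (.node ⟨false, 0, 62, 124, 118, 0, [(118, p 2)], []⟩ (.node ⟨false, 0, 61, 122, 113, 0, [(113, p 2)], []⟩ .nil .nil) (.node ⟨false, 0, 63, 126, 119, 0, [(119, p 2)], []⟩ .nil .nil)) (.node ⟨false, 0, 66, 132, 122, 0, [(122, p 2)], []⟩ (.node ⟨false, 0, 65, 130, 121, 0, [(121, p 2)], []⟩ .nil .nil) .nil))) (.node ⟨false, 0, 74, 148, 135, 0, [(135, p 2)], []⟩ (.node ⟨false, 0, 71, 142, 127, 0, [(127, p 2)], []⟩ (.node ⟨false, 0, 69, 138, 125, 0, [(125, p 2)], []⟩ (.node ⟨false, 0, 68, 136, 124, 0, [(124, p 2)], []⟩ .nil .nil) (.node ⟨false, 0, 70, 140, 126, 0, [(126, p 2)], []⟩ .nil .nil)) (.node ⟨false,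 0, 73, 146, 134, 0, [(134, p 2)], []⟩ (.node ⟨false, 0, 72, 144, 128, 0, [(128, p 2)], []⟩ .nil .nil) .nil)) (.node ⟨false, 0, 77, 154, 139, 0, [(139, p 2)], []⟩ (.node ⟨false, 0, 76, 152, 261, 118, [(136, p 2)], [(n 0, 0, [0, 0, 2, 19]), (n 0, 0, [0, 7, 7, 2]), (n 0, 0, [0, 2, 0, 19]), (p 1, 0, [0, 0, 0, 15])]⟩ (.node ⟨false, 0, 75, 150, 136, 0, [(136, p 2)], []⟩ .nil .nil) .nil) (.node ⟨false, 0, 79, 158, 141, 0, [(141, p 2)], []⟩ (.node ⟨false, 0, 78, 156, 140, 0, [(140, p 2)], []⟩ .nil .nil) .nil)))) (.node ⟨false, 1, 36, 2120, 69, 0, [(69, p 2)], []⟩ (.node ⟨false, 1, 15, 2078, 32, 0, [(32, p 2)], []⟩ (.node ⟨false, 1, 7, 2062, 18, 0, [(18, p 2)], []⟩ (.node ⟨false, 1, 3, 2054, 8, 0, [(8, p 2)], []⟩ (.node ⟨false, 1, 2, 2052, 4, 0, [(4, p 2)], []⟩ .nil .nil) (.node ⟨false, 1, 5, 2058, 13, 0, [(13, p 2)], []⟩ .nil .nil)) (.node ⟨false, 1, 11, 2070, 23, 0, [(23, p 2)], []⟩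 (.node ⟨false, 1, 10, 2068, 22, 0, [(22, p 2)], []⟩ .nil .nil) .nil)) (.node ⟨false, 1, 27, 2102, 49, 0, [(49, p 2)], []⟩ (.node ⟨false, 1, 19, 2086, 40, 0, [(40, p 2)], []⟩ (.node ⟨false, 1, 16, 2080, 33, 0, [(33, p 2)], []⟩ .nil .nil) (.node ⟨false, 1, 26, 2100, 48, 0, [(48, p 2)], []⟩ .nil .nil)) (.node ⟨false, 1, 35, 2118, 68, 0, [(68, p 2)], []⟩ (.node ⟨false, 1, 28, 2104, 50, 0, [(50, p 2)], []⟩ .nil .nil) .nil))) (.node ⟨false, 1, 60, 2168, 100, 0, [(100, p 2)], []⟩ (.node ⟨false, 1, 57, 2162, 97, 0, [(97, p 2)], []⟩ (.node ⟨false, 1, 41, 2130, 80, 0, [(80, p 2)], []⟩ (.node ⟨false, 1, 37, 2122, 70, 0, [(70, p 2)], []⟩ .nil .nil) (.node ⟨false, 1, 56, 2160, 96, 0, [(96, p 2)], []⟩ .nil .nil)) (.node ⟨false, 1, 59, 2166, 99, 0, [(99, p 2)], []⟩ (.node ⟨false, 1, 58, 2164, 98, 0, [(98, p 2)], []⟩ .nil .nil) .nil)) (.node ⟨false, 1, 74, 2196, 130, 0, [(130, p 2)], []⟩ (.node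 ⟨false, 1, 73, 2194, 129, 0, [(129, p 2)], []⟩ (.node ⟨false, 1, 61, 2170, 101, 0, [(101, p 2)], []⟩ .nil .nil) .nil) (.node ⟨false, 1, 76, 2200, 250, 107, [(118, n 3), (119, n 3), (122, n 1), (123, n 7), (125, n 1), (127, p 4), (128, p 4), (131, p 2)], [(n 0, 0, [0, 19, 2, 1]), (n 0, 0, [0, 1, 19, 2]), (n 0, 0, [0, 0, 0, 13]), (n 0, 0, [0, 0, 4, 7]), (n 0, 0, [0, 0, 0, 14]), (n 0, 0, [0, 2, 19, 1])]⟩ (.node ⟨false, 1, 75, 2198, 131, 0, [(131, p 2)], []⟩ .nil .nil) .nil)))))) (.node ⟨false, 3, 40, 6224, 206, 63, [(82, n 3), (83, n 3), (84, n 7), (85, n 15), (86, p 4), (87, n 7), (88, p 2), (89, n 17), (90, n 5), (91, p 4), (92, p 6), (93, p 6), (94, n 5), (95, n 1), (96, p 6), (97, p 2), (98, n 17), (99, p 8), (100, p 6), (101, n 1), (103, p 4), (105, p 4), (107, n 1)], [(p 1, 0, [0, 0, 6, 3])]⟩ (.node ⟨false, 2, 62, 4220, 102, 0, [(102, p 2)], []⟩ (.node ⟨false, 2, 29, 4154,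 51, 0, [(51, p 2)], []⟩ (.node ⟨false, 2, 13, 4122, 25, 0, [(25, p 2)], []⟩ (.node ⟨false, 2, 6, 4108, 14, 0, [(14, p 2)], []⟩ (.node ⟨false, 2, 4, 4104, 9, 0, [(9, p 2)], []⟩ (.node ⟨false, 2, 2, 4100, 3, 0, [(3, p 2)], []⟩ .nil .nil) (.node ⟨false, 2, 5, 4106, 11, 0, [(11, p 2)], []⟩ .nil .nil)) (.node ⟨false, 2, 12, 4120, 24, 0, [(24, p 2)], []⟩ (.node ⟨false, 2, 7, 4110, 16, 0, [(16, p 2)], []⟩ .nil .nil) .nil)) (.node ⟨false, 2, 17, 4130, 34, 0, [(34, p 2)], []⟩ (.node ⟨false, 2, 15, 4126, 28, 0, [(28, p 2)], []⟩ (.node ⟨false, 2, 14, 4124, 145, 2, [(20, n 0), (21, n 0), (22, p 1), (23, n 0), (24, n 0), (25, p 1)], [(n 0, 0, [0, 2, 2, 1]), (p 1, 0, [0, 1, 2, 2])]⟩ .nil .nil) (.node ⟨false, 2, 16, 4128, 148, 5, [(26, n 1), (27, p 2), (28, p 2)], [(p 1, 0, [0, 0, 2, 2])]⟩ .nil .nil)) (.node ⟨false, 2, 19, 4134, 37, 0, [(37, p 2)], []⟩ (.node ⟨false, 2, 18, 4132, 151, 8, [(29,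 p 4), (30, p 2), (31, p 2), (32, n 1), (33, p 2), (34, p 2)], [(p 1, 0, [0, 0, 1, 2])]⟩ .nil .nil) .nil))) (.node ⟨false, 2, 36, 4168, 60, 0, [(60, p 2)], []⟩ (.node ⟨false, 2, 33, 4162, 154, 11, [(42, p 1), (43, p 1), (44, p 1), (45, p 1), (46, n 0), (47, p 1), (49, p 2), (50, n 1), (51, n 1), (52, n 1), (53, n 1)], [(n 0, 0, [0, 1, 5, 2]), (n 0, 0, [0, 2, 1, 5]), (n 0, 0, [0, 5, 1, 2]), (n 0, 0, [0, 0, 4, 2])]⟩ (.node ⟨false, 2, 31, 4158, 53, 0, [(53, p 2)], []⟩ (.node ⟨false, 2, 30, 4156, 52, 0, [(52, p 2)], []⟩ .nil .nil) (.node ⟨false, 2, 32, 4160, 54, 0, [(54, p 2)], []⟩ .nil .nil)) (.node ⟨false, 2, 35, 4166, 59, 0, [(59, p 2)], []⟩ (.node ⟨false, 2, 34, 4164, 55, 0, [(55, p 2)], []⟩ .nil .nil) .nil)) (.node ⟨false, 2, 39, 4174, 72, 0, [(72, p 2)], []⟩ (.node ⟨false, 2, 38, 4172, 71, 0, [(71, p 2)], []⟩ (.node ⟨false, 2, 37, 4170, 61, 0, [(61, p 2)], []⟩ .nil .nil) .nil)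 (.node ⟨false, 2, 41, 4178, 76, 0, [(76, p 2)], []⟩ (.node ⟨false, 2, 40, 4176, 171, 28, [(63, p 2), (64, n 1), (65, p 2), (67, p 2), (69, p 2), (70, n 1), (72, n 1)], [(p 1, 0, [0, 0, 6, 2]), (p 1, 0, [0, 0, 5, 1])]⟩ .nil .nil) .nil)))) (.node ⟨false, 2, 76, 4248, 233, 90, [(108, n 1), (109, p 2), (110, p 6), (111, n 3), (112, n 1), (116, p 2)], [(p 1, 0, [0, 0, 15, 2])]⟩ (.node ⟨false, 2, 69, 4234, 208, 65, [(82, p 1), (83, p 1), (84, n 0), (85, p 1), (86, n 0), (87, p 1), (88, n 1), (97, n 1), (98, p 2), (102, p 2), (103, n 1), (104, p 2), (105, n 3)], [(p 1, 0, [0, 2, 18, 2])]⟩ (.node ⟨false, 2, 66, 4228, 222, 79, [(82, n 3), (83, n 3), (84, p 2), (86, n 3), (87, n 7), (88, p 4), (89, p 4), (90, p 4), (91, p 6), (92, p 2), (93, p 2), (94, p 4), (96, n 1), (97, p 8), (99, n 7), (100, p 2), (102, p 2), (103, p 10), (104, n 1), (105, p 8)], [(p 1, 0, [1, 5, 7, 2])]⟩ (.node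 ⟨false, 2, 64, 4224, 104, 0, [(104, p 2)], []⟩ (.node ⟨false, 2, 63, 4222, 103, 0, [(103, p 2)], []⟩ .nil .nil) (.node ⟨false, 2, 65, 4226, 105, 0, [(105, p 2)], []⟩ .nil .nil)) (.node ⟨false, 2, 68, 4232, 192, 49, [(84, n 1), (85, n 3), (86, p 2), (87, p 2), (89, n 5), (90, n 3), (94, n 3), (96, p 2), (97, n 1), (98, n 3), (99, p 4), (102, n 1), (103, n 1), (105, n 1)], [(p 1, 0, [0, 0, 13, 2]), (n 0, 0, [0, 1, 2, 15]), (n 0, 0, [0, 5, 1, 5]), (p 1, 0, [0, 2, 17, 2]), (p 1, 0, [0, 2, 5, 6]), (n 0, 0, [0, 2, 2, 17])]⟩ (.node ⟨false, 2, 67, 4230, 106, 0, [(106, p 2)], []⟩ .nil .nil) .nil)) (.node ⟨false, 2, 73, 4242, 114, 0, [(114, p 2)], []⟩ (.node ⟨false, 2, 71, 4238, 190, 47, [(82, n 0), (83, n 0), (84, p 3), (85, p 1), (86, n 2), (87, p 1), (89, p 4), (90, p 4), (92, n 1), (93, n 1), (94, p 4), (96, n 1), (97, p 2), (98, p 2), (99, n 1), (102, p 2), (103, p 2), (106, p 2)],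 [(p 1, 0, [0, 17, 2, 2]), (n 1, 0, [0, 0, 11, 1]), (n 0, 0, [0, 2, 2, 17]), (n 0, 0, [0, 0, 3, 6]), (n 0, 0, [0, 2, 17, 2])]⟩ (.node ⟨false, 2, 70, 4236, 203, 60, [(82, n 3), (83, n 3), (84, n 3), (85, n 7), (87, n 7), (88, p 2), (89, n 7), (91, p 6), (92, p 4), (93, p 4), (94, n 1), (95, n 1), (96, p 2), (97, p 4), (98, n 7), (100, p 4), (101, n 1), (102, p 2), (103, p 8), (105, p 6), (106, p 2)], [(p 1, 0, [0, 2, 17, 2])]⟩ .nil .nil) (.node ⟨false, 2, 72, 4240, 191, 48, [(82, n 0), (83, n 0), (84, n 0), (85, n 0), (86, n 2), (87, n 0), (91, p 4), (96, p 2), (98, n 3), (100, p 2), (102, p 2), (103, p 4), (105, p 2), (106, p 2)], [(n 0, 0, [0, 0, 11, 1]), (p 1, 0, [0, 2, 5, 6]), (n 0, 0, [0, 2, 17, 2]), (n 0, 0, [0, 15, 1, 2]), (p 1, 0, [0, 2, 0, 12]), (n 0, 0, [0, 0, 10, 1]), (n 0, 0, [0, 1, 15, 2]), (p 1, 0, [0, 2, 15, 1]), (p 1, 0, [1, 2, 2, 19]), (n 0, 0, [0, 2, 16, 1]),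 (n 0, 0, [0, 1, 2, 16]), (n 0, 0, [0, 5, 5, 1]), (n 0, 0, [0, 0, 3, 6]), (n 0, 0, [0, 16, 1, 2]), (p 1, 0, [0, 0, 2, 12]), (n 0, 0, [0, 2, 7, 4])]⟩ .nil .nil)) (.node ⟨false, 2, 75, 4246, 116, 0, [(116, p 2)], []⟩ (.node ⟨false, 2, 74, 4244, 115, 0, [(115, p 2)], []⟩ .nil .nil) .nil))) (.node ⟨false, 3, 7, 6158, 147, 4, [(27, p 4), (28, n 3)], [(p 1, 0, [0, 2, 0, 2])]⟩ (.node ⟨false, 2, 80, 4256, 253, 110, [(118, n 7), (119, n 13), (120, p 6), (121, n 19), (122, n 9), (123, n 23), (124, n 11), (125, n 15), (127, p 8), (128, p 14), (129, p 2), (131, n 1), (132, p 2)], [(p 1, 0, [0, 19, 2, 1])]⟩ (.node ⟨false, 2, 78, 4252, 259, 116, [(118, n 3), (119, n 7), (120, p 4), (121, n 13), (122, n 3), (123, n 17), (124, n 7), (125, n 9), (127, p 8), (128, p 10), (129, p 2), (130, n 1), (132, p 2)], [(p 1, 0, [0, 2, 7, 6])]⟩ (.node ⟨false, 2, 77, 4250, 132, 0, [(132, p 2)], []⟩ .nil .nil)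 (.node ⟨false, 2, 79, 4254, 249, 106, [(118, p 8), (119, p 12), (120, n 3), (121, p 14), (122, p 8), (123, p 22), (124, p 8), (125, p 12), (127, n 7), (128, n 11), (129, n 1), (131, p 2), (132, n 1)], [(n 0, 0, [0, 2, 19, 1]), (n 0, 0, [0, 1, 2, 19]), (p 1, 0, [0, 19, 1, 2])]⟩ .nil .nil)) (.node ⟨false, 3, 6, 6156, 144, 1, [(21, n 1), (23, n 1), (24, p 2), (25, n 1)], [(p 1, 0, [0, 2, 1, 2])]⟩ (.node ⟨false, 2, 81, 4258, 137, 0, [(137, p 2)], []⟩ .nil .nil) .nil)) (.node ⟨false, 3, 19, 6182, 170, 27, [(56, n 1), (57, p 1), (58, p 5), (59, n 1), (60, n 0), (61, n 0)], [(p 1, 0, [0, 2, 7, 2])]⟩ (.node ⟨false, 3, 18, 6180, 163, 20, [(42, p 2), (43, p 1), (44, p 2), (45, p 1), (46, n 2), (47, p 3), (48, n 1), (49, p 3), (50, n 0), (52, n 0), (53, n 0), (54, p 1), (55, n 0)], [(p 1, 0, [1, 2, 7, 2])]⟩ (.node ⟨false, 3, 17, 6178, 164, 21, [(42, n 1), (43, n 0), (45, n 0), (46, n 0),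 (47, p 1), (49, n 0), (50, p 3), (52, n 0), (53, n 0), (54, p 1), (55, n 0)], [(p 1, 0, [0, 2, 6, 2])]⟩ .nil .nil) .nil) (.node ⟨false, 3, 39, 6222, 202, 59, [(82, p 6), (83, p 7), (84, p 6), (85, p 19), (86, n 4), (87, p 9), (88, n 3), (89, p 19), (90, p 3), (91, n 3), (92, n 4), (93, n 4), (94, p 5), (95, p 3), (96, n 3), (97, n 6), (98, p 17), (99, n 5), (100, n 4), (101, p 3), (103, n 3), (105, n 3), (107, p 2)], [(p 1, 0, [0, 3, 1, 7])]⟩ (.node ⟨false, 3, 38, 6220, 107, 0, [(107, p 2)], []⟩ .nil .nil) .nil))))) (.node ⟨false, 5, 18, 10276, 176, 33, [(62, p 2), (63, p 5), (65, p 2), (66, p 2), (67, p 3), (68, n 0), (69, p 2), (70, n 0), (71, n 0), (72, n 0)], [(p 1, 0, [0, 7, 2, 1])]⟩ (.node ⟨false, 4, 41, 8274, 133, 0, [(133, p 2)], []⟩ (.node ⟨false, 4, 7, 8206, 150, 7, [(30, n 1), (31, n 1), (32, n 1), (34, p 2)], [(p 1, 0, [0, 1, 0, 2])]⟩ (.node ⟨true, 3, 142, 6429,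 274, 0, [(274, p 2)], []⟩ (.node ⟨true, 3, 140, 6425, 272, 0, [(272, p 2)], []⟩ (.node ⟨false, 3, 41, 6226, 117, 0, [(117, p 2)], []⟩ .nil .nil) (.node ⟨true, 3, 141, 6427, 273, 0, [(273, p 2)], []⟩ .nil .nil)) (.node ⟨false, 4, 5, 8202, 146, 3, [(20, n 0), (21, p 1), (22, n 0), (23, n 0), (24, n 0), (25, n 0)], [(p 1, 0, [0, 1, 2, 2])]⟩ (.node ⟨true, 3, 143, 6431, 275, 0, [(275, p 2)], []⟩ .nil .nil) .nil)) (.node ⟨false, 4, 35, 8262, 215, 72, [(82, p 4), (83, p 4), (84, n 2), (85, n 2), (86, p 5), (87, p 6), (88, n 2), (89, n 6), (90, n 7), (91, n 4), (92, n 0), (93, n 0), (94, n 4), (95, p 3), (96, p 2), (97, n 6), (98, n 1), (99, p 9), (100, n 1), (102, n 3), (103, n 10), (104, p 2), (105, n 8), (106, n 3), (107, n 1)], [(p 1, 0, [0, 1, 15, 2])]⟩ (.node ⟨false, 4, 16, 8224, 162, 19, [(42, n 0), (43, n 1), (44, n 0), (45, n 1), (49, n 0), (50, n 0), (51, p 2), (52, p 1),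 (53, p 1), (54, p 1), (55, n 0)], [(p 1, 0, [0, 0, 2, 4])]⟩ (.node ⟨false, 4, 15, 8222, 155, 12, [(43, p 1), (45, n 0), (46, n 0), (47, p 1), (49, n 0), (50, n 0), (52, n 0), (53, n 0), (54, n 0), (55, p 1)], [(p 1, 0, [0, 5, 2, 1]), (p 1, 0, [0, 1, 5, 2]), (n 0, 0, [0, 0, 4, 2])]⟩ .nil .nil) (.node ⟨false, 4, 19, 8230, 172, 29, [(62, p 2), (63, p 1), (65, n 1), (67, p 3), (68, n 0), (70, n 0), (71, n 0), (72, n 0)], [(n 0, 0, [0, 0, 1, 5]), (p 1, 0, [0, 7, 2, 1]), (p 1, 0, [0, 0, 0, 4]), (p 1, 0, [0, 2, 0, 6]), (n 0, 0, [0, 2, 7, 1])]⟩ .nil .nil)) (.node ⟨false, 4, 37, 8266, 218, 75, [(82, p 1), (83, p 1), (84, n 1), (85, n 3), (86, p 4), (87, p 1), (88, p 1), (89, n 4), (90, n 5), (91, n 2), (92, p 1), (93, p 1), (94, n 2), (95, p 1), (96, p 2), (97, n 0), (98, n 3), (99, p 5), (101, n 1), (102, n 1), (103, n 4), (105, n 2), (106, n 1), (107, n 1)], [(p 1, 0, [1, 2, 2, 19])]⟩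 (.node ⟨false, 4, 36, 8264, 220, 77, [(82, n 0), (83, n 1), (84, n 2), (85, n 9), (86, p 4), (88, p 2), (89, n 10), (90, n 6), (92, p 1), (93, p 1), (94, n 4), (95, p 1), (96, p 4), (97, p 1), (98, n 10), (99, p 6), (100, p 3), (101, n 2), (102, n 1), (103, n 1), (104, n 1), (107, n 1)], [(p 1, 0, [0, 4, 7, 2])]⟩ .nil .nil) .nil))) (.node ⟨false, 5, 12, 10264, 157, 14, [(43, n 0), (45, n 0), (46, p 1), (47, p 1), (49, n 0), (50, n 0), (52, p 1), (53, p 1), (54, p 1), (55, n 0)], [(p 1, 0, [0, 0, 4, 2])]⟩ (.node ⟨true, 4, 138, 8469, 279, 0, [(279, p 2)], []⟩ (.node ⟨true, 4, 136, 8465, 277, 0, [(277, p 2)], []⟩ (.node ⟨true, 4, 135, 8463, 276, 0, [(276, p 2)], []⟩ .nil .nil) (.node ⟨true, 4, 137, 8467, 278, 0, [(278, p 2)], []⟩ .nil .nil)) (.node ⟨false, 5, 7, 10254, 152, 9, [(36, p 2), (37, n 1)], [(p 1, 0, [0, 0, 0, 2])]⟩ (.node ⟨false, 5, 6, 10252, 149, 6, [(29, n 1), (30,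 n 1), (33, n 1), (34, n 1)], [(p 1, 0, [0, 0, 2, 1])]⟩ .nil .nil) .nil)) (.node ⟨false, 5, 15, 10270, 166, 23, [(57, n 0), (58, p 1), (60, n 0), (61, p 1)], [(p 1, 0, [0, 0, 5, 2])]⟩ (.node ⟨false, 5, 14, 10268, 156, 13, [(43, n 0), (45, n 0), (46, p 1), (47, n 0), (49, p 1), (50, p 1), (52, n 0), (53, p 1), (54, p 1), (55, n 0)], [(p 1, 0, [0, 2, 5, 1])]⟩ (.node ⟨false, 5, 13, 10266, 158, 15, [(42, p 1), (44, p 1), (45, p 2), (47, p 2), (49, p 1), (50, n 0), (52, p 1), (53, n 0), (54, p 1), (55, p 1)], [(p 1, 0, [0, 1, 5, 2])]⟩ .nil .nil) .nil) (.node ⟨false, 5, 17, 10274, 179, 36, [(63, n 0), (67, p 1), (68, p 1), (70, p 1), (71, n 0), (72, n 0)], [(p 1, 0, [0, 1, 0, 5])]⟩ (.node ⟨false, 5, 16, 10272, 167, 24, [(57, p 3), (58, n 0), (59, n 1), (60, p 1), (61, n 0)], [(p 1, 0, [0, 0, 2, 5])]⟩ .nil .nil) .nil)))) (.node ⟨false, 5, 41, 10322, 138, 0, [(138, p 2)], []⟩ (.node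 ⟨false, 5, 34, 10308, 205, 62, [(83, p 1), (84, p 1), (85, p 4), (86, n 1), (87, p 3), (88, n 0), (89, p 4), (90, p 3), (91, n 0), (92, n 1), (93, n 1), (94, p 2), (95, n 1), (97, n 1), (98, p 3), (99, n 0), (100, n 0), (101, p 1), (103, n 0), (105, n 0), (106, p 2), (107, p 2)], [(p 1, 0, [0, 2, 2, 17])]⟩ (.node ⟨false, 5, 31, 10302, 217, 74, [(82, p 4), (83, p 4), (84, p 2), (85, p 8), (87, p 8), (88, n 3), (89, p 6), (90, p 2), (91, n 5), (92, n 3), (93, n 1), (94, p 2), (95, n 1), (96, n 1), (97, n 5), (98, p 10), (100, n 3), (101, p 2), (103, n 7), (104, p 2), (105, n 7), (107, p 2)], [(p 1, 0, [0, 5, 6, 2])]⟩ (.node ⟨false, 5, 29, 10298, 207, 64, [(82, p 3), (83, p 2), (84, n 1), (85, n 2), (86, p 5), (87, p 4), (88, n 0), (89, n 5), (90, n 6), (91, n 2), (94, n 3), (95, p 2), (96, p 2), (97, n 3), (98, n 2), (99, p 7), (100, n 0), (101, n 0), (102, n 3), (103, n 6), (104,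 p 2), (105, n 4), (106, n 3), (107, n 1)], [(p 1, 0, [0, 0, 12, 2])]⟩ (.node ⟨false, 5, 19, 10278, 180, 37, [(75, p 2), (76, n 1)], [(n 0, 0, [0, 0, 2, 7]), (p 1, 0, [0, 2, 0, 7]), (n 0, 0, [0, 0, 0, 5])]⟩ .nil .nil) (.node ⟨false, 5, 30, 10300, 223, 80, [(82, n 2), (83, n 2), (84, p 6), (85, p 8), (86, n 7), (87, n 4), (88, p 3), (89, p 13), (90, p 8), (91, p 5), (92, p 1), (93, n 0), (94, p 9), (95, n 0), (96, n 3), (97, p 7), (98, p 6), (99, n 12), (101, p 2), (102, p 6), (103, p 13), (104, n 1), (105, p 9), (106, p 4), (107, p 2)], [(p 1, 0, [0, 6, 2, 5])]⟩ .nil .nil)) (.node ⟨false, 5, 33, 10306, 213, 70, [(82, n 2), (83, n 2), (84, n 0), (85, n 6), (86, n 0), (87, n 6), (88, p 2), (89, n 3), (91, p 4), (92, p 2), (93, p 2), (94, n 1), (95, p 2), (97, p 6), (98, n 5), (100, p 4), (101, n 1), (102, p 2), (103, p 6), (104, n 1), (105, p 4), (107, n 1)], [(p 1, 0, [0, 5, 5,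 1])]⟩ (.node ⟨false, 5, 32, 10304, 216, 73, [(82, p 4), (83, p 3), (84, n 4), (85, n 5), (86, p 8), (87, p 7), (88, n 2), (89, n 11), (90, n 8), (91, n 4), (94, n 7), (95, p 2), (96, p 4), (97, n 7), (98, n 4), (99, p 13), (100, n 0), (101, n 0), (102, n 5), (103, n 12), (104, p 2), (105, n 8), (106, n 3), (107, n 1)], [(p 1, 0, [0, 15, 2, 1])]⟩ .nil .nil) .nil)) (.node ⟨false, 5, 38, 10316, 246, 103, [(118, n 7), (119, n 10), (120, p 2), (121, n 11), (122, n 9), (123, n 16), (124, n 6), (125, n 9), (126, n 2), (127, p 7), (128, p 9), (129, p 2), (130, p 2), (131, n 3), (133, n 1)], [(p 1, 0, [0, 0, 2, 17])]⟩ (.node ⟨false, 5, 36, 10312, 225, 82, [(112, p 2), (113, n 3), (115, p 2), (117, p 2)], [(p 1, 0, [0, 5, 7, 2]), (n 0, 0, [0, 2, 19, 2])]⟩ (.node ⟨false, 5, 35, 10310, 228, 85, [(108, n 1), (109, p 1), (110, p 5), (112, n 0), (113, n 2), (114, n 1), (115, n 1), (116, p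 4), (117, p 2)], [(p 1, 0, [0, 0, 2, 15])]⟩ .nil .nil) (.node ⟨false, 5, 37, 10314, 229, 86, [(108, n 1), (109, p 1), (110, p 5), (111, n 1), (112, n 0), (113, n 2), (116, p 2), (117, p 2)], [(p 1, 0, [0, 2, 5, 7])]⟩ .nil .nil)) (.node ⟨false, 5, 40, 10320, 239, 96, [(118, n 5), (119, n 6), (120, p 2), (121, n 3), (122, n 3), (123, n 12), (124, n 2), (125, n 5), (126, p 3), (127, p 5), (128, p 7), (131, p 2), (133, p 2)], [(n 0, 0, [0, 0, 17, 2]), (p 1, 0, [0, 0, 1, 16]), (n 0, 0, [0, 0, 15, 1]), (n 0, 0, [0, 0, 6, 5]), (p 1, 0, [0, 0, 5, 6]), (n 0, 0, [0, 19, 1, 2]), (p 1, 0, [0, 0, 2, 18])]⟩ (.node ⟨false, 5, 39, 10318, 255, 112, [(118, p 4), (119, p 6), (120, n 1), (121, p 2), (122, p 4), (123, p 6), (125, p 4), (126, n 3), (128, n 1), (130, n 1), (133, n 1)], [(p 1, 0, [0, 5, 1, 7])]⟩ .nil .nil) .nil))) (.node ⟨true, 5, 124, 10489, 286, 0, [(286, p 2)], []⟩ (.node ⟨true,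 5, 121, 10483, 283, 0, [(283, p 2)], []⟩ (.node ⟨true, 5, 119, 10479, 281, 0, [(281, p 2)], []⟩ (.node ⟨true, 5, 118, 10477, 280, 0, [(280, p 2)], []⟩ .nil .nil) (.node ⟨true, 5, 120, 10481, 282, 0, [(282, p 2)], []⟩ .nil .nil)) (.node ⟨true, 5, 123, 10487, 285, 0, [(285, p 2)], []⟩ (.node ⟨true, 5, 122, 10485, 284, 0, [(284, p 2)], []⟩ .nil .nil) .nil)) (.node ⟨true, 5, 127, 10495, 289, 0, [(289, p 2)], []⟩ (.node ⟨true, 5, 126, 10493, 288, 0, [(288, p 2)], []⟩ (.node ⟨true, 5, 125, 10491, 287, 0, [(287, p 2)], []⟩ .nil .nil) .nil) (.node ⟨true, 5, 129, 10499, 291, 0, [(291, p 2)], []⟩ (.node ⟨true, 5, 128, 10497, 290, 0, [(290, p 2)], []⟩ .nil .nil) .nil))))))) (.node ⟨true, 12, 75, 24727, 343, 0, [(343, p 2)], []⟩ (.node ⟨false, 7, 35, 14406, 260, 117, [(135, n 1), (136, p 2), (138, p 2)], [(n 0, 0, [0, 0, 0, 15]), (n 0, 0, [0, 0, 19, 2])]⟩ (.node ⟨false, 7, 8, 14352, 165,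 22, [(42, p 2), (43, p 3), (44, p 2), (45, p 3), (46, n 0), (47, p 1), (48, p 2), (49, p 1), (50, n 2), (52, p 1), (53, p 1), (54, n 0), (55, p 1)], [(p 1, 0, [1, 7, 2, 2])]⟩ (.node ⟨false, 6, 36, 12360, 243, 100, [(118, n 7), (119, n 9), (120, p 2), (121, n 11), (122, n 7), (123, n 19), (124, n 7), (125, n 7), (126, n 3), (127, p 8), (128, p 10), (129, p 2), (130, n 1), (132, p 2), (133, n 1)], [(p 1, 0, [0, 0, 1, 16]), (n 0, 0, [1, 2, 7, 7]), (p 1, 0, [0, 1, 0, 16]), (p 1, 0, [0, 0, 16, 1])]⟩ (.node ⟨false, 6, 15, 12318, 178, 35, [(63, p 1), (65, p 2), (67, p 1), (68, p 1), (69, p 2), (70, n 0), (71, n 0), (72, n 0)], [(p 1, 0, [0, 2, 0, 6])]⟩ (.node ⟨false, 6, 7, 12302, 153, 10, [(39, p 2), (40, p 2)], [(p 1, 0, [0, 0, 0, 1])]⟩ (.node ⟨true, 5, 132, 10505, 294, 0, [(294, p 2)], []⟩ (.node ⟨true, 5, 131, 10503, 293, 0, [(293, p 2)], []⟩ .nil .nil) (.node ⟨true, 5, 133, 10507,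 295, 0, [(295, p 2)], []⟩ .nil .nil)) (.node ⟨false, 6, 11, 12310, 160, 17, [(43, p 1), (45, p 1), (46, n 0), (47, p 1), (49, p 1), (50, p 1), (52, n 0), (53, n 0), (54, p 1), (55, p 1)], [(p 1, 0, [0, 2, 2, 6])]⟩ (.node ⟨false, 6, 10, 12308, 161, 18, [(43, n 0), (44, p 2), (45, n 0), (46, n 0), (47, p 1), (49, p 3), (50, n 0), (52, n 0), (53, n 0), (54, p 1), (55, n 0)], [(p 1, 0, [0, 6, 2, 2])]⟩ .nil .nil) .nil)) (.node ⟨false, 6, 27, 12342, 198, 55, [(82, p 1), (83, p 1), (84, p 4), (85, p 8), (86, n 3), (87, p 3), (88, n 0), (89, p 11), (90, p 4), (91, n 0), (92, n 2), (93, n 2), (94, p 5), (95, n 0), (96, n 1), (97, n 0), (98, p 8), (99, n 4), (100, n 1), (101, p 2), (102, p 2), (103, p 1), (105, n 0), (106, p 2), (107, p 2)], [(p 1, 0, [0, 0, 3, 6])]⟩ (.node ⟨false, 6, 19, 12326, 183, 40, [(79, p 2), (80, p 2)], [(p 1, 0, [0, 0, 1, 7]), (p 1, 0, [0, 1, 0, 7]), (p 1, 0,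 [0, 0, 0, 6])]⟩ (.node ⟨false, 6, 16, 12320, 177, 34, [(62, p 2), (63, p 1), (64, n 1), (66, p 2), (67, p 3), (68, p 1), (70, p 1), (71, p 1), (72, n 0)], [(p 1, 0, [0, 7, 1, 2])]⟩ .nil .nil) (.node ⟨false, 6, 26, 12340, 195, 52, [(82, p 2), (83, p 3), (84, p 4), (85, p 9), (86, n 2), (87, p 5), (89, p 9), (90, p 3), (91, n 1), (92, n 2), (93, n 2), (94, p 3), (95, p 1), (96, n 1), (97, p 1), (98, p 7), (99, n 3), (100, n 2), (101, p 1), (103, n 1), (105, n 1), (107, p 2)], [(n 0, 0, [0, 2, 17, 2]), (p 1, 0, [0, 2, 7, 4]), (p 1, 0, [0, 3, 0, 6]), (n 0, 0, [0, 0, 0, 9]), (p 1, 0, [0, 1, 0, 11]), (p 1, 0, [0, 0, 5, 4]), (n 0, 0, [0, 0, 12, 2])]⟩ .nil .nil)) (.node ⟨false, 6, 35, 12358, 251, 108, [(119, n 0), (121, n 3), (122, n 1), (123, n 0), (124, n 0), (125, n 1), (126, n 2), (127, p 1), (128, p 1), (129, p 2), (130, p 2), (131, n 3), (133, n 1)], [(p 1, 0, [0, 0, 15, 1])]⟩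 (.node ⟨false, 6, 28, 12344, 187, 44, [(83, p 1), (84, p 2), (85, p 5), (86, n 2), (87, p 1), (89, p 5), (90, p 3), (92, n 0), (93, n 0), (94, p 3), (95, n 0), (96, n 1), (97, p 1), (98, p 5), (99, n 3), (100, n 0), (101, p 1), (102, p 2), (103, p 2), (106, p 2), (107, p 2)], [(p 1, 0, [0, 2, 17, 2]), (p 1, 0, [1, 2, 19, 2]), (p 1, 0, [0, 0, 6, 3]), (n 0, 0, [0, 3, 1, 7]), (n 0, 0, [0, 1, 0, 10]), (p 1, 0, [0, 15, 1, 2]), (n 0, 0, [0, 2, 1, 15]), (p 1, 0, [0, 3, 0, 6]), (n 0, 0, [0, 2, 0, 13]), (n 0, 0, [0, 0, 0, 9]), (n 0, 0, [0, 2, 0, 12]), (p 1, 0, [0, 1, 0, 11]), (n 1, 0, [0, 0, 12, 2]), (p 2, 0, [0, 2, 7, 4]), (p 2, 0, [0, 0, 11, 1]), (p 2, 0, [0, 0, 5, 4])]⟩ .nil .nil) .nil))) (.node ⟨true, 6, 112, 12513, 300, 0, [(300, p 2)], []⟩ (.node ⟨true, 6, 109, 12507, 297, 0, [(297, p 2)], []⟩ (.node ⟨false, 6, 41, 12370, 143, 0, [(143, p 2)], []⟩ (.node ⟨false, 6, 37, 12362, 248,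 105, [(118, n 9), (119, n 14), (120, p 4), (121, n 19), (122, n 11), (123, n 26), (124, n 12), (125, n 15), (126, n 2), (127, p 11), (128, p 15), (129, p 2), (131, n 1), (132, p 2), (133, n 1)], [(p 1, 0, [0, 0, 5, 6])]⟩ .nil .nil) (.node ⟨true, 6, 108, 12505, 296, 0, [(296, p 2)], []⟩ .nil .nil)) (.node ⟨true, 6, 111, 12511, 299, 0, [(299, p 2)], []⟩ (.node ⟨true, 6, 110, 12509, 298, 0, [(298, p 2)], []⟩ .nil .nil) .nil)) (.node ⟨true, 6, 115, 12519, 303, 0, [(303, p 2)], []⟩ (.node ⟨true, 6, 114, 12517, 302, 0, [(302, p 2)], []⟩ (.node ⟨true, 6, 113, 12515, 301, 0, [(301, p 2)], []⟩ .nil .nil) .nil) (.node ⟨true, 6, 117, 12523, 305, 0, [(305, p 2)], []⟩ (.node ⟨true, 6, 116, 12521, 304, 0, [(304, p 2)], []⟩ .nil .nil) .nil)))) (.node ⟨false, 7, 22, 14380, 199, 56, [(82, n 1), (83, n 3), (85, n 9), (86, p 2), (87, n 3), (88, p 4), (89, n 5), (90, n 3), (91, p 2), (92, p 2),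 (93, p 2), (94, n 1), (95, n 1), (96, p 2), (97, p 4), (98, n 5), (99, p 2), (100, p 2), (101, n 1), (103, p 2), (105, p 2), (107, n 1)], [(p 1, 0, [0, 1, 0, 10])]⟩ (.node ⟨false, 7, 15, 14366, 181, 38, [(74, n 1), (76, p 2)], [(p 1, 0, [0, 0, 0, 5])]⟩ (.node ⟨false, 7, 12, 14360, 173, 30, [(62, p 2), (63, p 3), (64, p 2), (67, p 1), (68, n 0), (70, n 0), (71, n 0), (72, n 0)], [(p 1, 0, [0, 0, 0, 4])]⟩ (.node ⟨false, 7, 10, 14356, 169, 26, [(56, p 2), (57, n 4), (58, n 0), (59, p 2), (60, p 1), (61, p 1)], [(p 1, 0, [0, 7, 2, 2])]⟩ (.node ⟨false, 7, 9, 14354, 159, 16, [(42, p 1), (44, p 1), (46, n 1), (47, p 2), (49, n 0), (50, n 0), (51, p 2), (52, n 0), (53, n 0), (54, n 0), (55, p 1)], [(p 1, 0, [0, 2, 0, 4])]⟩ .nil .nil) (.node ⟨false, 7, 11, 14358, 168, 25, [(57, p 1), (58, n 2), (59, p 2), (60, p 1), (61, n 0)], [(p 1, 0, [0, 2, 0, 5])]⟩ .nil .nil)) (.node ⟨false, 7,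 14, 14364, 174, 31, [(62, n 1), (63, n 0), (65, p 2), (66, n 1), (67, n 2), (68, p 1), (69, p 2), (70, n 0), (71, p 1), (72, n 0)], [(p 1, 0, [0, 2, 7, 1])]⟩ (.node ⟨false, 7, 13, 14362, 175, 32, [(62, p 2), (63, p 3), (65, p 2), (66, p 2), (67, p 1), (68, p 1), (70, n 0), (71, p 1), (72, p 1)], [(p 1, 0, [0, 1, 7, 2])]⟩ .nil .nil) .nil)) (.node ⟨false, 7, 19, 14374, 186, 43, [], [(p 1, 0, [0, 0, 0, 7])]⟩ (.node ⟨false, 7, 17, 14370, 184, 41, [(78, n 1), (80, p 2)], [(p 1, 0, [0, 0, 0, 6])]⟩ (.node ⟨false, 7, 16, 14368, 182, 39, [(74, p 4), (75, n 3)], [(p 1, 0, [0, 0, 2, 7])]⟩ .nil .nil) (.node ⟨false, 7, 18, 14372, 185, 42, [(78, p 4), (79, p 4)], [(p 1, 0, [0, 0, 1, 7])]⟩ .nil .nil)) (.node ⟨false, 7, 21, 14378, 209, 66, [(82, p 4), (83, p 3), (84, n 0), (85, n 1), (86, p 4), (87, p 5), (88, n 0), (89, n 5), (90, n 6), (91, n 4), (94, n 3), (95, p 2), (96, p 2), (97, n 3),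 (98, n 2), (99, p 7), (100, n 0), (101, n 0), (102, n 1), (103, n 8), (105, n 6), (106, n 1), (107, n 1)], [(p 1, 0, [0, 3, 0, 6])]⟩ (.node ⟨false, 7, 20, 14376, 211, 68, [(82, p 4), (83, p 5), (84, p 6), (85, p 11), (86, n 4), (87, p 7), (88, n 1), (89, p 9), (90, p 3), (91, n 1), (92, n 2), (93, n 2), (94, p 3), (95, p 1), (96, n 3), (97, n 2), (98, p 11), (99, n 3), (100, n 2), (101, p 1), (103, n 1), (105, n 1), (107, p 2)], [(p 1, 0, [0, 7, 3, 1])]⟩ .nil .nil) .nil))) (.node ⟨false, 7, 29, 14394, 238, 95, [(119, p 2), (120, p 2), (121, p 2), (123, n 1), (133, p 2)], [(p 1, 0, [0, 0, 0, 12])]⟩ (.node ⟨false, 7, 26, 14388, 232, 89, [(109, n 3), (110, p 4), (117, p 2)], [(p 1, 0, [0, 0, 0, 10])]⟩ (.node ⟨false, 7, 24, 14384, 194, 51, [(83, n 1), (84, n 3), (85, n 9), (86, p 6), (87, p 2), (89, n 11), (90, n 7), (91, n 1), (92, p 2), (93, p 2), (94, n 3), (96, p 4), (97, n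 1), (98, n 9), (99, p 8), (100, p 2), (101, n 1), (102, n 1), (103, n 3), (105, n 1), (106, n 1), (107, n 1)], [(p 1, 0, [0, 2, 0, 12])]⟩ (.node ⟨false, 7, 23, 14382, 204, 61, [(82, n 0), (84, n 3), (85, n 4), (86, p 3), (87, n 1), (88, p 1), (89, n 5), (90, n 2), (91, p 1), (92, p 2), (93, p 2), (94, n 3), (95, p 2), (96, p 2), (97, p 2), (98, n 4), (99, p 3), (100, p 1), (101, n 0), (102, n 1), (103, n 0), (105, p 1), (106, n 1), (107, n 1)], [(p 1, 0, [0, 1, 0, 11])]⟩ .nil .nil) (.node ⟨false, 7, 25, 14386, 189, 46, [(82, p 1), (84, p 3), (85, p 8), (86, n 1), (87, p 2), (89, p 7), (90, p 3), (92, n 0), (93, n 0), (94, p 5), (95, n 0), (96, n 1), (97, p 1), (98, p 5), (99, n 5), (100, n 0), (101, p 1), (102, p 2), (103, p 4), (105, p 2), (106, p 2), (107, p 2)], [(p 1, 0, [0, 2, 0, 13])]⟩ .nil .nil)) (.node ⟨false, 7, 28, 14392, 234, 91, [(109, n 1), (110, p 2), (113, n 1),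 (116, p 2), (117, p 2)], [(p 1, 0, [0, 2, 0, 15])]⟩ (.node ⟨false, 7, 27, 14390, 236, 93, [(108, n 1), (109, p 3), (110, p 3), (111, n 1), (112, n 0), (113, n 2), (116, p 2), (117, p 2)], [(p 1, 0, [0, 7, 5, 2])]⟩ .nil .nil) .nil)) (.node ⟨false, 7, 32, 14400, 240, 97, [(118, p 4), (119, p 6), (121, p 8), (122, p 4), (123, p 10), (124, p 6), (125, p 6), (126, p 2), (127, n 5), (128, n 5), (131, p 2), (133, p 2)], [(p 1, 0, [0, 1, 7, 5]), (p 1, 0, [0, 0, 6, 5]), (p 1, 0, [0, 0, 15, 1]), (p 1, 0, [0, 2, 19, 1]), (p 1, 0, [0, 1, 2, 19]), (p 1, 0, [0, 1, 19, 2])]⟩ (.node ⟨false, 7, 31, 14398, 258, 115, [(118, n 5), (119, n 8), (120, p 4), (121, n 11), (122, n 7), (123, n 16), (124, n 6), (125, n 7), (126, n 2), (127, p 5), (128, p 7), (129, p 2), (131, n 1), (132, p 2), (133, n 1)], [(p 1, 0, [0, 0, 0, 14])]⟩ (.node ⟨false, 7, 30, 14396, 256, 113, [(118, p 2), (119, p 3), (121,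 n 1), (123, p 1), (124, n 2), (125, n 1), (126, n 2), (127, p 1), (128, p 1), (131, n 1), (133, n 1)], [(p 1, 0, [0, 7, 1, 5])]⟩ .nil .nil) .nil) (.node ⟨false, 7, 34, 14404, 242, 99, [(118, n 3), (119, n 5), (121, n 5), (122, n 3), (123, n 7), (124, n 1), (125, n 3), (126, n 1), (127, p 2), (128, p 4), (129, p 2), (131, n 1), (132, p 2), (133, n 1)], [(p 1, 0, [0, 2, 0, 17])]⟩ (.node ⟨false, 7, 33, 14402, 247, 104, [(118, p 10), (119, p 11), (120, n 3), (121, p 12), (122, p 12), (123, p 23), (124, p 9), (125, p 12), (126, p 5), (127, n 6), (128, n 10), (129, n 1), (131, p 4), (132, n 1), (133, p 2)], [(p 1, 0, [0, 1, 0, 16])]⟩ .nil .nil) .nil))))) (.node ⟨true, 7, 103, 14543, 327, 0, [(327, p 2)], []⟩ (.node ⟨true, 7, 90, 14517, 314, 0, [(314, p 2)], []⟩ (.node ⟨true, 7, 83, 14503, 307, 0, [(307, p 2)], []⟩ (.node ⟨false, 7, 39, 14414, 271, 128, [(140, p 4), (141, p 6), (142,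 n 1), (143, p 2)], [(p 1, 0, [0, 0, 0, 18])]⟩ (.node ⟨false, 7, 37, 14410, 264, 121, [(136, n 1), (137, p 2), (138, p 2)], [(p 1, 0, [0, 2, 0, 19])]⟩ (.node ⟨false, 7, 36, 14408, 265, 122, [(135, p 4), (136, n 5), (137, p 2), (138, p 2)], [(p 1, 0, [0, 0, 0, 16])]⟩ .nil .nil) (.node ⟨false, 7, 38, 14412, 266, 123, [(140, n 1), (141, n 1), (143, p 2)], [(n 0, 0, [0, 0, 0, 17]), (n 0, 0, [0, 0, 19, 1])]⟩ .nil .nil)) (.node ⟨true, 7, 82, 14501, 306, 0, [(306, p 2)], []⟩ (.node ⟨false, 7, 40, 14416, 270, 127, [(141, n 1), (142, p 2), (143, n 1)], [(p 1, 0, [0, 1, 0, 19])]⟩ .nil .nil) .nil)) (.node ⟨true, 7, 87, 14511, 311, 0, [(311, p 2)], []⟩ (.node ⟨true, 7, 85, 14507, 309, 0, [(309, p 2)], []⟩ (.node ⟨true, 7, 84, 14505, 308, 0, [(308, p 2)], []⟩ .nil .nil) (.node ⟨true, 7, 86, 14509, 310, 0, [(310, p 2)], []⟩ .nil .nil)) (.node ⟨true, 7, 89, 14515, 313, 0, [(313, p 2)], []⟩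 (.node ⟨true, 7, 88, 14513, 312, 0, [(312, p 2)], []⟩ .nil .nil) .nil))) (.node ⟨true, 7, 97, 14531, 321, 0, [(321, p 2)], []⟩ (.node ⟨true, 7, 94, 14525, 318, 0, [(318, p 2)], []⟩ (.node ⟨true, 7, 92, 14521, 316, 0, [(316, p 2)], []⟩ (.node ⟨true, 7, 91, 14519, 315, 0, [(315, p 2)], []⟩ .nil .nil) (.node ⟨true, 7, 93, 14523, 317, 0, [(317, p 2)], []⟩ .nil .nil)) (.node ⟨true, 7, 96, 14529, 320, 0, [(320, p 2)], []⟩ (.node ⟨true, 7, 95, 14527, 319, 0, [(319, p 2)], []⟩ .nil .nil) .nil)) (.node ⟨true, 7, 100, 14537, 324, 0, [(324, p 2)], []⟩ (.node ⟨true, 7, 99, 14535, 323, 0, [(323, p 2)], []⟩ (.node ⟨true, 7, 98, 14533, 322, 0, [(322, p 2)], []⟩ .nil .nil) .nil) (.node ⟨true, 7, 102, 14541, 326, 0, [(326, p 2)], []⟩ (.node ⟨true, 7, 101, 14539, 325, 0, [(325, p 2)], []⟩ .nil .nil) .nil)))) (.node ⟨true, 10, 79, 20639, 336, 0, [(336, p 2)], []⟩ (.node ⟨false, 9, 19, 18470, 210,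 67, [(82, n 2), (83, n 2), (84, p 2), (85, p 2), (86, n 5), (87, n 2), (88, p 1), (89, p 5), (90, p 6), (91, p 7), (92, n 0), (93, n 0), (94, p 3), (95, n 0), (96, n 1), (97, p 4), (98, p 3), (99, n 6), (100, p 1), (101, p 1), (102, p 2), (103, p 9), (105, p 7), (106, p 2), (107, p 2)], [(p 1, 0, [1, 2, 19, 2])]⟩ (.node ⟨true, 7, 107, 14551, 331, 0, [(331, p 2)], []⟩ (.node ⟨true, 7, 105, 14547, 329, 0, [(329, p 2)], []⟩ (.node ⟨true, 7, 104, 14545, 328, 0, [(328, p 2)], []⟩ .nil .nil) (.node ⟨true, 7, 106, 14549, 330, 0, [(330, p 2)], []⟩ .nil .nil)) (.node ⟨true, 8, 81, 16547, 332, 0, [(332, p 2)], []⟩ (.node ⟨false, 8, 19, 16422, 212, 69, [(82, n 1), (83, n 1), (84, n 3), (85, n 7), (86, p 4), (87, n 5), (88, p 4), (89, n 7), (90, n 5), (91, p 2), (92, p 4), (93, p 4), (94, n 3), (96, p 4), (97, p 3), (98, n 10), (99, p 4), (100, p 3), (101, n 0), (103, p 2), (105, p 2),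 (107, n 1)], [(p 1, 0, [0, 1, 7, 3])]⟩ .nil .nil) .nil)) (.node ⟨false, 10, 19, 20518, 230, 87, [(108, n 1), (109, p 1), (110, p 5), (111, n 1), (112, n 0), (113, n 0), (117, p 2)], [(p 1, 0, [0, 19, 2, 2])]⟩ (.node ⟨false, 10, 17, 20514, 196, 53, [(82, p 2), (83, p 3), (84, p 2), (85, p 9), (86, n 2), (87, p 5), (88, n 1), (89, p 9), (90, p 3), (91, n 1), (92, n 2), (93, n 2), (94, p 3), (95, p 1), (97, n 3), (98, p 6), (99, n 1), (100, n 1), (101, p 2), (103, n 1), (105, n 1), (107, p 2)], [(p 1, 0, [0, 0, 10, 1])]⟩ (.node ⟨true, 9, 81, 18595, 333, 0, [(333, p 2)], []⟩ .nil .nil) (.node ⟨false, 10, 18, 20516, 197, 54, [(82, p 2), (83, p 2), (84, p 8), (85, p 8), (86, n 3), (87, p 6), (89, p 12), (90, p 2), (91, n 1), (92, n 3), (93, n 3), (94, p 4), (96, n 3), (97, p 1), (98, p 7), (99, n 3), (100, n 2), (101, p 1), (103, n 1), (105, n 1), (107, p 2)], [(p 1, 0, [0, 0, 1,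 10])]⟩ .nil .nil)) (.node ⟨true, 10, 78, 20637, 335, 0, [(335, p 2)], []⟩ (.node ⟨true, 10, 77, 20635, 334, 0, [(334, p 2)], []⟩ .nil .nil) .nil))) (.node ⟨true, 11, 79, 22687, 340, 0, [(340, p 2)], []⟩ (.node ⟨false, 11, 19, 22566, 235, 92, [(108, n 1), (109, p 2), (110, p 6), (111, n 3), (112, n 1), (113, n 1), (116, p 2), (117, p 2)], [(p 1, 0, [0, 2, 19, 2])]⟩ (.node ⟨false, 11, 17, 22562, 200, 57, [(82, p 1), (83, p 1), (84, p 4), (85, p 6), (86, n 3), (87, p 3), (88, n 0), (89, p 9), (90, p 4), (91, n 0), (92, n 2), (93, n 2), (94, p 5), (95, n 0), (96, n 1), (98, p 5), (99, n 2), (100, n 0), (101, p 1), (102, p 2), (103, p 1), (105, n 0), (106, p 2), (107, p 2)], [(p 1, 0, [0, 0, 11, 1])]⟩ (.node ⟨true, 10, 80, 20641, 337, 0, [(337, p 2)], []⟩ .nil .nil) (.node ⟨false, 11, 18, 22564, 201, 58, [(82, p 1), (83, p 2), (84, p 4), (85, p 11), (86, n 4), (87, p 4), (88, n 0),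 (89, p 12), (90, p 5), (91, n 0), (92, n 3), (93, n 3), (94, p 6), (96, n 1), (97, n 2), (98, p 8), (99, n 4), (100, n 1), (101, p 2), (102, p 2), (103, p 1), (105, n 0), (106, p 2), (107, p 2)], [(p 1, 0, [0, 0, 1, 11])]⟩ .nil .nil)) (.node ⟨true, 11, 78, 22685, 339, 0, [(339, p 2)], []⟩ (.node ⟨true, 11, 77, 22683, 338, 0, [(338, p 2)], []⟩ .nil .nil) .nil)) (.node ⟨false, 12, 16, 24608, 214, 71, [(82, n 2), (83, n 2), (84, p 2), (85, p 2), (86, n 1), (87, n 2), (88, p 1), (89, p 5), (90, p 6), (91, p 3), (92, p 1), (93, p 1), (94, p 5), (95, n 2), (96, n 1), (97, p 4), (98, p 3), (99, n 6), (100, p 1), (101, p 1), (102, p 2), (103, p 7), (104, n 1), (105, p 5), (106, p 4), (107, p 2)], [(p 1, 0, [0, 0, 2, 12])]⟩ (.node ⟨false, 12, 15, 24606, 193, 50, [(83, p 1), (84, p 4), (85, p 9), (86, n 4), (87, n 0), (89, p 11), (90, p 7), (92, n 0), (93, n 0), (94, p 5), (95, n 0),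 (96, n 3), (97, p 2), (98, p 10), (99, n 7), (100, n 1), (101, p 2), (102, p 4), (103, p 4), (105, p 2), (106, p 2), (107, p 2)], [(p 1, 0, [0, 15, 1, 2])]⟩ (.node ⟨true, 11, 80, 22689, 341, 0, [(341, p 2)], []⟩ .nil .nil) .nil) (.node ⟨true, 12, 74, 24725, 342, 0, [(342, p 2)], []⟩ (.node ⟨false, 12, 19, 24614, 237, 94, [(118, p 2), (119, p 1), (121, n 1), (123, p 3), (124, n 0), (126, n 0), (127, n 0), (128, n 0), (133, n 1)], [(n 0, 0, [0, 19, 1, 2]), (p 1, 0, [0, 2, 1, 19]), (n 0, 0, [0, 1, 19, 2])]⟩ .nil .nil) .nil)))))) (.node ⟨false, 18, 19, 36902, 269, 126, [(141, n 1), (142, p 2), (143, n 1)], [(p 1, 0, [0, 0, 1, 19])]⟩ (.node ⟨true, 15, 68, 30857, 359, 0, [(359, p 2)], []⟩ (.node ⟨true, 14, 75, 28823, 351, 0, [(351, p 2)], []⟩ (.node ⟨true, 13, 75, 26775, 347, 0, [(347, p 2)], []⟩ (.node ⟨false, 13, 19, 26662, 254, 111, [(121, p 4), (122, p 2), (124, p 4), (125, p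 2), (126, p 2), (131, p 2), (133, p 2)], [(p 1, 0, [0, 2, 1, 19])]⟩ (.node ⟨false, 13, 15, 26654, 188, 45, [(84, n 1), (85, n 5), (86, p 2), (89, n 5), (90, n 3), (94, n 3), (95, p 2), (96, p 2), (97, n 0), (98, n 4), (99, p 6), (100, p 1), (101, n 0), (102, n 1), (103, n 1), (105, n 1), (106, n 1), (107, n 1)], [(p 1, 0, [0, 2, 1, 15])]⟩ (.node ⟨true, 12, 76, 24729, 344, 0, [(344, p 2)], []⟩ .nil .nil) (.node ⟨false, 13, 16, 26656, 224, 81, [(82, p 4), (83, p 3), (84, n 4), (85, n 5), (86, p 8), (87, p 9), (88, n 2), (89, n 11), (90, n 8), (91, n 4), (94, n 7), (95, p 2), (96, p 4), (97, n 6), (98, n 5), (99, p 13), (101, n 1), (102, n 5), (103, n 14), (104, p 2), (105, n 8), (106, n 3), (107, n 1)], [(p 1, 0, [0, 2, 1, 16])]⟩ .nil .nil)) (.node ⟨true, 13, 74, 26773, 346, 0, [(346, p 2)], []⟩ (.node ⟨true, 13, 73, 26771, 345, 0, [(345, p 2)], []⟩ .nil .nil) .nil)) (.node ⟨false,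 14, 19, 28710, 252, 109, [(118, p 4), (119, p 8), (120, n 3), (121, p 14), (122, p 6), (123, p 14), (124, p 8), (125, p 10), (126, p 2), (127, n 3), (128, n 7), (129, n 1), (131, p 2), (132, n 1), (133, p 2)], [(p 1, 0, [0, 2, 19, 1])]⟩ (.node ⟨false, 14, 15, 28702, 219, 76, [(82, p 4), (83, p 4), (84, n 2), (85, n 2), (86, p 5), (87, p 6), (88, n 2), (89, n 6), (90, n 5), (91, n 4), (92, n 0), (93, n 0), (94, n 4), (95, p 3), (96, p 2), (97, n 5), (98, n 2), (99, p 9), (100, n 0), (101, n 0), (102, n 3), (103, n 10), (104, p 2), (105, n 6), (106, n 3), (107, n 1)], [(p 1, 0, [0, 2, 0, 14])]⟩ (.node ⟨true, 13, 76, 26777, 348, 0, [(348, p 2)], []⟩ .nil .nil) (.node ⟨false, 14, 16, 28704, 221, 78, [(82, n 4), (83, n 5), (84, n 0), (85, n 9), (87, n 7), (88, p 4), (89, n 4), (90, n 0), (91, p 6), (92, p 3), (93, p 3), (94, n 0), (95, p 1), (96, p 2), (97, p 6), (98, n 9), (100,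 p 4), (101, n 1), (103, p 8), (104, n 3), (105, p 8), (107, n 1)], [(p 1, 0, [0, 1, 2, 16])]⟩ .nil .nil)) (.node ⟨true, 14, 74, 28821, 350, 0, [(350, p 2)], []⟩ (.node ⟨true, 14, 73, 28819, 349, 0, [(349, p 2)], []⟩ .nil .nil) .nil))) (.node ⟨true, 15, 62, 30845, 353, 0, [(353, p 2)], []⟩ (.node ⟨false, 15, 17, 30754, 241, 98, [(118, n 3), (119, n 4), (121, n 5), (122, n 3), (123, n 8), (124, n 2), (125, n 3), (126, n 2), (127, p 5), (128, p 5), (129, p 2), (131, n 1), (133, n 1)], [(p 1, 0, [0, 1, 0, 15])]⟩ (.node ⟨false, 15, 15, 30750, 231, 88, [(109, n 0), (110, p 1), (111, p 2), (112, p 1), (113, n 2), (114, n 1), (116, p 2), (117, p 2)], [(p 1, 0, [0, 0, 5, 5])]⟩ (.node ⟨true, 14, 76, 28825, 352, 0, [(352, p 2)], []⟩ .nil .nil) (.node ⟨false, 15, 16, 30752, 226, 83, [(108, n 1), (109, p 2), (110, p 2), (113, n 3), (115, n 1), (116, p 4), (117, p 2)], [(p 1, 0, [0, 0, 16,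 2])]⟩ .nil .nil)) (.node ⟨false, 15, 19, 30758, 262, 119, [(138, p 2)], [(p 1, 0, [0, 0, 0, 15])]⟩ (.node ⟨false, 15, 18, 30756, 257, 114, [(122, n 1), (126, n 3), (130, p 2), (131, n 3), (133, n 1)], [(p 1, 0, [0, 0, 1, 15])]⟩ .nil .nil) .nil)) (.node ⟨true, 15, 65, 30851, 356, 0, [(356, p 2)], []⟩ (.node ⟨true, 15, 64, 30849, 355, 0, [(355, p 2)], []⟩ (.node ⟨true, 15, 63, 30847, 354, 0, [(354, p 2)], []⟩ .nil .nil) .nil) (.node ⟨true, 15, 67, 30855, 358, 0, [(358, p 2)], []⟩ (.node ⟨true, 15, 66, 30853, 357, 0, [(357, p 2)], []⟩ .nil .nil) .nil)))) (.node ⟨true, 16, 67, 32903, 369, 0, [(369, p 2)], []⟩ (.node ⟨false, 16, 18, 32804, 245, 102, [(118, n 5), (119, n 8), (121, n 11), (122, n 3), (123, n 16), (124, n 6), (125, n 7), (126, n 2), (127, p 9), (128, p 9), (129, p 2), (130, n 3), (132, p 2), (133, n 1)], [(p 1, 0, [0, 0, 1, 16])]⟩ (.node ⟨true, 15, 72, 30865, 363, 0,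 [(363, p 2)], []⟩ (.node ⟨true, 15, 70, 30861, 361, 0, [(361, p 2)], []⟩ (.node ⟨true, 15, 69, 30859, 360, 0, [(360, p 2)], []⟩ .nil .nil) (.node ⟨true, 15, 71, 30863, 362, 0, [(362, p 2)], []⟩ .nil .nil)) (.node ⟨false, 16, 17, 32802, 244, 101, [(118, n 7), (119, n 9), (120, p 2), (121, n 11), (122, n 9), (123, n 19), (124, n 7), (125, n 9), (126, n 3), (127, p 8), (128, p 10), (129, p 2), (130, p 2), (131, n 3), (132, p 2), (133, n 1)], [(p 1, 0, [0, 0, 16, 1])]⟩ (.node ⟨false, 16, 16, 32800, 227, 84, [(108, p 2), (109, n 4), (110, n 0), (111, p 2), (112, p 1), (113, n 2), (115, p 4), (117, p 2)], [(p 1, 0, [0, 0, 2, 16])]⟩ .nil .nil) .nil)) (.node ⟨true, 16, 64, 32897, 366, 0, [(366, p 2)], []⟩ (.node ⟨true, 16, 62, 32893, 364, 0, [(364, p 2)], []⟩ (.node ⟨false, 16, 19, 32806, 263, 120, [(136, n 1), (137, p 2), (138, p 2)], [(p 1, 0, [0, 0, 2, 19])]⟩ .nil .nil) (.node ⟨true,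 16, 63, 32895, 365, 0, [(365, p 2)], []⟩ .nil .nil)) (.node ⟨true, 16, 66, 32901, 368, 0, [(368, p 2)], []⟩ (.node ⟨true, 16, 65, 32899, 367, 0, [(367, p 2)], []⟩ .nil .nil) .nil))) (.node ⟨true, 17, 56, 34929, 375, 0, [(375, p 2)], []⟩ (.node ⟨true, 16, 71, 32911, 373, 0, [(373, p 2)], []⟩ (.node ⟨true, 16, 69, 32907, 371, 0, [(371, p 2)], []⟩ (.node ⟨true, 16, 68, 32905, 370, 0, [(370, p 2)], []⟩ .nil .nil) (.node ⟨true, 16, 70, 32909, 372, 0, [(372, p 2)], []⟩ .nil .nil)) (.node ⟨false, 17, 19, 34854, 268, 125, [(143, n 1)], [(p 1, 0, [0, 0, 0, 17])]⟩ (.node ⟨true, 16, 72, 32913, 374, 0, [(374, p 2)], []⟩ .nil .nil) .nil)) (.node ⟨true, 17, 59, 34935, 378, 0, [(378, p 2)], []⟩ (.node ⟨true, 17, 58, 34933, 377, 0, [(377, p 2)], []⟩ (.node ⟨true, 17, 57, 34931, 376, 0, [(376, p 2)], []⟩ .nil .nil) .nil) (.node ⟨true, 17, 61, 34939, 380, 0, [(380, p 2)], []⟩ (.node ⟨true, 17,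 60, 34937, 379, 0, [(379, p 2)], []⟩ .nil .nil) .nil))))) (.node ⟨true, 26, 38, 53325, 407, 0, [(407, p 2)], []⟩ (.node ⟨true, 19, 49, 39011, 394, 0, [(394, p 2)], []⟩ (.node ⟨true, 19, 42, 38997, 387, 0, [(387, p 2)], []⟩ (.node ⟨true, 18, 59, 36983, 384, 0, [(384, p 2)], []⟩ (.node ⟨true, 18, 57, 36979, 382, 0, [(382, p 2)], []⟩ (.node ⟨true, 18, 56, 36977, 381, 0, [(381, p 2)], []⟩ .nil .nil) (.node ⟨true, 18, 58, 36981, 383, 0, [(383, p 2)], []⟩ .nil .nil)) (.node ⟨true, 18, 61, 36987, 386, 0, [(386, p 2)], []⟩ (.node ⟨true, 18, 60, 36985, 385, 0, [(385, p 2)], []⟩ .nil .nil) .nil)) (.node ⟨true, 19, 46, 39005, 391, 0, [(391, p 2)], []⟩ (.node ⟨true, 19, 44, 39001, 389, 0, [(389, p 2)], []⟩ (.node ⟨true, 19, 43, 38999, 388, 0, [(388, p 2)], []⟩ .nil .nil) (.node ⟨true, 19, 45, 39003, 390, 0, [(390, p 2)], []⟩ .nil .nil)) (.node ⟨true, 19, 48, 39009, 393, 0, [(393, p 2)],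 []⟩ (.node ⟨true, 19, 47, 39007, 392, 0, [(392, p 2)], []⟩ .nil .nil) .nil))) (.node ⟨true, 20, 41, 41043, 401, 0, [(401, p 2)], []⟩ (.node ⟨true, 19, 53, 39019, 398, 0, [(398, p 2)], []⟩ (.node ⟨true, 19, 51, 39015, 396, 0, [(396, p 2)], []⟩ (.node ⟨true, 19, 50, 39013, 395, 0, [(395, p 2)], []⟩ .nil .nil) (.node ⟨true, 19, 52, 39017, 397, 0, [(397, p 2)], []⟩ .nil .nil)) (.node ⟨true, 19, 55, 39023, 400, 0, [(400, p 2)], []⟩ (.node ⟨true, 19, 54, 39021, 399, 0, [(399, p 2)], []⟩ .nil .nil) .nil)) (.node ⟨true, 23, 41, 47187, 404, 0, [(404, p 2)], []⟩ (.node ⟨true, 22, 41, 45139, 403, 0, [(403, p 2)], []⟩ (.node ⟨true, 21, 41, 43091, 402, 0, [(402, p 2)], []⟩ .nil .nil) .nil) (.node ⟨true, 25, 41, 51283, 406, 0, [(406, p 2)], []⟩ (.node ⟨true, 24, 41, 49235, 405, 0, [(405, p 2)], []⟩ .nil .nil) .nil)))) (.node ⟨true, 30, 37, 61515, 421, 0, [(421, p 2)], []⟩ (.node ⟨true, 28,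 39, 57423, 414, 0, [(414, p 2)], []⟩ (.node ⟨true, 27, 39, 55375, 411, 0, [(411, p 2)], []⟩ (.node ⟨true, 26, 40, 53329, 409, 0, [(409, p 2)], []⟩ (.node ⟨true, 26, 39, 53327, 408, 0, [(408, p 2)], []⟩ .nil .nil) (.node ⟨true, 27, 38, 55373, 410, 0, [(410, p 2)], []⟩ .nil .nil)) (.node ⟨true, 28, 38, 57421, 413, 0, [(413, p 2)], []⟩ (.node ⟨true, 27, 40, 55377, 412, 0, [(412, p 2)], []⟩ .nil .nil) .nil)) (.node ⟨true, 29, 37, 59467, 418, 0, [(418, p 2)], []⟩ (.node ⟨true, 29, 35, 59463, 416, 0, [(416, p 2)], []⟩ (.node ⟨true, 28, 40, 57425, 415, 0, [(415, p 2)], []⟩ .nil .nil) (.node ⟨true, 29, 36, 59465, 417, 0, [(417, p 2)], []⟩ .nil .nil)) (.node ⟨true, 30, 36, 61513, 420, 0, [(420, p 2)], []⟩ (.node ⟨true, 30, 35, 61511, 419, 0, [(419, p 2)], []⟩ .nil .nil) .nil))) (.node ⟨true, 33, 35, 67655, 428, 0, [(428, p 2)], []⟩ (.node ⟨true, 32, 35, 65607, 425, 0, [(425, p 2)], []⟩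 (.node ⟨true, 31, 36, 63561, 423, 0, [(423, p 2)], []⟩ (.node ⟨true, 31, 35, 63559, 422, 0, [(422, p 2)], []⟩ .nil .nil) (.node ⟨true, 31, 37, 63563, 424, 0, [(424, p 2)], []⟩ .nil .nil)) (.node ⟨true, 32, 37, 65611, 427, 0, [(427, p 2)], []⟩ (.node ⟨true, 32, 36, 65609, 426, 0, [(426, p 2)], []⟩ .nil .nil) .nil)) (.node ⟨true, 34, 35, 69703, 431, 0, [(431, p 2)], []⟩ (.node ⟨true, 33, 37, 67659, 430, 0, [(430, p 2)], []⟩ (.node ⟨true, 33, 36, 67657, 429, 0, [(429, p 2)], []⟩ .nil .nil) .nil) (.node ⟨true, 34, 37, 69707, 433, 0, [(433, p 2)], []⟩ (.node ⟨true, 34, 36, 69705, 432, 0, [(432, p 2)], []⟩ .nil .nil) .nil))))))))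

/-- instances of identities for the final identity -/
def top : List (ℤ × ℕ × List ℕ) := [(p 438, 1, [4, 7, 0, 7, 2]), (p 402, 1, [1, 7, 0, 3, 7]), (p 356, 1, [1, 2, 2, 19, 7]), (n 599, 1, [0, 2, 1, 15, 7]), (n 1107, 1, [1, 19, 2, 5, 0]), (p 1388, 1, [2, 19, 1, 5, 0]), (n 336, 1, [2, 5, 7, 7, 1]), (n 323, 1, [2, 7, 1, 16, 0]), (p 766, 1, [1, 2, 5, 7, 7]), (n 216, 1, [1, 3, 7, 7, 0]), (n 267, 1, [2, 16, 1, 7, 0]), (n 471, 1, [2, 19, 1, 7, 2]), (p 360, 1, [0, 1, 7, 11, 0]), (p 436, 1, [5, 19, 0, 1, 2]), (n 807, 1, [3, 19, 0, 1, 0]), (n 71, 1, [0, 2, 1, 5, 19]), (p 156, 1, [7, 15, 0, 1, 2]), (p 516, 1, [7, 16, 0, 1, 2]), (p 136, 1, [1, 11, 0, 7, 0]), (p 188, 1, [2, 4, 0, 7, 7]), (n 39, 2, [1, 2, 19, 2, 7]), (n 191, 1, [1, 16, 0, 5, 0]), (p 1060, 1, [0, 2, 6, 19, 2]), (p 724, 1, [4, 19, 0, 2, 0]), (p 616, 1, [0, 2, 1, 37, 0]), (p 80, 1, [2, 7, 1, 15, 0]), (n 1227, 1, [0, 1, 5,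 7, 5]), (n 975, 1, [5, 6, 0, 2, 7]), (p 1408, 2, [0, 1, 2, 5, 19]), (n 611, 1, [2, 6, 0, 5, 7]), (p 360, 2, [0, 1, 5, 2, 19]), (n 371, 1, [2, 15, 0, 1, 7]), (n 95, 1, [1, 7, 0, 5, 5]), (n 191, 1, [0, 2, 1, 36, 0]), (n 143, 2, [1, 7, 15, 0, 2]), (n 551, 1, [0, 5, 1, 2, 19]), (p 1072, 2, [1, 2, 19, 0, 5]), (n 35, 2, [1, 7, 7, 0, 3]), (n 395, 1, [1, 2, 7, 15, 0]), (n 377, 1, [2, 6, 2, 7, 7]), (n 1127, 2, [0, 1, 2, 2, 41]), (n 119, 1, [5, 7, 2, 6, 0]), (p 84, 1, [0, 2, 7, 13, 0]), (n 17, 2, [1, 2, 5, 7, 7]), (n 227, 1, [5, 6, 2, 7, 0]), (n 59, 1, [6, 16, 0, 2, 0]), (n 311, 1, [0, 7, 3, 6, 0]), (p 36, 1, [0, 1, 5, 16, 0]), (n 71, 2, [3, 7, 7, 0, 1]), (n 143, 1, [4, 5, 0, 7, 0]), (n 35, 2, [0, 7, 7, 1, 3]), (p 144, 2, [0, 1, 2, 7, 15]), (p 72, 2, [0, 2, 7, 1, 15]), (p 90, 2, [5, 7, 7, 1, 2]), (n 89, 2, [4, 7, 7, 0, 2]), (p 18, 2, [0, 2, 4, 7, 7]), (n 639, 2, [0, 1, 19, 2, 5]), (p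 144, 2, [0, 7, 15, 1, 2]), (n 107, 2, [2, 7, 7, 0, 4]), (n 215, 2, [2, 7, 7, 2, 6]), (p 216, 2, [0, 2, 7, 2, 17]), (n 71, 2, [1, 2, 7, 0, 15]), (p 288, 1, [0, 5, 0, 17, 2]), (p 180, 1, [0, 3, 0, 1, 19]), (n 215, 1, [1, 2, 2, 41, 0]), (n 111, 1, [0, 2, 1, 16, 7]), (n 535, 1, [2, 7, 1, 19, 2]), (n 207, 1, [0, 2, 1, 41, 2]), (n 139, 1, [0, 19, 1, 3, 0]), (n 95, 1, [7, 10, 0, 1, 0]), (p 28, 1, [0, 7, 1, 10, 0]), (n 143, 1, [0, 1, 0, 36, 2]), (n 107, 1, [0, 16, 1, 2, 7]), (p 336, 1, [2, 41, 0, 1, 2]), (p 432, 1, [0, 1, 2, 36, 0]), (p 264, 1, [0, 1, 2, 37, 0]), (p 288, 1, [0, 2, 0, 4, 19]), (n 191, 1, [0, 19, 2, 4, 0]), (n 287, 1, [2, 19, 2, 6, 0]), (n 95, 1, [2, 17, 0, 2, 7]), (p 1440, 2, [0, 1, 2, 0, 37]), (p 156, 1, [0, 1, 0, 10, 7]), (n 23, 1, [0, 26, 0, 1, 0]), (n 239, 1, [0, 28, 0, 1, 0]), (p 252, 1, [0, 6, 0, 3, 7]), (n 47, 1, [0, 6, 3, 7, 0]), (n 167, 1, [7, 12, 0, 2, 0]),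 (n 503, 1, [7, 14, 0, 2, 0]), (n 47, 1, [2, 7, 2, 17, 0]), (n 107, 2, [2, 7, 7, 1, 5]), (p 24, 1, [0, 1, 0, 37, 2]), (p 168, 1, [0, 1, 0, 11, 7]), (p 72, 1, [0, 5, 0, 4, 7]), (n 359, 1, [0, 13, 0, 2, 7]), (p 288, 1, [0, 27, 0, 1, 0]), (p 288, 1, [0, 2, 0, 32, 0]), (n 287, 1, [0, 2, 0, 29, 0]), (n 287, 2, [0, 1, 2, 0, 36]), (n 287, 2, [0, 1, 2, 0, 35]), (n 143, 1, [6, 15, 0, 2, 0]), (n 287, 1, [0, 2, 0, 38, 2]), (n 143, 1, [0, 3, 0, 17, 0]), (p 144, 2, [5, 6, 7, 0, 2]), (p 288, 2, [0, 2, 17, 0, 5]), (p 288, 2, [0, 5, 17, 0, 2]), (n 431, 1, [0, 1, 0, 15, 5]), (p 144, 2, [0, 7, 11, 0, 1]), (n 143, 2, [0, 2, 39, 0, 2]), (n 287, 2, [0, 2, 5, 6, 7]), (n 287, 2, [0, 2, 7, 5, 6]), (p 576, 2, [0, 1, 15, 0, 5]), (p 288, 2, [0, 5, 15, 0, 1]), (p 288, 1, [0, 2, 2, 39, 0]), (n 95, 1, [2, 7, 2, 18, 0]), (p 144, 2, [0, 1, 7, 0, 11]), (p 288, 2, [0, 5, 6, 2, 7]), (n 71, 2, [0, 3, 6, 0, 7]),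 (p 144, 2, [2, 6, 7, 0, 5]), (n 71, 2, [0, 3, 7, 0, 6]), (n 143, 2, [0, 1, 36, 0, 2])]

/-- factor of the final identity -/
def cT : ℤ := p 2

/-- the final identity -/
def target : List (ℤ × Tree) := [(p 12, (.bin true (.bin false (.bin false (.leaf 0) (.leaf 0)) (.leaf 0)) (.bin false (.bin false (.bin false (.bin false (.leaf 1) (.leaf 0)) (.leaf 0)) (.leaf 2)) (.leaf 2)))), (p 6, (.bin true (.bin false (.bin false (.leaf 0) (.leaf 0)) (.leaf 0)) (.bin false (.bin false (.leaf 2) (.leaf 2)) (.bin false (.bin false (.leaf 1) (.leaf 0)) (.leaf 0))))), (p 6, (.bin true (.bin false (.bin false (.leaf 0) (.leaf 0)) (.leaf 0)) (.bin false (.bin false (.bin false (.bin false (.leaf 0) (.leaf 0)) (.leaf 1)) (.leaf 2)) (.leaf 2)))), (p 3, (.bin true (.bin false (.bin false (.leaf 0) (.leaf 0)) (.leaf 0)) (.bin false (.bin false (.leaf 2) (.leaf 2)) (.bin false (.bin false (.leaf 0)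 (.leaf 0)) (.leaf 1))))), (p 12, (.bin true (.bin false (.bin false (.bin false (.bin false (.leaf 0) (.leaf 0)) (.leaf 0)) (.leaf 2)) (.leaf 2)) (.bin false (.bin false (.leaf 1) (.leaf 0)) (.leaf 0)))), (p 6, (.bin true (.bin false (.bin false (.bin false (.bin false (.leaf 0) (.leaf 0)) (.leaf 0)) (.leaf 2)) (.leaf 2)) (.bin false (.bin false (.leaf 0) (.leaf 0)) (.leaf 1)))), (p 6, (.bin true (.bin false (.bin false (.leaf 2) (.leaf 2)) (.bin false (.bin false (.leaf 0) (.leaf 0)) (.leaf 0))) (.bin false (.bin false (.leaf 1) (.leaf 0)) (.leaf 0)))), (p 3, (.bin true (.bin false (.bin false (.leaf 2) (.leaf 2)) (.bin false (.bin false (.leaf 0) (.leaf 0)) (.leaf 0))) (.bin false (.bin false (.leaf 0) (.leaf 0)) (.leaf 1))))]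

end H85.FA.Q2d
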