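import Pool.Agent.H85.FA.Q2Super
import Pool.Agent.H85.FA.P10

/-!
# MP_273d7a_al, module G2 : `Q2`
-/

set_option linter.unusedSectionVars false

namespace H85.FA.Q2d

universe u v

/-- full polarisation of `t0` -/
def L7 : List (Bool × Tree) :=
  derL ep 2 9 (derL ep 2 8 (derL ep 0 7 (derL ep 0 6 (derL ep 0 5 (derL ep 0 4
    (derL ep 0 3 [(false, t0)]))))))

/-- `± ((i,j,k)∘(1,l,m),p,q)` -/
structure Key where
  s : Bool
  i : ℕ
  j : ℕ
  k : ℕ
  l : ℕ
  m : ℕ
  p : ℕ
  q : ℕ
  deriving DecidableEq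

/-- the key of a tree of the right shape -/
def toKey : Bool × Tree → Option Key
  | (s, .ass (.bin true (.ass (.leaf i) (.leaf j) (.leaf k)) (.ass (.leaf 1) (.leaf l) (.leaf m)))
      (.leaf p) (.leaf q)) => some ⟨s, i, j, k, l, m, p, q⟩
  | _ => none

/-- value of a key -/
def valK {R : Type v} [NonUnitalNonAssocRing R] (P : ℕ → R) (κ : Key) : R :=
  sg κ.s (associator (jr (associator (P κ.i) (P κ.j) (P κ.k))
    (associator (P 1) (P κ.l) (P κ.m))) (P κ.p) (P κ.q))

/-- sort the first two -/
def s12 : Key → Key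
  | ⟨s, i, j, k, l, m, p, q⟩ => bif Nat.blt j i then ⟨!s, j, i, k, l, m, p, q⟩
      else ⟨s, i, j, k, l, m, p, q⟩
/-- sort the second and third -/
def s23 : Key → Key
  | ⟨s, i, j, k, l, m, p, q⟩ => bif Nat.blt k j then ⟨!s, i, k, j, l, m, p, q⟩
      else ⟨s, i, j, k, l, m, p, q⟩
/-- sort the fourth and fifth -/
def s45 : Key → Key
  | ⟨s, i, j, k, l, m, p, q⟩ => bif Nat.blt m l then ⟨!s, i, j, k, m, l, p, q⟩
      else ⟨s, i, j, k, l, m, p, q⟩
/-- sort the last two -/
def s67 : Key → Key
  | ⟨s, i, j, k, l, m, p, q⟩ => bif Nat.blt q p then ⟨!s, i, j, k, l, m, q, p⟩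
      else ⟨s, i, j, k, l, m, p, q⟩
/-- normal form -/
def nf (κ : Key) : Key := s67 (s45 (s12 (s23 (s12 κ))))

/-- the ten normal forms -/
def K10 : List Key :=
  [⟨true, 3, 4, 5, 6, 7, 8, 9⟩, ⟨false, 3, 4, 6, 5, 7, 8, 9⟩, ⟨true, 3, 4, 7, 5, 6, 8, 9⟩,
   ⟨true, 3, 5, 6, 4, 7, 8, 9⟩, ⟨false, 3, 5, 7, 4, 6, 8, 9⟩, ⟨true, 3, 6, 7, 4, 5, 8, 9⟩,
   ⟨false, 4, 5, 6, 3, 7, 8, 9⟩, ⟨true, 4, 5, 7, 3, 6, 8, 9⟩, ⟨false, 4, 6, 7, 3, 5, 8, 9⟩,
   ⟨true, 5, 6, 7, 3, 4, 8, 9⟩]

/-- the keys of `L7` -/
def keys : List Key := L7.filterMap toKey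

/-- Boolean test: the key of the tree is the given one -/
def keyEq : List (Bool × Tree) → List Key → Bool
  | [], [] => true
  | c :: L, κ :: M => (match toKey c with
      | none => false
      | some κ' => decide (κ' = κ)) && keyEq L M
  | _, _ => false

theorem keys_ok : keyEq L7 keys = true := by decide +kernel

theorem leaves_ok : ∀ c ∈ L7, ∀ i ∈ c.2.leaves, ep i = false := by decide +kernel

theorem perm_ok : (keys.map nf).Perm (List.replicate 24 K10).flatten := by decide +kernel

section
variable {R : Type v} [NonUnitalNonAssocRing R]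

theorem ass_neg1 (x y z : R) : associator (-x) y z = - associator x y z := by
  simp only [associator, neg_mul, sub_neg_eq_add]; abel

theorem jr_neg1 (x y : R) : jr (-x) y = - jr x y := by
  simp only [jr, neg_mul, mul_neg]; abel

theorem jr_neg2 (x y : R) : jr x (-y) = - jr x y := by
  simp only [jr, neg_mul, mul_neg]; abel

theorem sg_not (b : Bool) (x : R) : sg (!b) x = - sg b x := by
  cases b <;> simp

theorem val_s12 (hA : IsAlt R) (P : ℕ → R) (κ : Key) : valK P (s12 κ) = valK P κ := by
  obtain ⟨s, i, j, k, l, m, p, q⟩ := κ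
  unfold s12
  dsimp only
  cases Nat.blt j i
  · rfl
  · simp only [cond_true, valK, sg_not]
    rw [ass12 hA (P j) (P i) (P k), jr_neg1, ass_neg1]
    cases s <;> simp

theorem val_s23 (hA : IsAlt R) (P : ℕ → R) (κ : Key) : valK P (s23 κ) = valK P κ := by
  obtain ⟨s, i, j, k, l, m, p, q⟩ := κ
  unfold s23
  dsimp only
  cases Nat.blt k j
  · rfl
  · simp only [cond_true, valK, sg_not]
    rw [ass23 hA (P i) (P k) (P j), jr_neg1, ass_neg1]
    cases s <;> simp

theorem val_s45 (hA : IsAlt R) (P : ℕ → R) (κ : Key) : valK P (s45 κ) = valK P κ := by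
  obtain ⟨s, i, j, k, l, m, p, q⟩ := κ
  unfold s45
  dsimp only
  cases Nat.blt m l
  · rfl
  · simp only [cond_true, valK, sg_not]
    rw [ass23 hA (P 1) (P m) (P l), jr_neg2, ass_neg1]
    cases s <;> simp

theorem val_s67 (hA : IsAlt R) (P : ℕ → R) (κ : Key) : valK P (s67 κ) = valK P κ := by
  obtain ⟨s, i, j, k, l, m, p, q⟩ := κ
  unfold s67
  dsimp only
  cases Nat.blt q p
  · rfl
  · simp only [cond_true, valK, sg_not]
    rw [ass23 hA _ (P q) (P p)]
    cases s <;> simp

theorem val_nf (hA : IsAlt R) (P : ℕ → R) (κ : Key) : valK P (nf κ) = valK P κ := by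
  unfold nf
  rw [val_s67 hA, val_s45 hA, val_s12 hA, val_s23 hA, val_s12 hA]

theorem toKey_val (P : ℕ → R) {c : Bool × Tree} {κ : Key} (h : toKey c = some κ) :
    sg c.1 (c.2.ev (fun _ => false) P) = valK P κ := by
  unfold toKey at h
  split at h
  · injection h with h
    subst h
    simp only [ev_ass, ev_jr, ev_leaf, valK]
  · exact absurd h (by simp)

theorem keyEq_sum (P : ℕ → R) (L : List (Bool × Tree)) (M : List Key) (h : keyEq L M = true) :
    (L.map fun c => sg c.1 (c.2.ev (fun _ => false) P)) = M.map (valK P) := by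
  induction L generalizing M with
  | nil =>
    cases M with
    | nil => rfl
    | cons κ M => simp [keyEq] at h
  | cons c L ih =>
    cases M with
    | nil => simp [keyEq] at h
    | cons κ M =>
      simp only [keyEq, Bool.and_eq_true] at h
      obtain ⟨h1, h2⟩ := h
      rw [List.map_cons, List.map_cons, ih M h2]
      congr 1
      cases hk : toKey c with
      | none => rw [hk] at h1; simp at h1
      | some κ' =>
        rw [hk] at h1
        have : κ' = κ := by simpa using h1
        rw [← this]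
        exact toKey_val P hk

theorem sum_L7 (hA : IsAlt R) (P : ℕ → R) :
    evL ep P L7 = (24 : ℤ) • (K10.map (valK P)).sum := by
  have e1 : evL ep P L7 = (L7.map fun c => sg c.1 (c.2.ev (fun _ => false) P)).sum := by
    unfold evL
    refine congrArg List.sum (List.map_congr_left ?_)
    intro c hc
    rw [Tree.ev_congr (ε' := fun _ => false) (P' := P) (leaves_ok c hc) (fun _ _ => rfl)]
  rw [e1, keyEq_sum P L7 keys keys_ok]
  have e2 : (keys.map (valK P)) = (keys.map nf).map (valK P) := by
    rw [List.map_map]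
    apply List.map_congr_left
    intro κ _
    exact (val_nf hA P κ).symm
  rw [e2, (perm_ok.map (valK P)).sum_eq]
  have e3 : ∀ n : ℕ, (((List.replicate n K10).flatten).map (valK P)).sum
      = (n : ℤ) • (K10.map (valK P)).sum := by
    intro n
    induction n with
    | zero => simp
    | succ n ih =>
      rw [List.replicate_succ, List.flatten_cons, List.map_append, List.sum_append, ih]
      push_cast
      rw [add_smul, one_smul, add_comm]
  have e4 := e3 24
  rw [Nat.cast_ofNat] at e4
  rw [e4]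

/-- the value of the ten normal forms -/
theorem sum_K10 (P : ℕ → R) (r : ℕ → R) (a s t : R) (h1 : P 1 = a) (hr : ∀ i, i < 5 → P (i + 3) = r i)
    (h8 : P 8 = s) (h9 : P 9 = t) :
    (K10.map (valK P)).sum = - associator (ccL P10 r a) s t := by
  have r0 := hr 0 (by decide)
  have r1 := hr 1 (by decide)
  have r2 := hr 2 (by decide)
  have r3 := hr 3 (by decide)
  have r4 := hr 4 (by decide)
  norm_num at r0 r1 r2 r3 r4
  simp only [K10, List.map_cons, List.map_nil, List.sum_cons, List.sum_nil, valK, r0, r1, r2, r3,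
    r4, h1, h8, h9, sg_true, sg_false, ccL, P10, one_smul, neg_smul, ass_add_1, ass_neg1]
  have z : associator (0 : R) s t = 0 := by simp [associator]
  rw [z]
  abel

end

theorem triv_eval (B : Type v) [NonUnitalNonAssocRing B] (hA : IsAlt B) (h : TF B)
    (hc : ∀ a b : B, hh a b = 0) (r : ℕ → B) (a s t : B) : associator (ccL P10 r a) s t = 0 := by
  have d1 := down (Fs := FsG) mlin (ε := ep) (x := 0) (y := 3) rfl super.{v}
  have d2 := down (Fs := FsG) mlin (ε := ep) (x := 0) (y := 4) rfl d1
  have d3 := down (Fs := FsG) mlin (ε := ep) (x := 0) (y := 5) rfl d2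
  have d4 := down (Fs := FsG) mlin (ε := ep) (x := 0) (y := 6) rfl d3
  have d5 := down (Fs := FsG) mlin (ε := ep) (x := 0) (y := 7) rfl d4
  have d6 := down (Fs := FsG) mlin (ε := ep) (x := 2) (y := 8) rfl d5
  have d7 := down (Fs := FsG) mlin (ε := ep) (x := 2) (y := 9) rfl d6
  have key := d7 (Triv B) (good B hA h hc)
    (fun i => match i with
      | 1 => a | 3 => r 0 | 4 => r 1 | 5 => r 2 | 6 => r 3 | 7 => r 4 | 8 => s | 9 => t
      | _ => (0 : B))
    (by
      intro i
      by_cases hi : i = 0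
      · subst hi
        change (0 : B) = sg _ (0 : B)
        rw [sg_zero]
      by_cases hi' : i = 2
      · subst hi'
        change (0 : B) = sg _ (0 : B)
        rw [sg_zero]
      · have : ep i = false := by
          unfold ep
          cases hb : Nat.beq i 0
          · cases hb' : Nat.beq i 2
            · rfl
            · exact absurd (Nat.eq_of_beq_eq_true hb') hi'
          · exact absurd (Nat.eq_of_beq_eq_true hb) hi
        rw [this]
        rfl)
  have e := sum_L7 hA (fun i => match i with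
      | 1 => a | 3 => r 0 | 4 => r 1 | 5 => r 2 | 6 => r 3 | 7 => r 4 | 8 => s | 9 => t
      | _ => (0 : B))
  have key' : evL ep (fun i => match i with
      | 1 => a | 3 => r 0 | 4 => r 1 | 5 => r 2 | 6 => r 3 | 7 => r 4 | 8 => s | 9 => t
      | _ => (0 : B)) L7 = 0 := key
  rw [e] at key'
  have key2 := h.smooth (c := 24) (by decide) key'
  rw [sum_K10 _ r a s t rfl (by
    intro i hi
    interval_cases i <;> rfl) rfl rfl] at key2
  exact neg_eq_zero.1 key2

end H85.FA.Q2d

namespace H85.FA

universe u v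

/-- **Q2** -/
theorem q2 (F : Type u) [Field F] (h2 : (2 : F) ≠ 0) (h3 : (3 : F) ≠ 0) : Q2.{u, v} F P10 := by
  intro B _ _ _ _ hA hc r a s t
  exact Q2d.triv_eval B hA (TF.of_module F h2 h3 B) hc r a s t

end H85.FA
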