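import Pool.Agent.H85.FA.Q2Data
import Pool.Agent.H85.FA.Polys
import Pool.Agent.H85.FA.Split

/-!
# MP_273d7a_al : data of the certificate of `Q2`
-/

set_option maxRecDepth 100000

namespace H85.FA.Q2d

/-- the identities used, with the numbers of operations -/
def Fs : List (ℕ × List (ℤ × Tree)) := [(3, fSagle), (4, fR2), (4, fH)]

/-- the sum of the first 60 instances -/
def v1 : Vec := [(272, n 13823), (273, n 21119), (274, p 7296), (275, p 10752), (276, p 0), (277, p 14336), (278, n 767), (279, p 10240), (280, p 23424), (281, p 63552), (282, n 24575), (283, p 114432), (284, p 45312), (285, p 91200), (286, p 56256), (287, p 72192), (288, p 23232), (289, n 25151), (290, n 56639), (291, n 18047), (292, n 2303), (293, p 19200), (294, n 18047), (295, p 16896), (296, n 13311), (297, p 10560), (298, p 34880), (299, n 18815), (300, n 9407), (301, n 4799), (303, p 1152), (304, p 13312), (305, p 7680), (332, n 7807), (333, n 5119), (335, p 2304), (336, p 12288), (337, p 2176), (339, n 5759), (340, p 5376), (341, p 4992), (342, n 6911), (343, n 6911), (344, p 12160), (346, n 5759), (347, p 27648), (348, n 3327), (350, p 12672), (351,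 n 20735), (352, n 17151), (353, n 767), (354, p 6528), (355, n 2303), (356, p 3072), (357, p 0), (358, p 5760), (359, n 4223), (360, p 2304), (361, p 25728), (362, n 4223), (363, n 6527), (364, n 15359), (365, n 9599), (366, n 11903), (367, p 8832), (368, n 12671), (369, n 7679), (370, p 13056), (371, p 18048), (372, n 20351), (373, p 4224), (374, n 18047), (375, p 7936), (376, n 4223), (377, n 16511), (378, p 4864), (379, p 2432), (380, p 23936), (381, p 9024), (382, n 11743), (383, n 14175), (384, p 14528), (385, p 3808), (386, p 5216), (387, p 7104), (388, p 5760), (389, p 7104), (390, p 10368), (391, n 3839), (392, p 3840), (393, p 3456), (394, n 1343), (395, n 12479), (396, p 18048), (397, p 6336), (398, p 6336), (399, n 25535), (400, p 13632), (401, p 9216), (402, n 3839), (403, p 1152), (404, n 767), (405, p 14592), (406, n 6143), (407, p 1920), (408, n 3839), (409, n 13567), (410, n 21887), (411, p 7680), (412, p 18432), (413, p 18048), (414, n 6527), (415, n 5119), (416, p 0), (417, p 1280), (418, p 10240), (419, n 2303), (420, n 2303), (421, n 11519), (422, n 2303), (423, n 2303), (424, p 13824), (425, n 2303), (426, n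 4735), (427, n 8703), (428, p 0), (429, p 1152), (430, n 9983), (431, p 2304), (432, p 8192), (433, p 4480)]

end H85.FA.Q2d
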