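import Pool.Agent.H85.FA.Ids
import Pool.Agent.H85.FA.Q2ChkA
import Pool.Agent.H85.FA.Q2ChkB
import Pool.Agent.H85.FA.Q2ChkC
import Pool.Agent.H85.FA.Q2ChkD

/-!
# MP_273d7a_al, module G2 : `Q2`, super form `((x,x,x)∘(a,x,x),u,u) = 0`
-/

set_option linter.unusedSectionVars false

namespace H85.FA.Q2d

universe u v

/-- the identities used -/
def FsG : List (List (ℤ × Tree)) := [fSagle, fR2, fH, fJ6, fR3]

theorem c1 : defsOk mask 3 defs = true := by decide +kernel

theorem c1' : tab.namesB defsB = true := by decide +kernel

theorem c2 : Tab.check tab 2 (parMask mask) Fs tab = true := Tab.check_split cB0 cA cB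

theorem c3 : topCheck tab 2 (parMask mask) Fs top cT 7 target = true :=
  topCheck_split (List.take_append_drop 60 top) cC cD

theorem mlin : ∀ f ∈ FsG, ∃ n, MLin n f := by
  have h1 : MLin 4 fSagle := by unfold MLin; decide
  have h2 : MLin 5 fR2 := by unfold MLin; decide
  have h3 : MLin 5 fH := by unfold MLin; decide
  have h4 : MLin 3 fJ6 := by unfold MLin; decide
  have h5 : MLin 4 fR3 := by unfold MLin; decide
  simp only [FsG, List.forall_mem_cons, List.not_mem_nil, false_imp_iff, implies_true, and_true]
  exact ⟨⟨_, h1⟩, ⟨_, h2⟩, ⟨_, h3⟩, ⟨_, h4⟩, ⟨_, h5⟩⟩

theorem good (B : Type v) [NonUnitalNonAssocRing B] (hA : IsAlt B) (h : TF B)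
    (hc : ∀ a b : B, hh a b = 0) : Good FsG (Triv B) := by
  have h1 : MLin 4 fSagle := by unfold MLin; decide
  have h2 : MLin 5 fR2 := by unfold MLin; decide
  have h3 : MLin 5 fH := by unfold MLin; decide
  have h4 : MLin 3 fJ6 := by unfold MLin; decide
  have h5 : MLin 4 fR3 := by unfold MLin; decide
  refine ⟨h, ?_⟩
  simp only [FsG, List.forall_mem_cons, List.not_mem_nil, false_imp_iff, implies_true, and_true]
  exact ⟨superId_triv h h1 (id_sagle hA h), superId_triv h h2 (id_r2 hA h),
    superId_triv h h3 (id_h hA hc), superId_triv h h4 (id_j6 hA),
    superId_triv h h5 (id_r3 hA h)⟩

/-- parities: the letters `0` and `2` are odd -/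
def ep (i : ℕ) : Bool := Nat.beq i 0 || Nat.beq i 2

section
variable {V : Type v} [GrAlg V]

/-- `6(y,u,u) = 2[[y,u],u] + [[u,u],y]` for odd `u` -/
theorem j6uu (hV : SuperId V fJ6) {b : Bool} {y w : V} (hy : Hom b y) (hw : Hom true w) :
    (6 : ℤ) • associator y w w = (2 : ℤ) • op false (!b) true (op false b true y w) w
      + op false false b (op false true true w w) y := by
  have h := hV (fun i => if i = 0 then b else true) (fun i => if i = 0 then y else w) (by
    intro i
    by_cases hi : i = 0
    · simp only [hi, if_true]; exact hy
    · simp only [hi, if_false]; exact hw)
  have h1 : op false true b w y = sg (!b) (op false b true y w) := by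
    rw [op_comm false b true y w]
    cases b <;> rfl
  have h2 : op false (!b) true (sg (!b) (op false b true y w)) w
      = sg (!b) (op false (!b) true (op false b true y w) w) := by
    cases b
    · have : op false true true (-(op false false true y w)) w
          = -(op false true true (op false false true y w) w) := by
        simp only [op, mul_neg, neg_mul, Bool.not_false, Bool.and_true, Bool.xor_true,
          Bool.not_true, sg_false]
        abel
      exact this
    · rfl
  cases b
  · simp only [evP, fJ6, Tree.leaves, Tree.ev, List.map_cons, List.map_nil, List.sum_cons,
      List.sum_nil, p_six_smul, n_zero_smul] at h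
    have h' : (6 : ℤ) • associator y w w + (-(op false true true (op false false true y w) w)
      + (-(op false false false (op false true true w w) y)
      + (-(sg true (op false true true (op false true false w y) w)) + 0))) = 0 := h
    rw [h1] at h'
    have h2' : op false true true (-(op false false true y w)) w
        = -(op false true true (op false false true y w) w) := h2
    rw [Bool.not_false, sg_true, sg_true, h2'] at h'
    rw [Bool.not_false]
    linear_combination (norm := abel) h'
  · simp only [evP, fJ6, Tree.leaves, Tree.ev, List.map_cons, List.map_nil, List.sum_cons,
      List.sum_nil, p_six_smul, n_zero_smul] at h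
    have h' : (6 : ℤ) • associator y w w + (-(op false false true (op false true true y w) w)
      + (-(op false false true (op false true true w w) y)
      + (-(op false false true (op false true true w y) w) + 0))) = 0 := h
    rw [h1] at h'
    rw [Bool.not_true, sg_false] at h'
    rw [Bool.not_true]
    linear_combination (norm := abel) h'

/-- `(p∘q,u,u) = p∘(q,u,u) + q∘(p,u,u)` for `p` odd, `q` even, `u` odd -/
theorem r3uu (hV : SuperId V fR3) {y z w : V} (hy : Hom true y) (hz : Hom false z)
    (hw : Hom true w) :
    associator (op true true false y z) w w = op true true false y (associator z w w)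
      + op true false true z (associator y w w) := by
  have h := hV (fun i => if i = 1 then false else true)
    (fun i => if i = 0 then y else if i = 1 then z else w) (by
    intro i
    by_cases hi : i = 0
    · subst hi; exact hy
    · by_cases hi' : i = 1
      · subst hi'; exact hz
      · simp only [hi, hi', if_false]; exact hw)
  simp only [evP, fR3, Tree.leaves, Tree.ev, List.map_cons, List.map_nil, List.sum_cons,
      List.sum_nil, p_one_smul, n_zero_smul] at h
  have h' : associator (op true true false y z) w w + (-(op true true false y (associator z w w))
      + (-(op true false true z (associator y w w)) + 0)) = 0 := h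
  linear_combination (norm := abel) h'

end

/-- `((x,x,x)∘(a,x,x),u,u)` -/
def t0 : Tree := .ass (.bin true (.ass (.leaf 0) (.leaf 0) (.leaf 0))
  (.ass (.leaf 1) (.leaf 0) (.leaf 0))) (.leaf 2) (.leaf 2)

/-- the final computation -/
theorem super_aux {V : Type v} [GrAlg V] (x a w A1 A2 : V)
    (e1 : (6 : ℤ) • A1 = (2 : ℤ) • op false (!true) true (op false true true x x) x
      + op false false true (op false true true x x) x)
    (e2 : (6 : ℤ) • A2 = (2 : ℤ) • op false (!false) true (op false false true a x) x
      + op false false false (op false true true x x) a)
    (e3 : (6 : ℤ) • associator A2 w w = (2 : ℤ) • op false (!false) true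
      (op false false true A2 w) w + op false false false (op false true true w w) A2)
    (e4 : (6 : ℤ) • associator A1 w w = (2 : ℤ) • op false (!true) true
      (op false true true A1 w) w + op false false true (op false true true w w) A1)
    (e5 : associator (op true true false A1 A2) w w = op true true false A1 (associator A2 w w)
      + op true false true A2 (associator A1 w w))
    (key : (12 : ℤ) • op true true false (op false false true (op false true true x x) x)
        (op false true true (op false false true (op false true true (op false false true a x) x)
          w) w)
      + ((6 : ℤ) • op true true false (op false false true (op false true true x x) x)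
        (op false false false (op false true true w w)
          (op false true true (op false false true a x) x))
      + ((6 : ℤ) • op true true false (op false false true (op false true true x x) x)
        (op false true true (op false false true
          (op false false false (op false true true x x) a) w) w)
      + ((3 : ℤ) • op true true false (op false false true (op false true true x x) x)
        (op false false false (op false true true w w)
          (op false false false (op false true true x x) a))
      + ((12 : ℤ) • op true true false (op false false true (op false true true
          (op false false true (op false true true x x) x) w) w)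
          (op false true true (op false false true a x) x)
      + ((6 : ℤ) • op true true false (op false false true (op false true true
          (op false false true (op false true true x x) x) w) w)
          (op false false false (op false true true x x) a)
      + ((6 : ℤ) • op true true false (op false false true (op false true true w w)
          (op false false true (op false true true x x) x))
          (op false true true (op false false true a x) x)
      + ((3 : ℤ) • op true true false (op false false true (op false true true w w)
          (op false false true (op false true true x x) x))
          (op false false false (op false true true x x) a) + 0))))))) = 0) :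
    (216 : ℤ) • associator (op true true false A1 A2) w w = 0 := by
  rw [Bool.not_true] at e1 e4
  rw [Bool.not_false] at e2 e3
  generalize hX : op false false true (op false true true x x) x = X at *
  generalize hY : op false true true (op false false true a x) x = Y1 at *
  generalize hY2 : op false false false (op false true true x x) a = Y2 at *
  have f2 : (6 : ℤ) • ((6 : ℤ) • associator A2 w w) =
      (2 : ℤ) • ((2 : ℤ) • op false true true (op false false true Y1 w) w
        + op false true true (op false false true Y2 w) w)
      + ((2 : ℤ) • op false false false (op false true true w w) Y1
        + op false false false (op false true true w w) Y2) := by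
    have h1 : (6 : ℤ) • ((2 : ℤ) • op false true true (op false false true A2 w) w)
        = (2 : ℤ) • op false true true (op false false true ((6 : ℤ) • A2) w) w := by
      rw [op_smul_left, op_smul_left, smul_comm]
    have h2 : (6 : ℤ) • op false false false (op false true true w w) A2
        = op false false false (op false true true w w) ((6 : ℤ) • A2) := by
      rw [op_smul_right]
    rw [e3, smul_add, h1, h2, e2, op_add_left, op_add_left, op_smul_left, op_smul_left,
      op_add_right, op_smul_right]
  have f0 : (6 : ℤ) • A1 = (3 : ℤ) • X := by
    rw [e1]; abel
  have f1 : (6 : ℤ) • ((6 : ℤ) • associator A1 w w) =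
      (6 : ℤ) • op false false true (op false true true X w) w
      + (3 : ℤ) • op false false true (op false true true w w) X := by
    have h1 : (6 : ℤ) • ((2 : ℤ) • op false false true (op false true true A1 w) w)
        = (2 : ℤ) • op false false true (op false true true ((6 : ℤ) • A1) w) w := by
      rw [op_smul_left, op_smul_left, smul_comm]
    have h2 : (6 : ℤ) • op false false true (op false true true w w) A1
        = op false false true (op false true true w w) ((6 : ℤ) • A1) := by
      rw [op_smul_right]
    rw [e4, smul_add, h1, h2, f0, op_smul_left, op_smul_left, op_smul_right]
    abel
  have g1 : (216 : ℤ) • associator (op true true false A1 A2) w w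
      = op true true false ((6 : ℤ) • A1) ((6 : ℤ) • ((6 : ℤ) • associator A2 w w))
      + op true false true ((6 : ℤ) • A2) ((6 : ℤ) • ((6 : ℤ) • associator A1 w w)) := by
    rw [e5]
    simp only [op_smul_left, op_smul_right, smul_smul, smul_add]
    norm_num
  have c : ∀ y z : V, op true false true y z = op true true false z y := by
    intro y z
    rw [op_comm true true false z y]; rfl
  rw [g1, f2, f1, f0, e2]
  simp only [op_smul_left, op_smul_right, op_add_left, op_add_right, smul_add, c]
  linear_combination (norm := abel) key

theorem super (V : Type v) [GrAlg V] (hV : Good FsG V) (P : ℕ → V)
    (hP : ∀ i, Hom (ep i) (P i)) : evL ep P [(false, t0)] = 0 := by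
  have key := certificate (V := V) hV.1 (Fs := Fs) (T := tab) (D := 2) (cT := cT) (m := mask)
    (lo := 3) (s := 7) (ds := defs) (top := top) (target := target)
    (P := fun i => if i < 3 then P i else 0)
    (by
      intro f hf
      simp only [Fs, List.mem_cons, List.not_mem_nil, or_false] at hf
      rcases hf with rfl | rfl | rfl <;> exact hV.2 _ (by simp [FsG]))
    (by
      intro i
      by_cases hi : i < 3
      · simp only [hi, if_true]
        have e : parMask mask i = ep i := by
          interval_cases i <;> decide
        rw [e]; exact hP i
      · simp only [hi, if_false]
        unfold Hom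
        rw [map_zero, sg_zero])
    c1 (Tab.namesB_mem c1') (fun n hn => Tab.check_mem c2 hn) (by decide) c3 (by decide)
  have e1 : (target.map fun c => c.1 • c.2.ev (parMask mask)
      (fun i => if i < 3 then P i else 0)) = target.map fun c => c.1 • c.2.ev ep P := by
    have hl : ∀ c ∈ target, ∀ i ∈ c.2.leaves, i < 3 := by decide
    apply List.map_congr_left
    intro c hc
    congr 1
    refine Tree.ev_congr ?_ ?_
    · intro i hi
      have := hl c hc i hi
      interval_cases i <;> decide
    · intro i hi
      simp [hl c hc i hi]
  rw [e1] at key
  simp only [evL, List.map_cons, List.map_nil, List.sum_cons, List.sum_nil, sg_false, add_zero]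
  have hx : Hom true (P 0) := hP 0
  have ha : Hom false (P 1) := hP 1
  have hu : Hom true (P 2) := hP 2
  change associator (op true true false (associator (P 0) (P 0) (P 0))
    (associator (P 1) (P 0) (P 0))) (P 2) (P 2) = 0
  have hA1 : Hom true (associator (P 0) (P 0) (P 0)) :=
    Tree.hom_ev hP (.ass (.leaf 0) (.leaf 0) (.leaf 0))
  have hA2 : Hom false (associator (P 1) (P 0) (P 0)) :=
    Tree.hom_ev hP (.ass (.leaf 1) (.leaf 0) (.leaf 0))
  have hJ : SuperId V fJ6 := hV.2 _ (by simp [FsG])
  have hR : SuperId V fR3 := hV.2 _ (by simp [FsG])
  have e1 := j6uu hJ hx hx
  have e2 := j6uu hJ ha hx
  have e3 := j6uu hJ hA2 hu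
  have e4 := j6uu hJ hA1 hu
  have e5 := r3uu hR hA1 hA2 hu
  have key' := key
  simp only [target, List.map_cons, List.map_nil, List.sum_cons, List.sum_nil] at key'
  have key2 := super_aux (P 0) (P 1) (P 2) _ _ e1 e2 e3 e4 e5 key'
  exact hV.1.smooth (c := 216) (by decide) key2

end H85.FA.Q2d
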