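import Pool.Agent.H85.FA.Engine

/-!
# MP_273d7a_al, module F2 : soundness of the certificate checker, part 1 (vectors, trees)
-/

set_option linter.unusedSectionVars false

namespace H85.FA

universe v

/-- linear combination of named elements -/
def lc {V : Type v} [AddCommGroup V] (G : ℕ → V) (u : Vec) : V := (u.map fun c => c.2 • G c.1).sum

section group
variable {V : Type v} [AddCommGroup V] (G : ℕ → V)

theorem lc_nil : lc G [] = 0 := rfl

theorem lc_cons (k : ℕ) (x : ℤ) (u : Vec) : lc G ((k, x) :: u) = x • G k + lc G u := by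
  simp [lc]

theorem lc_insLoop (k : ℕ) (y : ℤ) (rest : Vec → Vec) (A : V)
    (hr : ∀ w, lc G (rest w) = A + lc G w) (w : Vec) :
    lc G (insLoop k y rest w) = y • G k + A + lc G w := by
  induction w with
  | nil =>
    rw [insLoop, lc_cons, hr]
    abel
  | cons c w ih =>
    obtain ⟨k', x'⟩ := c
    rw [insLoop]
    cases h1 : Nat.blt k' k
    · rw [cond_false]
      cases h2 : Nat.beq k k'
      · rw [cond_false, lc_cons, hr]
        abel
      · have h3 : k = k' := Nat.eq_of_beq_eq_true h2
        subst h3
        rw [cond_true, lc_cons, lc_cons, hr, add_smul]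
        abel
    · rw [cond_true, lc_cons, lc_cons, ih]
      abel

/-- two nested inductions (`insLoop` on `w` for given `rest`, then on `u`) -/
theorem lc_merge (c : ℤ) (u w : Vec) : lc G (merge c u w) = c • lc G u + lc G w := by
  induction u generalizing w with
  | nil => rw [merge, lc_nil, smul_zero, zero_add]
  | cons d u ih =>
    obtain ⟨k, x⟩ := d
    rw [merge, lc_insLoop G k (c * x) (merge c u) (c • lc G u) ih, lc_cons, smul_add, mul_smul]

theorem lc_allZero {u : Vec} (h : allZero u = true) : lc G u = 0 := by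
  induction u with
  | nil => rfl
  | cons d u ih =>
    obtain ⟨k, x⟩ := d
    rw [allZero, Bool.and_eq_true] at h
    have h1 : x = 0 := Int.natAbs_eq_zero.1 (Nat.eq_of_beq_eq_true h.1)
    rw [lc_cons, ih h.2, h1, zero_smul, zero_add]

theorem lc_substV (k : ℕ) (w : Vec) (D : ℤ) (u : Vec) :
    lc G (substV k w D u) = D • lc G u + coef k u • (lc G w - D • G k) := by
  induction u with
  | nil => rw [substV, coef, lc_nil, smul_zero, zero_smul, zero_add]
  | cons d u ih =>
    obtain ⟨i, x⟩ := d
    rw [substV, coef]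
    cases h : Nat.beq i k
    · rw [cond_false, cond_false, lc_merge, ih, lc_cons, lc_cons, lc_nil]
      module
    · have h1 : i = k := Nat.eq_of_beq_eq_true h
      subst h1
      rw [cond_true, cond_true, lc_merge, ih, lc_cons]
      module

/-- `c ∣ 6^20`, so `6^20 • z = 0`, hence `z = 0` -/
theorem TF.smooth (h : TF V) {c : ℤ} (hc : smooth c = true) {z : V} (hz : c • z = 0) : z = 0 := by
  have h6 : ∀ (k : ℕ) (x : V), ((6 : ℤ) ^ k) • x = 0 → x = 0 := by
    intro k
    induction k with
    | zero =>
      intro x hx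
      simpa using hx
    | succ k ih =>
      intro x hx
      apply ih
      have e1 : ((6 : ℤ) ^ (k + 1)) • x = ((6 : ℤ) ^ k • x + (6 : ℤ) ^ k • x + (6 : ℤ) ^ k • x) +
          ((6 : ℤ) ^ k • x + (6 : ℤ) ^ k • x + (6 : ℤ) ^ k • x) := by
        rw [pow_succ]
        module
      rw [e1] at hx
      exact h.2 _ (h.1 _ hx)
  apply h6 20
  unfold H85.FA.smooth at hc
  rw [Bool.and_eq_true] at hc
  have h1 : 3656158440062976 % c.natAbs = 0 := Nat.eq_of_beq_eq_true hc.1
  have h2 : (c.natAbs : ℤ) ∣ ((3656158440062976 : ℕ) : ℤ) :=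
    Int.natCast_dvd_natCast.2 (Nat.dvd_of_mod_eq_zero h1)
  have h3 : c ∣ (6 : ℤ) ^ 20 := by
    rw [Int.natAbs_dvd] at h2
    norm_num at h2 ⊢
    exact h2
  obtain ⟨m, hm⟩ := h3
  rw [hm, mul_comm, mul_smul, hz, smul_zero]

end group

theorem parAll_iff {ε : ℕ → Bool} {b : Bool} {u : Vec} :
    parAll ε b u = true ↔ ∀ c ∈ u, ε c.1 = b := by
  induction u with
  | nil => simp [parAll]
  | cons d u ih =>
    obtain ⟨i, x⟩ := d
    rw [parAll, Bool.and_eq_true, ih, List.forall_mem_cons]
    refine and_congr ?_ Iff.rfl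
    cases ε i <;> cases b <;> simp

theorem parAll_cons {ε : ℕ → Bool} {b : Bool} {i : ℕ} {x : ℤ} {u : Vec} :
    parAll ε b ((i, x) :: u) = true ↔ ε i = b ∧ parAll ε b u = true := by
  rw [parAll_iff, parAll_iff, List.forall_mem_cons]

theorem parAll_nil {ε : ℕ → Bool} {b : Bool} : parAll ε b [] = true := rfl

theorem parAll_insLoop {ε : ℕ → Bool} {b : Bool} {k : ℕ} {y : ℤ} {rest : Vec → Vec}
    (hk : ε k = b) (hr : ∀ w, parAll ε b w = true → parAll ε b (rest w) = true) (w : Vec)
    (hw : parAll ε b w = true) : parAll ε b (insLoop k y rest w) = true := by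
  induction w with
  | nil =>
    rw [insLoop, parAll_cons]
    exact ⟨hk, hr _ parAll_nil⟩
  | cons c w ih =>
    obtain ⟨k', x'⟩ := c
    have hw' := parAll_cons.1 hw
    rw [insLoop]
    cases h1 : Nat.blt k' k
    · rw [cond_false]
      cases h2 : Nat.beq k k'
      · rw [cond_false, parAll_cons]
        exact ⟨hk, hr _ hw⟩
      · rw [cond_true, parAll_cons]
        exact ⟨hk, hr _ hw'.2⟩
    · rw [cond_true, parAll_cons]
      exact ⟨hw'.1, ih hw'.2⟩

theorem parAll_merge {ε : ℕ → Bool} {b : Bool} {c : ℤ} {u w : Vec} (hu : parAll ε b u = true)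
    (hw : parAll ε b w = true) : parAll ε b (merge c u w) = true := by
  induction u generalizing w with
  | nil => exact hw
  | cons d u ih =>
    obtain ⟨k, x⟩ := d
    rw [merge]
    have hu' := parAll_cons.1 hu
    exact parAll_insLoop hu'.1 (fun w hw => ih hu'.2 hw) w hw

section ring
variable {V : Type v} [NonUnitalNonAssocRing V] {G : ℕ → V} {ε : ℕ → Bool} {D : ℤ}

theorem op_add_left (o a b : Bool) (x x' y : V) :
    op o a b (x + x') y = op o a b x y + op o a b x' y := by
  unfold op
  rw [add_mul, mul_add, sg_add]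
  abel

theorem op_add_right (o a b : Bool) (x y y' : V) :
    op o a b x (y + y') = op o a b x y + op o a b x y' := by
  unfold op
  rw [add_mul, mul_add, sg_add]
  abel

theorem op_smul_left (o a b : Bool) (c : ℤ) (x y : V) :
    op o a b (c • x) y = c • op o a b x y := by
  unfold op
  rw [smul_mul_assoc, mul_smul_comm, sg_smul, smul_add]

theorem op_smul_right (o a b : Bool) (c : ℤ) (x y : V) :
    op o a b x (c • y) = c • op o a b x y := by
  unfold op
  rw [smul_mul_assoc, mul_smul_comm, sg_smul, smul_add]

theorem op_zero_left (o a b : Bool) (y : V) : op o a b 0 y = 0 := by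
  unfold op
  rw [zero_mul, mul_zero, sg_zero, add_zero]

theorem op_zero_right (o a b : Bool) (x : V) : op o a b x 0 = 0 := by
  unfold op
  rw [zero_mul, mul_zero, sg_zero, add_zero]

/-- the values `g i j` of the symbols `[e_i,e_j]` are correct -/
def GOk (G : ℕ → V) (ε : ℕ → Bool) (D : ℤ) (o : Bool) (g : ℕ → ℕ → Option Vec) : Prop :=
  ∀ i j w, g i j = some w → D • op o (ε i) (ε j) (G i) (G j) = lc G w ∧
    parAll ε (xor (ε i) (ε j)) w = true

theorem mulR_sound (hV : TF V) {o a b : Bool} {g : ℕ → ℕ → Option Vec} (hg : GOk G ε D o g)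
    {i : ℕ} (hi : ε i = a) (x : ℤ) (v : Vec) {acc r : Vec} (hv : parAll ε b v = true)
    (hacc : parAll ε (xor a b) acc = true)
    (h : mulR g (xor (!o) (a && b)) i x v acc = some r) :
    lc G r = lc G acc + (x * D) • op o a b (G i) (lc G v) ∧ parAll ε (xor a b) r = true := by
  induction v generalizing acc with
  | nil =>
    rw [mulR, Option.some.injEq] at h
    subst h
    refine ⟨?_, hacc⟩
    rw [lc_nil, op_zero_right, smul_zero, add_zero]
  | cons d v ih =>
    obtain ⟨j, y⟩ := d
    obtain ⟨hj, hv'⟩ := parAll_cons.1 hv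
    rw [mulR] at h
    -- the common case
    have key : ∀ w, g i j = some w → mulR g (xor (!o) (a && b)) i x v (merge (x * y) w acc) =
        some r → lc G r = lc G acc + (x * D) • op o a b (G i) (lc G ((j, y) :: v)) ∧
          parAll ε (xor a b) r = true := by
      intro w hw h2
      obtain ⟨h3, h4⟩ := hg i j w hw
      rw [hi, hj] at h3 h4
      obtain ⟨h5, h6⟩ := ih hv' (parAll_merge h4 hacc) h2
      refine ⟨?_, h6⟩
      rw [h5, lc_merge, ← h3, lc_cons, op_add_right, op_smul_right]
      module
    cases h1 : Nat.blt i j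
    · rw [h1, cond_false] at h
      cases h2 : Nat.beq i j
      · rw [h2, cond_false, Option.bind_eq_some_iff] at h
        obtain ⟨w, hw, h⟩ := h
        obtain ⟨h3, h4⟩ := hg j i w hw
        rw [hi, hj] at h3 h4
        rw [Bool.xor_comm] at h4
        obtain ⟨h5, h6⟩ := ih hv' (parAll_merge h4 hacc) h
        refine ⟨?_, h6⟩
        rw [op_comm o a b (G i) (G j)] at h3
        rw [h5, lc_merge, ← h3, lc_cons, op_add_right, op_smul_right]
        cases xor (!o) (a && b)
        · rw [cond_false, sg_false]
          module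
        · rw [cond_true, sg_true]
          module
      · have hij : i = j := Nat.eq_of_beq_eq_true h2
        rw [h2, cond_true] at h
        cases hs : xor (!o) (a && b)
        · rw [hs, cond_false, Option.bind_eq_some_iff] at h
          obtain ⟨w, hw, h⟩ := h
          rw [← hs] at h
          exact key w hw h
        · have hcopy := h
          rw [hs, cond_true, ← hs] at h
          obtain ⟨h5, h6⟩ := ih hv' hacc h
          refine ⟨?_, h6⟩
          have hab : a = b := by rw [← hi, ← hj, hij]
          have h7 : op o a b (G i) (G j) = 0 := by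
            apply hV.1
            have h8 := op_comm o a b (G i) (G j)
            rw [hs, sg_true, ← hij, ← hab] at h8
            rw [← hij, ← hab]
            nth_rewrite 1 [h8]
            exact neg_add_cancel _
          rw [h5, lc_cons, op_add_right, op_smul_right, h7, smul_zero, zero_add]
    · rw [h1, cond_true, Option.bind_eq_some_iff] at h
      obtain ⟨w, hw, h⟩ := h
      exact key w hw h

/-- Soundness of `mulV`.  First the analogous statement for `mulR`.  For `i > j` use `op_comm`;
for `i = j` we have `a = b`, and if the sign is `true` then `[e_i,e_i] = -[e_i,e_i]` is zero. -/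
theorem mulV_sound (hV : TF V) {o a b : Bool} {g : ℕ → ℕ → Option Vec} (hg : GOk G ε D o g)
    {u w acc r : Vec} (hu : parAll ε a u = true) (hw : parAll ε b w = true)
    (hacc : parAll ε (xor a b) acc = true)
    (h : mulV g (xor (!o) (a && b)) u w acc = some r) :
    lc G r = lc G acc + D • op o a b (lc G u) (lc G w) ∧ parAll ε (xor a b) r = true := by
  induction u generalizing acc with
  | nil =>
    rw [mulV, Option.some.injEq] at h
    subst h
    refine ⟨?_, hacc⟩
    rw [lc_nil, op_zero_left, smul_zero, add_zero]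
  | cons d u ih =>
    obtain ⟨i, x⟩ := d
    obtain ⟨hi, hu'⟩ := parAll_cons.1 hu
    rw [mulV, Option.bind_eq_some_iff] at h
    obtain ⟨acc', h1, h2⟩ := h
    obtain ⟨h3, h4⟩ := mulR_sound hV hg hi x w hw hacc h1
    obtain ⟨h5, h6⟩ := ih hu' h4 h2
    refine ⟨?_, h6⟩
    rw [h5, h3, lc_cons, op_add_left, op_smul_left]
    module

/-- validity of the table up to rank `cur` -/
def TOk (G : ℕ → V) (ε : ℕ → Bool) (D : ℤ) (T : Tab) (cur : ℕ) : Prop :=
  ∀ o, GOk G ε D o (T.get D cur o)

/-- value of a tree -/
theorem vec_sound (hV : TF V) {T : Tab} {cur : ℕ} (hT : TOk G ε D T cur) (a : ℕ → ℕ) (t : Tree)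
    {u : Vec} (h : t.vec T D cur ε a = some u) :
    lc G u = D ^ t.size • t.ev (fun n => ε (a n)) (fun n => G (a n)) ∧
      parAll ε (par (fun n => ε (a n)) t.leaves) u = true := by
  induction t generalizing u with
  | leaf m =>
    rw [Tree.vec, Option.some.injEq] at h
    subst h
    refine ⟨?_, ?_⟩
    · rw [lc_cons, lc_nil, Tree.size, Tree.ev, pow_zero, add_zero]
    · rw [parAll_cons]
      refine ⟨?_, parAll_nil⟩
      simp [Tree.leaves, par]
  | bin o l r ihl ihr =>
    rw [Tree.vec, Option.bind_eq_some_iff] at h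
    obtain ⟨ul, h1, h⟩ := h
    rw [Option.bind_eq_some_iff] at h
    obtain ⟨ur, h2, h⟩ := h
    obtain ⟨h3, h4⟩ := ihl h1
    obtain ⟨h5, h6⟩ := ihr h2
    obtain ⟨h7, h8⟩ := mulV_sound hV (hT o) h4 h6 parAll_nil h
    refine ⟨?_, ?_⟩
    · rw [h7, lc_nil, zero_add, h3, h5, op_smul_left, op_smul_right, Tree.size, Tree.ev,
        smul_smul, smul_smul]
      congr 1
      ring
    · rw [Tree.leaves, par_append]
      exact h8
  | ass l m r _ _ _ =>
    rw [Tree.vec] at h
    exact absurd h (by simp)

/-- value of a polynomial -/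
theorem polyV_sound (hV : TF V) {T : Tab} {cur : ℕ} (hT : TOk G ε D T cur) (a : ℕ → ℕ)
    (k : Bool) (s : ℕ) (y : ℤ) (f : List (ℤ × Tree)) {acc r : Vec}
    (h : polyV T D cur ε a k s y f acc = some r) :
    lc G r = lc G acc + (y * D ^ s) • (f.map fun c => c.1 •
      sg (k && ks (fun n => ε (a n)) c.2.leaves)
        (c.2.ev (fun n => ε (a n)) (fun n => G (a n)))).sum := by
  induction f generalizing acc with
  | nil =>
    rw [polyV, Option.some.injEq] at h
    subst h
    rw [List.map_nil, List.sum_nil, smul_zero, add_zero]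
  | cons d f ih =>
    obtain ⟨c, t⟩ := d
    rw [polyV] at h
    cases hs : Nat.beq t.size s
    · rw [hs, cond_false] at h
      exact absurd h (by simp)
    · rw [hs, cond_true, Option.bind_eq_some_iff] at h
      obtain ⟨u, h1, h2⟩ := h
      have hsz : t.size = s := Nat.eq_of_beq_eq_true hs
      obtain ⟨h3, -⟩ := vec_sound hV hT a t h1
      rw [hsz] at h3
      rw [ih h2, lc_merge, h3, List.map_cons, List.sum_cons]
      dsimp only
      cases (k && ks (fun n => ε (a n)) t.leaves)
      · rw [cond_false, sg_false]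
        module
      · rw [cond_true, sg_true]
        module

end ring

end H85.FA
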