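import Pool.Agent.H85.FA.AltIds2

/-!
# MP_273d7a_al, module E : super-evaluation of nonassociative polynomials, doubling

`GrAlg V` : a nonassociative ring with a (grading) automorphism `bar`.  `Hom ε v` : `v` is
homogeneous of parity `ε` (`bar v = ± v`).  `Tree` : monomials in the operations commutator
(`bin false`), Jordan product (`bin true`) and associator.  `ev ε P t` : value of the tree `t`
at the elements `P 0, P 1, …` of parities `ε 0, ε 1, …`, with super-commutators etc.
`evP ε P f` : value of the polynomial `f = Σ c_i t_i` with the Koszul signs `ks ε (leaves t)` (the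
sign of the rearrangement of the odd letters).

`Dbl V = V ⊕ V e` with an odd `e`, `e² = 0`:  `(p,p')(q,q') = (pq, p q' + p' bar q)`,
`bar (p,p') = (bar p, - bar p')`.
-/

set_option linter.unusedSectionVars false

namespace H85.FA

universe v

/-- monomials in three operations -/
inductive Tree where
  | leaf (n : ℕ) : Tree
  /-- `o = false` : commutator, `o = true` : Jordan product -/
  | bin (o : Bool) (l r : Tree) : Tree
  | ass (l m r : Tree) : Tree

/-- sign: `sg true v = -v`, `sg false v = v` -/
def sg {V : Type*} [Neg V] (b : Bool) (v : V) : V := bif b then -v else v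

section sg
variable {V : Type*} [AddCommGroup V]

@[simp] theorem sg_false (v : V) : sg false v = v := rfl
@[simp] theorem sg_true (v : V) : sg true v = -v := rfl

theorem sg_sg (a b : Bool) (v : V) : sg a (sg b v) = sg (xor a b) v := by
  cases a <;> cases b <;> simp [sg]

theorem sg_add (a : Bool) (v w : V) : sg a (v + w) = sg a v + sg a w := by
  cases a <;> simp [sg]; abel

@[simp] theorem sg_zero (a : Bool) : sg a (0 : V) = 0 := by
  cases a <;> simp [sg]

theorem sg_smul (a : Bool) (c : ℤ) (v : V) : sg a (c • v) = c • sg a v := by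
  cases a <;> simp [sg]

end sg

/-- a ring with a grading automorphism -/
class GrAlg (V : Type v) extends NonUnitalNonAssocRing V where
  bar : V →+ V
  bar_mul : ∀ x y : V, bar (x * y) = bar x * bar y

export GrAlg (bar bar_mul)

/-- `v` is homogeneous of parity `ε` -/
def Hom {V : Type v} [GrAlg V] (ε : Bool) (x : V) : Prop := (bar x : V) = sg ε x

/-- super-commutator (`o = false`) and super-Jordan product (`o = true`) of elements of
parities `ε`, `δ` -/
def op {V : Type v} [NonUnitalNonAssocRing V] (o ε δ : Bool) (p q : V) : V :=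
  p * q + sg (xor (!o) (ε && δ)) (q * p)

/-- parity of a word -/
def par (ε : ℕ → Bool) : List ℕ → Bool
  | [] => false
  | a :: l => xor (ε a) (par ε l)

/-- Koszul sign of a word: number of pairs of odd letters in the wrong order -/
def ks (ε : ℕ → Bool) : List ℕ → Bool
  | [] => false
  | a :: l => xor (ε a && par ε (l.filter fun b => b < a)) (ks ε l)

/-- the leaves, from left to right -/
def Tree.leaves : Tree → List ℕ
  | .leaf n => [n]
  | .bin _ l r => l.leaves ++ r.leaves
  | .ass l m r => l.leaves ++ (m.leaves ++ r.leaves)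

/-- value of a tree -/
def Tree.ev {V : Type v} [NonUnitalNonAssocRing V] (ε : ℕ → Bool) (P : ℕ → V) : Tree → V
  | .leaf n => P n
  | .bin o l r => op o (par ε l.leaves) (par ε r.leaves) (l.ev ε P) (r.ev ε P)
  | .ass l m r => associator (l.ev ε P) (m.ev ε P) (r.ev ε P)

/-- value of a polynomial, with Koszul signs -/
def evP {V : Type v} [NonUnitalNonAssocRing V] (ε : ℕ → Bool) (P : ℕ → V)
    (f : List (ℤ × Tree)) : V :=
  (f.map fun c => c.1 • sg (ks ε c.2.leaves) (c.2.ev ε P)).sum

/-- value of a signed sum of trees, without Koszul signs -/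
def evL {V : Type v} [NonUnitalNonAssocRing V] (ε : ℕ → Bool) (P : ℕ → V)
    (L : List (Bool × Tree)) : V :=
  (L.map fun c => sg c.1 (c.2.ev ε P)).sum

/-- `f` is a super-identity of `V` -/
def SuperId (V : Type v) [GrAlg V] (f : List (ℤ × Tree)) : Prop :=
  ∀ (ε : ℕ → Bool) (P : ℕ → V), (∀ i, Hom (ε i) (P i)) → evP ε P f = 0

/-- `f` is multilinear in the letters `0, …, n-1` -/
def MLin (n : ℕ) (f : List (ℤ × Tree)) : Prop := ∀ c ∈ f, c.2.leaves.Perm (List.range n)

/-! ### basic facts -/

theorem par_append (ε : ℕ → Bool) (l m : List ℕ) : par ε (l ++ m) = xor (par ε l) (par ε m) := by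
  induction l with
  | nil => simp [par]
  | cons a l ih => simp only [List.cons_append, par, ih, Bool.xor_assoc]

theorem par_perm (ε : ℕ → Bool) {l m : List ℕ} (h : l.Perm m) : par ε l = par ε m := by
  induction h with
  | nil => rfl
  | cons x _ ih => simp only [par, ih]
  | swap x y l => simp only [par]; rw [← Bool.xor_assoc, ← Bool.xor_assoc, Bool.xor_comm (ε y)]
  | trans _ _ ih1 ih2 => exact ih1.trans ih2

/-- `par` only depends on the parities of the letters of the word -/
theorem par_congr {ε ε' : ℕ → Bool} {l : List ℕ} (h : ∀ i ∈ l, ε i = ε' i) :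
    par ε l = par ε' l := by
  induction l with
  | nil => rfl
  | cons a l ih =>
    simp only [par]
    rw [h a (List.mem_cons_self ..), ih fun i hi => h i (List.mem_cons_of_mem _ hi)]

theorem ks_congr {ε ε' : ℕ → Bool} {l : List ℕ} (h : ∀ i ∈ l, ε i = ε' i) :
    ks ε l = ks ε' l := by
  induction l with
  | nil => rfl
  | cons a l ih =>
    simp only [ks]
    rw [h a (List.mem_cons_self ..), ih fun i hi => h i (List.mem_cons_of_mem _ hi),
      par_congr (l := l.filter fun b => b < a) (ε := ε) (ε' := ε')
        fun i hi => h i (List.mem_cons_of_mem _ (List.mem_of_mem_filter hi))]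

theorem Tree.ev_congr {V : Type v} [NonUnitalNonAssocRing V] {ε ε' : ℕ → Bool} {P P' : ℕ → V}
    {t : Tree} (h : ∀ i ∈ t.leaves, ε i = ε' i) (h' : ∀ i ∈ t.leaves, P i = P' i) :
    t.ev ε P = t.ev ε' P' := by
  induction t with
  | leaf n => exact h' n (by simp [Tree.leaves])
  | bin o l r ihl ihr =>
    simp only [Tree.leaves, List.mem_append] at h h'
    simp only [Tree.ev]
    rw [ihl (fun i hi => h i (Or.inl hi)) (fun i hi => h' i (Or.inl hi)),
      ihr (fun i hi => h i (Or.inr hi)) (fun i hi => h' i (Or.inr hi)),
      par_congr (l := l.leaves) fun i hi => h i (Or.inl hi),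
      par_congr (l := r.leaves) fun i hi => h i (Or.inr hi)]
  | ass l m r ihl ihm ihr =>
    simp only [Tree.leaves, List.mem_append] at h h'
    simp only [Tree.ev]
    rw [ihl (fun i hi => h i (Or.inl hi)) (fun i hi => h' i (Or.inl hi)),
      ihm (fun i hi => h i (Or.inr (Or.inl hi))) (fun i hi => h' i (Or.inr (Or.inl hi))),
      ihr (fun i hi => h i (Or.inr (Or.inr hi))) (fun i hi => h' i (Or.inr (Or.inr hi)))]

/-- a tree with a leaf of value zero has value zero -/
theorem Tree.ev_zero {V : Type v} [NonUnitalNonAssocRing V] {ε : ℕ → Bool} {P : ℕ → V}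
    {t : Tree} {i : ℕ} (hi : i ∈ t.leaves) (h : P i = 0) : t.ev ε P = 0 := by
  induction t with
  | leaf n =>
    simp only [Tree.leaves, List.mem_singleton] at hi
    subst hi
    exact h
  | bin o l r ihl ihr =>
    simp only [Tree.leaves, List.mem_append] at hi
    simp only [Tree.ev]
    rcases hi with hi | hi
    · rw [ihl hi]; simp [op]
    · rw [ihr hi]; simp [op]
  | ass l m r ihl ihm ihr =>
    simp only [Tree.leaves, List.mem_append] at hi
    simp only [Tree.ev]
    rcases hi with hi | hi | hi
    · rw [ihl hi]; simp [associator]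
    · rw [ihm hi]; simp [associator]
    · rw [ihr hi]; simp [associator]

theorem Hom.mul {V : Type v} [GrAlg V] {a b : Bool} {x y : V} (hx : Hom a x) (hy : Hom b y) :
    Hom (xor a b) (x * y) := by
  unfold Hom at *
  rw [bar_mul, hx, hy]
  cases a <;> cases b <;> simp [sg]

theorem Hom.add {V : Type v} [GrAlg V] {a : Bool} {x y : V} (hx : Hom a x) (hy : Hom a y) :
    Hom a (x + y) := by
  unfold Hom at *
  rw [map_add, hx, hy, sg_add]

theorem Hom.sg {V : Type v} [GrAlg V] {a : Bool} (b : Bool) {x : V} (hx : Hom a x) :
    Hom a (sg b x) := by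
  unfold Hom at *
  cases b
  · simpa using hx
  · simp only [sg_true, map_neg, hx]
    cases a <;> simp

theorem Hom.op {V : Type v} [GrAlg V] {a b : Bool} {x y : V} (o : Bool) (hx : Hom a x)
    (hy : Hom b y) : Hom (xor a b) (op o a b x y) := by
  unfold H85.FA.op
  refine Hom.add (hx.mul hy) (Hom.sg _ ?_)
  rw [Bool.xor_comm]
  exact hy.mul hx

theorem Hom.sub {V : Type v} [GrAlg V] {a : Bool} {x y : V} (hx : Hom a x) (hy : Hom a y) :
    Hom a (x - y) := by
  have h := hx.add (hy.sg true)
  rwa [sg_true, ← sub_eq_add_neg] at h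

/-- values of trees are homogeneous -/
theorem Tree.hom_ev {V : Type v} [GrAlg V] {ε : ℕ → Bool} {P : ℕ → V}
    (h : ∀ i, Hom (ε i) (P i)) (t : Tree) : Hom (par ε t.leaves) (t.ev ε P) := by
  induction t with
  | leaf n =>
    simp only [Tree.leaves, par, Bool.xor_false, Tree.ev]
    exact h n
  | bin o l r ihl ihr =>
    simp only [Tree.leaves, Tree.ev, par_append]
    exact Hom.op o ihl ihr
  | ass l m r ihl ihm ihr =>
    simp only [Tree.leaves, Tree.ev, par_append, associator]
    refine Hom.sub ?_ (ihl.mul (ihm.mul ihr))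
    rw [← Bool.xor_assoc]
    exact (ihl.mul ihm).mul ihr

/-- symmetry of the operations -/
theorem op_comm {V : Type v} [NonUnitalNonAssocRing V] (o a b : Bool) (x y : V) :
    op o b a y x = sg (xor (!o) (a && b)) (op o a b x y) := by
  unfold op
  cases o <;> cases a <;> cases b <;> simp [sg] <;> abel

/-! ### the trivially graded ring -/

/-- `R` with the trivial grading -/
def Triv (R : Type v) : Type v := R

instance Triv.instGrAlg (R : Type v) [NonUnitalNonAssocRing R] : GrAlg (Triv R) :=
  { (inferInstanceAs (NonUnitalNonAssocRing R) : NonUnitalNonAssocRing (Triv R)) with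
    bar := AddMonoidHom.id R
    bar_mul := fun _ _ => rfl }

/-- Multilinear identities of `R` are super-identities of `Triv R`: an odd element `x` of
`Triv R` satisfies `x = -x`, so it is `0`, and then every tree vanishes (`Tree.ev_zero`); if all
`ε i` (`i < n`) are `false` this is the identity of `R` (`ks_congr`, `Tree.ev_congr`). -/
theorem superId_triv {R : Type v} [NonUnitalNonAssocRing R] (hR : TF R) {n : ℕ}
    {f : List (ℤ × Tree)} (hf : MLin n f)
    (h : ∀ P : ℕ → R, (f.map fun c => c.1 • c.2.ev (fun _ => false) P).sum = 0) :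
    SuperId (Triv R) f := by
  intro ε P hP
  have hmem : ∀ c ∈ f, ∀ i, i ∈ c.2.leaves ↔ i < n := by
    intro c hc i
    rw [(hf c hc).mem_iff, List.mem_range]
  by_cases hodd : ∃ i, i < n ∧ ε i = true
  · obtain ⟨i, hi, hε⟩ := hodd
    have h1 : P i = - P i := by
      have h2 := hP i
      rw [hε] at h2
      exact h2
    have h3 : P i = 0 := by
      apply hR.1 (P i : R)
      change P i + P i = 0
      nth_rewrite 1 [h1]
      exact neg_add_cancel _
    unfold evP
    apply List.sum_eq_zero
    intro x hx
    rw [List.mem_map] at hx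
    obtain ⟨c, hc, rfl⟩ := hx
    rw [Tree.ev_zero ((hmem c hc i).2 hi) h3, sg_zero, smul_zero]
  · have hev : ∀ i, i < n → ε i = false := by
      intro i hi
      by_contra hne
      exact hodd ⟨i, hi, by simpa using hne⟩
    refine Eq.trans ?_ (h P)
    unfold evP
    congr 1
    refine List.map_congr_left fun c hc => ?_
    have h1 : ks ε c.2.leaves = false := by
      rw [ks_congr (ε' := fun _ => false) fun i hi => hev i ((hmem c hc i).1 hi)]
      clear hc
      induction c.2.leaves with
      | nil => rfl
      | cons a l ih => simp only [ks, ih, Bool.false_and, Bool.xor_false]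
    rw [h1, sg_false]
    rw [Tree.ev_congr (ε' := fun _ => false) (P' := P)
      (fun i hi => hev i ((hmem c hc i).1 hi)) (fun _ _ => rfl)]
    rfl

end H85.FA
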